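import Pool.Agent.Lib.MP_adc574_ag_PC.LD

/-!
# L3: clearing denominators; the symplectic form of a basis

PROOF of `span_clear`: every element `y` of the span has `q ≠ 0` and `x ∈ W` with `algebraMap q • y = ra x` (span induction: sums with the product of the
denominators, scalars `algebraMap a / algebraMap b`); for `y = ra z`: `ra (q • z) = ra x`, so `q • z = x ∈ W` (injectivity).
PROOF of `exists_B0`: `B x y = - ∑ a, ∑ b, e.repr x a * JJ g K a b * e.repr y b` (`LinearMap.mk₂` or `Matrix.toLin₂'` / `LinearMap.toMatrix₂` with the basis `e`).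
`halt`: `JJᵀ = - JJ`. `hnd`: `JJ * JJ = -1`; test with the `e b`. `flat`: let `x = ∑ x_a • e a`; `nab x = ∑ (D x_a • e a + x_a • nab (e a))` (`leib`),
`nab (e a) = Δ⁻¹ • ∑ G b a • e b`. So `D (B x y) - B (nab x) y - B x (nab y) = - Δ⁻¹ * (-(G x)ᵀ JJ y - xᵀ JJ (G y))`, which is 0 since
`Gᵀ * JJ + JJ * G = 0`: multiply `symp` from both sides by `JJ` (`JJ * JJ = -1`).
-/

set_option autoImplicit false

namespace MPadcPC

open Polynomial Matrix MPadcOA MPadcHM

universe u

private theorem L3_clear {κ : Type*} [Field κ] {ι : Type*} (W : Submodule κ[X] (ι → κ[X]))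
    {y : ι → RatFunc κ} (hy : y ∈ Submodule.span (RatFunc κ) {y | ∃ x ∈ W, y = ra x}) :
    ∃ q : κ[X], q ≠ 0 ∧ ∃ x ∈ W, algebraMap κ[X] (RatFunc κ) q • y = ra x := by
  induction hy using Submodule.span_induction with
  | mem y hy =>
    obtain ⟨x, hx, rfl⟩ := hy
    exact ⟨1, one_ne_zero, x, hx, by rw [map_one, one_smul]⟩
  | zero =>
    refine ⟨1, one_ne_zero, 0, W.zero_mem, ?_⟩
    funext i
    rw [smul_zero, Pi.zero_apply, ra, Pi.zero_apply, map_zero]
  | add y z _ _ hy hz =>
    obtain ⟨p, hp, x, hx, h1⟩ := hy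
    obtain ⟨q, hq, w, hw, h2⟩ := hz
    refine ⟨q * p, mul_ne_zero hq hp, q • x + p • w, W.add_mem (W.smul_mem q hx) (W.smul_mem p hw), ?_⟩
    funext i
    have h3 := congrFun h1 i
    have h4 := congrFun h2 i
    simp only [Pi.smul_apply, smul_eq_mul, ra, Pi.add_apply, map_mul, map_add] at h3 h4 ⊢
    rw [← h3, ← h4]
    ring
  | smul c y _ hy =>
    obtain ⟨q, hq, x, hx, h1⟩ := hy
    refine ⟨c.denom * q, mul_ne_zero (RatFunc.denom_ne_zero c) hq, c.num • x, W.smul_mem c.num hx, ?_⟩
    funext i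
    have h3 := congrFun h1 i
    have h4 : algebraMap κ[X] (RatFunc κ) c.denom * c = algebraMap κ[X] (RatFunc κ) c.num := by
      have h5 : algebraMap κ[X] (RatFunc κ) c.denom ≠ 0 := fun h6 =>
        RatFunc.denom_ne_zero c (RatFunc.algebraMap_injective κ (h6.trans (map_zero _).symm))
      have h6 := RatFunc.num_div_denom c
      rw [div_eq_iff h5] at h6
      rw [h6, mul_comm]
    simp only [Pi.smul_apply, smul_eq_mul, ra, map_mul] at h3 ⊢
    rw [← h3, ← h4]
    ring

private theorem L3_symp {R : Type*} [CommRing R] {g : ℕ} (G : Matrix (Nx g) (Nx g) R)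
    (symp : G * JJ g R + JJ g R * Gᵀ = 0) : Gᵀ * JJ g R + JJ g R * G = 0 := by
  have h1 : JJ g R * (G * JJ g R + JJ g R * Gᵀ) * JJ g R = 0 := by
    rw [symp, Matrix.mul_zero, Matrix.zero_mul]
  rw [Matrix.mul_add, Matrix.add_mul, ← Matrix.mul_assoc (JJ g R) (JJ g R), JJ_mul_JJ,
    ← Matrix.mul_assoc (JJ g R) G, Matrix.mul_assoc (JJ g R * G), JJ_mul_JJ, Matrix.mul_neg, Matrix.mul_one,
    Matrix.neg_mul, Matrix.one_mul, Matrix.neg_mul, ← neg_add, neg_eq_zero] at h1
  rw [add_comm]
  exact h1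

private theorem L3_const {κ : Type u} [Field κ] {g : ℕ} (a b : Nx g) :
    DK κ (- JJ g (RatFunc κ) a b) = 0 := by
  rcases a with a | a <;> rcases b with b | b
  · rw [JJ, Matrix.fromBlocks_apply₁₁, Matrix.zero_apply, neg_zero, map_zero]
  · rw [JJ, Matrix.fromBlocks_apply₁₂, map_neg, Matrix.one_apply]
    split_ifs
    · rw [Derivation.map_one_eq_zero, neg_zero]
    · rw [map_zero, neg_zero]
  · rw [JJ, Matrix.fromBlocks_apply₂₁, Matrix.neg_apply, neg_neg, Matrix.one_apply]
    split_ifs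
    · rw [Derivation.map_one_eq_zero]
    · rw [map_zero]
  · rw [JJ, Matrix.fromBlocks_apply₂₂, Matrix.zero_apply, neg_zero, map_zero]

theorem span_clear {κ : Type*} [Field κ] {ι : Type*} (W : Submodule κ[X] (ι → κ[X])) (z : ι → κ[X])
    (hz : ra z ∈ Submodule.span (RatFunc κ) {y | ∃ x ∈ W, y = ra x}) : ∃ q : κ[X], q ≠ 0 ∧ q • z ∈ W := by
  obtain ⟨q, hq, x, hx, h⟩ := L3_clear W hz
  refine ⟨q, hq, ?_⟩
  have h1 : q • z = x := by
    funext i
    refine RatFunc.algebraMap_injective κ ?_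
    have h2 := congrFun h i
    simp only [Pi.smul_apply, ra, smul_eq_mul] at h2
    rw [Pi.smul_apply, smul_eq_mul, map_mul]
    exact h2
  rw [h1]
  exact hx

theorem exists_B0 {κ : Type u} [Field κ] {M : Type*} [AddCommGroup M] [Module (RatFunc κ) M] {g : ℕ} (nab : M →+ M)
    (leib : ∀ (c : RatFunc κ) (x : M), nab (c • x) = DK κ c • x + c • nab x) (e : Module.Basis (Nx g) (RatFunc κ) M)
    (Δ : RatFunc κ) (hΔ : Δ ≠ 0) (G : Matrix (Nx g) (Nx g) (RatFunc κ))
    (symp : G * JJ g (RatFunc κ) + JJ g (RatFunc κ) * Gᵀ = 0) (he : ∀ l, Δ • nab (e l) = ∑ l', G l' l • e l') :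
    ∃ B : M →ₗ[RatFunc κ] M →ₗ[RatFunc κ] RatFunc κ, (∀ a b, B (e a) (e b) = - JJ g (RatFunc κ) a b) ∧
      (∀ x y, DK κ (B x y) = B (nab x) y + B x (nab y)) ∧ (∀ x y, B y x = - B x y) ∧
      ∀ x, (∀ y, B x y = 0) → x = 0 := by
  classical
  have hGJ := L3_symp G symp
  let B : M →ₗ[RatFunc κ] M →ₗ[RatFunc κ] RatFunc κ := Matrix.toLinearMap₂ e e (-JJ g (RatFunc κ))
  have hB : ∀ a b, B (e a) (e b) = - JJ g (RatFunc κ) a b := fun a b => by
    rw [Matrix.toLinearMap₂_apply_basis, Matrix.neg_apply]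
  have hnab : ∀ l, nab (e l) = Δ⁻¹ • ∑ l', G l' l • e l' := fun l => by
    rw [← he, smul_smul, inv_mul_cancel₀ hΔ, one_smul]
  have h1 : ∀ a b, B (nab (e a)) (e b) = - (Δ⁻¹ * (Gᵀ * JJ g (RatFunc κ)) a b) := fun a b => by
    rw [hnab, map_smul, LinearMap.smul_apply, map_sum, LinearMap.sum_apply, smul_eq_mul,
      Matrix.mul_apply, ← mul_neg, ← Finset.sum_neg_distrib]
    refine congrArg _ (Finset.sum_congr rfl fun l _ => ?_)
    rw [map_smul, LinearMap.smul_apply, hB, smul_eq_mul, Matrix.transpose_apply, mul_neg]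
  have h2 : ∀ a b, B (e a) (nab (e b)) = - (Δ⁻¹ * (JJ g (RatFunc κ) * G) a b) := fun a b => by
    rw [hnab, map_smul, map_sum, smul_eq_mul, Matrix.mul_apply, ← mul_neg, ← Finset.sum_neg_distrib]
    refine congrArg _ (Finset.sum_congr rfl fun l _ => ?_)
    rw [map_smul, hB, smul_eq_mul]
    ring
  have h3 : ∀ a b, DK κ (B (e a) (e b)) = B (nab (e a)) (e b) + B (e a) (nab (e b)) := by
    intro a b
    rw [h1, h2, hB, ← neg_add, ← mul_add, ← Matrix.add_apply, hGJ, Matrix.zero_apply, mul_zero, neg_zero]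
    exact L3_const a b
  have hspan : ∀ x : M, x ∈ Submodule.span (RatFunc κ) (Set.range e) := fun x => by
    rw [e.span_eq]
    exact Submodule.mem_top
  have h4 : ∀ a y, DK κ (B (e a) y) = B (nab (e a)) y + B (e a) (nab y) := by
    intro a y
    induction hspan y using Submodule.span_induction with
    | mem y hy =>
      obtain ⟨b, rfl⟩ := hy
      exact h3 a b
    | zero => rw [map_zero, map_zero, map_zero, map_zero, map_zero, add_zero]
    | add y z _ _ hy hz =>
      rw [map_add, map_add, map_add, map_add, map_add, hy, hz]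
      abel
    | smul c y _ hy =>
      rw [map_smul, smul_eq_mul, Derivation.leibniz, hy, leib, map_add, map_smul, map_smul, map_smul]
      simp only [smul_eq_mul]
      ring
  have h5 : ∀ x y, DK κ (B x y) = B (nab x) y + B x (nab y) := by
    intro x y
    induction hspan x using Submodule.span_induction with
    | mem x hx =>
      obtain ⟨a, rfl⟩ := hx
      exact h4 a y
    | zero =>
      simp only [map_zero, LinearMap.zero_apply, add_zero]
    | add x z _ _ hx hz =>
      rw [map_add, map_add, map_add, LinearMap.add_apply, LinearMap.add_apply, LinearMap.add_apply, map_add,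
        hx, hz]
      abel
    | smul c x _ hx =>
      rw [map_smul, LinearMap.smul_apply, smul_eq_mul, Derivation.leibniz, hx, leib, map_add, map_smul,
        map_smul, LinearMap.add_apply, LinearMap.smul_apply, LinearMap.smul_apply, LinearMap.smul_apply]
      simp only [smul_eq_mul]
      ring
  have hJt : ∀ a b, JJ g (RatFunc κ) b a = - JJ g (RatFunc κ) a b := fun a b => by
    have h := congrFun (congrFun (JJ_transpose g (RatFunc κ)) a) b
    rwa [Matrix.transpose_apply, Matrix.neg_apply] at h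
  refine ⟨B, hB, h5, ?_, ?_⟩
  · have h6 : B.flip = - B := by
      refine LinearMap.ext_basis e e fun a b => ?_
      rw [LinearMap.flip_apply, LinearMap.neg_apply, LinearMap.neg_apply, hB, hB, hJt]
    intro x y
    have h7 := congrArg (fun F : M →ₗ[RatFunc κ] M →ₗ[RatFunc κ] RatFunc κ => F x y) h6
    simp only [LinearMap.flip_apply, LinearMap.neg_apply] at h7
    exact h7
  · intro x hx
    have h8 : (fun a => e.repr x a) ᵥ* JJ g (RatFunc κ) = 0 := by
      funext b
      have h9 : B x (e b) = - ∑ a, e.repr x a * JJ g (RatFunc κ) a b := by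
        conv_lhs => rw [← e.sum_repr x]
        rw [map_sum, LinearMap.sum_apply, ← Finset.sum_neg_distrib]
        refine Finset.sum_congr rfl fun a _ => ?_
        rw [map_smul, LinearMap.smul_apply, hB, smul_eq_mul, mul_neg]
      rw [hx, eq_comm, neg_eq_zero] at h9
      exact h9
    have h10 : (fun a => e.repr x a) = 0 := by
      have h11 := congrArg (fun v => v ᵥ* JJ g (RatFunc κ)) h8
      simp only [Matrix.vecMul_vecMul, JJ_mul_JJ, Matrix.zero_vecMul, Matrix.vecMul_neg, Matrix.vecMul_one] at h11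
      exact neg_eq_zero.1 h11
    rw [← e.sum_repr x]
    exact Finset.sum_eq_zero fun a _ => by rw [congrFun h10 a, Pi.zero_apply, zero_smul]

end MPadcPC
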