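import Pool.Agent.Lib.MP_adc574_ag_PC.M3

/-!
# LEAF M4 (copy of BN/StbA.lean, the alternation is not needed): families of multilinear forms, the stabiliser

`M` a vector space with basis `b` (`Fin h`). All proofs are those of BN/StbA.lean (`stba_dact`, `arr_inj`, `stba_update`, `arr_cov`, `arr_dact`, `stba_dd`, `stba_off`, `stba_comm`, `stab_lie`, `stab_nab`) for the multilinear maps `ω s` (all `s : S`)
in place of the alternating maps (`Module.Basis.ext_multilinear` in place of `ext_alternating`, `MultilinearMap.map_update_sum`, `map_update_smul`, `map_update_sub`; the arrays: `actS_mulVec`). `exists_com` of BN/StbA is already general.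
-/

set_option autoImplicit false

namespace MPadcPC

open MPadcBN

universe u v

variable {K : Type u} [Field K] {M : Type v} [AddCommGroup M] [Module K M] {h r : ℕ}
  {S : Type}

private theorem M4_update (b : Module.Basis (Fin h) K M) (ω : MultilinearMap K (fun _ : Fin r => M) K)
    (I : Fin r → Fin h) (u : Fin r) (x : M) :
    ω (Function.update (fun w => b (I w)) u x) =
      ∑ m, b.repr x m * ω fun w => b (Function.update I u m w) := by
  have h1 : ω (Function.update (fun w => b (I w)) u x) =
      ω (Function.update (fun w => b (I w)) u (∑ m, b.repr x m • b m)) := by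
    rw [b.sum_repr]
  rw [h1, MultilinearMap.map_update_sum]
  refine Finset.sum_congr rfl fun m _ => ?_
  rw [MultilinearMap.map_update_smul, smul_eq_mul]
  congr 1
  refine congrArg (fun z => ω z) ?_
  funext w
  by_cases h : w = u
  · subst h
    rw [Function.update_self, Function.update_self]
  · rw [Function.update_of_ne h, Function.update_of_ne h]

private theorem M4_dd (ω : MultilinearMap K (fun _ : Fin r => M) K) (P Q : M → M) (v : Fin r → M) :
    ∑ w, ∑ u, ω (Function.update (Function.update v w (P (v w))) u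
        (Q (Function.update v w (P (v w)) u))) =
      ∑ w, ω (Function.update v w (Q (P (v w)))) +
        ∑ w, ∑ u ∈ Finset.univ.erase w,
          ω (Function.update (Function.update v w (P (v w))) u (Q (v u))) := by
  rw [← Finset.sum_add_distrib]
  refine Finset.sum_congr rfl fun w _ => ?_
  rw [← Finset.add_sum_erase Finset.univ _ (Finset.mem_univ w), Function.update_self,
    Function.update_idem]
  congr 1
  refine Finset.sum_congr rfl fun u hu => ?_
  rw [Function.update_of_ne (Finset.ne_of_mem_erase hu)]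

private theorem M4_off (ω : MultilinearMap K (fun _ : Fin r => M) K) (P Q : M → M) (v : Fin r → M) :
    ∑ w, ∑ u ∈ Finset.univ.erase w,
        ω (Function.update (Function.update v w (P (v w))) u (Q (v u))) =
      ∑ w, ∑ u ∈ Finset.univ.erase w,
        ω (Function.update (Function.update v w (Q (v w))) u (P (v u))) := by
  rw [Finset.sum_comm' (t' := Finset.univ) (s' := fun u => Finset.univ.erase u) (by
    intro x y
    simp only [Finset.mem_univ, Finset.mem_erase, true_and, and_true]
    exact ne_comm)]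
  refine Finset.sum_congr rfl fun w _ => Finset.sum_congr rfl fun u hu => ?_
  rw [Function.update_comm (Finset.ne_of_mem_erase hu)]

private theorem M4_comm (ω : MultilinearMap K (fun _ : Fin r => M) K) (P Q : M → M) (v : Fin r → M) :
    ∑ w, ∑ u, ω (Function.update (Function.update v w (P (v w))) u
        (Q (Function.update v w (P (v w)) u))) -
      ∑ w, ∑ u, ω (Function.update (Function.update v w (Q (v w))) u
        (P (Function.update v w (Q (v w)) u))) =
      ∑ w, ω (Function.update v w (Q (P (v w)) - P (Q (v w)))) := by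
  rw [M4_dd, M4_dd, M4_off ω P Q v, add_sub_add_right_eq_sub, ← Finset.sum_sub_distrib]
  refine Finset.sum_congr rfl fun w _ => ?_
  rw [MultilinearMap.map_update_sub]

theorem existsT_dact (X : Module.End K M) (ω : TF K M S r) :
    ∃ ω' : TF K M S r,
      ∀ (s : S) (v : Fin r → M), ω' s v = ∑ u, ω s (Function.update v u (X (v u))) := by
  classical
  refine ⟨fun s => ∑ u, (ω s).compLinearMap fun w => if w = u then X else LinearMap.id, fun s v => ?_⟩
  rw [_root_.sum_apply]
  refine Finset.sum_congr rfl fun u _ => ?_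
  rw [MultilinearMap.compLinearMap_apply]
  refine congrArg (fun z => ω s z) ?_
  funext w
  by_cases h : w = u
  · subst h
    simp
  · simp [h]

theorem arrS_inj (b : Module.Basis (Fin h) K M) : Function.Injective (arrS (r := r) (S := S) b) := by
  intro ω ω' h
  funext s
  refine Module.Basis.ext_multilinear (fun _ => b) fun v => ?_
  exact congrFun h (s, v)

theorem arrS_cov [Fintype S] [DecidableEq S] (b : Module.Basis (Fin h) K M) (D : K → K) (nab : M →+ M)
    (ω ω' : TF K M S r)
    (hω : ∀ (s : S) (v : Fin r → M), ω' s v = D (ω s v) - ∑ u, ω s (Function.update v u (nab (v u))))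
    (p : S × (Fin r → Fin h)) :
    arrS b ω' p = D (arrS b ω p) -
      (actS S r (Matrix.of fun i k => b.repr (nab (b k)) i)).mulVec (arrS b ω) p := by
  obtain ⟨s, I⟩ := p
  rw [actS_mulVec, actM_mulVec]
  have h1 : arrS b ω' (s, I) = ω' s fun u => b (I u) := rfl
  have h2 : arrS b ω (s, I) = ω s fun u => b (I u) := rfl
  rw [h1, hω, h2]
  congr 1
  refine Finset.sum_congr rfl fun u _ => ?_
  exact M4_update b (ω s) I u _

theorem arrS_dact [Fintype S] [DecidableEq S] (b : Module.Basis (Fin h) K M) (X : Module.End K M)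
    (ω ω' : TF K M S r) :
    (∀ (s : S) (v : Fin r → M), ω' s v = ∑ u, ω s (Function.update v u (X (v u)))) ↔
      arrS b ω' = (actS S r (Matrix.of fun i k => mt b X (i, k))).mulVec (arrS b ω) := by
  have key : ∀ ω'' : TF K M S r,
      (∀ (s : S) (v : Fin r → M), ω'' s v = ∑ u, ω s (Function.update v u (X (v u)))) →
        arrS b ω'' = (actS S r (Matrix.of fun i k => mt b X (i, k))).mulVec (arrS b ω) := by
    intro ω'' h
    funext p
    obtain ⟨s, I⟩ := p
    rw [actS_mulVec, actM_mulVec]
    have h1 : arrS b ω'' (s, I) = ω'' s fun u => b (I u) := rfl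
    rw [h1, h]
    refine Finset.sum_congr rfl fun u _ => ?_
    exact M4_update b (ω s) I u _
  refine ⟨key ω', fun h => ?_⟩
  obtain ⟨ω'', h2⟩ := existsT_dact X ω
  have h3 : ω' = ω'' := arrS_inj b (h.trans (key ω'' h2).symm)
  rw [h3]
  exact h2

theorem stabT_lie (B : M →ₗ[K] M →ₗ[K] K) (W : Submodule K (TF K M S r)) :
    ∀ X ∈ stabT B W, ∀ Y ∈ stabT B W, X * Y - Y * X ∈ stabT B W := by
  rintro X ⟨hX1, hX2⟩ Y ⟨hY1, hY2⟩
  refine ⟨fun x y => ?_, fun ω hω => ?_⟩
  · have e1 : (X * Y - Y * X) x = X (Y x) - Y (X x) := rfl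
    have e2 : (X * Y - Y * X) y = X (Y y) - Y (X y) := rfl
    rw [e1, e2, map_sub, map_sub, LinearMap.sub_apply]
    linear_combination hX1 (Y x) y - hY1 (X x) y - hY1 x (X y) + hX1 x (Y y)
  · obtain ⟨ω1, h1, h1'⟩ := hY2 ω hω
    obtain ⟨ω2, h2, h2'⟩ := hX2 ω hω
    obtain ⟨ω3, h3, h3'⟩ := hX2 ω1 h1
    obtain ⟨ω4, h4, h4'⟩ := hY2 ω2 h2
    refine ⟨ω4 - ω3, W.sub_mem h4 h3, fun s v => ?_⟩
    rw [Pi.sub_apply, _root_.sub_apply, h4', h3']
    simp only [h1', h2']
    rw [M4_comm (ω s) (fun z => Y z) (fun z => X z) v]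
    rfl

theorem stabT_nab {D : K → K} (hDa : ∀ a b, D (a + b) = D a + D b) {nab : M →+ M}
    (B : M →ₗ[K] M →ₗ[K] K) (flat : ∀ x y, D (B x y) = B (nab x) y + B x (nab y))
    (W : Submodule K (TF K M S r))
    (hW : ∀ ω ∈ W, ∃ ω' ∈ W, ∀ (s : S) (v : Fin r → M),
      ω' s v = D (ω s v) - ∑ u, ω s (Function.update v u (nab (v u))))
    (X : Module.End K M) (hX : X ∈ stabT B W) (X' : Module.End K M)
    (h : ∀ x, X' x = nab (X x) - X (nab x)) : X' ∈ stabT B W := by
  obtain ⟨hX1, hX2⟩ := hX
  have hD0 : D 0 = 0 := by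
    have := hDa 0 0
    rw [add_zero] at this
    exact left_eq_add.1 this
  have hDs : ∀ g : Fin r → K, D (∑ u, g u) = ∑ u, D (g u) := fun g =>
    map_sum (AddMonoidHom.mk' D hDa) g Finset.univ
  refine ⟨fun x y => ?_, fun ω hω => ?_⟩
  · rw [h, h, map_sub, map_sub, LinearMap.sub_apply]
    have e1 := flat (X x) y
    have e2 := flat x (X y)
    have e3 := hX1 (nab x) y
    have e4 := hX1 x (nab y)
    have e5 : D (B (X x) y) + D (B x (X y)) = 0 := by
      rw [← hDa, hX1, hD0]
    linear_combination e5 - e1 - e2 - e3 - e4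
  · obtain ⟨ω1, h1, h1'⟩ := hX2 ω hω
    obtain ⟨ω2, h2, h2'⟩ := hW ω1 h1
    obtain ⟨ω3, h3, h3'⟩ := hW ω hω
    obtain ⟨ω4, h4, h4'⟩ := hX2 ω3 h3
    refine ⟨ω2 - ω4, W.sub_mem h2 h4, fun s v => ?_⟩
    rw [Pi.sub_apply, _root_.sub_apply, h2', h4']
    simp only [h1', h3']
    rw [hDs, Finset.sum_sub_distrib, sub_sub_sub_cancel_left,
      M4_comm (ω s) (fun z => X z) (fun z => nab z) v]
    simp only [h]

end MPadcPC
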