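import Pool.Agent.Lib.MP_adc574_ag_BN.Cns

/-!
# LEAF M1 (model: `MPadcBN.ln` in BN/Cns.lean, the same theorem for `k = 2`): a space stable under `δ + N` is stable under the nilpotent constant part `N`

Write `Θ z = δ z + N z`, `δ` coordinatewise; `δ (N z) = N (δ z)` (`N` constant), so `N (Θ z) = δ (N z) + N (N z) = Θ (N z)`. Induction on `k` (for all `Z`).
* `k = 0`: `Z = 0`. `k = 1`: `N z = 0`.
* `k → k + 1` (`k ≥ 1`, `N ^ (k + 1) = 0` on `Z`, the theorem holds for `k`).
  (a) `NZ = Z.map N.mulVecLin` is `Θ`-stable (`Θ (N z) = N (Θ z)`) and `N ^ k = 0` on it, so by induction it is `N`-stable, hence `δ`-stable. By `con_span` it is spanned by its constant vectors, so it is enough to show: if `z ∈ Z` and `c = N z` is constant then `c ∈ Z`.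
  (b) `Z' = {z ∈ Z | N ^ k z = 0}` is `Θ`-stable (`N ^ k (Θ z) = Θ (N ^ k z)`-type computation: `N ^ k (δ z + N z) = δ (N ^ k z) + N ^ (k + 1) z = 0`), so by induction it is `N`-stable, hence `δ`-stable.
  (c) `Θ z ∈ Z'`: `N ^ k (Θ z) = δ (N ^ k z) + N ^ (k + 1) z = N ^ (k - 1) (δ c) = 0` (`k ≥ 1`). Also `c ∈ ker N ^ k`. Let `ψ` be constant and kill `Z'`: `0 = ∑ ψ i * (Θ z) i = δ (∑ ψ i * z i) + ∑ ψ i * c i`, the second term is constant, so `δ (δ (∑ ψ i * z i)) = 0`, `hlog`: `δ (∑ ψ i * z i) = 0`, so `∑ ψ i * c i = 0`. By `con_iff` (for `Z'`, which is `δ`-stable) `c ∈ Z' ≤ Z`.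
All the computations are in the proof of `ln`.
-/

set_option autoImplicit false

namespace MPadcPC

open MPadcBN

variable {L : Type*} [Field L] (δ : L →+ L) (hδ : ∀ a b, δ (a * b) = a * δ b + b * δ a)
  {s : Type*} [Fintype s] [DecidableEq s]

include hδ

theorem lnk (hlog : ∀ y, δ (δ y) = 0 → δ y = 0) (N : Matrix s s L) (hN : ∀ i k, δ (N i k) = 0)
    (k : ℕ) (Z : Submodule L (s → L)) (hZ : ∀ z ∈ Z, (fun i => δ (z i) + ∑ k, N i k * z k) ∈ Z)
    (h2 : ∀ z ∈ Z, (N ^ k).mulVec z = 0) : ∀ z ∈ Z, N.mulVec z ∈ Z := by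
  classical
  have hδ0 : δ 0 = 0 := map_zero δ
  have hmv : ∀ z : s → L, ∀ i, N.mulVec z i = ∑ k, N i k * z k := fun z i => rfl
  -- `δ` commutes with the powers of `N`
  have hδN : ∀ z : s → L, (fun i => δ (N.mulVec z i)) = N.mulVec fun k => δ (z k) := by
    intro z
    funext i
    rw [hmv, hmv, map_sum]
    refine Finset.sum_congr rfl fun k _ => ?_
    rw [hδ, hN, mul_zero, add_zero]
  have hpow : ∀ (j : ℕ) (z : s → L), (N ^ (j + 1)).mulVec z = N.mulVec ((N ^ j).mulVec z) := by
    intro j z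
    rw [Matrix.mulVec_mulVec, ← pow_succ']
  have hpow' : ∀ (j : ℕ) (z : s → L), (N ^ (j + 1)).mulVec z = (N ^ j).mulVec (N.mulVec z) := by
    intro j z
    rw [Matrix.mulVec_mulVec, ← pow_succ]
  have hδP : ∀ (j : ℕ) (z : s → L), (fun i => δ ((N ^ j).mulVec z i)) = (N ^ j).mulVec fun k => δ (z k) := by
    intro j
    induction j with
    | zero =>
      intro z
      rw [pow_zero, Matrix.one_mulVec, Matrix.one_mulVec]
    | succ j ih =>
      intro z
      rw [hpow, hpow, hδN, ih]
  induction k generalizing Z with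
  | zero =>
    intro z hz
    have h3 : z = 0 := by
      have h4 := h2 z hz
      rwa [pow_zero, Matrix.one_mulVec] at h4
    rw [h3, Matrix.mulVec_zero]
    exact Z.zero_mem
  | succ k ih =>
    rcases k with _ | k
    · intro z hz
      have h4 := h2 z hz
      rw [zero_add, pow_one] at h4
      rw [h4]
      exact Z.zero_mem
    · have hθ : ∀ z ∈ Z, (fun i => δ (z i)) + N.mulVec z ∈ Z := fun z hz => hZ z hz
      -- the space `N Z`
      have hNθ : ∀ v ∈ Z.map N.mulVecLin, (fun i => δ (v i) + ∑ k, N i k * v k) ∈ Z.map N.mulVecLin := by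
        rintro v ⟨z, hz, rfl⟩
        refine ⟨_, hθ z hz, ?_⟩
        rw [Matrix.mulVecLin_apply, Matrix.mulVecLin_apply, Matrix.mulVec_add, ← hδN]
        rfl
      have hNN : ∀ v ∈ Z.map N.mulVecLin, N.mulVec v ∈ Z.map N.mulVecLin := by
        refine ih _ hNθ ?_
        rintro v ⟨z, hz, rfl⟩
        rw [Matrix.mulVecLin_apply, ← hpow']
        exact h2 z hz
      have hNZ : ∀ v ∈ Z.map N.mulVecLin, (fun i => δ (v i)) ∈ Z.map N.mulVecLin := by
        intro v hv
        have h3 := Submodule.sub_mem _ (hNθ v hv) (hNN v hv)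
        have h4 : (fun i => δ (v i) + ∑ k, N i k * v k) - N.mulVec v = fun i => δ (v i) := by
          funext i
          rw [Pi.sub_apply, hmv, add_sub_cancel_right]
        rwa [h4] at h3
      -- the space `Z'`
      let Z' : Submodule L (s → L) := Z ⊓ LinearMap.ker (N ^ (k + 1)).mulVecLin
      have hmem : ∀ y, y ∈ Z' ↔ y ∈ Z ∧ (N ^ (k + 1)).mulVec y = 0 := by
        intro y
        rw [Submodule.mem_inf, LinearMap.mem_ker, Matrix.mulVecLin_apply]
      have hZ'θ : ∀ y ∈ Z', (fun i => δ (y i) + ∑ k, N i k * y k) ∈ Z' := by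
        intro y hy
        rw [hmem] at hy ⊢
        refine ⟨hθ y hy.1, ?_⟩
        have h3 : (N ^ (k + 1)).mulVec ((fun i => δ (y i)) + N.mulVec y) = 0 := by
          rw [Matrix.mulVec_add, ← hδP, ← hpow', h2 y hy.1, hy.2, add_zero]
          funext i
          exact hδ0
        exact h3
      have hZ'N : ∀ y ∈ Z', N.mulVec y ∈ Z' := ih _ hZ'θ fun y hy => ((hmem y).1 hy).2
      have hZ' : ∀ y ∈ Z', (fun i => δ (y i)) ∈ Z' := by
        intro y hy
        have h3 := Submodule.sub_mem _ (hZ'θ y hy) (hZ'N y hy)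
        have h4 : (fun i => δ (y i) + ∑ k, N i k * y k) - N.mulVec y = fun i => δ (y i) := by
          funext i
          rw [Pi.sub_apply, hmv, add_sub_cancel_right]
        rwa [h4] at h3
      -- constant vectors
      have hconst : ∀ z ∈ Z, (∀ i, δ (N.mulVec z i) = 0) → N.mulVec z ∈ Z := by
        intro z hz hc
        have hΘ : (fun i => δ (z i)) + N.mulVec z ∈ Z' := by
          rw [hmem]
          refine ⟨hθ z hz, ?_⟩
          rw [Matrix.mulVec_add, ← hδP, ← hpow', h2 z hz, add_zero, hpow', hδP]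
          have h3 : (fun k => δ (N.mulVec z k)) = 0 := funext hc
          rw [h3, Matrix.mulVec_zero]
        have hin : N.mulVec z ∈ Z' := by
          rw [con_iff δ hδ Z' hZ']
          intro ψ hψ hkill
          have h1 := hkill _ hΘ
          have h3 : ∑ i, ψ i * ((fun i => δ (z i)) + N.mulVec z) i =
              δ (∑ i, ψ i * z i) + ∑ i, ψ i * N.mulVec z i := by
            rw [map_sum, ← Finset.sum_add_distrib]
            refine Finset.sum_congr rfl fun i _ => ?_
            rw [hδ, hψ, mul_zero, add_zero, Pi.add_apply, mul_add]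
          rw [h3] at h1
          have h4 : δ (∑ i, ψ i * N.mulVec z i) = 0 := by
            rw [map_sum]
            refine Finset.sum_eq_zero fun i _ => ?_
            rw [hδ, hψ, hc, mul_zero, mul_zero, add_zero]
          have h5 : δ (δ (∑ i, ψ i * z i)) = 0 := by
            have h6 := congrArg δ h1
            rw [map_add, h4, add_zero, hδ0] at h6
            exact h6
          rw [hlog _ h5, zero_add] at h1
          exact h1
        exact ((hmem _).1 hin).1
      have hspan := con_span δ hδ (Z.map N.mulVecLin) hNZ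
      have hle : Z.map N.mulVecLin ≤ Z := by
        rw [hspan, Submodule.span_le]
        rintro v ⟨⟨z, hz, rfl⟩, hv⟩
        rw [Matrix.mulVecLin_apply] at hv ⊢
        exact hconst z hz hv
      intro z hz
      exact hle ⟨z, hz, Matrix.mulVecLin_apply N z⟩

end MPadcPC
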