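import Pool.Agent.Lib.MP_adc574_ag_BN.LocL
import Pool.Agent.Lib.MP_adc574_ag_PC.M1

/-!
# LEAF M2 (copy of `MPadcBN.locL`, BN/LocL.lean): stable subspaces are stable under the nilpotent part (matrix form)

The proof of `MPadcBN.locL` with `lnk` in place of `ln`: the constant matrix is `Nc = Y' N Y`, `Nc ^ k = Y' N ^ k Y` (induction, `Y Y' = 1`), so `Nc ^ k` kills `Zc`. (The private lemmas `locl_leib`, `locl_const`, `locl_dmul` of
BN/LocL.lean have to be copied with the prefix `M2_`.)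
-/

set_option autoImplicit false

namespace MPadcPC

open PowerSeries MPadcLZ MPadcBN

variable {κ : Type*} [Field κ] [CharZero κ]

omit [CharZero κ] in
/-- the derivative of a matrix of power series -/
private theorem M2_leib {s : Type*} [Fintype s] (A B : Matrix s s κ⟦X⟧) :
    (A * B).map (derivative κ) = A.map (derivative κ) * B + A * B.map (derivative κ) := by
  ext1 i k
  simp only [Matrix.map_apply, Matrix.mul_apply, Matrix.add_apply]
  rw [map_sum, ← Finset.sum_add_distrib]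
  refine Finset.sum_congr rfl fun m _ => ?_
  rw [Derivation.leibniz, smul_eq_mul, smul_eq_mul]
  ring

/-- the constant matrix of the connection -/
private theorem M2_const {s : Type*} [Fintype s] [DecidableEq s] {G N Y Y' : Matrix s s κ⟦X⟧}
    (h1 : Y * Y' = 1) (h2 : Y' * Y = 1) (hY : Y.map (derivative κ) = -(G * Y))
    (hN : N.map (derivative κ) = N * G - G * N) :
    (Y' * N * Y).map (derivative κ) = 0 := by
  have e1 : Y'.map (derivative κ) * Y + Y' * Y.map (derivative κ) = 0 := by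
    rw [← M2_leib, h2]
    ext1 i k
    rw [Matrix.map_apply, Matrix.one_apply, Matrix.zero_apply]
    split_ifs
    · exact Derivation.map_one_eq_zero _
    · exact map_zero _
  have e2 : Y'.map (derivative κ) = Y' * G := by
    have e3 : Y'.map (derivative κ) * Y = Y' * G * Y := by
      rw [hY, mul_neg, ← mul_assoc] at e1
      exact add_neg_eq_zero.1 e1
    calc Y'.map (derivative κ) = Y'.map (derivative κ) * Y * Y' := by
          rw [mul_assoc, h1, mul_one]
      _ = Y' * G := by rw [e3, mul_assoc, h1, mul_one]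
  rw [M2_leib, M2_leib, e2, hN, hY]
  noncomm_ring

private theorem M2_dmul {L : Type*} [Field L] (δ : L →+ L)
    (hδ : ∀ a b, δ (a * b) = a * δ b + b * δ a) {s : Type*} [Fintype s]
    (A : Matrix s s L) (z : s → L) :
    (fun i => δ (A.mulVec z i)) = A.mulVec (fun i => δ (z i)) + (A.map δ).mulVec z := by
  funext i
  simp only [Matrix.mulVec, dotProduct, Pi.add_apply, Matrix.map_apply]
  rw [map_sum, ← Finset.sum_add_distrib]
  refine Finset.sum_congr rfl fun m _ => ?_
  rw [hδ]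
  ring

theorem locLk {L : Type*} [Field L] [Algebra κ⟦X⟧ L] [IsFractionRing κ⟦X⟧ L] {DL : L →+ L}
    (hDL : IsDL κ DL) {s : Type*} [Fintype s] [DecidableEq s] (Γ N : Matrix s s κ⟦X⟧)
    (h0 : ∀ i k, constantCoeff (Γ i k) = constantCoeff (N i k))
    (hN : ∀ i k, X * derivative κ (N i k) = ∑ m, N i m * Γ m k - ∑ m, Γ i m * N m k)
    (Z : Submodule L (s → L))
    (hZ : ∀ z ∈ Z, (fun i => algebraMap κ⟦X⟧ L X * DL (z i) +
      ∑ k, algebraMap κ⟦X⟧ L (Γ i k) * z k) ∈ Z) (k : ℕ)
    (h2 : ∀ z ∈ Z, ((N.map (algebraMap κ⟦X⟧ L)) ^ k).mulVec z = 0) :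
    ∀ z ∈ Z, (N.map (algebraMap κ⟦X⟧ L)).mulVec z ∈ Z := by
  have hX0 : (X : κ⟦X⟧) ≠ 0 := X_ne_zero
  -- `Γ = N + X G`
  have hG : ∀ i k, ∃ g : κ⟦X⟧, Γ i k = N i k + X * g := by
    intro i k
    have h3 : X ∣ Γ i k - N i k := X_dvd_iff.2 (by rw [map_sub, h0, sub_self])
    obtain ⟨g, hg⟩ := h3
    exact ⟨g, by rw [← hg]; ring⟩
  choose G' hG' using hG
  obtain ⟨G, hG⟩ : ∃ G : Matrix s s κ⟦X⟧, ∀ i k, Γ i k = N i k + X * G i k := ⟨G', hG'⟩
  have hND : N.map (derivative κ) = N * G - G * N := by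
    ext1 i k
    rw [Matrix.map_apply, Matrix.sub_apply, Matrix.mul_apply, Matrix.mul_apply]
    refine mul_left_cancel₀ hX0 ?_
    rw [hN, ← Finset.sum_sub_distrib, ← Finset.sum_sub_distrib, Finset.mul_sum]
    have e1 : ∀ m, N i m * Γ m k - Γ i m * N m k =
        X * (N i m * G m k - G i m * N m k) + (N i m * N m k - N i m * N m k) := by
      intro m
      rw [hG, hG]
      ring
    refine Finset.sum_congr rfl fun m _ => ?_
    rw [e1, sub_self, add_zero]
  obtain ⟨Y, Y', hYY', hY'Y, hYd⟩ := exists_flat G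
  have hYD : Y.map (derivative κ) = -(G * Y) := by
    ext1 i k
    rw [Matrix.map_apply, Matrix.neg_apply, Matrix.mul_apply]
    exact hYd i k
  have hc := M2_const hYY' hY'Y hYD hND
  obtain ⟨j, hj⟩ : ∃ j : κ⟦X⟧ →+* L, j = algebraMap κ⟦X⟧ L := ⟨_, rfl⟩
  rw [← hj] at hZ h2 ⊢
  obtain ⟨δ, hδ⟩ : ∃ δ : L →+ L, ∀ a, δ a = j X * DL a :=
    ⟨(AddMonoidHom.mulLeft (j X)).comp DL, fun a => rfl⟩
  have hδl : ∀ a b, δ (a * b) = a * δ b + b * δ a := by
    intro a b
    rw [hδ, hδ, hδ, hDL.leib]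
    ring
  have hδj : ∀ r : κ⟦X⟧, δ (j r) = j X * j (derivative κ r) := by
    intro r
    rw [hδ, hj, hDL.alg]
  have hlog : ∀ y, δ (δ y) = 0 → δ y = 0 := by
    intro y hy
    rw [hδ, hδ] at hy
    rw [hδ]
    rw [hj] at hy ⊢
    exact no_log hDL y hy
  have hmul : ∀ A B : Matrix s s κ⟦X⟧, (A * B).map j = A.map j * B.map j := fun A B =>
    Matrix.map_mul
  have hone : (1 : Matrix s s κ⟦X⟧).map j = 1 := Matrix.map_one j (map_zero j) (map_one j)
  have hYY'L : Y.map j * Y'.map j = 1 := by rw [← hmul, hYY', hone]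
  have hY'YL : Y'.map j * Y.map j = 1 := by rw [← hmul, hY'Y, hone]
  have hNc : (Y' * N * Y).map j = Y'.map j * N.map j * Y.map j := by rw [hmul, hmul]
  have hYNc : Y.map j * (Y' * N * Y).map j = N.map j * Y.map j := by
    rw [hNc, mul_assoc, ← mul_assoc (Y.map j), hYY'L, one_mul]
  have hNcY' : (Y' * N * Y).map j * Y'.map j = Y'.map j * N.map j := by
    rw [hNc, mul_assoc, hYY'L, mul_one]
  have hΓL : Γ.map j = N.map j + j X • G.map j := by
    ext1 i k
    rw [Matrix.add_apply, Matrix.smul_apply, Matrix.map_apply, Matrix.map_apply, Matrix.map_apply,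
      hG, map_add, map_mul, smul_eq_mul]
  have hYδ : (Y.map j).map δ = -(j X • (G.map j * Y.map j)) := by
    ext1 i k
    have e1 : δ (j (Y i k)) = j X * j (derivative κ (Y i k)) := hδj _
    have e2 : derivative κ (Y i k) = -(G * Y) i k := by
      rw [← Matrix.neg_apply, ← hYD, Matrix.map_apply]
    rw [Matrix.map_apply, Matrix.map_apply, Matrix.neg_apply, Matrix.smul_apply, ← hmul,
      Matrix.map_apply, e1, e2, map_neg, smul_eq_mul, mul_neg]
  -- the constant form
  obtain ⟨Zc, hZc⟩ : ∃ Zc : Submodule L (s → L), ∀ z, z ∈ Zc ↔ (Y.map j).mulVec z ∈ Z :=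
    ⟨Z.comap (Matrix.mulVecLin (Y.map j)), fun z => by
      rw [Submodule.mem_comap, Matrix.mulVecLin_apply]⟩
  have key := lnk δ hδl hlog ((Y' * N * Y).map j) (fun i k => by
    have e1 : derivative κ ((Y' * N * Y) i k) = 0 := by
      rw [← Matrix.map_apply (f := derivative κ), hc, Matrix.zero_apply]
    rw [Matrix.map_apply, hδj, e1, map_zero, mul_zero]) k Zc ?_ ?_
  · intro z hz
    have h4 : (Y'.map j).mulVec z ∈ Zc := by
      rw [hZc, Matrix.mulVec_mulVec, hYY'L, Matrix.one_mulVec]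
      exact hz
    have h5 := key _ h4
    rw [hZc, Matrix.mulVec_mulVec, Matrix.mulVec_mulVec, hYNc, mul_assoc, hYY'L, mul_one] at h5
    exact h5
  · intro z hz
    rw [hZc] at hz ⊢
    have h4 := hZ _ hz
    have e1 : (fun i => j X * DL ((Y.map j).mulVec z i) +
        ∑ k, j (Γ i k) * (Y.map j).mulVec z k) =
        (fun i => δ ((Y.map j).mulVec z i)) + (Γ.map j).mulVec ((Y.map j).mulVec z) := by
      funext i
      rw [Pi.add_apply, hδ]
      rfl
    have e2 : (fun i => δ (z i) + ∑ k, (Y' * N * Y).map j i k * z k) =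
        (fun i => δ (z i)) + ((Y' * N * Y).map j).mulVec z := by
      funext i
      rfl
    rw [e1, M2_dmul δ hδl, hYδ, hΓL, Matrix.add_mulVec, Matrix.neg_mulVec, Matrix.smul_mulVec,
      Matrix.smul_mulVec, Matrix.mulVec_mulVec, Matrix.mulVec_mulVec] at h4
    rw [e2, Matrix.mulVec_add, Matrix.mulVec_mulVec, hYNc]
    have e3 : (Y.map j).mulVec (fun i => δ (z i)) + -(j X • (G.map j * Y.map j).mulVec z) +
        ((N.map j * Y.map j).mulVec z + j X • (G.map j * Y.map j).mulVec z) =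
        (Y.map j).mulVec (fun i => δ (z i)) + (N.map j * Y.map j).mulVec z := by
      abel
    rw [e3] at h4
    exact h4
  · intro z hz
    rw [hZc] at hz
    have h4 := h2 _ hz
    have hpow : ∀ n : ℕ, Y.map j * ((Y' * N * Y).map j) ^ n = (N.map j) ^ n * Y.map j := by
      intro n
      induction n with
      | zero => rw [pow_zero, pow_zero, mul_one, one_mul]
      | succ n ih => rw [pow_succ, ← mul_assoc, ih, mul_assoc, hYNc, ← mul_assoc, ← pow_succ]
    have e1 : ((Y' * N * Y).map j) ^ k = Y'.map j * ((N.map j) ^ k * Y.map j) := by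
      rw [← hpow, ← mul_assoc, hY'YL, one_mul]
    rw [e1, ← Matrix.mulVec_mulVec, ← Matrix.mulVec_mulVec, h4, Matrix.mulVec_zero]

end MPadcPC
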