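import Pool.Agent.Lib.MP_adc574_ag_BN.StbB
import Pool.Agent.Lib.MP_adc574_ag_PC.M2
import Pool.Agent.Lib.MP_adc574_ag_PC.M4

/-!
# LEAF M5 (copy of `MPadcBN.node_act`, BN/StbB.lean): at a node the residue acts on horizontal spaces of families of forms

The proof of `MPadcBN.node_act` with `arrS`, `actS S r` (M3), `arrS_cov` (M4) in place of `arr`, `actM r`, `arr_cov`, and `locLk` (M2) in place of `locL`: the last hypothesis `h2` (with the `k` of `actS_nil` for `a i = algebraMap (S₁.a i)`,
`l i = algebraMap (S₁.l i)`; `∑ l i * a i = 0` from `hS.hla` and `α = 0`) is `(-(actS ..)) ^ k = ± (actS ..) ^ k = 0` (`neg_pow`), `Matrix.zero_mulVec`; no alternation (`stbb_alt`) is needed. Copy the private lemmas `stbb_gen`, `stbb_T`, `stbb_map` with the prefix `M5_`.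
-/

set_option autoImplicit false

namespace MPadcPC

open MPadcLZ MPadcHM MPadcBN

universe u

variable {κ : Type u} [Field κ] [CharZero κ] {Mo : Type u} [AddCommGroup Mo]
  [Module (RatFunc κ) Mo] [Module (Polynomial κ) Mo] [IsScalarTower (Polynomial κ) (RatFunc κ) Mo]
  {nab : Mo →+ Mo} {h r : ℕ} {S : Type} [Fintype S] [DecidableEq S]

omit [CharZero κ] [Module (Polynomial κ) Mo] [IsScalarTower (Polynomial κ) (RatFunc κ) Mo] in
private theorem M5_gen (b : Module.Basis (Fin h) (RatFunc κ) Mo) (τ : κ)
    (Γ : Matrix (Fin h) (Fin h) (PowerSeries κ))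
    {DX : FractionRing (PowerSeries κ) →+ FractionRing (PowerSeries κ)} (hDX : IsDL κ DX)
    (hΓ : ∀ i k, algebraMap (PowerSeries κ) (FractionRing (PowerSeries κ)) PowerSeries.X *
        jt τ (b.repr (nab (b k)) i) =
          algebraMap (PowerSeries κ) (FractionRing (PowerSeries κ)) (Γ i k))
    (ω ω' : TF (RatFunc κ) Mo S r)
    (hω : ∀ (s : S) (v : Fin r → Mo),
      ω' s v = DK κ (ω s v) - ∑ u, ω s (Function.update v u (nab (v u)))) (I : S × (Fin r → Fin h)) :
    algebraMap (PowerSeries κ) (FractionRing (PowerSeries κ)) PowerSeries.X *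
        DX (jt τ (arrS b ω I)) +
      ∑ J, algebraMap (PowerSeries κ) (FractionRing (PowerSeries κ)) ((-(actS S r Γ)) I J) *
        jt τ (arrS b ω J) =
    algebraMap (PowerSeries κ) (FractionRing (PowerSeries κ)) PowerSeries.X *
      jt τ (arrS b ω' I) := by
  have h1 := arrS_cov b (fun c => DK κ c) nab ω ω' hω I
  have h2 : ∀ J, algebraMap (PowerSeries κ) (FractionRing (PowerSeries κ)) (actS S r Γ I J) =
      algebraMap (PowerSeries κ) (FractionRing (PowerSeries κ)) PowerSeries.X *
        jt τ (actS S r (Matrix.of fun i k => b.repr (nab (b k)) i) I J) := by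
    intro J
    have e1 := congrFun (congrFun (actS_map (S := S) (r := r)
      (algebraMap (PowerSeries κ) (FractionRing (PowerSeries κ))) Γ) I) J
    have e2 := congrFun (congrFun (actS_map (S := S) (r := r) (jt τ)
      (Matrix.of fun i k => b.repr (nab (b k)) i)) I) J
    rw [Matrix.map_apply] at e1 e2
    rw [e1, e2]
    have e3 : Γ.map (algebraMap (PowerSeries κ) (FractionRing (PowerSeries κ))) =
        algebraMap (PowerSeries κ) (FractionRing (PowerSeries κ)) PowerSeries.X •
          (Matrix.of fun i k => b.repr (nab (b k)) i).map (jt τ) := by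
      ext i k
      rw [Matrix.map_apply, Matrix.smul_apply, Matrix.map_apply, Matrix.of_apply, smul_eq_mul, hΓ]
    rw [e3, actS_smul, Matrix.smul_apply, smul_eq_mul]
  have h3 : ∀ J, algebraMap (PowerSeries κ) (FractionRing (PowerSeries κ)) ((-(actS S r Γ)) I J) *
        jt τ (arrS b ω J) =
      -(algebraMap (PowerSeries κ) (FractionRing (PowerSeries κ)) PowerSeries.X *
        jt τ (actS S r (Matrix.of fun i k => b.repr (nab (b k)) i) I J * arrS b ω J)) := by
    intro J
    rw [Matrix.neg_apply, map_neg, h2, map_mul]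
    ring
  rw [Finset.sum_congr rfl fun J _ => h3 J, Finset.sum_neg_distrib, ← Finset.mul_sum, ← map_sum,
    jt_DK hDX, h1, map_sub]
  simp only [Matrix.mulVec, dotProduct]
  ring

omit [CharZero κ] [Module (Polynomial κ) Mo] [IsScalarTower (Polynomial κ) (RatFunc κ) Mo] in
private theorem M5_T (b : Module.Basis (Fin h) (RatFunc κ) Mo) (τ : κ)
    (Γ : Matrix (Fin h) (Fin h) (PowerSeries κ))
    {DX : FractionRing (PowerSeries κ) →+ FractionRing (PowerSeries κ)} (hDX : IsDL κ DX)
    (hΓ : ∀ i k, algebraMap (PowerSeries κ) (FractionRing (PowerSeries κ)) PowerSeries.X *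
        jt τ (b.repr (nab (b k)) i) =
          algebraMap (PowerSeries κ) (FractionRing (PowerSeries κ)) (Γ i k))
    (W : Submodule (RatFunc κ) (TF (RatFunc κ) Mo S r))
    (hW : ∀ ω ∈ W, ∃ ω' ∈ W, ∀ (s : S) (v : Fin r → Mo),
      ω' s v = DK κ (ω s v) - ∑ u, ω s (Function.update v u (nab (v u))))
    (z : S × (Fin r → Fin h) → FractionRing (PowerSeries κ))
    (hz : z ∈ spanL (jt τ) (W.map (arrS b))) :
    (fun I => algebraMap (PowerSeries κ) (FractionRing (PowerSeries κ)) PowerSeries.X * DX (z I) +
      ∑ J, algebraMap (PowerSeries κ) (FractionRing (PowerSeries κ)) ((-(actS S r Γ)) I J) * z J) ∈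
      spanL (jt τ) (W.map (arrS b)) := by
  unfold spanL at hz
  induction hz using Submodule.span_induction with
  | mem x hx =>
    obtain ⟨y, hy, rfl⟩ := hx
    obtain ⟨ω, hω, rfl⟩ := hy
    obtain ⟨ω', hω', hv⟩ := hW ω hω
    have h1 : (fun I => algebraMap (PowerSeries κ) (FractionRing (PowerSeries κ)) PowerSeries.X *
        DX (jt τ (arrS b ω I)) +
      ∑ J, algebraMap (PowerSeries κ) (FractionRing (PowerSeries κ)) ((-(actS S r Γ)) I J) *
        jt τ (arrS b ω J)) =
        algebraMap (PowerSeries κ) (FractionRing (PowerSeries κ)) PowerSeries.X •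
          fun I => jt τ (arrS b ω' I) := by
      funext I
      rw [Pi.smul_apply, smul_eq_mul]
      exact M5_gen b τ Γ hDX hΓ ω ω' hv I
    show (fun I => algebraMap (PowerSeries κ) (FractionRing (PowerSeries κ)) PowerSeries.X *
        DX (jt τ (arrS b ω I)) +
      ∑ J, algebraMap (PowerSeries κ) (FractionRing (PowerSeries κ)) ((-(actS S r Γ)) I J) *
        jt τ (arrS b ω J)) ∈ _
    rw [h1]
    exact Submodule.smul_mem _ _ (Submodule.subset_span
      ⟨arrS b ω', Submodule.mem_map_of_mem hω', rfl⟩)
  | zero =>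
    have h1 : (fun I => algebraMap (PowerSeries κ) (FractionRing (PowerSeries κ)) PowerSeries.X *
        DX ((0 : S × (Fin r → Fin h) → FractionRing (PowerSeries κ)) I) +
      ∑ J, algebraMap (PowerSeries κ) (FractionRing (PowerSeries κ)) ((-(actS S r Γ)) I J) *
        (0 : S × (Fin r → Fin h) → FractionRing (PowerSeries κ)) J) = 0 := by
      funext I
      simp
    rw [h1]
    exact Submodule.zero_mem _
  | add x y _ _ hx hy =>
    have h1 := Submodule.add_mem _ hx hy
    refine (congrArg (· ∈ spanL (jt τ) (W.map (arrS b))) ?_).mp h1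
    funext I
    simp only [Pi.add_apply, map_add, mul_add, Finset.sum_add_distrib]
    ring
  | smul c x hx0 hx =>
    have h1 := Submodule.add_mem _ (Submodule.smul_mem _ c hx)
      (Submodule.smul_mem _ (algebraMap (PowerSeries κ) (FractionRing (PowerSeries κ))
        PowerSeries.X * DX c) (show x ∈ spanL (jt τ) (W.map (arrS b)) from hx0))
    refine (congrArg (· ∈ spanL (jt τ) (W.map (arrS b))) ?_).mp h1
    funext I
    simp only [Pi.add_apply, Pi.smul_apply, smul_eq_mul, hDX.leib]
    have h2 : ∑ J, algebraMap (PowerSeries κ) (FractionRing (PowerSeries κ))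
        ((-(actS S r Γ)) I J) * (c * x J) =
        c * ∑ J, algebraMap (PowerSeries κ) (FractionRing (PowerSeries κ))
          ((-(actS S r Γ)) I J) * x J := by
      rw [Finset.mul_sum]
      exact Finset.sum_congr rfl fun J _ => by ring
    rw [h2]
    ring

omit [CharZero κ] [Fintype S] in
private theorem M5_map (a l : Fin h → PowerSeries κ) :
    (-(actS S r (Matrix.of fun i k => a i * l k))).map
        (algebraMap (PowerSeries κ) (FractionRing (PowerSeries κ))) =
      -(actS S r (Matrix.of fun i k =>
        algebraMap (PowerSeries κ) (FractionRing (PowerSeries κ)) (a i * l k))) := by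
  have h1 := actS_map (S := S) (r := r) (algebraMap (PowerSeries κ) (FractionRing (PowerSeries κ)))
    (Matrix.of fun i k => a i * l k)
  ext I J
  have h2 := congrFun (congrFun h1 I) J
  rw [Matrix.map_apply] at h2
  rw [Matrix.map_apply, Matrix.neg_apply, Matrix.neg_apply, map_neg, h2]
  rfl

theorem node_actT (leib : ∀ (c : RatFunc κ) (x : Mo), nab (c • x) = DK κ c • x + c • nab x)
    (b : Module.Basis (Fin h) (RatFunc κ) Mo) (τ : κ) (S₁ : Lc (Fin h) κ) (hS : S₁.Ok)
    (hα : S₁.α = 0)
    (hΓ : ∀ i k, algebraMap (PowerSeries κ) (FractionRing (PowerSeries κ)) PowerSeries.X *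
        jt τ (b.repr (nab (b k)) i) =
          algebraMap (PowerSeries κ) (FractionRing (PowerSeries κ)) (S₁.Γ i k))
    (W : Submodule (RatFunc κ) (TF (RatFunc κ) Mo S r))
    (hW : ∀ ω ∈ W, ∃ ω' ∈ W, ∀ (s : S) (v : Fin r → Mo),
      ω' s v = DK κ (ω s v) - ∑ u, ω s (Function.update v u (nab (v u)))) :
    ∀ z ∈ spanL (jt τ) (W.map (arrS b)),
      (actS S r (Matrix.of fun i k => algebraMap (PowerSeries κ) (FractionRing (PowerSeries κ))
        (S₁.a i * S₁.l k))).mulVec z ∈ spanL (jt τ) (W.map (arrS b)) := by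
  obtain ⟨DX, hDX⟩ := exists_DX κ
  have hinj : Function.Injective (algebraMap (PowerSeries κ) (FractionRing (PowerSeries κ))) :=
    IsFractionRing.injective _ _
  have : CharZero (FractionRing (PowerSeries κ)) := by
    have : CharZero (PowerSeries κ) :=
      charZero_of_injective_algebraMap (R := κ) (PowerSeries.C_injective (R := κ))
    exact charZero_of_injective_algebraMap hinj
  have hC0 : (PowerSeries.C : κ →+* PowerSeries κ) S₁.α = 0 := by rw [hα, map_zero]
  obtain ⟨kn, hkn⟩ := actS_nil (S := S) (r := r) (R := FractionRing (PowerSeries κ))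
    (fun i => algebraMap (PowerSeries κ) (FractionRing (PowerSeries κ)) (S₁.a i))
    (fun i => algebraMap (PowerSeries κ) (FractionRing (PowerSeries κ)) (S₁.l i))
    (by
      have e2 := congrArg (algebraMap (PowerSeries κ) (FractionRing (PowerSeries κ))) hS.hla
      rw [hC0, map_zero, map_sum] at e2
      simpa only [map_mul] using e2)
  have key := locLk hDX (-(actS S r S₁.Γ)) (-(actS S r (Matrix.of fun i k => S₁.a i * S₁.l k)))
    (by
      intro I J
      have e1 := congrFun (congrFun (actS_map (S := S) (r := r)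
        (PowerSeries.constantCoeff (R := κ)) S₁.Γ) I) J
      have e2 := congrFun (congrFun (actS_map (S := S) (r := r)
        (PowerSeries.constantCoeff (R := κ)) (Matrix.of fun i k => S₁.a i * S₁.l k)) I) J
      rw [Matrix.map_apply] at e1 e2
      have e3 : S₁.Γ.map (PowerSeries.constantCoeff (R := κ)) =
          (Matrix.of fun i k => S₁.a i * S₁.l k).map (PowerSeries.constantCoeff (R := κ)) := by
        ext1 i k
        rw [Matrix.map_apply, Matrix.map_apply, Matrix.of_apply, map_mul, hS.res, hS.ha0, hS.hl0]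
      rw [Matrix.neg_apply, Matrix.neg_apply, map_neg, map_neg, e1, e2, e3])
    (by
      intro I J
      have e1 := actS_addHom (S := S) (r := r) ((AddMonoidHom.mulLeft (PowerSeries.X : PowerSeries κ)).comp
        (PowerSeries.derivative κ).toLinearMap.toAddMonoidHom)
        (Matrix.of fun i k => S₁.a i * S₁.l k) I J
      have e2 : (Matrix.of fun i k => ((AddMonoidHom.mulLeft (PowerSeries.X : PowerSeries κ)).comp
          (PowerSeries.derivative κ).toLinearMap.toAddMonoidHom)
            ((Matrix.of fun i k => S₁.a i * S₁.l k) i k)) =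
          (-1 : PowerSeries κ) • (S₁.Γ * (Matrix.of fun i k => S₁.a i * S₁.l k) -
            (Matrix.of fun i k => S₁.a i * S₁.l k) * S₁.Γ) := by
        ext1 i k
        show PowerSeries.X * PowerSeries.derivative κ (S₁.a i * S₁.l k) =
          (-1 : PowerSeries κ) * ((S₁.Γ * (Matrix.of fun i k => S₁.a i * S₁.l k)) i k -
            ((Matrix.of fun i k => S₁.a i * S₁.l k) * S₁.Γ) i k)
        rw [Derivation.leibniz, smul_eq_mul, smul_eq_mul, Matrix.mul_apply, Matrix.mul_apply]
        have e3 : ∑ j, S₁.Γ i j * (Matrix.of fun i k => S₁.a i * S₁.l k) j k =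
            (∑ j, S₁.Γ i j * S₁.a j) * S₁.l k := by
          rw [Finset.sum_mul]
          exact Finset.sum_congr rfl fun j _ => by rw [Matrix.of_apply]; ring
        have e4 : ∑ j, (Matrix.of fun i k => S₁.a i * S₁.l k) i j * S₁.Γ j k =
            S₁.a i * ∑ j, S₁.Γ j k * S₁.l j := by
          rw [Finset.mul_sum]
          exact Finset.sum_congr rfl fun j _ => by rw [Matrix.of_apply]; ring
        rw [e3, e4]
        have e5 := hS.ha i
        have e6 := hS.hl k
        rw [hC0, zero_mul] at e5 e6
        linear_combination S₁.l k * e5 + S₁.a i * e6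
      have e3 : PowerSeries.X * PowerSeries.derivative κ
          (actS S r (Matrix.of fun i k => S₁.a i * S₁.l k) I J) =
          -(actS S r (S₁.Γ * (Matrix.of fun i k => S₁.a i * S₁.l k) -
            (Matrix.of fun i k => S₁.a i * S₁.l k) * S₁.Γ) I J) := by
        refine e1.trans ?_
        rw [e2, actS_smul, Matrix.smul_apply, smul_eq_mul]
        ring
      have e4 := congrFun (congrFun (actS_comm (r := r)
        (Matrix.of fun i k => S₁.a i * S₁.l k) S₁.Γ) I) J
      rw [Matrix.sub_apply, Matrix.mul_apply, Matrix.mul_apply] at e4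
      rw [Matrix.neg_apply, map_neg, mul_neg, e3, neg_neg, ← e4]
      simp only [Matrix.neg_apply, neg_mul_neg])
    (spanL (jt τ) (W.map (arrS b)))
    (fun z hz => M5_T b τ S₁.Γ hDX hΓ W hW z hz)
    kn (by
      intro z hz
      rw [M5_map, neg_pow]
      have e1 : (actS S r (Matrix.of fun i k =>
          algebraMap (PowerSeries κ) (FractionRing (PowerSeries κ)) (S₁.a i * S₁.l k))) ^ kn = 0 := by
        simpa only [map_mul] using hkn
      rw [e1, mul_zero, Matrix.zero_mulVec])
  intro z hz
  have h1 := Submodule.neg_mem _ (key z hz)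
  rw [M5_map, Matrix.neg_mulVec, neg_neg] at h1
  exact h1

end MPadcPC
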