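import Pool.Agent.Lib.MP_adc574_ag_BN.StbC
import Pool.Agent.Lib.MP_adc574_ag_PC.M5

/-!
# LEAF M6 (copy of `MPadcBN.stab_node`, BN/StbC.lean): at a node the residue is in the span of the stabiliser

The proof of `MPadcBN.stab_node` with `arrS`, `actS S r`, `arrS_dact` (M4), `node_actT` (M5), `stabT` in place of `arr`, `actM r`, `arr_dact`, `node_act`, `stab`. The functionals of type (i): for `ω ∈ W` and `θ : S × (Fin r → Fin h) → K`
which kills `W.map (arrS b)`: `φ p = ∑ q, θ q * ∑ u, if p.2 = q.2 u then arrS b ω (q.1, update q.2 u p.1) else 0`. The private lemmas of BN/StbC.lean (`stbc_sk`, `stbc_sum`, `stbc_skmap`, `stbc_mt`, `stbc_skew`) have to be copied (prefix `M6_`).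
-/

set_option autoImplicit false

namespace MPadcPC

open MPadcLZ MPadcHM MPadcBN

universe u

variable {κ : Type u} [Field κ] [CharZero κ] {Mo : Type u} [AddCommGroup Mo]
  [Module (RatFunc κ) Mo] [Module (Polynomial κ) Mo] [IsScalarTower (Polynomial κ) (RatFunc κ) Mo]
  {nab : Mo →+ Mo} {h r : ℕ} {S : Type} [Fintype S] [DecidableEq S]

/-- the coefficient functional of the action -/
private def M6_cf {R : Type*} [CommRing R] (θ z : S × (Fin r → Fin h) → R)
    (p : Fin h × Fin h) : R :=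
  ∑ q : S × (Fin r → Fin h), θ q * ∑ u, if p.2 = q.2 u then z (q.1, Function.update q.2 u p.1) else 0

private theorem M6_lin {R : Type*} [CommRing R] (θ z : S × (Fin r → Fin h) → R)
    (x : Fin h × Fin h → R) :
    ∑ p, M6_cf θ z p * x p =
      ∑ q, θ q * (actS S r (Matrix.of fun i k => x (i, k))).mulVec z q := by
  have h1 : ∀ p, M6_cf θ z p * x p =
      ∑ q : S × (Fin r → Fin h), θ q * ∑ u, if p.2 = q.2 u then x p * z (q.1, Function.update q.2 u p.1) else 0 := by
    intro p
    rw [M6_cf, Finset.sum_mul]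
    refine Finset.sum_congr rfl fun q _ => ?_
    rw [mul_assoc, Finset.sum_mul]
    congr 1
    refine Finset.sum_congr rfl fun u _ => ?_
    split_ifs
    · ring
    · ring
  rw [Finset.sum_congr rfl fun p _ => h1 p, Finset.sum_comm]
  refine Finset.sum_congr rfl fun q _ => ?_
  have h2 : (actS S r (Matrix.of fun i k => x (i, k))).mulVec z q =
      ∑ u, ∑ m, (Matrix.of fun i k => x (i, k)) m (q.2 u) * z (q.1, Function.update q.2 u m) :=
    (actS_mulVec (Matrix.of fun i k => x (i, k)) z q.1 q.2).trans (actM_mulVec _ _ _)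
  rw [← Finset.mul_sum, h2, Finset.sum_comm]
  congr 1
  refine Finset.sum_congr rfl fun u _ => ?_
  rw [Fintype.sum_prod_type]
  refine Finset.sum_congr rfl fun m _ => ?_
  rw [Finset.sum_ite_eq' Finset.univ (q.2 u), if_pos (Finset.mem_univ _)]
  rfl

omit [DecidableEq S] in
private theorem M6_map {R R' : Type*} [CommRing R] [CommRing R'] (j : R →+* R')
    (θ z : S × (Fin r → Fin h) → R) (p : Fin h × Fin h) :
    j (M6_cf θ z p) = M6_cf (fun q => j (θ q)) (fun q => j (z q)) p := by
  rw [M6_cf, M6_cf, map_sum]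
  refine Finset.sum_congr rfl fun q _ => ?_
  rw [map_mul, map_sum]
  congr 1
  refine Finset.sum_congr rfl fun u _ => ?_
  split_ifs
  · rfl
  · exact map_zero j

/-- the skewness functional -/
private def M6_sk {R : Type*} [CommRing R] (G : Fin h → Fin h → R) (i k : Fin h)
    (p : Fin h × Fin h) : R :=
  (if p.2 = i then G p.1 k else 0) + if p.2 = k then G i p.1 else 0

private theorem M6_sum {R : Type*} [CommRing R] (G : Fin h → Fin h → R) (i k : Fin h)
    (x : Fin h × Fin h → R) :
    ∑ p, M6_sk G i k p * x p = (∑ m, G m k * x (m, i)) + ∑ m, G i m * x (m, k) := by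
  rw [Fintype.sum_prod_type, ← Finset.sum_add_distrib]
  refine Finset.sum_congr rfl fun m _ => ?_
  have h1 : ∀ n, M6_sk G i k (m, n) * x (m, n) =
      (if n = i then G m k * x (m, n) else 0) + if n = k then G i m * x (m, n) else 0 := by
    intro n
    simp only [M6_sk]
    split_ifs <;> ring
  rw [Finset.sum_congr rfl fun n _ => h1 n, Finset.sum_add_distrib,
    Finset.sum_ite_eq' Finset.univ i, Finset.sum_ite_eq' Finset.univ k,
    if_pos (Finset.mem_univ _), if_pos (Finset.mem_univ _)]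

private theorem M6_skmap {R R' : Type*} [CommRing R] [CommRing R'] (j : R →+* R')
    (G : Fin h → Fin h → R) (i k : Fin h) (p : Fin h × Fin h) :
    j (M6_sk G i k p) = M6_sk (fun i k => j (G i k)) i k p := by
  simp only [M6_sk]
  rw [map_add]
  split_ifs <;> simp only [map_zero]

private theorem M6_mt {K : Type*} [Field K] {M : Type*} [AddCommGroup M] [Module K M]
    (b : Module.Basis (Fin h) K M) (x : Fin h × Fin h → K) :
    mt b (Matrix.toLin b b (Matrix.of fun i k => x (i, k))) = x := by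
  funext p
  show b.repr (Matrix.toLin b b (Matrix.of fun i k => x (i, k)) (b p.2)) p.1 = x p
  rw [Matrix.toLin_self, b.repr_sum_self]
  rfl

/-- a matrix killed by all the functionals is in the stabiliser -/
private theorem M6_ker {K : Type u} [Field K] {M : Type u} [AddCommGroup M] [Module K M]
    (b : Module.Basis (Fin h) K M) (B : M →ₗ[K] M →ₗ[K] K)
    (W : Submodule K (TF K M S r)) (x : Fin h × Fin h → K)
    (h1 : ∀ ω ∈ W, ∀ θ : S × (Fin r → Fin h) → K, (∀ z ∈ W.map (arrS b), ∑ q, θ q * z q = 0) →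
      ∑ p, M6_cf θ (arrS b ω) p * x p = 0)
    (h2 : ∀ i k, ∑ p, M6_sk (fun i k => B (b i) (b k)) i k p * x p = 0) :
    x ∈ (stabT B W).map (mt b) := by
  refine Submodule.mem_map.2 ⟨Matrix.toLin b b (Matrix.of fun i k => x (i, k)), ?_, M6_mt b x⟩
  rw [mem_stabT]
  constructor
  · have h3 : B ∘ₗ Matrix.toLin b b (Matrix.of fun i k => x (i, k)) +
        B.compl₂ (Matrix.toLin b b (Matrix.of fun i k => x (i, k))) = 0 := by
      refine b.ext fun i => b.ext fun k => ?_
      have h4 := h2 i k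
      rw [M6_sum] at h4
      show B (Matrix.toLin b b (Matrix.of fun i k => x (i, k)) (b i)) (b k) +
        B (b i) (Matrix.toLin b b (Matrix.of fun i k => x (i, k)) (b k)) = 0
      rw [Matrix.toLin_self, Matrix.toLin_self, map_sum, map_sum, LinearMap.sum_apply, ← h4]
      congr 1
      · refine Finset.sum_congr rfl fun m _ => ?_
        rw [map_smul, LinearMap.smul_apply, smul_eq_mul, mul_comm]
        rfl
      · refine Finset.sum_congr rfl fun m _ => ?_
        rw [map_smul, smul_eq_mul, mul_comm]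
        rfl
    intro y z
    exact congrArg (fun f : M →ₗ[K] M →ₗ[K] K => f y z) h3
  · intro ω hω
    have h3 : (actS S r (Matrix.of fun i k => x (i, k))).mulVec (arrS b ω) ∈ W.map (arrS b) := by
      refine spanL_rat (RingHom.id K) _ _ ((mem_spanL_iff (RingHom.id K) _ _).2 fun ψ hψ => ?_)
      have h4 := h1 ω hω ψ hψ
      rw [M6_lin] at h4
      exact h4
    obtain ⟨ω', hω', h5⟩ := Submodule.mem_map.1 h3
    refine ⟨ω', hω', (arrS_dact b _ ω ω').2 ?_⟩
    rw [h5, M6_mt]

/-- the flatness of the pairing at a node gives skewness of the residue -/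
private theorem M6_skew (leib : ∀ (c : RatFunc κ) (x : Mo), nab (c • x) = DK κ c • x + c • nab x)
    (b : Module.Basis (Fin h) (RatFunc κ) Mo) (τ : κ) (S₁ : Lc (Fin h) κ) (hS : S₁.Ok)
    (hα : S₁.α = 0)
    (hΓ : ∀ i k, algebraMap (PowerSeries κ) (FractionRing (PowerSeries κ)) PowerSeries.X *
        jt τ (b.repr (nab (b k)) i) =
          algebraMap (PowerSeries κ) (FractionRing (PowerSeries κ)) (S₁.Γ i k))
    (B : Mo →ₗ[RatFunc κ] Mo →ₗ[RatFunc κ] RatFunc κ)
    (flat : ∀ x y, DK κ (B x y) = B (nab x) y + B x (nab y)) (halt : ∀ x y, B y x = -B x y)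
    (hnd : ∀ x, (∀ y, B x y = 0) → x = 0) (i k : Fin h) :
    (∑ m, jt τ (B (b m) (b k)) * algebraMap (PowerSeries κ) (FractionRing (PowerSeries κ))
        (S₁.a m * S₁.l i)) +
      ∑ m, jt τ (B (b i) (b m)) * algebraMap (PowerSeries κ) (FractionRing (PowerSeries κ))
        (S₁.a m * S₁.l k) = 0 := by
  obtain ⟨DX, hDX⟩ := exists_DX κ
  obtain ⟨B1, c, -, hB1, hB2⟩ := Lc.flat_B0 hS hDX hα
    (Matrix.of fun i k => jt τ (B (b i) (b k))) (by
      intro i k
      show algebraMap (PowerSeries κ) (FractionRing (PowerSeries κ)) PowerSeries.X *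
        DX (jt τ (B (b i) (b k))) =
        (∑ m, algebraMap (PowerSeries κ) (FractionRing (PowerSeries κ)) (S₁.Γ m i) *
          jt τ (B (b m) (b k))) +
        ∑ m, jt τ (B (b i) (b m)) *
          algebraMap (PowerSeries κ) (FractionRing (PowerSeries κ)) (S₁.Γ m k)
      rw [jt_DK hDX, coord_B b B flat, map_add, map_sum, map_sum, mul_add, Finset.mul_sum,
        Finset.mul_sum]
      congr 1
      · refine Finset.sum_congr rfl fun m _ => ?_
        rw [map_mul, ← mul_assoc, hΓ]
      · refine Finset.sum_congr rfl fun m _ => ?_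
        rw [map_mul, mul_left_comm, hΓ]) (by
      have h1 : (Matrix.of fun i k => jt τ (B (b i) (b k))) =
          (Matrix.of fun i k => B (b i) (b k)).map (jt τ) := rfl
      rw [h1, ← RingHom.mapMatrix_apply, ← RingHom.map_det, Ne, map_eq_zero]
      exact gram_det b B hnd)
  have hrow : ∀ i, ∑ m, jt τ (B (b i) (b m)) *
      algebraMap (PowerSeries κ) (FractionRing (PowerSeries κ)) (S₁.a m) =
      algebraMap (PowerSeries κ) (FractionRing (PowerSeries κ)) (PowerSeries.C c) *
        algebraMap (PowerSeries κ) (FractionRing (PowerSeries κ)) (S₁.l i) := by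
    intro i
    rw [← map_mul, ← hB2 i, map_sum]
    refine Finset.sum_congr rfl fun m _ => ?_
    rw [map_mul, ← hB1 i m]
    rfl
  have e1 : ∑ m, jt τ (B (b m) (b k)) *
      algebraMap (PowerSeries κ) (FractionRing (PowerSeries κ)) (S₁.a m * S₁.l i) =
      -((∑ m, jt τ (B (b k) (b m)) *
        algebraMap (PowerSeries κ) (FractionRing (PowerSeries κ)) (S₁.a m)) *
        algebraMap (PowerSeries κ) (FractionRing (PowerSeries κ)) (S₁.l i)) := by
    rw [Finset.sum_mul, ← Finset.sum_neg_distrib]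
    refine Finset.sum_congr rfl fun m _ => ?_
    rw [halt (b k) (b m), map_neg, map_mul]
    ring
  have e2 : ∑ m, jt τ (B (b i) (b m)) *
      algebraMap (PowerSeries κ) (FractionRing (PowerSeries κ)) (S₁.a m * S₁.l k) =
      (∑ m, jt τ (B (b i) (b m)) *
        algebraMap (PowerSeries κ) (FractionRing (PowerSeries κ)) (S₁.a m)) *
        algebraMap (PowerSeries κ) (FractionRing (PowerSeries κ)) (S₁.l k) := by
    rw [Finset.sum_mul]
    refine Finset.sum_congr rfl fun m _ => ?_
    rw [map_mul]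
    ring
  rw [e1, e2, hrow, hrow]
  ring

theorem stabT_node (leib : ∀ (c : RatFunc κ) (x : Mo), nab (c • x) = DK κ c • x + c • nab x)
    (b : Module.Basis (Fin h) (RatFunc κ) Mo) (τ : κ) (S₁ : Lc (Fin h) κ) (hS : S₁.Ok)
    (hα : S₁.α = 0)
    (hΓ : ∀ i k, algebraMap (PowerSeries κ) (FractionRing (PowerSeries κ)) PowerSeries.X *
        jt τ (b.repr (nab (b k)) i) =
          algebraMap (PowerSeries κ) (FractionRing (PowerSeries κ)) (S₁.Γ i k))
    (B : Mo →ₗ[RatFunc κ] Mo →ₗ[RatFunc κ] RatFunc κ)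
    (flat : ∀ x y, DK κ (B x y) = B (nab x) y + B x (nab y)) (halt : ∀ x y, B y x = -B x y)
    (hnd : ∀ x, (∀ y, B x y = 0) → x = 0)
    (W : Submodule (RatFunc κ) (TF (RatFunc κ) Mo S r))
    (hW : ∀ ω ∈ W, ∃ ω' ∈ W, ∀ (s : S) (v : Fin r → Mo),
      ω' s v = DK κ (ω s v) - ∑ u, ω s (Function.update v u (nab (v u)))) :
    (fun p : Fin h × Fin h => algebraMap (PowerSeries κ) (FractionRing (PowerSeries κ))
      (S₁.a p.1 * S₁.l p.2)) ∈ spanL (jt τ) ((stabT B W).map (mt b)) := by
  refine mem_spanL_of_ker (jt τ)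
    {φ | (∃ ω ∈ W, ∃ θ : S × (Fin r → Fin h) → RatFunc κ,
      (∀ z ∈ W.map (arrS b), ∑ q, θ q * z q = 0) ∧ φ = M6_cf θ (arrS b ω)) ∨
      ∃ i k, φ = M6_sk (fun i k => B (b i) (b k)) i k} _ ?_ _ ?_
  · intro x hx
    refine M6_ker b B W x ?_ ?_
    · intro ω hω θ hθ
      exact hx _ (Or.inl ⟨ω, hω, θ, hθ, rfl⟩)
    · intro i k
      exact hx _ (Or.inr ⟨i, k, rfl⟩)
  · rintro φ (⟨ω, hω, θ, hθ, rfl⟩ | ⟨i, k, rfl⟩)
    · rw [Finset.sum_congr rfl fun p _ => by rw [M6_map (jt τ) θ (arrS b ω) p], M6_lin]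
      have h1 : (fun q => jt τ (arrS b ω q)) ∈ spanL (jt τ) (W.map (arrS b)) :=
        Submodule.subset_span ⟨arrS b ω, Submodule.mem_map_of_mem hω, rfl⟩
      exact (mem_spanL_iff (jt τ) _ _).1 (node_actT leib b τ S₁ hS hα hΓ W hW _ h1) θ hθ
    · rw [Finset.sum_congr rfl fun p _ => by rw [M6_skmap (jt τ) _ i k p], M6_sum]
      exact M6_skew leib b τ S₁ hS hα hΓ B flat halt hnd i k

end MPadcPC
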