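import Pool.Agent.Lib.MP_adc574_ag_BN.SpN
import Pool.Agent.Lib.MP_adc574_ag_PC.M6

/-!
# M7 (copy of `MPadcBN.sp_stab`): a horizontal Lie algebra of skew endomorphisms which contains the residues is the symplectic Lie algebra
-/

set_option autoImplicit false

namespace MPadcPC

open MPadcLZ MPadcHM MPadcBM MPadcBN

universe u

variable {κ : Type u} [Field κ] [CharZero κ] {Mo : Type u} [AddCommGroup Mo]
  [Module (RatFunc κ) Mo] [Module (Polynomial κ) Mo] [IsScalarTower (Polynomial κ) (RatFunc κ) Mo]
  {nab : Mo →+ Mo} {n : ℕ}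

/-- The squares are in the stabiliser. -/
theorem sp_of_G [IsAlgClosed κ] [Module.Finite (RatFunc κ) Mo] [Nontrivial Mo]
    (leib : ∀ (c : RatFunc κ) (x : Mo), nab (c • x) = DK κ c • x + c • nab x)
    {E : Submodule (Polynomial κ) Mo} (fg : E.FG)
    (spn : ∀ x : Mo, ∃ q : Polynomial κ, q ≠ 0 ∧ q • x ∈ E)
    (b : Module.Basis (Fin n) (RatFunc κ) Mo) (hb : LB E b)
    {s : ℕ} {ι : Type} [Fintype ι] {g : ι → Mo} {w : ι → ℤ} (hI : InfOk κ nab s g w)
    (B : Mo →ₗ[RatFunc κ] Mo →ₗ[RatFunc κ] RatFunc κ)
    (flat : ∀ x y, DK κ (B x y) = B (nab x) y + B x (nab y)) (halt : ∀ x y, B y x = -B x y)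
    (hnd : ∀ x, (∀ y, B x y = 0) → x = 0)
    (irr : ∀ H' : Submodule (RatFunc κ) Mo, (∀ x ∈ H', nab x ∈ H') → H' = ⊥ ∨ H' = ⊤)
    (hloc : ∀ τ : κ, StabAt nab E τ ∨ ∃ S : Lc (Fin n) κ, LocN b nab τ S)
    (G : Submodule (RatFunc κ) (Module.End (RatFunc κ) Mo))
    (hsk0 : ∀ X ∈ G, ∀ x y, B (X x) y + B x (X y) = 0)
    (hlie : ∀ X ∈ G, ∀ Y ∈ G, X * Y - Y * X ∈ G)
    (hnab : ∀ X ∈ G, ∀ X' : Module.End (RatFunc κ) Mo, (∀ x, X' x = nab (X x) - X (nab x)) → X' ∈ G)
    (hres : ∀ (τ : κ) (S : Lc (Fin n) κ), LocN b nab τ S → resv S ∈ spanL (jt τ) (G.map (mt b)))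
    (x : Mo) : sq B x x ∈ G := by
  classical
  have hB0 : ∀ x, B x x = 0 := fun x => self_eq_neg.1 (halt x x)
  have hG : ∀ X ∈ G, ∃ X' ∈ G, ∀ x, X' x = nab (X x) - X (nab x) := by
    intro X hX
    obtain ⟨X', hX'⟩ := exists_com leib X
    exact ⟨X', hnab X hX X' hX', hX'⟩
  have hcomm := comm_scalar leib fg spn b hb hI B flat hnd irr G hG (fun τ => by
    rcases hloc τ with h | ⟨S, hS⟩
    · exact Or.inl h
    · exact Or.inr ⟨S, hS, hres τ S hS⟩)
  have hadj := dens (DK κ) nab leib irr G hG hcomm
  -- a node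
  obtain ⟨τ, hτ⟩ := exists_node leib fg spn hI B flat halt hnd irr
  obtain ⟨S, hS⟩ := (hloc τ).resolve_left hτ
  obtain ⟨DX, hDX⟩ := exists_DX κ
  have hcz : CharZero (FractionRing (PowerSeries κ)) := charZero_of_injective_ringHom (jt τ).injective
  -- the form over `L`
  set Bm : Matrix (Fin n) (Fin n) (FractionRing (PowerSeries κ)) :=
    Matrix.of fun i k => jt τ (B (b i) (b k)) with hBm
  have hdet : Bm.det ≠ 0 := by
    have h1 : Bm = (jt τ).mapMatrix (Matrix.of fun i k => B (b i) (b k)) := by
      ext i k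
      rfl
    rw [h1, ← RingHom.map_det, Ne, map_eq_zero_iff _ (jt τ).injective]
    exact gram_det b B hnd
  have hBD : ∀ i k, algebraMap (PowerSeries κ) (FractionRing (PowerSeries κ)) PowerSeries.X *
      DX (Bm i k) = (∑ m, algebraMap _ _ (S.Γ m i) * Bm m k) +
        ∑ m, Bm i m * algebraMap _ _ (S.Γ m k) := by
    intro i k
    have h1 : DX (Bm i k) = jt τ (DK κ (B (b i) (b k))) := jt_DK hDX τ _
    rw [h1, coord_B b B flat, map_add, map_sum, map_sum, mul_add, Finset.mul_sum, Finset.mul_sum]
    congr 1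
    · refine Finset.sum_congr rfl fun m _ => ?_
      rw [map_mul, ← mul_assoc, hS.2.2]
      rfl
    · refine Finset.sum_congr rfl fun m _ => ?_
      rw [map_mul, mul_left_comm, hS.2.2]
      rfl
  obtain ⟨B1, c, hc, hB1, hB1a⟩ := Lc.flat_B0 hS.1 hDX hS.2.1 Bm hBD hdet
  let β := bilL Bm
  have hβ : ∀ x y, β x y = ∑ i, ∑ k, x i * Bm i k * y k := bilL_apply Bm
  have hβs : ∀ x y, β y x = - β x y := by
    intro x y
    rw [hβ, hβ, Finset.sum_comm, ← Finset.sum_neg_distrib]
    refine Finset.sum_congr rfl fun k _ => ?_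
    rw [← Finset.sum_neg_distrib]
    refine Finset.sum_congr rfl fun i _ => ?_
    have h1 : Bm i k = - Bm k i := by
      change jt τ (B (b i) (b k)) = - jt τ (B (b k) (b i))
      rw [halt (b k) (b i), map_neg]
    rw [h1]
    ring
  have hβ0 : ∀ x, β x x = 0 := fun x => self_eq_neg.1 (hβs x x)
  have hβnd : ∀ x, (∀ y, β x y = 0) → x = 0 := by
    intro x hx
    by_contra hx0
    apply hdet
    refine Matrix.exists_vecMul_eq_zero_iff.1 ⟨x, hx0, ?_⟩
    funext k
    have h1 := hx (Pi.single k 1)
    rw [hβ] at h1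
    have h2 : ∀ i, ∑ k', x i * Bm i k' * (Pi.single k (1 : FractionRing (PowerSeries κ)) : Fin n → _) k' =
        x i * Bm i k := fun i => by
      rw [Finset.sum_eq_single k]
      · rw [Pi.single_eq_same, mul_one]
      · intro k' _ hk'
        rw [Pi.single_eq_of_ne hk', mul_zero]
      · intro h
        exact absurd (Finset.mem_univ _) h
    rw [Finset.sum_congr rfl fun i _ => h2 i] at h1
    exact h1
  -- `gL` is skew
  have hsk : ∀ X ∈ gL b τ G, ∀ x y, β (X x) y + β x (X y) = 0 := by
    let T : Submodule (FractionRing (PowerSeries κ))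
        (Module.End (FractionRing (PowerSeries κ)) (Fin n → FractionRing (PowerSeries κ))) :=
      { carrier := {X | ∀ x y, β (X x) y + β x (X y) = 0}
        zero_mem' := by
          intro x y
          rw [LinearMap.zero_apply, LinearMap.zero_apply, map_zero, map_zero,
            LinearMap.zero_apply, add_zero]
        add_mem' := by
          intro X Y hX hY x y
          rw [LinearMap.add_apply, LinearMap.add_apply, map_add, map_add, LinearMap.add_apply,
            add_add_add_comm, hX, hY, add_zero]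
        smul_mem' := by
          intro c X hX x y
          rw [LinearMap.smul_apply, LinearMap.smul_apply, map_smul, map_smul,
            LinearMap.smul_apply, ← smul_add, hX, smul_zero] }
    refine gL_ind T fun X hX => ?_
    intro x y
    have hXsk : ∀ i k, ∑ m, mt b X (m, i) * B (b m) (b k) +
        ∑ m, B (b i) (b m) * mt b X (m, k) = 0 := by
      intro i k
      have h1 := hsk0 X hX (b i) (b k)
      have h2 : ∀ k, X (b k) = ∑ m, mt b X (m, k) • b m := fun k => (b.sum_repr _).symm
      rw [h2 i, h2 k, map_sum, map_sum, LinearMap.sum_apply] at h1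
      simp only [map_smul, LinearMap.smul_apply, smul_eq_mul] at h1
      rw [← h1]
      congr 1
      exact Finset.sum_congr rfl fun m _ => mul_comm _ _
    have h1 : β (ofv (fun p => jt τ (mt b X p)) x) y =
        ∑ i, ∑ k, x i * (∑ m, jt τ (mt b X (m, i)) * Bm m k) * y k := by
      rw [hβ]
      have h2 : ∀ m k, ofv (fun p => jt τ (mt b X p)) x m * Bm m k * y k =
          ∑ i, x i * (jt τ (mt b X (m, i)) * Bm m k) * y k := fun m k => by
        rw [ofv_apply, Finset.sum_mul, Finset.sum_mul]
        exact Finset.sum_congr rfl fun i _ => by ring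
      rw [Finset.sum_congr rfl fun m _ => Finset.sum_congr rfl fun k _ => h2 m k]
      rw [Finset.sum_congr rfl fun m _ => Finset.sum_comm, Finset.sum_comm]
      refine Finset.sum_congr rfl fun i _ => ?_
      rw [Finset.sum_comm]
      refine Finset.sum_congr rfl fun k _ => ?_
      rw [Finset.mul_sum, Finset.sum_mul]
    have h3 : β x (ofv (fun p => jt τ (mt b X p)) y) =
        ∑ i, ∑ k, x i * (∑ m, Bm i m * jt τ (mt b X (m, k))) * y k := by
      rw [hβ]
      refine Finset.sum_congr rfl fun i _ => ?_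
      have h2 : ∀ m, x i * Bm i m * ofv (fun p => jt τ (mt b X p)) y m =
          ∑ k, x i * (Bm i m * jt τ (mt b X (m, k))) * y k := fun m => by
        rw [ofv_apply, Finset.mul_sum]
        exact Finset.sum_congr rfl fun k _ => by ring
      rw [Finset.sum_congr rfl fun m _ => h2 m, Finset.sum_comm]
      refine Finset.sum_congr rfl fun k _ => ?_
      rw [Finset.mul_sum, Finset.sum_mul]
    rw [h1, h3, ← Finset.sum_add_distrib]
    refine Finset.sum_eq_zero fun i _ => ?_
    rw [← Finset.sum_add_distrib]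
    refine Finset.sum_eq_zero fun k _ => ?_
    rw [← add_mul, ← mul_add]
    have h4 := congrArg (jt τ) (hXsk i k)
    rw [map_add, map_sum, map_sum, map_zero] at h4
    simp only [map_mul] at h4
    have h5 : (∑ m, jt τ (mt b X (m, i)) * Bm m k + ∑ m, Bm i m * jt τ (mt b X (m, k))) = 0 := h4
    rw [h5, mul_zero, zero_mul]
  -- the vector
  let v : Fin n → FractionRing (PowerSeries κ) := fun i => algebraMap _ _ (S.a i)
  have hinj := IsFractionRing.injective (PowerSeries κ) (FractionRing (PowerSeries κ))
  have hv : v ≠ 0 := by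
    obtain ⟨i, hi⟩ := hS.1.a0_ne
    intro h0
    have h1 : S.a i = 0 := hinj ((congrFun h0 i).trans (map_zero _).symm)
    apply hi
    rw [← hS.1.ha0, h1, map_zero]
  have hsqv : sq β v v = (2 * algebraMap _ (FractionRing (PowerSeries κ)) (PowerSeries.C c)) •
      ofv (resv S) := by
    refine LinearMap.ext fun x => funext fun i => ?_
    rw [sq_apply, LinearMap.smul_apply, Pi.add_apply, Pi.smul_apply, Pi.smul_apply, ofv_apply,
      smul_eq_mul, smul_eq_mul]
    have h1 : β x v = algebraMap _ _ (PowerSeries.C c) *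
        ∑ k, x k * algebraMap _ _ (S.l k) := by
      rw [hβ, Finset.mul_sum]
      refine Finset.sum_congr rfl fun k _ => ?_
      have h2 := congrArg (algebraMap (PowerSeries κ) (FractionRing (PowerSeries κ))) (hB1a k)
      rw [map_sum, map_mul] at h2
      calc ∑ k', x k * Bm k k' * v k' =
          x k * ∑ k', algebraMap (PowerSeries κ) (FractionRing (PowerSeries κ))
            (B1 k k' * S.a k') := by
            rw [Finset.mul_sum]
            refine Finset.sum_congr rfl fun k' _ => ?_
            rw [hB1, map_mul, mul_assoc]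
        _ = _ := by rw [h2]; ring
    have h3 : ∑ k, resv S (i, k) * x k = v i * ∑ k, x k * algebraMap _ _ (S.l k) := by
      rw [Finset.mul_sum]
      refine Finset.sum_congr rfl fun k _ => ?_
      change algebraMap _ _ (S.a i * S.l k) * x k = _
      rw [map_mul]
      ring
    rw [h1, h3]
    ring
  have hvg : sq β v v ∈ gL b τ G := by
    rw [hsqv]
    exact (gL b τ G).smul_mem _ (ofv_mem_gL.2 (hres τ S hS))
  -- generation
  have hgen : ∀ M : Submodule (FractionRing (PowerSeries κ)) (Fin n → FractionRing (PowerSeries κ)),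
      (∀ X ∈ gL b τ G, ∀ x ∈ M, X x ∈ M) → v ∈ M → M = ⊤ := by
    intro M hM hvM
    have hall : ∀ X : Module.End (RatFunc κ) Mo, ∀ x ∈ M,
        ofv (fun p => jt τ (mt b X p)) x ∈ M := by
      intro X
      have hX : X ∈ Algebra.adjoin (RatFunc κ) (G : Set (Module.End (RatFunc κ) Mo)) := by
        rw [hadj]
        exact Algebra.mem_top
      induction hX using Algebra.adjoin_induction with
      | mem X hX =>
        exact hM _ (ofv_mem_gL.2 (Submodule.subset_span ⟨_, ⟨X, hX, rfl⟩, rfl⟩))
      | algebraMap a =>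
        intro x hx
        have h1 : ofv (fun p => jt τ (mt b (algebraMap (RatFunc κ) (Module.End (RatFunc κ) Mo) a) p)) x =
            jt τ a • x := by
          funext i
          rw [ofv_apply, Pi.smul_apply, smul_eq_mul, Finset.sum_eq_single i]
          · change jt τ (b.repr (a • b i) i) * x i = _
            rw [map_smul, b.repr_self, Finsupp.smul_apply, Finsupp.single_eq_same, smul_eq_mul,
              mul_one]
          · intro k _ hk
            change jt τ (b.repr (a • b k) i) * x k = 0
            rw [map_smul, b.repr_self, Finsupp.smul_apply, Finsupp.single_eq_of_ne (Ne.symm hk),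
              smul_zero, map_zero, zero_mul]
          · intro h
            exact absurd (Finset.mem_univ _) h
        rw [h1]
        exact M.smul_mem _ hx
      | add X Y _ _ hX hY =>
        intro x hx
        have h1 : ofv (fun p => jt τ (mt b (X + Y) p)) x =
            ofv (fun p => jt τ (mt b X p)) x + ofv (fun p => jt τ (mt b Y p)) x := by
          funext i
          rw [Pi.add_apply, ofv_apply, ofv_apply, ofv_apply, ← Finset.sum_add_distrib]
          refine Finset.sum_congr rfl fun k _ => ?_
          rw [map_add (mt b), Pi.add_apply, map_add, add_mul]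
        rw [h1]
        exact M.add_mem (hX x hx) (hY x hx)
      | mul X Y _ _ hX hY =>
        intro x hx
        rw [← ofv_mt]
        exact hX _ (hY x hx)
    obtain ⟨k, hk⟩ : ∃ k, v k ≠ 0 := by
      by_contra h0
      push Not at h0
      exact hv (funext h0)
    rw [eq_top_iff]
    have hsing : ∀ i, (Pi.single i 1 : Fin n → FractionRing (PowerSeries κ)) ∈ M := by
      intro i
      let X : Module.End (RatFunc κ) Mo := (LinearMap.toSpanSingleton (RatFunc κ) Mo (b i)).comp
        (b.coord k)
      have h1 := hall X v hvM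
      have h2 : ofv (fun p => jt τ (mt b X p)) v = v k • Pi.single i 1 := by
        funext i'
        rw [ofv_apply, Finset.sum_eq_single k]
        · have h3 : mt b X (i', k) = (Pi.single i (1 : RatFunc κ) : Fin n → RatFunc κ) i' := by
            change b.repr (b.repr (b k) k • b i) i' = _
            rw [b.repr_self, Finsupp.single_eq_same, one_smul, b.repr_self,
              Finsupp.single_eq_pi_single]
          rw [h3, Pi.smul_apply, smul_eq_mul, mul_comm]
          congr 1
          by_cases hii : i' = i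
          · rw [hii, Pi.single_eq_same, Pi.single_eq_same, map_one]
          · rw [Pi.single_eq_of_ne hii, Pi.single_eq_of_ne hii, map_zero]
        · intro k' _ hk'
          have h3 : mt b X (i', k') = 0 := by
            change b.repr (b.repr (b k') k • b i) i' = _
            rw [b.repr_self, Finsupp.single_eq_of_ne (Ne.symm hk'), zero_smul, map_zero]
            rfl
          rw [h3, map_zero, zero_mul]
        · intro h
          exact absurd (Finset.mem_univ _) h
      rw [h2] at h1
      have h3 := M.smul_mem (v k)⁻¹ h1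
      rwa [smul_smul, inv_mul_cancel₀ hk, one_smul] at h3
    intro x _
    have h1 : x = ∑ i, x i • (Pi.single i 1 : Fin n → FractionRing (PowerSeries κ)) := by
      funext k'
      rw [Finset.sum_apply, Finset.sum_eq_single k']
      · rw [Pi.smul_apply, Pi.single_eq_same, smul_eq_mul, mul_one]
      · intro i _ hi
        rw [Pi.smul_apply, Pi.single_eq_of_ne (Ne.symm hi), smul_zero]
      · intro h
        exact absurd (Finset.mem_univ _) h
    rw [h1]
    exact M.sum_mem fun i _ => M.smul_mem _ (hsing i)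
  have hmain := lie_sp β hβ0 hβnd (gL b τ G) (gL_lie hlie) hsk v hv hvg hgen
  -- back to `K`
  let xl : Fin n → FractionRing (PowerSeries κ) := fun i => jt τ (b.repr x i)
  have h1 := hmain xl xl
  have h2 : sq β xl xl = ofv (fun p => jt τ (mt b (sq B x x) p)) := by
    refine LinearMap.pi_ext' fun k => LinearMap.ext_ring ?_
    funext i
    change sq β xl xl (Pi.single k 1) i = ofv (fun p => jt τ (mt b (sq B x x) p)) (Pi.single k 1) i
    have h3 := congrFun (ofv_single (fun p => jt τ (mt b (sq B x x) p))) (i, k)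
    rw [h3]
    have h4 : β (Pi.single k 1) xl = jt τ (B (b k) x) := by
      rw [hβ, Finset.sum_eq_single k]
      · have h5 : B (b k) x = ∑ m, B (b k) (b m) * b.repr x m := by
          have h6 : B (b k) x = B (b k) (∑ m, b.repr x m • b m) := by rw [b.sum_repr]
          rw [h6, map_sum]
          refine Finset.sum_congr rfl fun m _ => ?_
          rw [map_smul, smul_eq_mul, mul_comm]
        rw [h5, map_sum]
        refine Finset.sum_congr rfl fun m _ => ?_
        rw [Pi.single_eq_same, one_mul, map_mul]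
        rfl
      · intro i' _ hi'
        refine Finset.sum_eq_zero fun m _ => ?_
        rw [Pi.single_eq_of_ne hi', zero_mul, zero_mul]
      · intro h
        exact absurd (Finset.mem_univ _) h
    rw [sq_apply, Pi.add_apply, Pi.smul_apply, h4]
    change _ = jt τ (b.repr (sq B x x (b k)) i)
    rw [sq_apply, map_add, map_smul, Finsupp.add_apply, Finsupp.smul_apply, map_add, smul_eq_mul,
      smul_eq_mul, map_mul]
  rw [h2, ofv_mem_gL] at h1
  obtain ⟨X, hX, hXe⟩ := spanL_rat (jt τ) _ _ h1
  rw [← mt_inj b hXe]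
  exact hX

/-- The stabiliser of a horizontal space of families of multilinear forms contains the squares. -/
theorem sp_stabT [IsAlgClosed κ] [Module.Finite (RatFunc κ) Mo] [Nontrivial Mo]
    (leib : ∀ (c : RatFunc κ) (x : Mo), nab (c • x) = DK κ c • x + c • nab x)
    {E : Submodule (Polynomial κ) Mo} (fg : E.FG)
    (spn : ∀ x : Mo, ∃ q : Polynomial κ, q ≠ 0 ∧ q • x ∈ E)
    (b : Module.Basis (Fin n) (RatFunc κ) Mo) (hb : LB E b)
    {s : ℕ} {ι : Type} [Fintype ι] {g : ι → Mo} {w : ι → ℤ} (hI : InfOk κ nab s g w)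
    (B : Mo →ₗ[RatFunc κ] Mo →ₗ[RatFunc κ] RatFunc κ)
    (flat : ∀ x y, DK κ (B x y) = B (nab x) y + B x (nab y)) (halt : ∀ x y, B y x = -B x y)
    (hnd : ∀ x, (∀ y, B x y = 0) → x = 0)
    (irr : ∀ H' : Submodule (RatFunc κ) Mo, (∀ x ∈ H', nab x ∈ H') → H' = ⊥ ∨ H' = ⊤)
    (hloc : ∀ τ : κ, StabAt nab E τ ∨ ∃ S : Lc (Fin n) κ, LocN b nab τ S) {r : ℕ}
    {T : Type} [Fintype T] [DecidableEq T]
    (W : Submodule (RatFunc κ) (TF (RatFunc κ) Mo T r))
    (hW : ∀ ω ∈ W, ∃ ω' ∈ W, ∀ (t : T) (v : Fin r → Mo),
      ω' t v = DK κ (ω t v) - ∑ u, ω t (Function.update v u (nab (v u)))) (x : Mo) :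
    sq B x x ∈ stabT B W :=
  sp_of_G leib fg spn b hb hI B flat halt hnd irr hloc (stabT B W) (fun _ hX => (mem_stabT.1 hX).1)
    (stabT_lie B W) (fun X hX X' h => stabT_nab (fun a b => map_add _ a b) B flat W hW X hX X' h)
    (fun τ S₁ ⟨h1, h2, h3⟩ => stabT_node leib b τ S₁ h1 h2 h3 B flat halt hnd W hW) x

end MPadcPC
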