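import Pool.Agent.Lib.MP_adc574_ag_PC.N2
import Pool.Agent.Lib.MP_adc574_ag_PC.M7

/-!
# The multilinear forms of an array: definition
-/

set_option autoImplicit false

namespace MPadcPC

open Polynomial Matrix MPadcOA

/-- The family of multilinear forms of the array `φ`. -/
noncomputable def om {K : Type*} [Field K] {M : Type*} [AddCommGroup M] [Module K M] {g m : ℕ}
    (B : M →ₗ[K] M →ₗ[K] K) (e : Nx g → M) (φ : Kx g m → K) : TF K M (Fin m → Fin g) m := fun t =>
  ∑ l : Fin m → Nx g, φ (fun i => (t i, l i)) •
    (MultilinearMap.mkPiAlgebra K (Fin m) K).compLinearMap (fun i => B.flip (e (l i)))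

/-- A polynomial array over the field of rational functions. -/
noncomputable def ra {κ : Type*} [Field κ] {ι : Type*} (x : ι → κ[X]) : ι → RatFunc κ :=
  fun i => algebraMap κ[X] (RatFunc κ) (x i)

end MPadcPC
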