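import Pool.Agent.Lib.MP_adc574_ag_PC.FD
import Pool.Agent.Lib.MP_adc574_ag_OA.Defs

/-!
# Families of curves and frames: definitions
-/

set_option autoImplicit false

namespace MPadcPC

open Polynomial Matrix MPadcCov MPadcLF MPadcOA

/-- A symplectic system with an isotropic frame of horizontal vectors. -/
structure Fr (g : ℕ) (k : Type*) [Field k] where
  /-- the discriminant -/
  Δ : k[X]
  /-- the matrix of the system -/
  G : Matrix (Nx g) (Nx g) k[X]
  /-- the frame -/
  U : Matrix (Fin g) (Nx g) k[X]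

/-- The properties of the system. -/
structure Fr.Ok {g : ℕ} {k : Type*} [Field k] (D : Fr g k) (c : ℕ) : Prop where
  ne : D.Δ ≠ 0
  degD : D.Δ.natDegree ≤ c
  degG : ∀ i j, (D.G i j).natDegree ≤ c
  symp : D.G * JJ g k[X] + JJ g k[X] * D.Gᵀ = 0
  horU : ∀ i l, D.Δ * derivative (D.U i l) = (D.U * D.G) i l
  isoU : D.U * JJ g k[X] * D.Uᵀ = 0
  rkU : ∀ α : k, D.Δ.eval α ≠ 0 → LinearIndependent k fun i l => (D.U i l).eval α

/-- The genus. -/
abbrev gn (w n : ℕ) : ℕ := Fintype.card (Gx w n)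

/-- The numbering of the regular forms. -/
noncomputable def eG (w n : ℕ) : Gx w n ≃ Fin (gn w n) := Fintype.equivFin _

/-- The numbering of the basis of the cohomology. -/
noncomputable def eN (w n : ℕ) : IX w n ≃ Nx (gn w n) := Equiv.sumCongr (eG w n) (eG w n)

/-- A family of curves over the affine line over `A` with its Gauss–Manin connection. -/
structure Fam (A : Type*) [CommRing A] (w n : ℕ) where
  /-- the equation -/
  F : A[X][X][X]
  /-- the basis of the cohomology -/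
  η : IX w n → A[X][X][X]
  /-- the discriminant -/
  Δ : A[X]
  /-- the matrix of the connection -/
  G : Matrix (IX w n) (IX w n) A[X]

/-- The properties of the family. -/
structure Fam.Ok {A : Type*} [CommRing A] {w n : ℕ} (𝓕 : Fam A w n) : Prop where
  hn : 0 < n
  hw : 0 < w
  wt : Wt w n 𝓕.F
  hb : HB w n 𝓕.F 𝓕.η
  gm : IsGM (fun q : A[X] => derivative q) 𝓕.Δ 𝓕.F 𝓕.η 𝓕.G
  flat : 𝓕.G.transpose * J0 A[X] (Gx w n) + J0 A[X] (Gx w n) * 𝓕.G = 0
  sm : Sm 𝓕.F 𝓕.Δ
  tp : Tp w n 𝓕.F 𝓕.Δ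

/-- The matrix of the connection in the coordinates `Nx g`. -/
noncomputable def Gm {R : Type*} {w n : ℕ} (G : Matrix (IX w n) (IX w n) R) : Matrix (Nx (gn w n)) (Nx (gn w n)) R :=
  fun i j => G ((eN w n).symm i) ((eN w n).symm j)

/-- The frame in the coordinates `Nx g`. -/
noncomputable def Um {R : Type*} [CommRing R] {w n : ℕ} (p : ℕ) (F : R[X][X]) (η : IX w n → R[X][X]) :
    Matrix (Fin (gn w n)) (Nx (gn w n)) R :=
  fun i l => tp p F ((eG w n).symm i) (η ((eN w n).symm l))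

/-- The system with frame of the family over the field `k`. -/
noncomputable def Fam.fr {A : Type*} [CommRing A] {w n : ℕ} (𝓕 : Fam A w n) {k : Type*} [Field k] (p : ℕ)
    (ψ : A →+* k) : Fr (gn w n) k where
  Δ := 𝓕.Δ.map ψ
  G := Gm (𝓕.G.map (mapRingHom ψ))
  U := Um p (mp (mapRingHom ψ) 𝓕.F) fun a => mp (mapRingHom ψ) (𝓕.η a)

/-- The curve at `τ`. -/
noncomputable def Fam.at {A : Type*} [CommRing A] {w n : ℕ} (𝓕 : Fam A w n) {k : Type*} [CommRing k]
    (ψ : A →+* k) (τ : k) : k[X][X] :=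
  mp (eval₂RingHom ψ τ) 𝓕.F

end MPadcPC
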