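import Pool.Agent.Lib.MP_adc574_ag_OA.N_V3
import Pool.Agent.Lib.MP_adc574_ag_OA.N_V4
import Pool.Agent.Lib.MP_adc574_ag_OA.N_P1
import Pool.Agent.Lib.MP_adc574_ag_OA.N_Z0
import Pool.Agent.Lib.MP_adc574_ag_OA.N_Z2
import Pool.Agent.Lib.MP_adc574_ag_PC.FR

/-!
# N1: forms which vanish to high order at a frame, and the frame over the ultraproduct (copies of OA/N_V3, OA/N_V4 for `Fr`)
-/

set_option autoImplicit false

namespace MPadcPC

open Polynomial Matrix MPadcGM MPadcOA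

/-- Proof. `WS_induction` with `Z ξ := ∃ e, ∀ᶠ n in HF, (X - C (α n)) ^ (p n - e) ∣ ev (D n).U (fun s => rp (ξ s) n)`. `Φ'`: `e = 0` (`hΦ`, `hdvd`). `Van ξ`: `rp_van`, `ev_van_U`
(`(hD n).isoU`, `(hD n).rkU`). Sum: `rp_add` for all `s` (`Filter.eventually_all`), `ev_add`, `e = max`, `pow_dvd_pow`. `a • ξ`: `rp_mul`, `ev_smul`. `opD`: `rp_opD`, `hΔ`, `hG`,
`ev_opD` with `(hD n).horU`: `ev U (opD Δ G φ) = Δ * derivative (ev U φ)`, `pow_dvd_der`, `e + 1`. Division by `d ≠ 0`: `rp (d * ξ s) n = rp d n * rp (ξ s) n`, `rp_ne_zero`,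
`rp_natDegree`, `ev_smul`, `pow_dvd_of_mul` with `d.natDegree`: `e + d.natDegree`. -/
theorem vanish_ord2 {k : ℕ → Type} [∀ n, Field (k n)] {g m c : ℕ} (p : ℕ → ℕ) (D : ∀ n, Fr g (k n))
    (hD : ∀ n, (D n).Ok c) (Φ : ∀ n, Kx g m → (k n)[X]) (α : ∀ n, k n) (hα : ∀ n, (D n).Δ.eval (α n) ≠ 0)
    (hdvd : ∀ n, (X - C (α n)) ^ p n ∣ ev (D n).U (Φ n)) (Δ' : (LL k)[X]) (G' : Matrix (Nx g) (Nx g) (LL k)[X])
    (Φ' : Kx g m → (LL k)[X]) (hΔ : ∀ᶠ n in HF, rp Δ' n = (D n).Δ) (hG : ∀ᶠ n in HF, mr G' n = (D n).G)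
    (hΦ : ∀ᶠ n in HF, (fun s => rp (Φ' s) n) = Φ n) (ξ : Kx g m → (LL k)[X]) (hξ : ξ ∈ WS Δ' G' Φ') :
    ∃ e : ℕ, ∀ᶠ n in HF, (X - C (α n)) ^ (p n - e) ∣ ev (D n).U (fun s => rp (ξ s) n) := by
  have key : ∀ ξ : Kx g m → (LL k)[X], ξ ∈ WS Δ' G' Φ' →
      (fun ξ : Kx g m → (LL k)[X] => ∃ e : ℕ, ∀ᶠ n in HF,
        (X - C (α n)) ^ (p n - e) ∣ ev (D n).U (fun s => rp (ξ s) n)) ξ := by
    apply WS_induction
    · refine ⟨0, ?_⟩
      filter_upwards [hΦ] with n hn
      rw [hn, Nat.sub_zero]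
      exact hdvd n
    · intro x hx
      refine ⟨0, ?_⟩
      have h0 := rp_van hx
      filter_upwards [h0] with n hn
      rw [ev_van_U (D n).U (hD n).isoU (α n) ((hD n).rkU _ (hα n)) hn]
      exact dvd_zero _
    · rintro x y ⟨e, h⟩ ⟨e', h'⟩
      refine ⟨max e e', ?_⟩
      have h0 : ∀ᶠ n in HF, ∀ s, rp (x s + y s) n = rp (x s) n + rp (y s) n :=
        Filter.eventually_all.2 fun s => rp_add (x s) (y s)
      filter_upwards [h, h', h0] with n h1 h2 h3
      have h4 : (fun s => rp ((x + y) s) n) = (fun s => rp (x s) n) + fun s => rp (y s) n :=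
        funext h3
      rw [h4, ev_add]
      exact dvd_add ((pow_dvd_pow _ (Nat.sub_le_sub_left (le_max_left e e') _)).trans h1)
        ((pow_dvd_pow _ (Nat.sub_le_sub_left (le_max_right e e') _)).trans h2)
    · rintro a x ⟨e, h⟩
      refine ⟨e, ?_⟩
      have h0 : ∀ᶠ n in HF, ∀ s, rp (a * x s) n = rp a n * rp (x s) n :=
        Filter.eventually_all.2 fun s => rp_mul a (x s)
      filter_upwards [h, h0] with n h1 h3
      have h4 : (fun s => rp ((a • x) s) n) = rp a n • fun s => rp (x s) n := by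
        funext s
        exact h3 s
      rw [h4, ev_smul]
      exact dvd_mul_of_dvd_right h1 _
    · rintro x ⟨e, h⟩
      refine ⟨e + 1, ?_⟩
      have h0 := rp_opD Δ' G' x
      filter_upwards [h, h0, hΔ, hG] with n h1 h2 h3 h4
      rw [h2, h3, h4, ← ev_opD (D n).Δ (D n).G (D n).U (hD n).horU, ← Nat.sub_sub]
      exact dvd_mul_of_dvd_right (pow_dvd_der (α n) _ _ h1) _
    · rintro d x hd ⟨e, h⟩
      refine ⟨e + d.natDegree, ?_⟩
      have h0 : ∀ᶠ n in HF, ∀ s, rp (d * x s) n = rp d n * rp (x s) n :=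
        Filter.eventually_all.2 fun s => rp_mul d (x s)
      have h0' : ∀ᶠ n in HF, rp d n ≠ 0 := rp_ne_zero hd
      filter_upwards [h, h0, h0'] with n h1 h3 h5
      have h4 : (fun s => rp ((d • x) s) n) = rp d n • fun s => rp (x s) n := by
        funext s
        exact h3 s
      rw [h4, ev_smul] at h1
      rw [← Nat.sub_sub]
      exact pow_dvd_of_mul (α n) (p n - e) d.natDegree (rp d n) _ h5 (rp_natDegree d n) h1
  exact key ξ hξ

variable {k : ℕ → Type} [∀ n, Field (k n)]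

/-- The frame `U(α)` over the ultraproduct. -/
noncomputable def Ub {g : ℕ} (D : ∀ n, Fr g (k n)) (α : ∀ n, k n) : Matrix (Fin g) (Nx g) (LL k) :=
  fun i l => cl fun n => ((D n).U i l).eval (α n)

/-- the frame over the product ring -/
private noncomputable def N1_U {g : ℕ} (D : ∀ n, Fr g (k n)) (α : ∀ n, k n) : Matrix (Fin g) (Nx g) (∀ n, k n) :=
  fun i l n => ((D n).U i l).eval (α n)

private theorem N1_JJ {R S : Type*} [CommRing R] [CommRing S] (g : ℕ) (f : R →+* S) : (JJ g R).map f = JJ g S := by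
  unfold JJ
  rw [Matrix.fromBlocks_map]
  congr 1
  · exact Matrix.map_zero _ (map_zero f)
  · exact Matrix.map_one _ (map_zero f) (map_one f)
  · ext i j
    simp only [Matrix.map_apply, Matrix.neg_apply, map_neg]
    rw [Matrix.one_apply, Matrix.one_apply]
    split_ifs
    · rw [map_one]
    · rw [map_zero]
  · exact Matrix.map_zero _ (map_zero f)

private theorem N1_ua {g : ℕ} (D : ∀ n, Fr g (k n)) (α : ∀ n, k n) :
    (N1_U D α).map (ultMk (Filter.hyperfilter ℕ) k) = Ub D α := rfl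

private theorem N1_un {g : ℕ} (D : ∀ n, Fr g (k n)) (α : ∀ n, k n) (n : ℕ) :
    (N1_U D α).map (Pi.evalRingHom k n) = (D n).U.map (evalRingHom (α n)) := rfl

/-- Proof. Eventually `1 ≤ p n - e` (`ev_large`), so `ev (D n).U (..)` vanishes at `α n` (`dvd_iff_isRoot`, `dvd_trans (dvd_pow_self ..)`). `ev_map` with `evalRingHom (α n)`; then `ev_map` for the ring
homomorphism `ultMk` (whose value is `cl`) from `∀ n, k n` (`ev` over the product ring is computed at every place: `ev_map` for `Pi.evalRingHom`), and `rp_eval`. -/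
theorem ev_Ub {g m c : ℕ} (p : ℕ → ℕ) (hp : ∀ n, n ≤ p n) (D : ∀ n, Fr g (k n)) (hD : ∀ n, (D n).Ok c) (α : ∀ n, k n)
    (ξ : Kx g m → (LL k)[X]) (h : ∃ e : ℕ, ∀ᶠ n in HF, (X - C (α n)) ^ (p n - e) ∣ ev (D n).U (fun s => rp (ξ s) n)) :
    ev (Ub D α) (fun s => (ξ s).eval (cl α)) = 0 := by
  obtain ⟨e, he⟩ := h
  have h1 : (fun s => (ξ s).eval (cl α)) = fun s =>
      ultMk (Filter.hyperfilter ℕ) k (fun n => (rp (ξ s) n).eval (α n)) := by
    funext s
    exact (rp_eval (ξ s) α).symm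
  rw [h1, ← N1_ua, ← ev_map (ultMk (Filter.hyperfilter ℕ) k) (N1_U D α)
    (fun s => fun n => (rp (ξ s) n).eval (α n)), ultMk_eq_zero]
  filter_upwards [he, ev_large p hp e] with n hn hn'
  have h2 := ev_map (Pi.evalRingHom k n) (N1_U D α) (fun s : Kx g m => fun n => (rp (ξ s) n).eval (α n))
  rw [N1_un] at h2
  have h3 := ev_map (evalRingHom (α n)) (D n).U (fun s => rp (ξ s) n)
  refine (h2.trans h3.symm).trans ?_
  have h4 : (X - C (α n)) ∣ ev (D n).U (fun s => rp (ξ s) n) :=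
    (dvd_pow_self _ (by omega)).trans hn
  exact dvd_iff_isRoot.1 h4

/-- Proof. The entry `i, j` of the left side is `cl` of the family of the values at `α n` of the entries of `(D n).U * JJ * (D n).Uᵀ` (finite sums and products). -/
theorem iso_Ub {g c : ℕ} (D : ∀ n, Fr g (k n)) (hD : ∀ n, (D n).Ok c) (α : ∀ n, k n) :
    Ub D α * JJ g (LL k) * (Ub D α)ᵀ = 0 := by
  have h0 : N1_U D α * JJ g (∀ n, k n) * (N1_U D α)ᵀ = 0 := by
    ext i j n
    have h1 : ((N1_U D α * JJ g (∀ n, k n) * (N1_U D α)ᵀ).map (Pi.evalRingHom k n)) = 0 := by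
      rw [Matrix.map_mul, Matrix.map_mul, N1_JJ, Matrix.transpose_map, N1_un, ← Matrix.transpose_map,
        ← N1_JJ g (evalRingHom (α n)), ← Matrix.map_mul, ← Matrix.map_mul, (hD n).isoU]
      exact Matrix.map_zero _ (map_zero _)
    exact congrFun (congrFun h1 i) j
  have h2 := congrArg (fun M => Matrix.map M (ultMk (Filter.hyperfilter ℕ) k)) h0
  beta_reduce at h2
  rw [Matrix.map_mul, Matrix.map_mul, N1_JJ, Matrix.transpose_map, N1_ua] at h2
  exact h2.trans (Matrix.map_zero _ (map_zero _))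

/-- Proof. `li_iff_inv`: choose `V n` with `U_n(α n) * V n = 1`; then `Ub D α * (fun l i => cl (fun n => V n l i)) = 1`. -/
theorem li_Ub {g c : ℕ} (D : ∀ n, Fr g (k n)) (hD : ∀ n, (D n).Ok c) (α : ∀ n, k n)
    (hα : ∀ n, (D n).Δ.eval (α n) ≠ 0) : LinearIndependent (LL k) fun i => Ub D α i := by
  have h1 : ∀ n, ∃ V : Matrix (Nx g) (Fin g) (k n), (D n).U.map (evalRingHom (α n)) * V = 1 := fun n =>
    (li_iff_inv _).1 ((hD n).rkU (α n) (hα n))
  choose V hV using h1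
  refine (li_iff_inv _).2 ⟨fun l i => cl fun n => V n l i, ?_⟩
  obtain ⟨W, hW⟩ : ∃ W : Matrix (Nx g) (Fin g) (∀ n, k n), W = fun l i n => V n l i := ⟨_, rfl⟩
  have h0 : N1_U D α * W = 1 := by
    ext i j n
    have h2 : ((N1_U D α * W).map (Pi.evalRingHom k n)) = (1 : Matrix (Fin g) (Fin g) (∀ n, k n)).map (Pi.evalRingHom k n) := by
      rw [Matrix.map_mul, N1_un, hW]
      refine (hV n).trans ?_
      exact (Matrix.map_one _ (map_zero _) (map_one _)).symm
    exact congrFun (congrFun h2 i) j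
  have h2 := congrArg (fun M => Matrix.map M (ultMk (Filter.hyperfilter ℕ) k)) h0
  beta_reduce at h2
  rw [Matrix.map_mul, N1_ua, hW] at h2
  exact h2.trans (Matrix.map_one _ (map_zero _) (map_one _))

end MPadcPC
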