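import Pool.Agent.Lib.MP_adc574_ag_PC.U1
import Pool.Agent.Lib.MP_adc574_ag_BN.BigL
import Pool.Agent.Lib.MP_adc574_ag_LZ.KeyZ

/-!
# K6: three small statements

PROOF of `infw_morse`: the proof of `key_morse` in MP_adc574_ag_LZ/KeyZ.lean (from `inf_morse`) without its first line.
PROOF of `af_fk`: `fk_eq S : S.FK = G.map - C t * H.map` (`t = RatFunc.X`), `af` commutes with the coefficient maps: `af K (P.map φ) = mp φ (af R P)` (both sides are ring homomorphisms in `P`), and
`af (X 2 ^ d) = 1`; `mp (algebraMap ..) (mp C P) = mp (algebraMap κ K) P`.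
PROOF of `symp_gm`: see the private theorem `F9_symp` in F9.lean: `Gm G` is `G` reindexed by `eN` and `J0` becomes `- JJ`; `G^T J0 + J0 G = 0` multiplied by `J0` from both sides is
`G J0 + J0 G^T = 0`.
-/

set_option autoImplicit false

namespace MPadcPC

open Polynomial Matrix MPadcLF MPadcLZ MPadcHM MPadcOA

universe u

private theorem K6_map {R R' : Type*} [CommRing R] [CommRing R'] (φ : R →+* R') (P : MvPolynomial (Fin 3) R) :
    af R' (MvPolynomial.map φ P) = mp φ (af R P) := by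
  induction P using MvPolynomial.induction_on with
  | C a =>
    rw [MvPolynomial.map_C]
    unfold af
    rw [MvPolynomial.aeval_C, MvPolynomial.aeval_C]
    exact (mp_cc φ a).symm
  | add p q hp hq => rw [map_add, map_add, map_add, map_add, hp, hq]
  | mul_X p i hp =>
    rw [map_mul, map_mul, map_mul, map_mul, hp, MvPolynomial.map_X]
    unfold af
    rw [MvPolynomial.aeval_X, MvPolynomial.aeval_X]
    have h1 : (![C X, X, 1] : Fin 3 → R'[X][X]) i = mp φ ((![C X, X, 1] : Fin 3 → R[X][X]) i) := by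
      fin_cases i
      · show C X = mp φ (C X)
        simp [mp]
      · show X = mp φ X
        simp [mp]
      · show 1 = mp φ 1
        rw [map_one]
    rw [h1]

private theorem K6_cast {γ δ : Type} [Fintype γ] [DecidableEq γ] [Fintype δ] [DecidableEq δ] (e : γ ≃ δ) (R : Type*) [CommRing R] :
    ((Matrix.fromBlocks 0 1 (-1) 0 : Matrix (γ ⊕ γ) (γ ⊕ γ) R).submatrix (Equiv.sumCongr e e).symm (Equiv.sumCongr e e).symm) =
      (Matrix.fromBlocks 0 1 (-1) 0 : Matrix (δ ⊕ δ) (δ ⊕ δ) R) := by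
  ext i j
  rcases i with i | i <;> rcases j with j | j
  · rfl
  · show (1 : Matrix γ γ R) (e.symm i) (e.symm j) = (1 : Matrix δ δ R) i j
    rw [Matrix.one_apply, Matrix.one_apply]
    by_cases h : i = j
    · rw [if_pos h, if_pos (congrArg e.symm h)]
    · rw [if_neg h, if_neg fun h' => h (e.symm.injective h')]
  · show (-1 : Matrix γ γ R) (e.symm i) (e.symm j) = (-1 : Matrix δ δ R) i j
    rw [Matrix.neg_apply, Matrix.neg_apply, Matrix.one_apply, Matrix.one_apply]
    by_cases h : i = j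
    · rw [if_pos h, if_pos (congrArg e.symm h)]
    · rw [if_neg h, if_neg fun h' => h (e.symm.injective h')]
  · rfl

private theorem K6_neg (γ : Type) [DecidableEq γ] (R : Type*) [CommRing R] :
    J0 R γ = -(Matrix.fromBlocks 0 1 (-1) 0 : Matrix (γ ⊕ γ) (γ ⊕ γ) R) := by
  unfold J0
  rw [Matrix.fromBlocks_neg, neg_zero, neg_neg]

private theorem K6_sq (γ : Type) [Fintype γ] [DecidableEq γ] (R : Type*) [CommRing R] :
    (Matrix.fromBlocks 0 1 (-1) 0 : Matrix (γ ⊕ γ) (γ ⊕ γ) R) * Matrix.fromBlocks 0 1 (-1) 0 = -1 := by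
  rw [Matrix.fromBlocks_multiply, ← Matrix.fromBlocks_one, Matrix.fromBlocks_neg]
  simp

private theorem K6_symp {γ : Type} [Fintype γ] [DecidableEq γ] {R : Type*} [CommRing R] (G : Matrix (γ ⊕ γ) (γ ⊕ γ) R)
    (h : G.transpose * J0 R γ + J0 R γ * G = 0) :
    G * Matrix.fromBlocks 0 1 (-1) 0 + Matrix.fromBlocks 0 1 (-1) 0 * G.transpose = 0 := by
  rw [K6_neg] at h
  generalize hJ : (Matrix.fromBlocks 0 1 (-1) 0 : Matrix (γ ⊕ γ) (γ ⊕ γ) R) = J at h ⊢
  have hsq : J * J = -1 := by rw [← hJ]; exact K6_sq γ R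
  have h1 : J * (G.transpose * -J + -J * G) * J = 0 := by rw [h, Matrix.mul_zero, Matrix.zero_mul]
  have h2 : J * (G.transpose * -J + -J * G) * J = -(J * G.transpose * (J * J)) - (J * J) * G * J := by
    noncomm_ring
  rw [h2, hsq] at h1
  have h3 : -(J * G.transpose * -1) - -1 * G * J = G * J + J * G.transpose := by
    noncomm_ring
  rw [h3] at h1
  exact h1

theorem infw_morse {κ : Type u} [Field κ] [CharZero κ] [IsAlgClosed κ] {N : ℕ} (S : PDat κ N) (hS : S.Ok) (i₀ : Fin N)
    (hH : S.H = MvPolynomial.X i₀ ^ S.d)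
    (hG0 : ∀ e : Fin N →₀ ℕ, S.M ≤ dg e → MvPolynomial.monomial e (1 : κ) ∈
      Ideal.span ({P | ∃ i, i ≠ i₀ ∧ P = MvPolynomial.pderiv i S.G} ∪ {MvPolynomial.X i₀}))
    (nab : PKm S.d S.FK →+ PKm S.d S.FK) (hG : IsHG S nab (brP S.d S.FK)) :
    ∃ s r g w W, InfW S nab (brP S.d S.FK) s r g w W := by
  classical
  obtain ⟨r, g, w, hO, hV⟩ := inf_morse S hS i₀ hH hG0 hG
  refine ⟨S.d, r, g, w, fun e => e i₀ + 1, hO, fun e he => hV e he, fun e he => ?_,
    fun u v hu huv h => ?_⟩
  · show 1 ≤ e i₀ + 1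
    omega
  · obtain ⟨i, c, hc⟩ := h
    show S.d < u i₀ + 1 + (v i₀ + 1)
    have h1 : S.d ≤ (u + v) i₀ + 1 := by
      by_contra h2
      push Not at h2
      rw [MvPolynomial.mem_support_iff] at hc
      apply hc
      rw [hH, MvPolynomial.pderiv_pow, MvPolynomial.pderiv_X, Pi.single_apply]
      split_ifs with h3
      · have h4 : (MvPolynomial.monomial c (1 : κ)) * (((S.d : ℕ) : MvPolynomial (Fin N) κ) *
            MvPolynomial.X i₀ ^ (S.d - 1) * 1) =
            MvPolynomial.C ((S.d : ℕ) : κ) * (MvPolynomial.monomial c 1 * MvPolynomial.X i₀ ^ (S.d - 1)) := by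
          rw [map_natCast]
          ring
        rw [h4, MvPolynomial.coeff_C_mul, MvPolynomial.X_pow_eq_monomial, MvPolynomial.monomial_mul,
          MvPolynomial.coeff_monomial, if_neg, mul_zero]
        intro h5
        have h6 := congrArg (fun f => f i₀) h5
        simp only [Finsupp.add_apply, Finsupp.single_eq_same] at h6
        rw [Finsupp.add_apply] at h2
        omega
      · rw [mul_zero, mul_zero, MvPolynomial.coeff_zero]
    rw [Finsupp.add_apply] at h1
    omega

theorem af_fk {κ : Type u} [Field κ] (S : PDat κ 3) (hH : S.H = MvPolynomial.X 2 ^ S.d) :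
    af (RatFunc κ) S.FK = mp (algebraMap κ[X] (RatFunc κ)) (mp C (af κ S.G) - cc X) := by
  unfold PDat.FK
  rw [K6_map]
  apply congrArg
  unfold PDat.ft
  rw [hH, map_pow, MvPolynomial.map_X, map_sub, map_mul, map_pow, K6_map]
  have h1 : af κ[X] (MvPolynomial.X 2) = 1 := by
    unfold af
    rw [MvPolynomial.aeval_X]
    rfl
  have h2 : af κ[X] (MvPolynomial.C X) = cc X := by
    unfold af
    rw [MvPolynomial.aeval_C]
    rfl
  rw [h1, h2, one_pow, mul_one]

theorem symp_gm {R : Type*} [CommRing R] {w n : ℕ} (G : Matrix (IX w n) (IX w n) R)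
    (flat : G.transpose * J0 R (Gx w n) + J0 R (Gx w n) * G = 0) :
    Gm G * JJ (gn w n) R + JJ (gn w n) R * (Gm G)ᵀ = 0 := by
  have h4 := K6_symp G flat
  have h5 := congrArg (fun M => Matrix.submatrix M (eN w n).symm (eN w n).symm) h4
  simp only [Matrix.submatrix_add, Matrix.submatrix_zero] at h5
  have h6 : (Matrix.fromBlocks 0 1 (-1) 0 : Matrix (Gx w n ⊕ Gx w n) (Gx w n ⊕ Gx w n) R).submatrix (eN w n).symm (eN w n).symm =
      JJ (gn w n) R := K6_cast (eG w n) R
  have h7 : Gm G = G.submatrix (eN w n).symm (eN w n).symm := rfl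
  rw [h7, ← h6, Matrix.transpose_submatrix, Matrix.submatrix_mul_equiv, Matrix.submatrix_mul_equiv]
  exact h5

end MPadcPC
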