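import Pool.Agent.Lib.MP_adc574_ag_PC.L2
import Pool.Agent.Lib.MP_adc574_ag_PC.L3

/-!
# L4: big monodromy on the arrays

PROOF. Let `K = RatFunc κ`, `a = algebraMap κ[X] K`. `exists_B0` (with `Δ := a Δ`, `G := G.map a`, `symp` mapped) gives `B`. Let `m`, `W` with `hsat`, `hD` be given (definition of `Big`)
and `W' = Submodule.span K {ω | ∃ x ∈ W, ω = om B e (ra x)}`, a submodule of `TF K Mo (Fin m → Fin g) m`.
(1) `W'` satisfies the hypothesis `hW` of `sp_stabT`: for `ω = om B e (ra x)` take `ω' = (a Δ)⁻¹ • om B e (ra (opD Δ G x))` (`om_nab_pol`, `hD`); sums and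
multiples: for `c • ω` take `DK κ c • ω + c • ω'` (`Submodule.span_induction`; `DK κ` is a derivation, `ω` is multilinear). So
`sq B x x ∈ stabT B W'` for all `x` by `sp_stabT` (`leib fg spn b hb hI B flat halt hnd irr hloc`, with `T = (Fin m → Fin g)`, `r = m`; `Module.Finite` and `Nontrivial` from `e`: needs
`0 < g`). Since `sq B (x + y) (x + y) = sq B x x + sq B y y + 2 • sq B x y` and `2 ≠ 0`, `sq B x y ∈ stabT B W'` for all `x y`.
(2) Let `u v : Nx g → κ`, `x ∈ W`. Put `yu = ∑ l, (JJ g K *ᵥ fun l => a (C (u l))) l • e l`, `yv` similarly. Then `B (e l) yu = - ∑ l', JJ l l' * (JJ *ᵥ u) l' = a (C (u l))` (`JJ * JJ = -1`), so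
`sq B yu yv (e l) = u_l • yv + v_l • yu = ∑ l', (tr u v) l' l • e l'` (`sq_apply`, definition of `tr`, over `K` with `u`, `v` mapped). By `mem_stabT` and `om_act`:
there is `ω' ∈ W'` with `ω' = - om B e (KS (tr u v) *ᵥ ra x) = - om B e (ra (KS (tr (C u) (C v)) *ᵥ x))`. Every element of `W'` is `om B e φ` with
`φ ∈ span K {ra y | y ∈ W}` (`om_add`, `om_smul`, span induction), so by `om_inj` (`om B e` of the difference is 0) `ra (KS .. *ᵥ x)` is in that span, and by `span_clear` and `hsat` the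
array `KS .. *ᵥ x` is in `W`.
-/

set_option autoImplicit false

namespace MPadcPC

open Polynomial Matrix MPadcOA MPadcHM MPadcLZ MPadcBM MPadcBN

universe u

private noncomputable def L4_OM {K : Type*} [Field K] {M : Type*} [AddCommGroup M] [Module K M] {g m : ℕ}
    (B : M →ₗ[K] M →ₗ[K] K) (e : Nx g → M) : (Kx g m → K) →ₗ[K] TF K M (Fin m → Fin g) m where
  toFun φ := om B e φ
  map_add' φ ψ := om_add B e φ ψ
  map_smul' c φ := om_smul B e c φ

private theorem L4_OM_apply {K : Type*} [Field K] {M : Type*} [AddCommGroup M] [Module K M] {g m : ℕ}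
    (B : M →ₗ[K] M →ₗ[K] K) (e : Nx g → M) (φ : Kx g m → K) : L4_OM B e φ = om B e φ := rfl

private theorem L4_OM_inj {K : Type*} [Field K] {M : Type*} [AddCommGroup M] [Module K M] {g m : ℕ}
    (B : M →ₗ[K] M →ₗ[K] K) (e : Nx g → M) (hB : ∀ a b, B (e a) (e b) = - JJ g K a b) :
    Function.Injective (L4_OM (m := m) B e) := by
  rw [injective_iff_map_eq_zero]
  intro φ hφ
  exact om_inj B e hB φ hφ

private theorem L4_ra_KS {κ : Type*} [Field κ] {g m : ℕ} (Y : Matrix (Nx g) (Nx g) κ[X]) (x : Kx g m → κ[X]) :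
    ra (KS Y *ᵥ x) = KS (Y.map (algebraMap κ[X] (RatFunc κ))) *ᵥ ra x := by
  funext s
  change algebraMap κ[X] (RatFunc κ) (∑ s', KS Y s s' * x s') =
    ∑ s', KS (Y.map (algebraMap κ[X] (RatFunc κ))) s s' * algebraMap κ[X] (RatFunc κ) (x s')
  rw [map_sum]
  refine Finset.sum_congr rfl fun s' _ => ?_
  rw [map_mul]
  congr 1
  unfold KS
  rw [map_sum]
  refine Finset.sum_congr rfl fun i _ => ?_
  split_ifs
  · rfl
  · exact map_zero _

private theorem L4_JJ {A K : Type*} [CommRing A] [CommRing K] (a : A →+* K) (g : ℕ) :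
    (JJ g A).map a = JJ g K := by
  unfold JJ
  rw [Matrix.fromBlocks_map]
  congr 1
  · ext i j
    simp
  · ext i j
    simp [Matrix.one_apply, apply_ite a]
  · ext i j
    simp [Matrix.one_apply, apply_ite a]
  · ext i j
    simp

private theorem L4_JJ2 {K : Type*} [CommRing K] (g : ℕ) : JJ g K * JJ g K = -1 := by
  unfold JJ
  rw [Matrix.fromBlocks_multiply, ← Matrix.fromBlocks_one, Matrix.fromBlocks_neg]
  simp

private theorem L4_tr {A K : Type*} [CommRing A] [CommRing K] (a : A →+* K) {g : ℕ} (u v : Nx g → A) :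
    (tr u v).map a = tr (fun l => a (u l)) (fun l => a (v l)) := by
  ext l' l
  unfold tr
  rw [Matrix.map_apply, Matrix.add_apply, Matrix.add_apply, Matrix.vecMulVec_apply, Matrix.vecMulVec_apply,
    Matrix.vecMulVec_apply, Matrix.vecMulVec_apply, map_add, map_mul, map_mul, RingHom.map_mulVec,
    RingHom.map_mulVec, L4_JJ]
  rfl

private theorem L4_B {K : Type*} [Field K] {M : Type*} [AddCommGroup M] [Module K M] {g : ℕ}
    (B : M →ₗ[K] M →ₗ[K] K) (e : Nx g → M) (hB : ∀ a b, B (e a) (e b) = - JJ g K a b) (u : Nx g → K)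
    (l : Nx g) : B (e l) (∑ l', (JJ g K *ᵥ u) l' • e l') = u l := by
  rw [map_sum]
  have h1 : ∀ l', B (e l) ((JJ g K *ᵥ u) l' • e l') = - (JJ g K l l' * (JJ g K *ᵥ u) l') := by
    intro l'
    rw [map_smul, hB, smul_eq_mul]
    ring
  rw [Finset.sum_congr rfl fun l' _ => h1 l', Finset.sum_neg_distrib]
  have h2 : ∑ l', JJ g K l l' * (JJ g K *ᵥ u) l' = (JJ g K *ᵥ (JJ g K *ᵥ u)) l := rfl
  rw [h2, Matrix.mulVec_mulVec, L4_JJ2, Matrix.neg_mulVec, Matrix.one_mulVec, Pi.neg_apply, neg_neg]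

private theorem L4_sq {K : Type*} [Field K] {M : Type*} [AddCommGroup M] [Module K M] {g : ℕ}
    (B : M →ₗ[K] M →ₗ[K] K) (e : Nx g → M) (hB : ∀ a b, B (e a) (e b) = - JJ g K a b) (u v : Nx g → K)
    (l : Nx g) : sq B (∑ l', (JJ g K *ᵥ u) l' • e l') (∑ l', (JJ g K *ᵥ v) l' • e l') (e l) =
      ∑ l', (tr u v) l' l • e l' := by
  rw [sq_apply, L4_B B e hB, L4_B B e hB, Finset.smul_sum, Finset.smul_sum, ← Finset.sum_add_distrib]
  refine Finset.sum_congr rfl fun l' _ => ?_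
  unfold tr
  rw [Matrix.add_apply, Matrix.vecMulVec_apply, Matrix.vecMulVec_apply, smul_smul, smul_smul, ← add_smul]
  congr 1
  ring

private theorem L4_polar {K : Type*} [Field K] [CharZero K] {M : Type*} [AddCommGroup M] [Module K M]
    (B : M →ₗ[K] M →ₗ[K] K) (G : Submodule K (Module.End K M)) (h : ∀ x, sq B x x ∈ G) (x y : M) :
    sq B x y ∈ G := by
  have h1 : sq B x y = (2 : K)⁻¹ • (sq B (x + y) (x + y) - sq B x x - sq B y y) := by
    refine LinearMap.ext fun z => ?_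
    rw [LinearMap.smul_apply, LinearMap.sub_apply, LinearMap.sub_apply, sq_apply, sq_apply, sq_apply,
      sq_apply, map_add]
    have h2 : (2 : K) ≠ 0 := two_ne_zero
    rw [eq_inv_smul_iff₀ h2]
    module
  rw [h1]
  exact G.smul_mem _ (G.sub_mem (G.sub_mem (h _) (h _)) (h _))

/-- the space of the forms of the arrays in `V` is horizontal -/
private theorem L4_hor {κ : Type} [Field κ] {Mo : Type} [AddCommGroup Mo] [Module (RatFunc κ) Mo]
    (B : Mo →ₗ[RatFunc κ] Mo →ₗ[RatFunc κ] RatFunc κ) (nab : Mo →+ Mo) {g m : ℕ} (e : Nx g → Mo)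
    (flat : ∀ x y, DK κ (B x y) = B (nab x) y + B x (nab y)) (Δ : κ[X]) (hΔ : Δ ≠ 0)
    (G : Matrix (Nx g) (Nx g) κ[X])
    (he : ∀ l, algebraMap κ[X] (RatFunc κ) Δ • nab (e l) = ∑ l', algebraMap κ[X] (RatFunc κ) (G l' l) • e l')
    (W : Submodule κ[X] (Kx g m → κ[X])) (hD : ∀ x ∈ W, opD Δ G x ∈ W) :
    ∀ ω ∈ (Submodule.span (RatFunc κ) {y | ∃ x ∈ W, y = ra x}).map (L4_OM (m := m) B e),
      ∃ ω' ∈ (Submodule.span (RatFunc κ) {y | ∃ x ∈ W, y = ra x}).map (L4_OM (m := m) B e),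
        ∀ (t : Fin m → Fin g) (v : Fin m → Mo),
          ω' t v = DK κ (ω t v) - ∑ u, ω t (Function.update v u (nab (v u))) := by
  rintro ω ⟨ψ, hψ, rfl⟩
  have ha : algebraMap κ[X] (RatFunc κ) Δ ≠ 0 := by
    intro h0
    exact hΔ (IsFractionRing.injective κ[X] (RatFunc κ) (by rw [h0, map_zero]))
  induction hψ using Submodule.span_induction with
  | mem ψ h =>
    obtain ⟨x, hx, rfl⟩ := h
    refine ⟨(algebraMap κ[X] (RatFunc κ) Δ)⁻¹ • L4_OM B e (ra (opD Δ G x)),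
      Submodule.smul_mem _ _ (Submodule.mem_map_of_mem (Submodule.subset_span ⟨_, hD x hx, rfl⟩)), ?_⟩
    intro t v
    have h1 := om_nab_pol B nab flat e Δ G he x t v
    rw [Pi.smul_apply, _root_.smul_apply, smul_eq_mul, L4_OM_apply, L4_OM_apply, ← h1,
      inv_mul_cancel_left₀ ha]
  | zero =>
    refine ⟨0, Submodule.zero_mem _, ?_⟩
    intro t v
    rw [map_zero]
    simp only [Pi.zero_apply, _root_.zero_apply, map_zero, Finset.sum_const_zero, sub_zero]
  | add ψ₁ ψ₂ _ _ h₁ h₂ =>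
    obtain ⟨ω₁, hω₁, e₁⟩ := h₁
    obtain ⟨ω₂, hω₂, e₂⟩ := h₂
    refine ⟨ω₁ + ω₂, Submodule.add_mem _ hω₁ hω₂, ?_⟩
    intro t v
    rw [map_add]
    simp only [Pi.add_apply, _root_.add_apply, map_add, Finset.sum_add_distrib, e₁, e₂]
    ring
  | smul c ψ hψ h =>
    obtain ⟨ω', hω', e'⟩ := h
    refine ⟨DK κ c • L4_OM B e ψ + c • ω', Submodule.add_mem _
      (Submodule.smul_mem _ _ (Submodule.mem_map_of_mem hψ)) (Submodule.smul_mem _ _ hω'), ?_⟩
    intro t v
    rw [map_smul]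
    simp only [Pi.add_apply, Pi.smul_apply, _root_.add_apply, _root_.smul_apply,
      smul_eq_mul, Derivation.leibniz, e', ← Finset.mul_sum]
    ring

theorem big_of_mo {κ : Type} [Field κ] [CharZero κ] [IsAlgClosed κ] {Mo : Type} [AddCommGroup Mo]
    [Module (RatFunc κ) Mo] [Module (Polynomial κ) Mo] [IsScalarTower (Polynomial κ) (RatFunc κ) Mo]
    {nab : Mo →+ Mo} {n : ℕ} (leib : ∀ (c : RatFunc κ) (x : Mo), nab (c • x) = DK κ c • x + c • nab x)
    {E : Submodule (Polynomial κ) Mo} (fg : E.FG)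
    (spn : ∀ x : Mo, ∃ q : Polynomial κ, q ≠ 0 ∧ q • x ∈ E)
    (b : Module.Basis (Fin n) (RatFunc κ) Mo) (hb : LB E b)
    {s : ℕ} {ι : Type} [Fintype ι] {g₁ : ι → Mo} {w : ι → ℤ} (hI : InfOk κ nab s g₁ w)
    (irr : ∀ H' : Submodule (RatFunc κ) Mo, (∀ x ∈ H', nab x ∈ H') → H' = ⊥ ∨ H' = ⊤)
    (hloc : ∀ τ : κ, StabAt nab E τ ∨ ∃ S : Lc (Fin n) κ, LocN b nab τ S) {g : ℕ} (hg : 0 < g)
    (e : Module.Basis (Nx g) (RatFunc κ) Mo) (Δ : κ[X]) (hΔ : Δ ≠ 0) (G : Matrix (Nx g) (Nx g) κ[X])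
    (symp : G * JJ g κ[X] + JJ g κ[X] * Gᵀ = 0)
    (he : ∀ l, algebraMap κ[X] (RatFunc κ) Δ • nab (e l) = ∑ l', algebraMap κ[X] (RatFunc κ) (G l' l) • e l') :
    Big Δ G := by
  intro m W hsat hD u v x hx
  have hinj : Function.Injective (algebraMap κ[X] (RatFunc κ)) := IsFractionRing.injective κ[X] (RatFunc κ)
  have ha : algebraMap κ[X] (RatFunc κ) Δ ≠ 0 := by
    intro h0
    exact hΔ (hinj (by rw [h0, map_zero]))
  have hcz : CharZero (RatFunc κ) := charZero_of_injective_algebraMap (algebraMap κ (RatFunc κ)).injective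
  have hsym : G.map (algebraMap κ[X] (RatFunc κ)) * JJ g (RatFunc κ) +
      JJ g (RatFunc κ) * (G.map (algebraMap κ[X] (RatFunc κ)))ᵀ = 0 := by
    have h1 := congrArg (fun A : Matrix (Nx g) (Nx g) κ[X] => A.map (algebraMap κ[X] (RatFunc κ))) symp
    beta_reduce at h1
    rw [Matrix.map_add _ (fun p q => map_add _ p q), Matrix.map_mul, Matrix.map_mul, L4_JJ, Matrix.transpose_map,
      Matrix.map_zero _ (map_zero _)] at h1
    exact h1
  obtain ⟨B, hB, flat, halt, hnd⟩ := exists_B0 nab leib e (algebraMap κ[X] (RatFunc κ) Δ) ha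
    (G.map (algebraMap κ[X] (RatFunc κ))) hsym he
  have hfin : Module.Finite (RatFunc κ) Mo := Module.Finite.of_basis e
  have hnt : Nontrivial Mo := ⟨e (Sum.inl ⟨0, hg⟩), 0, e.ne_zero _⟩
  have hst : ∀ y, sq B y y ∈ stabT B
      ((Submodule.span (RatFunc κ) {y | ∃ x ∈ W, y = ra x}).map (L4_OM (m := m) B e)) := fun y =>
    sp_stabT leib fg spn b hb hI B flat halt hnd irr hloc _
      (L4_hor B nab e flat Δ hΔ G he W hD) y
  have h1 := L4_polar B _ hst
    (∑ l', (JJ g (RatFunc κ) *ᵥ fun l => algebraMap κ[X] (RatFunc κ) (C (u l))) l' • e l')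
    (∑ l', (JJ g (RatFunc κ) *ᵥ fun l => algebraMap κ[X] (RatFunc κ) (C (v l))) l' • e l')
  rw [mem_stabT] at h1
  obtain ⟨hskew, hmap⟩ := h1
  obtain ⟨ω', hω', heq⟩ := hmap (L4_OM B e (ra x))
    (Submodule.mem_map_of_mem (Submodule.subset_span ⟨x, hx, rfl⟩))
  have h2 : ω' = - L4_OM B e (ra (KS (tr (fun l => C (u l)) (fun l => C (v l))) *ᵥ x)) := by
    funext t
    refine MultilinearMap.ext fun z => ?_
    rw [heq t z, L4_OM_apply, om_act B e _ hskew _ (L4_sq B e hB _ _), L4_ra_KS, L4_tr]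
    rfl
  have h3 : L4_OM B e (ra (KS (tr (fun l => C (u l)) (fun l => C (v l))) *ᵥ x)) ∈
      (Submodule.span (RatFunc κ) {y | ∃ x ∈ W, y = ra x}).map (L4_OM (m := m) B e) := by
    rw [h2] at hω'
    exact (Submodule.neg_mem_iff _).1 hω'
  obtain ⟨ψ, hψ, hψe⟩ := h3
  have h4 := L4_OM_inj B e hB hψe
  rw [h4] at hψ
  obtain ⟨q, hq, hqW⟩ := span_clear W _ hψ
  exact hsat q hq _ hqW

end MPadcPC
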