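import Pool.Agent.Lib.MP_adc574_ag_PC.FR
import Pool.Agent.Lib.MP_adc574_ag_LF.Tau

/-!
# LEAF F8: the degree of the functionals

`Dt D h`: all coefficients (of the coefficients) of `h ∈ R[X][X][X]` have degree at most `D` (in the parameter). `mod_deg`: for `F` monic in `Y` with `Dt D F` and `Dt m h`: `Dt (m + h.natDegree * D) (h %ₘ F)`: strong induction on `h.natDegree`: if `h.natDegree < F.natDegree` then `h %ₘ F = h`; otherwise, with `a` the leading coefficient and `j = h.natDegree - F.natDegree`,
`h' = h - C a * X ^ j * F` has smaller degree (or is zero), `Dt (m + D) h'`, `h' %ₘ F = h %ₘ F` (`add_modByMonic`, `mul_self_modByMonic`-type lemmas, see LF/Tau.lean: `mod_mul_self`, `mod_add`) (the product of two polynomials: `Dt` adds: `coeff_mul`, `natDegree_sum_le`, `natDegree_mul_le`). (Case `F.natDegree = 0`: `F = 1`, `h %ₘ F = 0`.)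
`tp_deg`: `Dt m (mp (mapRingHom ψ) (η a))` with the same `m` as for `η a` (`natDegree_map_le`); `X ^ (p i) * h` has `Dt m` and degree `≤ p n + h.natDegree`; so `natDegree ≤ m + (p n + h.natDegree) D ≤ C p` with `C = m + (n + h.natDegree) D` (`1 ≤ p`), the maximum (or sum) over the finitely many `a`. `D`, `m` exist: finitely many coefficients
(`D = ∑ i ∈ range (F.natDegree + 1), ∑ j ∈ range ((F.coeff i).natDegree + 1), ((F.coeff i).coeff j).natDegree`).
-/

set_option autoImplicit false

namespace MPadcPC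

open Polynomial Matrix MPadcCov MPadcLF MPadcOA

private theorem F8_mul {R : Type*} [CommRing R] {F a : R[X][X]} (D m : ℕ)
    (hD : ∀ j, (F.coeff j).natDegree ≤ D) (hm : ∀ j, (a.coeff j).natDegree ≤ m) (j : ℕ) :
    ((a * F).coeff j).natDegree ≤ m + D := by
  rw [coeff_mul]
  refine natDegree_sum_le_of_forall_le _ _ fun x _ => ?_
  exact natDegree_mul_le.trans (Nat.add_le_add (hm _) (hD _))

private theorem F8_aux {R : Type*} [CommRing R] [Nontrivial R] {F : R[X][X][X]} (hF : F.Monic) (D : ℕ)
    (hD : ∀ i j, ((F.coeff i).coeff j).natDegree ≤ D) (hn : 0 < F.natDegree) : ∀ (N : ℕ) (h : R[X][X][X]) (m : ℕ),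
    h.natDegree ≤ N → (∀ i j, ((h.coeff i).coeff j).natDegree ≤ m) → ∀ i j : ℕ,
    (((h %ₘ F).coeff i).coeff j).natDegree ≤ m + h.natDegree * D := by
  intro N
  induction N with
  | zero =>
    intro h m hN hm i j
    rw [mod_eq_self hF rfl (by omega)]
    exact (hm i j).trans (Nat.le_add_right _ _)
  | succ N ih =>
    intro h m hN hm i j
    by_cases hlt : h.natDegree < F.natDegree
    · rw [mod_eq_self hF rfl hlt]
      exact (hm i j).trans (Nat.le_add_right _ _)
    · have hle : F.natDegree ≤ h.natDegree := by omega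
      obtain ⟨h', hh'⟩ : ∃ h', h' = h - (C h.leadingCoeff * X ^ (h.natDegree - F.natDegree)) * F := ⟨_, rfl⟩
      have e1 : h %ₘ F = h' %ₘ F := by
        have e2 : h = h' + (C h.leadingCoeff * X ^ (h.natDegree - F.natDegree)) * F := by rw [hh']; ring
        conv_lhs => rw [e2]
        rw [mod_add hF, mod_mul_self hF, add_zero]
      have hdeg : h'.natDegree < h.natDegree := by
        have hpos : 0 < h.natDegree := by omega
        have e3 : h'.natDegree ≤ h.natDegree - 1 := by
          rw [natDegree_le_iff_coeff_eq_zero]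
          intro k hk
          rw [hh', coeff_sub, mul_assoc, coeff_C_mul, coeff_X_pow_mul']
          rcases Nat.lt_or_ge h.natDegree k with hk2 | hk2
          · rw [coeff_eq_zero_of_natDegree_lt hk2, if_pos (by omega),
              coeff_eq_zero_of_natDegree_lt (by omega : F.natDegree < k - (h.natDegree - F.natDegree)), mul_zero, sub_zero]
          · have hk3 : k = h.natDegree := by omega
            rw [hk3, if_pos (by omega)]
            have hk4 : h.natDegree - (h.natDegree - F.natDegree) = F.natDegree := by omega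
            rw [hk4, hF.coeff_natDegree, mul_one]
            exact sub_self _
        omega
      have hm' : ∀ i j, ((h'.coeff i).coeff j).natDegree ≤ m + D := by
        intro i j
        rw [hh', coeff_sub, mul_assoc, coeff_C_mul, coeff_X_pow_mul', coeff_sub]
        refine (natDegree_sub_le _ _).trans (max_le ((hm i j).trans (Nat.le_add_right _ _)) ?_)
        split_ifs
        · exact F8_mul D m (fun j => hD _ j) (fun j => hm _ j) j
        · rw [mul_zero, coeff_zero, natDegree_zero]
          exact Nat.zero_le _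
      rw [e1]
      refine (ih h' (m + D) (by omega) hm' i j).trans ?_
      have h4 : (h'.natDegree + 1) * D ≤ h.natDegree * D := Nat.mul_le_mul_right D (by omega)
      rw [Nat.add_mul, Nat.one_mul] at h4
      omega

private theorem F8_bound {A : Type*} [CommRing A] (f : A[X][X][X]) : ∃ m : ℕ, ∀ i j, ((f.coeff i).coeff j).natDegree ≤ m := by
  refine ⟨∑ i ∈ Finset.range (f.natDegree + 1), ∑ j ∈ Finset.range ((f.coeff i).natDegree + 1), ((f.coeff i).coeff j).natDegree,
    fun i j => ?_⟩
  rcases Nat.lt_or_ge f.natDegree i with hi | hi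
  · rw [coeff_eq_zero_of_natDegree_lt hi, coeff_zero, natDegree_zero]
    exact Nat.zero_le _
  · rcases Nat.lt_or_ge (f.coeff i).natDegree j with hj | hj
    · rw [coeff_eq_zero_of_natDegree_lt hj, natDegree_zero]
      exact Nat.zero_le _
    · refine le_trans ?_ (Finset.single_le_sum (f := fun i => ∑ j ∈ Finset.range ((f.coeff i).natDegree + 1),
        ((f.coeff i).coeff j).natDegree) (fun _ _ => Nat.zero_le _) (Finset.mem_range.2 (Nat.lt_succ_of_le hi)))
      exact Finset.single_le_sum (f := fun j => ((f.coeff i).coeff j).natDegree) (fun _ _ => Nat.zero_le _)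
        (Finset.mem_range.2 (Nat.lt_succ_of_le hj))

theorem mod_deg {R : Type*} [CommRing R] [Nontrivial R] {F : R[X][X][X]} (hF : F.Monic) (D : ℕ)
    (hD : ∀ i j, ((F.coeff i).coeff j).natDegree ≤ D) (h : R[X][X][X]) (m : ℕ)
    (hm : ∀ i j, ((h.coeff i).coeff j).natDegree ≤ m) (i j : ℕ) :
    (((h %ₘ F).coeff i).coeff j).natDegree ≤ m + h.natDegree * D := by
  rcases Nat.eq_zero_or_pos F.natDegree with hn | hn
  · have h1 : F = 1 := hF.natDegree_eq_zero.1 hn
    rw [h1, modByMonic_one, coeff_zero, coeff_zero, natDegree_zero]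
    exact Nat.zero_le _
  · exact F8_aux hF D hD hn h.natDegree h m le_rfl hm i j

theorem tp_deg {A : Type*} [CommRing A] {w n : ℕ} (𝓕 : Fam A w n) (hF : 𝓕.F.Monic) (hn : 𝓕.F.natDegree = n) :
    ∃ C : ℕ, ∀ (k : Type) [Field k] (p : ℕ) (ψ : A →+* k), 0 < p → ∀ (c : Gx w n) (a : IX w n),
      (tp p (mp (mapRingHom ψ) 𝓕.F) c (mp (mapRingHom ψ) (𝓕.η a))).natDegree ≤ C * p := by
  classical
  obtain ⟨D, hD⟩ := F8_bound 𝓕.F
  choose m hm using fun a => F8_bound (𝓕.η a)
  refine ⟨∑ a, (m a + (n + (𝓕.η a).natDegree) * D), ?_⟩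
  intro k _ p ψ hp c a
  have key : ∀ (f : A[X][X][X]) (m : ℕ), (∀ i j, ((f.coeff i).coeff j).natDegree ≤ m) → ∀ i j,
      (((mp (mapRingHom ψ) f).coeff i).coeff j).natDegree ≤ m := by
    intro f m hf i j
    rw [coe_mapRingHom, coeff_map, coe_mapRingHom, coeff_map, coe_mapRingHom]
    exact natDegree_map_le.trans (hf i j)
  have hF' : (mp (mapRingHom ψ) 𝓕.F).Monic := hF.map _
  have h1 : (tp p (mp (mapRingHom ψ) 𝓕.F) c (mp (mapRingHom ψ) (𝓕.η a))).natDegree ≤
      m a + (X ^ (p * (c.1 : ℕ)) * mp (mapRingHom ψ) (𝓕.η a) : k[X][X][X]).natDegree * D := by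
    unfold tp tau
    refine mod_deg hF' D (key _ D hD) _ (m a) ?_ _ _
    intro i j
    rw [coeff_X_pow_mul']
    split_ifs
    · exact key _ _ (hm a) _ _
    · rw [coeff_zero, natDegree_zero]
      exact Nat.zero_le _
  have h2 : (X ^ (p * (c.1 : ℕ)) * mp (mapRingHom ψ) (𝓕.η a) : k[X][X][X]).natDegree ≤ p * n + (𝓕.η a).natDegree := by
    refine natDegree_mul_le.trans (Nat.add_le_add ?_ natDegree_map_le)
    exact (natDegree_X_pow_le _).trans (Nat.mul_le_mul_left p c.1.2.le)
  have h3 : m a + (p * n + (𝓕.η a).natDegree) * D ≤ (m a + (n + (𝓕.η a).natDegree) * D) * p := by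
    have h4 : m a ≤ m a * p := Nat.le_mul_of_pos_right _ hp
    have h5 : (𝓕.η a).natDegree * D ≤ (𝓕.η a).natDegree * D * p := Nat.le_mul_of_pos_right _ hp
    calc m a + (p * n + (𝓕.η a).natDegree) * D = m a + (p * n * D + (𝓕.η a).natDegree * D) := by ring
      _ ≤ m a * p + (p * n * D + (𝓕.η a).natDegree * D * p) := by omega
      _ = (m a + (n + (𝓕.η a).natDegree) * D) * p := by ring
  refine h1.trans ((Nat.add_le_add_left (Nat.mul_le_mul_right D h2) (m a)).trans (h3.trans ?_))
  exact Nat.mul_le_mul_right p (Finset.single_le_sum (f := fun a => m a + (n + (𝓕.η a).natDegree) * D)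
    (fun _ _ => Nat.zero_le _) (Finset.mem_univ a))

end MPadcPC
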