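import Pool.Agent.Lib.MP_adc574_ag_PC.F7
import Pool.Agent.Lib.MP_adc574_ag_PC.F8

/-!
# LEAF F9: the system with frame of a family

`𝓕.fr p ψ` in the coordinates `Nx g`: reindex all sums along `eN w n`, `eG w n` (`Equiv.sum_comp`, `Fintype.sum_equiv`). `degD`, `degG`: `natDegree_map_le`, `c` = the sum of all the degrees over `A`. `symp`: `JJ = - J0` reindexed (`J0 = fromBlocks 0 (-1) 1 0`, `JJ = fromBlocks 0 1 (-1) 0`, so `J0 * JJ = JJ * J0 = 1`); from `Gᵀ * J0 + J0 * G = 0` multiply by `JJ` from both sides: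
`JJ * Gᵀ + G * JJ = 0`. `horU`: `fr_hor`. `isoU`: `fr_iso` (`JJ = - J0`). `rkU`: `fr_li` (`LinearIndependent.comp` with the equivalence `(eG w n).symm`, and the linear equivalence `LinearEquiv.funCongrLeft` for the columns). The degree of `U`: `tp_deg`.
`det_fr`: the first `g` columns of the frame at `τ` are the numbers `tp p F_τ c (η_τ (Sum.inl c'))` (`tp_at`), reindexed along `eG w n` on both sides (`Matrix.det_reindex_self`, `fst` of OA/Defs.lean).
-/

set_option autoImplicit false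

namespace MPadcPC

open Polynomial Matrix MPadcCov MPadcLF MPadcOA

private theorem F9_cast {γ δ : Type} [Fintype γ] [DecidableEq γ] [Fintype δ] [DecidableEq δ] (e : γ ≃ δ) (R : Type*) [CommRing R] :
    ((Matrix.fromBlocks 0 1 (-1) 0 : Matrix (γ ⊕ γ) (γ ⊕ γ) R).submatrix (Equiv.sumCongr e e).symm (Equiv.sumCongr e e).symm) =
      (Matrix.fromBlocks 0 1 (-1) 0 : Matrix (δ ⊕ δ) (δ ⊕ δ) R) := by
  ext i j
  rcases i with i | i <;> rcases j with j | j
  · rfl
  · show (1 : Matrix γ γ R) (e.symm i) (e.symm j) = (1 : Matrix δ δ R) i j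
    rw [Matrix.one_apply, Matrix.one_apply]
    by_cases h : i = j
    · rw [if_pos h, if_pos (congrArg e.symm h)]
    · rw [if_neg h, if_neg fun h' => h (e.symm.injective h')]
  · show (-1 : Matrix γ γ R) (e.symm i) (e.symm j) = (-1 : Matrix δ δ R) i j
    rw [Matrix.neg_apply, Matrix.neg_apply, Matrix.one_apply, Matrix.one_apply]
    by_cases h : i = j
    · rw [if_pos h, if_pos (congrArg e.symm h)]
    · rw [if_neg h, if_neg fun h' => h (e.symm.injective h')]
  · rfl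

private theorem F9_neg (γ : Type) [DecidableEq γ] (R : Type*) [CommRing R] :
    J0 R γ = -(Matrix.fromBlocks 0 1 (-1) 0 : Matrix (γ ⊕ γ) (γ ⊕ γ) R) := by
  unfold J0
  rw [Matrix.fromBlocks_neg, neg_zero, neg_neg]

private theorem F9_sq (γ : Type) [Fintype γ] [DecidableEq γ] (R : Type*) [CommRing R] :
    (Matrix.fromBlocks 0 1 (-1) 0 : Matrix (γ ⊕ γ) (γ ⊕ γ) R) * Matrix.fromBlocks 0 1 (-1) 0 = -1 := by
  rw [Matrix.fromBlocks_multiply, ← Matrix.fromBlocks_one, Matrix.fromBlocks_neg]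
  simp

private theorem F9_symp {γ : Type} [Fintype γ] [DecidableEq γ] {R : Type*} [CommRing R] (G : Matrix (γ ⊕ γ) (γ ⊕ γ) R)
    (h : G.transpose * J0 R γ + J0 R γ * G = 0) :
    G * Matrix.fromBlocks 0 1 (-1) 0 + Matrix.fromBlocks 0 1 (-1) 0 * G.transpose = 0 := by
  rw [F9_neg] at h
  generalize hJ : (Matrix.fromBlocks 0 1 (-1) 0 : Matrix (γ ⊕ γ) (γ ⊕ γ) R) = J at h ⊢
  have hsq : J * J = -1 := by rw [← hJ]; exact F9_sq γ R
  have h1 : J * (G.transpose * -J + -J * G) * J = 0 := by rw [h, Matrix.mul_zero, Matrix.zero_mul]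
  have h2 : J * (G.transpose * -J + -J * G) * J = -(J * G.transpose * (J * J)) - (J * J) * G * J := by
    noncomm_ring
  rw [h2, hsq] at h1
  have h3 : -(J * G.transpose * -1) - -1 * G * J = G * J + J * G.transpose := by
    noncomm_ring
  rw [h3] at h1
  exact h1

private theorem F9_map {γ : Type} [DecidableEq γ] {R R' : Type*} [CommRing R] [CommRing R'] (f : R →+* R') :
    (J0 R γ).map f = J0 R' γ := by
  refine Matrix.ext fun i j => ?_
  rcases i with i | i <;> rcases j with j | j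
  · exact map_zero f
  · show f ((-1 : Matrix γ γ R) i j) = (-1 : Matrix γ γ R') i j
    rw [Matrix.neg_apply, Matrix.neg_apply, map_neg, Matrix.one_apply, Matrix.one_apply, apply_ite f, map_one, map_zero]
  · show f ((1 : Matrix γ γ R) i j) = (1 : Matrix γ γ R') i j
    rw [Matrix.one_apply, Matrix.one_apply, apply_ite f, map_one, map_zero]
  · exact map_zero f

theorem fam_frame {A : Type} [CommRing A] {w n : ℕ} (𝓕 : Fam A w n) (h : 𝓕.Ok) :
    ∃ c C : ℕ, ∀ (k : Type) [Field k] (p : ℕ) [Fact p.Prime] [CharP k p] (ψ : A →+* k),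
      𝓕.Δ.map ψ ≠ 0 → n < p → (𝓕.fr p ψ).Ok c ∧ ∀ i l, ((𝓕.fr p ψ).U i l).natDegree ≤ C * p := by
  classical
  obtain ⟨C, hC⟩ := tp_deg 𝓕 h.wt.monic h.wt.deg
  refine ⟨𝓕.Δ.natDegree + ∑ i, ∑ j, (𝓕.G i j).natDegree, C, fun k _ p _ _ ψ hΔ hnp => ⟨⟨hΔ, ?_, ?_, ?_, ?_, ?_, ?_⟩, ?_⟩⟩
  · exact natDegree_map_le.trans (Nat.le_add_right _ _)
  · intro i j
    have h1 : ((𝓕.fr p ψ).G i j).natDegree ≤ (𝓕.G ((eN w n).symm i) ((eN w n).symm j)).natDegree := natDegree_map_le
    refine h1.trans ((le_trans (b := ∑ j', (𝓕.G ((eN w n).symm i) j').natDegree) ?_ ?_).trans (Nat.le_add_left _ _))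
    · exact Finset.single_le_sum (f := fun j' => (𝓕.G ((eN w n).symm i) j').natDegree) (fun _ _ => Nat.zero_le _)
        (Finset.mem_univ ((eN w n).symm j))
    · exact Finset.single_le_sum (f := fun i' => ∑ j', (𝓕.G i' j').natDegree) (fun _ _ => Nat.zero_le _)
        (Finset.mem_univ ((eN w n).symm i))
  · have h1 : (𝓕.G.map (mapRingHom ψ)).transpose * J0 k[X] (Gx w n) + J0 k[X] (Gx w n) * (𝓕.G.map (mapRingHom ψ)) = 0 := by
      have h2 := congrArg (fun M => Matrix.map M (mapRingHom ψ)) h.flat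
      have h3 : (J0 A[X] (Gx w n)).map (mapRingHom ψ) = J0 k[X] (Gx w n) := F9_map (mapRingHom ψ)
      simp only [Matrix.map_add _ (map_add (mapRingHom ψ)), Matrix.map_mul, Matrix.transpose_map, h3] at h2
      rw [h2]
      exact Matrix.map_zero _ (map_zero _)
    have h4 := F9_symp _ h1
    have h5 := congrArg (fun M => Matrix.submatrix M (eN w n).symm (eN w n).symm) h4
    simp only [Matrix.submatrix_add, Matrix.submatrix_zero] at h5
    have h6 : (Matrix.fromBlocks 0 1 (-1) 0 : Matrix (Gx w n ⊕ Gx w n) (Gx w n ⊕ Gx w n) k[X]).submatrix (eN w n).symm (eN w n).symm =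
        JJ (gn w n) k[X] := F9_cast (eG w n) k[X]
    have h7 : (𝓕.fr p ψ).G = (𝓕.G.map (mapRingHom ψ)).submatrix (eN w n).symm (eN w n).symm := rfl
    rw [h7, ← h6, Matrix.transpose_submatrix, Matrix.submatrix_mul_equiv, Matrix.submatrix_mul_equiv]
    exact h5
  · intro i l
    have h1 := fr_hor 𝓕 h p ψ hΔ ((eG w n).symm i) ((eN w n).symm l)
    refine h1.trans ?_
    exact (Equiv.sum_comp (eN w n).symm (fun b => tp p (mp (mapRingHom ψ) 𝓕.F) ((eG w n).symm i) (mp (mapRingHom ψ) (𝓕.η b)) *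
      (𝓕.G b ((eN w n).symm l)).map ψ)).symm
  · refine Matrix.ext fun i j => ?_
    have h1 := fr_iso 𝓕 h p ψ hΔ ((eG w n).symm i) ((eG w n).symm j)
    have h6 : JJ (gn w n) k[X] = (Matrix.fromBlocks 0 1 (-1) 0 : Matrix (Gx w n ⊕ Gx w n) (Gx w n ⊕ Gx w n) k[X]).submatrix
        (eN w n).symm (eN w n).symm := (F9_cast (eG w n) k[X]).symm
    rw [F9_neg] at h1
    have h2 : ((𝓕.fr p ψ).U * JJ (gn w n) k[X] * ((𝓕.fr p ψ).U).transpose) i j =
        ∑ b, ∑ a, tp p (mp (mapRingHom ψ) 𝓕.F) ((eG w n).symm i) (mp (mapRingHom ψ) (𝓕.η a)) *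
          (Matrix.fromBlocks 0 1 (-1) 0 : Matrix (Gx w n ⊕ Gx w n) (Gx w n ⊕ Gx w n) k[X]) a b *
          tp p (mp (mapRingHom ψ) 𝓕.F) ((eG w n).symm j) (mp (mapRingHom ψ) (𝓕.η b)) := by
      rw [h6, Matrix.mul_apply]
      refine (Fintype.sum_equiv (eN w n).symm _ _ fun l => ?_)
      rw [Matrix.mul_apply, Finset.sum_mul]
      exact Fintype.sum_equiv (eN w n).symm _ _ fun m => rfl
    rw [h2, Finset.sum_comm, Matrix.zero_apply]
    simp only [Matrix.neg_apply, mul_neg, neg_mul, Finset.sum_neg_distrib, neg_eq_zero] at h1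
    exact h1
  · intro α hα
    have h1 := fr_li 𝓕 h p hnp ψ α hα
    have h2 := (h1.comp (eG w n).symm (eG w n).symm.injective).map'
      (LinearEquiv.funCongrLeft k k (eN w n).symm : (IX w n → k) ≃ₗ[k] (Nx (gn w n) → k)).toLinearMap
      (LinearEquiv.ker _)
    exact h2
  · intro i l
    exact hC k p ψ (Fact.out : p.Prime).pos _ _

theorem det_fr {A : Type} [CommRing A] {w n : ℕ} (𝓕 : Fam A w n) (h : 𝓕.Ok) {k : Type} [Field k]
    (p : ℕ) (ψ : A →+* k) (τ : k) :
    (fst ((𝓕.fr p ψ).U.map (eval τ))).det =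
      (Matrix.of fun c c' : Gx w n => tp p (𝓕.at ψ τ) c (mp (eval₂RingHom ψ τ) (𝓕.η (Sum.inl c')))).det := by
  have h1 : fst ((𝓕.fr p ψ).U.map (eval τ)) =
      (Matrix.of fun c c' : Gx w n => tp p (𝓕.at ψ τ) c (mp (eval₂RingHom ψ τ) (𝓕.η (Sum.inl c')))).submatrix
        (eG w n).symm (eG w n).symm := by
    ext i j
    exact tp_at 𝓕 h p ψ τ ((eG w n).symm i) (Sum.inl ((eG w n).symm j))
  rw [h1, Matrix.det_submatrix_equiv_self]

end MPadcPC
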