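import Pool.Agent.Lib.MP_adc574_ag_PC.N2
import Pool.Agent.Lib.MP_adc574_ag_PC.F9

/-!
# N3: the ultraproduct is algebraically closed; non-vanishing and counting for a family with big monodromy
-/

set_option autoImplicit false

namespace MPadcPC

open Polynomial Matrix MPadcGM MPadcOA MPadcLF MPadcCov

theorem closed_LL {k : ℕ → Type} [∀ n, Field (k n)] [∀ n, IsAlgClosed (k n)] : IsAlgClosed (LL k) := by
  refine IsAlgClosed.of_exists_root _ fun P hP hirr => ?_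
  have hd : P.natDegree ≠ 0 := hirr.natDegree_pos.ne'
  have h1 : ∀ᶠ n in HF, (rp P n).natDegree ≠ 0 := by
    have h2 : P.coeff P.natDegree ≠ 0 := by
      rw [coeff_natDegree]
      exact leadingCoeff_ne_zero.2 hirr.ne_zero
    have h3 : ∀ᶠ n in HF, sg (P.coeff P.natDegree) n ≠ 0 := by
      by_contra hcon
      have h4 : ∀ᶠ n in HF, sg (P.coeff P.natDegree) n = 0 := by
        rw [Filter.not_eventually] at hcon
        have h5 := (Ultrafilter.frequently_iff_eventually (f := Filter.hyperfilter ℕ)).1 hcon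
        filter_upwards [h5] with n hn
        exact not_not.1 hn
      apply h2
      have h6 : cl (sg (P.coeff P.natDegree)) = cl (fun n => (0 : k n)) := cl_eq.2 h4
      rw [cl_sg] at h6
      rw [h6]
      exact map_zero (ultMk (Filter.hyperfilter ℕ) k)
    filter_upwards [h3, rp_coeff P P.natDegree] with n hn hn' h0
    have h7 : (rp P n).coeff P.natDegree = 0 := by
      apply coeff_eq_zero_of_natDegree_lt
      omega
    rw [hn'] at h7
    exact hn h7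
  have hx : ∀ n, ∃ x : k n, (rp P n).natDegree ≠ 0 → (rp P n).eval x = 0 := by
    intro n
    by_cases h : (rp P n).natDegree = 0
    · exact ⟨0, fun h' => absurd h h'⟩
    · obtain ⟨x, hx⟩ := IsAlgClosed.exists_root (rp P n) (fun h0 => h (natDegree_eq_of_degree_eq_some h0))
      exact ⟨x, fun _ => hx⟩
  choose x hx using hx
  refine ⟨cl x, ?_⟩
  rw [← rp_eval P x]
  have h8 : cl (fun n => (rp P n).eval (x n)) = cl (fun n => (0 : k n)) := by
    rw [cl_eq]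
    filter_upwards [h1] with n hn
    exact hx n hn
  rw [h8]
  exact map_zero (ultMk (Filter.hyperfilter ℕ) k)

/-- Big monodromy of the family over all algebraically closed fields of characteristic zero, where `dis` is invertible. -/
def Fam.Big {A : Type} [CommRing A] {w n : ℕ} (𝓕 : Fam A w n) (dis : A) : Prop :=
  ∀ (F : Type) [Field F] [CharZero F] [IsAlgClosed F] (ψ : A →+* F), ψ dis ≠ 0 →
    MPadcPC.Big (𝓕.Δ.map ψ) (Gm (𝓕.G.map (mapRingHom ψ)))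

/-- The homomorphism to the ultraproduct. -/
noncomputable def uhom {A : Type} [CommRing A] {k : ℕ → Type} [∀ n, Field (k n)] (ψ : ∀ n, A →+* k n) : A →+* LL k :=
  (ultMk (Filter.hyperfilter ℕ) k).comp (Pi.ringHom ψ)

theorem uhom_apply {A : Type} [CommRing A] {k : ℕ → Type} [∀ n, Field (k n)] (ψ : ∀ n, A →+* k n) (a : A) :
    uhom ψ a = cl fun n => ψ n a := rfl

theorem rp_map {A : Type} [CommRing A] {k : ℕ → Type} [∀ n, Field (k n)] (ψ : ∀ n, A →+* k n) (P : A[X]) :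
    ∀ᶠ n in HF, rp (P.map (uhom ψ)) n = P.map (ψ n) := by
  refine rp_of_coeff _ (fun n => P.map (ψ n)) P.natDegree (Filter.Eventually.of_forall fun n => natDegree_map_le) ?_
  intro j
  rw [coeff_map, uhom_apply]
  congr 1
  funext n
  rw [coeff_map]

theorem nv_fam {A : Type} [CommRing A] {w n : ℕ} (𝓕 : Fam A w n) (h : 𝓕.Ok) (dis : A) (hB : 𝓕.Big dis) (m L : ℕ) :
    ∃ p₀ : ℕ, ∀ p : ℕ, p.Prime → p₀ ≤ p →
    ∀ (k : Type) [Field k] [IsAlgClosed k] [CharP k p] (ψ : A →+* k), ψ dis ≠ 0 → 𝓕.Δ.map ψ ≠ 0 →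
    ∀ Φ : Kx (gn w n) m → k[X], (∀ s, (Φ s).natDegree ≤ L) → ∀ α : k, (𝓕.Δ.map ψ).eval α ≠ 0 →
      (X - C α) ^ p ∣ ev (𝓕.fr p ψ).U Φ → Van Φ := by
  obtain ⟨c, C', hfr⟩ := fam_frame 𝓕 h
  by_contra hcon
  push Not at hcon
  have hcon' := fun j : ℕ => hcon (j + n + 1)
  choose p hpr hp k ik ia ic ψ hdis hΔ Φ hA α hα hdvd hnv using hcon'
  have hpj : ∀ j, j ≤ p j := fun j => by
    have := hp j
    omega
  have hFact : ∀ j, Fact (p j).Prime := fun j => ⟨hpr j⟩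
  have hok : ∀ j, (𝓕.fr (p j) (ψ j)).Ok c := fun j =>
    (hfr (k j) (p j) (ψ j) (hΔ j) (by have := hp j; omega)).1
  have hcl : IsAlgClosed (LL k) := closed_LL
  have hcz : CharZero (LL k) := charZero_LL p hpj
  obtain ⟨j, hj⟩ := nv2_ult (k := k) (c := c) p hpj (fun j => 𝓕.fr (p j) (ψ j)) hok (fun Δ' G' h1 h2 => by
    have e1 : Δ' = 𝓕.Δ.map (uhom ψ) := by
      apply rp_ext
      filter_upwards [h1, rp_map ψ 𝓕.Δ] with j h3 h4
      rw [h3, h4]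
      rfl
    have e2 : G' = Gm (𝓕.G.map (mapRingHom (uhom ψ))) := by
      apply mr_ext
      have h5 : ∀ᶠ j in HF, ∀ a b, rp ((𝓕.G a b).map (uhom ψ)) j = (𝓕.G a b).map (ψ j) :=
        Filter.eventually_all.2 fun a => Filter.eventually_all.2 fun b => rp_map ψ (𝓕.G a b)
      filter_upwards [h2, h5] with j h3 h4
      rw [h3]
      ext1 a b
      exact (h4 _ _).symm
    rw [e1, e2]
    refine hB (LL k) (uhom ψ) ?_
    rw [uhom_apply]
    intro h0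
    have h6 : cl (fun j => ψ j dis) = cl (fun j => (0 : k j)) := by
      rw [h0]
      exact (map_zero (ultMk (Filter.hyperfilter ℕ) k)).symm
    obtain ⟨j, hj⟩ := (cl_eq.1 h6).exists
    exact hdis j hj) Φ hA α hα hdvd
  exact hnv j hj

private theorem Cnt_dim (A B M c' s s0 : ℕ) (δ : ℝ) (hδ : 0 < δ) (hs : 0 < s) (hB : 0 < B)
    (hA : A = B + c' * M) (hM : (M : ℝ) ≤ B / (2 * δ)) (h0 : s0 ≤ s)
    (hinc : (s : ℝ) - s0 ≤ δ * s) :
    M * (A + B + c' * M + 1) * (s - s0) < (A + 1) * B * s := by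
  have hs' : (0 : ℝ) < s := by exact_mod_cast hs
  have hB' : (0 : ℝ) < B := by exact_mod_cast hB
  have h1 : (M : ℝ) * δ ≤ B / 2 := by
    have := mul_le_mul_of_nonneg_right hM hδ.le
    calc (M : ℝ) * δ ≤ B / (2 * δ) * δ := this
      _ = B / 2 := by field_simp
  have h2 : (M : ℝ) * ((s : ℝ) - s0) ≤ B / 2 * s := by
    calc (M : ℝ) * ((s : ℝ) - s0) ≤ M * (δ * s) :=
          mul_le_mul_of_nonneg_left hinc (Nat.cast_nonneg M)
      _ = M * δ * s := by ring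
      _ ≤ B / 2 * s := mul_le_mul_of_nonneg_right h1 hs'.le
  have h3 : (((M * (A + B + c' * M + 1) * (s - s0) : ℕ)) : ℝ) < (((A + 1) * B * s : ℕ) : ℝ) := by
    have e1 : (((M * (A + B + c' * M + 1) * (s - s0) : ℕ)) : ℝ) =
        (2 * A + 1) * (M * ((s : ℝ) - s0)) := by
      have e2 : A + B + c' * M + 1 = 2 * A + 1 := by omega
      rw [e2]
      push_cast [Nat.cast_sub h0]
      ring
    rw [e1]
    have hA0 : (0 : ℝ) ≤ A := Nat.cast_nonneg A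
    calc (2 * (A : ℝ) + 1) * (M * ((s : ℝ) - s0)) ≤ (2 * A + 1) * (B / 2 * s) :=
          mul_le_mul_of_nonneg_left h2 (by positivity)
      _ < (2 * A + 2) * (B / 2 * s) := by
          apply mul_lt_mul_of_pos_right _ (by positivity)
          linarith
      _ = (((A + 1) * B * s : ℕ) : ℝ) := by push_cast; ring
  exact_mod_cast h3

/-- Stepanov's method for a class `𝒦` of systems. -/
theorem count2 (g c C₀ : ℕ) (hg : 0 < g) (𝒦 : ∀ (_ : ℕ) (k : Type) [Field k], Fr g k → Prop)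
    (hok : ∀ (p : ℕ) (k : Type) [Field k] (D : Fr g k), 𝒦 p k D → D.Ok c ∧ ∀ i l, (D.U i l).natDegree ≤ C₀ * p)
    (hnv : ∀ m L : ℕ, ∃ p₀ : ℕ, ∀ p : ℕ, p.Prime → p₀ ≤ p → ∀ (k : Type) [Field k] [CharP k p] (D : Fr g k),
      𝒦 p k D → ∀ Φ : Kx g m → k[X], (∀ s, (Φ s).natDegree ≤ L) → ∀ α : k, D.Δ.eval α ≠ 0 →
        (X - C α) ^ p ∣ ev D.U Φ → Van Φ)
    (ε : ℝ) (hε : 0 < ε) : ∃ p₀ : ℕ, ∀ p : ℕ, p.Prime → p₀ ≤ p →
    ∀ (k : Type) [Field k] [CharP k p] [Infinite k] (D : Fr g k), 𝒦 p k D → ∀ n : ℕ, 0 < n → ∀ (γ : k) (Z : Finset k),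
    (∀ τ ∈ Z, τ ^ p ^ n * (1 + γ * τ) = τ ∧ D.Δ.eval τ ≠ 0 ∧ (fst (D.U.map (eval τ))).det = 0) →
    (Z.card : ℝ) ≤ ε * (p : ℝ) ^ n := by
  obtain ⟨δ, hδdef⟩ : ∃ δ : ℝ, δ = min (ε / 8) (1 / 4) := ⟨_, rfl⟩
  have hδ : 0 < δ := by rw [hδdef]; exact lt_min (by positivity) (by norm_num)
  have hδε : 8 * δ ≤ ε := by
    have := min_le_left (ε / 8) (1 / 4 : ℝ)
    rw [← hδdef] at this
    linarith
  have hδ4 : δ ≤ 1 / 4 := by rw [hδdef]; exact min_le_right _ _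
  obtain ⟨J, hJ⟩ := exists_inc g (Fintype.card ((Fin g × Fin g) ⊕ Sym2 (Fin g))) δ hδ
  obtain ⟨B, hBdef⟩ : ∃ B : ℕ, B = g * J * C₀ + 1 := ⟨_, rfl⟩
  obtain ⟨M, hMdef⟩ : ∃ M : ℕ, M = ⌊(B : ℝ) / (2 * δ)⌋₊ := ⟨_, rfl⟩
  obtain ⟨c', hc'def⟩ : ∃ c' : ℕ, c' = c := ⟨_, rfl⟩
  obtain ⟨A, hAdef⟩ : ∃ A : ℕ, A = B + c' * M := ⟨_, rfl⟩
  have hB0 : 0 < B := by omega
  have hB1 : (1 : ℝ) ≤ B := by exact_mod_cast hB0
  choose P hP using fun j : ℕ => hnv (g * j + g) A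
  obtain ⟨P0, hP0⟩ := hnv (0 + g) 0
  refine ⟨P0 + A + M + ∑ j ∈ Finset.range J, P j, fun p hp hp₀ k _ _ _ D hDK n hn γ Z hZ => ?_⟩
  have : Fact p.Prime := ⟨hp⟩
  have hPj : ∀ j < J, P j ≤ p := by
    intro j hj
    have := Finset.single_le_sum (f := P) (fun i _ => Nat.zero_le _) (Finset.mem_range.2 hj)
    omega
  obtain ⟨hD, hU⟩ := hok p k D hDK
  have hΔ0 := hD.ne
  -- the degree
  obtain ⟨j, hj, hinc⟩ := hJ (fun j => sdim g (g * j) k) (by
      show 0 < sdim g (g * 0) k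
      rw [Nat.mul_zero, sdim_zero]
      exact one_pos) (fun j => sdim_le g (g * j) k)
  obtain ⟨m, hm⟩ : ∃ m, m = g * j := ⟨_, rfl⟩
  have hmg : g * (j + 1) = m + g := by rw [hm, Nat.mul_succ]
  have hinc' : (sdim g (m + g) k : ℝ) - sdim g m k ≤ δ * sdim g (m + g) k := by
    have h := hinc
    simp only [hmg] at h
    rw [← hm] at h
    exact h
  have hmono : sdim g m k ≤ sdim g (m + g) k := sdim_le_succ g m k
  have hpos : 0 < sdim g (m + g) k := by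
    have h1 : ∀ i : ℕ, 0 < sdim g (g * i) k := by
      intro i
      induction i with
      | zero => rw [Nat.mul_zero, sdim_zero]; exact one_pos
      | succ i ih => rw [Nat.mul_succ]; exact ih.trans_le (sdim_le_succ g _ k)
    have h2 := h1 (j + 1)
    rwa [hmg] at h2
  have hMle : (M : ℝ) ≤ B / (2 * δ) := by
    rw [hMdef]
    exact Nat.floor_le (by positivity)
  have hdim := Cnt_dim A B M c' (sdim g (m + g) k) (sdim g m k) δ hδ hpos hB0 hAdef hMle hmono hinc'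
  obtain ⟨Φ, hΦ1, hΦ2, hΦ3⟩ := exists_forms g m B A M c' (fun b => tw B γ b)
    (fun b => natDegree_tw B γ b b.isLt.le) D.Δ D.G (hD.degD.trans (by omega))
    (fun i j => (hD.degG i j).trans (by omega)) hdim
  have hmgJ : m + g ≤ g * J := by
    rw [← hmg]
    exact Nat.mul_le_mul_left g hj
  -- the auxiliary polynomial
  have hdet : (fst D.U).det ≠ 0 := det_ne_zero p D.Δ hΔ0 D.U fun Ψ h1 α h2 h3 =>
    hP0 p hp (by omega) k D hDK Ψ h1 α h2 h3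
  have hne : aux (p ^ n) D.U Φ ≠ 0 := by
    refine aux_ne_zero (p := p) n hn A D.Δ hΔ0 D.U Φ hΦ1 hΦ2 fun Ψ h1 α h2 h3 => ?_
    have h := hP j p hp (hPj j hj) k D hDK
    rw [← hm] at h
    exact h Ψ h1 α h2 h3
  have hq : p ∣ p ^ n := dvd_pow_self p hn.ne'
  have hdvd : ∀ τ ∈ Z, (X - C τ) ^ M ∣ aux (p ^ n) D.U Φ := by
    intro τ hτ
    obtain ⟨h1, h2, h3⟩ := hZ τ hτ
    refine pow_dvd_of_dd (p := p) D.Δ _ τ h2 M (by omega) fun e he => ?_
    exact dd_aux_eval (p := p) (p ^ n) hq D.Δ D.G D.U hD.horU hD.isoU hdet Φ e γ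
      (hΦ3 e he) τ h1 h3
  have hcard := card_mul_le _ hne Z M hdvd
  have hdeg := natDegree_aux (p ^ n) (C₀ * p) A D.U hU Φ hΦ1
  -- the inequality
  have hpq : p ≤ p ^ n := Nat.le_self_pow hn.ne' p
  have h1 : Z.card * M ≤ 2 * B * p ^ n := by
    have h2 : (m + g) * (C₀ * p) ≤ g * J * C₀ * p ^ n := by
      rw [mul_assoc (g * J)]
      exact Nat.mul_le_mul hmgJ (Nat.mul_le_mul_left _ hpq)
    have h3 : A ≤ p ^ n := by omega
    calc Z.card * M ≤ p ^ n * B + A + (m + g) * (C₀ * p) := hcard.trans hdeg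
      _ ≤ p ^ n * B + p ^ n + g * J * C₀ * p ^ n := by omega
      _ = 2 * B * p ^ n := by rw [hBdef]; ring
  have hM1 : (B : ℝ) / (4 * δ) ≤ M := by
    have h2 : (B : ℝ) / (2 * δ) < M + 1 := by
      rw [hMdef]
      exact Nat.lt_floor_add_one _
    have h3 : (1 : ℝ) ≤ B / (4 * δ) := by
      rw [le_div_iff₀ (by positivity)]
      linarith
    have h4 : (B : ℝ) / (2 * δ) = B / (4 * δ) + B / (4 * δ) := by
      field_simp
      ring
    linarith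
  have h5 : (Z.card : ℝ) * M ≤ 2 * B * (p : ℝ) ^ n := by exact_mod_cast h1
  have h6 : (Z.card : ℝ) * (B / (4 * δ)) ≤ 2 * B * (p : ℝ) ^ n :=
    (mul_le_mul_of_nonneg_left hM1 (Nat.cast_nonneg _)).trans h5
  have hB' : (0 : ℝ) < B := by linarith
  have h7 : (Z.card : ℝ) ≤ 8 * δ * (p : ℝ) ^ n := by
    have h8 : (Z.card : ℝ) * (B / (4 * δ)) * (4 * δ / B) = Z.card := by
      field_simp
    rw [← h8]
    calc (Z.card : ℝ) * (B / (4 * δ)) * (4 * δ / B) ≤ 2 * B * (p : ℝ) ^ n * (4 * δ / B) :=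
          mul_le_mul_of_nonneg_right h6 (by positivity)
      _ = 8 * δ * (p : ℝ) ^ n := by
          field_simp
          ring
  exact h7.trans (mul_le_mul_of_nonneg_right hδε (by positivity))

/-- The count for a family with big monodromy. -/
theorem count_fam {A : Type} [CommRing A] {w n : ℕ} (𝓕 : Fam A w n) (h : 𝓕.Ok) (hg : 0 < gn w n) (dis : A)
    (hB : 𝓕.Big dis) (ε : ℝ) (hε : 0 < ε) : ∃ p₀ : ℕ, ∀ p : ℕ, p.Prime → p₀ ≤ p →
    ∀ (k : Type) [Field k] [IsAlgClosed k] [CharP k p] (ψ : A →+* k), ψ dis ≠ 0 → 𝓕.Δ.map ψ ≠ 0 →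
    ∀ r : ℕ, 0 < r → ∀ Z : Finset k,
    (∀ τ ∈ Z, τ ^ p ^ r = τ ∧ (𝓕.Δ.map ψ).eval τ ≠ 0 ∧ (fst ((𝓕.fr p ψ).U.map (eval τ))).det = 0) →
    (Z.card : ℝ) ≤ ε * (p : ℝ) ^ r := by
  obtain ⟨c, C₀, hfr⟩ := fam_frame 𝓕 h
  obtain ⟨p₀, hp₀⟩ := count2 (gn w n) c C₀ hg
    (fun p k _ D => p.Prime ∧ n < p ∧ CharP k p ∧ IsAlgClosed k ∧ ∃ ψ : A →+* k, ψ dis ≠ 0 ∧ 𝓕.Δ.map ψ ≠ 0 ∧
      D = 𝓕.fr p ψ)
    (by
      rintro p k _ D ⟨hp, hnp, hc, -, ψ, -, h2, rfl⟩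
      have : Fact p.Prime := ⟨hp⟩
      exact hfr k p ψ h2 hnp)
    (by
      intro m L
      obtain ⟨p₁, h1⟩ := nv_fam 𝓕 h dis hB m L
      refine ⟨p₁, fun p hp hp' k _ _ D hD Φ hΦ α hα hdvd => ?_⟩
      obtain ⟨-, -, -, hcl, ψ, h2, h3, rfl⟩ := hD
      exact h1 p hp hp' k ψ h2 h3 Φ hΦ α hα hdvd) ε hε
  refine ⟨p₀ + n + 1, fun p hp hp' k _ _ _ ψ h1 h2 r hr Z hZ => ?_⟩
  have : Infinite k := IsAlgClosed.instInfinite
  refine hp₀ p hp (by omega) k (𝓕.fr p ψ) ⟨hp, by omega, inferInstance, inferInstance, ψ, h1, h2, rfl⟩ r hr 0 Z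
    fun τ hτ => ?_
  obtain ⟨h3, h4, h5⟩ := hZ τ hτ
  refine ⟨?_, h4, h5⟩
  rw [zero_mul, add_zero, mul_one, h3]

end MPadcPC
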