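import Pool.Agent.Lib.MP_adc574_ag_PC.N1
import Pool.Agent.Lib.MP_adc574_ag_OA.S3
import Pool.Agent.Lib.MP_adc574_ag_OA.S6
import Pool.Agent.Lib.MP_adc574_ag_OA.S7
import Pool.Agent.Lib.MP_adc574_ag_OA.S11
import Pool.Agent.Lib.MP_adc574_ag_OA.S13

/-!
# N2: big monodromy implies the non-vanishing theorem
-/

set_option autoImplicit false

namespace MPadcPC

open Polynomial Matrix MPadcGM MPadcOA

/-- Big monodromy: all saturated stable modules of forms on frames are stable under the symplectic Lie algebra. -/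
def Big {F : Type} [Field F] {g : ℕ} (Δ : F[X]) (G : Matrix (Nx g) (Nx g) F[X]) : Prop :=
  ∀ (m : ℕ) (W : Submodule F[X] (Kx g m → F[X])), (∀ d : F[X], d ≠ 0 → ∀ x : Kx g m → F[X], d • x ∈ W → x ∈ W) →
    (∀ x ∈ W, opD Δ G x ∈ W) →
      ∀ (u v : Nx g → F), ∀ x ∈ W, KS (tr (fun l => C (u l)) (fun l => C (v l))) *ᵥ x ∈ W

theorem nv2_ult {k : ℕ → Type} [∀ n, Field (k n)] {g m A c : ℕ} (p : ℕ → ℕ) [∀ n, CharP (k n) (p n)]
    (hp : ∀ n, n ≤ p n) (D : ∀ n, Fr g (k n)) (hD : ∀ n, (D n).Ok c)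
    (hBig : ∀ (Δ' : (LL k)[X]) (G' : Matrix (Nx g) (Nx g) (LL k)[X]), (∀ᶠ n in HF, rp Δ' n = (D n).Δ) →
      (∀ᶠ n in HF, mr G' n = (D n).G) → Big Δ' G')
    (Φ : ∀ n, Kx g m → (k n)[X]) (hA : ∀ n s, (Φ n s).natDegree ≤ A) (α : ∀ n, k n) (hα : ∀ n, (D n).Δ.eval (α n) ≠ 0)
    (hdvd : ∀ n, (X - C (α n)) ^ p n ∣ ev (D n).U (Φ n)) : ∃ n, Van (Φ n) := by
  have : CharZero (LL k) := charZero_LL p hp
  obtain ⟨Δ', -, hΔ⟩ := exists_rp (k := k) (fun n => (D n).Δ) c (Filter.Eventually.of_forall fun n => (hD n).degD)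
  obtain ⟨G', hG⟩ := exists_mr (fun n => (D n).G) c fun n => (hD n).degG
  have hs : G' * JJ g (LL k)[X] + JJ g (LL k)[X] * G'ᵀ = 0 := symp_lift (fun n => (D n).G) (fun n => (hD n).symp) G' hG
  have hex : ∀ s, ∃ P : (LL k)[X], P.natDegree ≤ A ∧ ∀ᶠ n in HF, rp P n = Φ n s := fun s =>
    exists_rp (fun n => Φ n s) A (Filter.Eventually.of_forall fun n => hA n s)
  choose Φ' _ hΦ' using hex
  have hΦ : ∀ᶠ n in HF, (fun s => rp (Φ' s) n) = Φ n := by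
    filter_upwards [Filter.eventually_all.2 hΦ'] with n hn
    exact funext hn
  have hall := all_van (WS Δ' G' Φ') (fun d hd x hx => WS_sat d hd x hx) (fun x hx => WS_van hx)
    (fun u v x hx => hBig Δ' G' hΔ hG m (WS Δ' G' Φ') (fun d hd x hx => WS_sat d hd x hx) (fun x hx => WS_opD hs hx)
      u v x hx) (cl α) (Ub D α) (iso_Ub D hD α)
    (li_Ub D hD α hα)
    (fun x hx => ev_Ub p hp D hD α x (vanish_ord2 p D hD Φ α hα hdvd Δ' G' Φ' hΔ hG hΦ x hx))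
  have hv : ∀ᶠ n in HF, Van fun s => rp (Φ' s) n := rp_van (hall Φ' WS_self)
  obtain ⟨n, h1, h2⟩ := (hv.and hΦ).exists
  exact ⟨n, h2 ▸ h1⟩

end MPadcPC
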