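import Pool.Agent.Lib.MP_adc574_ag_PC.FD

/-!
# LEAF F1: the functionals `tp` as residues; they kill the exact forms

* `tp_res`: as `KL.bas_tc` in LF/Bas.lean (private): `f_c ^ p = inE (x⁻¹ ^ (p (l + 1))) * y ^ (p i)`, `Tr (inE r * z) = r * Tr z`, `H.euler (X ^ (p i) * h)` (`ev y (X ^ (p i) * h) = y ^ (p i) * ev y h`), `IsRes.coeff` with `l := p (l + 1) - 1` (`p (l + 1) = (p (l + 1) - 1) + 1`, `0 < p`).
* `d_fp`: `d (f ^ p) = p f ^ (p - 1) d f = 0` (`Derivation.leibniz_pow`, `(p : E) = 0`: `CharP E p` along `κ → RatFunc κ → E`, as `PpB_char` in LF/PpB.lean).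
* `tp_d`: `f ^ p * d z = d (f ^ p * z)`, `IsRes.tr_d`.
* `tp_lc`: linearity of both sides (`KL.lc_mE`: `lc x (mE F y η) * F_Y = ev y (∑ a, cc (x a) * η a)`, so `lc x (mE F y η) = ev y (..) / F_Y`; `tp` is additive and `tp p F c (cc r * h) = r * tp p F c h`: `tau_sum`, `tau_C_mul`).
-/

set_option autoImplicit false

namespace MPadcPC

open Polynomial MPadcCov MPadcLF

variable {κ : Type*} [Field κ] {E : Type*} [Field E] [Algebra (RatFunc κ) E] {w n : ℕ}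
  {F : κ[X][X]} {y : E} {e : Module.Basis (Fin n) (RatFunc κ) E} {δ : κ → κ}
  {dK : RatFunc κ → RatFunc κ} {d : Derivation ℤ E E} {η : IX w n → κ[X][X]} {res : RatFunc κ → κ}

private theorem F1_char (κ : Type*) [Field κ] (E : Type*) [Field E] [Algebra (RatFunc κ) E]
    (p : ℕ) [CharP κ p] : CharP E p :=
  charP_of_injective_ringHom
    ((algebraMap (RatFunc κ) E).comp ((algebraMap κ[X] (RatFunc κ)).comp (C : κ →+* κ[X]))).injective p

theorem tp_res (H : KL w n F y e dK d) (hr : IsRes res) (p : ℕ) (hp : 0 < p) (c : Gx w n) (h : κ[X][X]) :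
    res (Tr κ E (fE (κ := κ) y c ^ p * (ev y h / ev y (py F)))) = tp p F c h := by
  have h1 : fE (κ := κ) y c ^ p * (ev y h / ev y (py F)) =
      inE (κ := κ) E ((RatFunc.X⁻¹ : RatFunc κ) ^ ((p * ((c.2 : ℕ) + 1) - 1) + 1)) *
        (ev y (X ^ (p * (c.1 : ℕ)) * h) / ev y (py F)) := by
    have h2 : p * ((c.2 : ℕ) + 1) - 1 + 1 = ((c.2 : ℕ) + 1) * p := by
      have h3 : 0 < p * ((c.2 : ℕ) + 1) := Nat.mul_pos hp (Nat.succ_pos _)
      have h4 : p * ((c.2 : ℕ) + 1) = ((c.2 : ℕ) + 1) * p := mul_comm _ _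
      omega
    have h5 : inE (κ := κ) E ((RatFunc.X⁻¹ : RatFunc κ) ^ (((c.2 : ℕ) + 1) * p)) =
        inE (κ := κ) E ((RatFunc.X⁻¹ : RatFunc κ) ^ ((c.2 : ℕ) + 1)) ^ p := by
      rw [inE, inE, pow_mul, ← map_pow]
    unfold fE
    rw [map_mul (ev y), map_pow (ev y), ev_X, mul_pow, h2, h5, mul_comm p, pow_mul, mul_assoc, mul_div_assoc]
  rw [h1, tr_inE_mul, H.euler, hr.coeff]
  rfl

theorem d_fp (p : ℕ) [Fact p.Prime] [CharP κ p] (D : Derivation ℤ E E) (f : E) : D (f ^ p) = 0 := by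
  have : CharP E p := F1_char κ E p
  rw [Derivation.leibniz_pow, nsmul_eq_mul, CharP.cast_eq_zero, zero_mul]

theorem tp_d (H : KL w n F y e dK d) (hr : IsRes res) (p : ℕ) [Fact p.Prime] [CharP κ p] (f z : E) :
    res (Tr κ E (f ^ p * d z)) = 0 := by
  have h1 : f ^ p * d z = d (f ^ p * z) := by
    rw [Derivation.leibniz, d_fp (κ := κ) p d f, smul_zero, add_zero, smul_eq_mul]
  rw [h1]
  exact hr.tr_d H _

theorem tp_lc (H : KL w n F y e dK d) (hr : IsRes res) (p : ℕ) (hp : 0 < p) (c : Gx w n) (x : IX w n → κ) :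
    res (Tr κ E (fE (κ := κ) y c ^ p * lc x (mE F y η))) = ∑ a, tp p F c (η a) * x a := by
  have h1 : lc x (mE F y η) = ev y (∑ a, cc (x a) * η a) / ev y (py F) :=
    eq_div_of_mul_eq H.Fy (H.lc_mE x)
  rw [h1, tp_res H hr p hp]
  unfold tp
  rw [Finset.mul_sum, tau_sum H.wt.monic, finsetSum_coeff]
  refine Finset.sum_congr rfl fun a _ => ?_
  have h2 : (X ^ (p * (c.1 : ℕ)) * (cc (x a) * η a) : κ[X][X]) = C (C (x a)) * (X ^ (p * (c.1 : ℕ)) * η a) := by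
    ring
  rw [h2, tau_C_mul H.wt.monic, coeff_C_mul, mul_comm]

end MPadcPC
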