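import Pool.Agent.Lib.MP_adc574_ag_PC.F1

/-!
# LEAF F2: the functionals are horizontal

Take `res` from `exists_res κ`. `KD.gm_lc` for `c = Pi.single a 1`: `lc (Pi.single a 1) (mE F y η) = mE F y η a`, `Δ * δ (Pi.single a 1 b) = 0` (`δ 0 = δ 1 = 0` from `H.der`), `G.mulVec (Pi.single a 1) b = G b a`: there is `z` with
`inE (pol (C Δ)) * D (mE F y η a) = lc (fun b => G b a) (mE F y η) + d z`. Multiply by `f_c ^ p`; `f_c ^ p * D m = D (f_c ^ p * m)` (`d_fp` for `D`); apply `res ∘ Tr`: the left side is `Δ * res (Tr (D (f_c ^ p * m))) = Δ * δ (res (Tr (f_c ^ p * m)))` (`IsRes.smul`, `IsRes.tr_D`) and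
`res (Tr (f_c ^ p * mE F y η a)) = tp p F c (η a)` (`tp_res`); the right side is `∑ b, tp p F c (η b) * G b a + 0` (`tp_lc`, `tp_d`).
-/

set_option autoImplicit false

namespace MPadcPC

open Polynomial MPadcCov MPadcLF

variable {κ : Type*} [Field κ] {E : Type*} [Field E] [Algebra (RatFunc κ) E] {w n : ℕ}
  {F : κ[X][X]} {y : E} {e : Module.Basis (Fin n) (RatFunc κ) E} {δ : κ → κ}
  {dK DK : RatFunc κ → RatFunc κ} {d D : Derivation ℤ E E} {η : IX w n → κ[X][X]}

theorem tp_hor (p : ℕ) [Fact p.Prime] [CharP κ p] (H : KD w n F y e δ dK DK d D) {Δ : κ}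
    {G : Matrix (IX w n) (IX w n) κ} (hG : IsGM δ Δ F η G) (c : Gx w n) (a : IX w n) :
    Δ * δ (tp p F c (η a)) = ∑ b, tp p F c (η b) * G b a := by
  classical
  obtain ⟨res, hr⟩ := exists_res κ
  have hp : 0 < p := (Fact.out : p.Prime).pos
  obtain ⟨z, hz⟩ := H.gm_lc hG (Pi.single a 1 : IX w n → κ)
  have h0 : lc (Pi.single a 1 : IX w n → κ) (mE F y η) = mE F y η a := by
    unfold lc
    rw [Finset.sum_eq_single a]
    · rw [Pi.single_eq_same, pol, C_1, map_one, inE, map_one, one_mul]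
    · intro b _ hb
      rw [Pi.single_eq_of_ne hb, pol, C_0, map_zero, inE, map_zero, zero_mul]
    · intro h
      exact absurd (Finset.mem_univ a) h
  have h1 : (fun b => Δ * δ ((Pi.single a 1 : IX w n → κ) b) + G.mulVec (Pi.single a 1) b) = fun b => G b a := by
    funext b
    rw [Matrix.mulVec_single_one, Matrix.col_apply]
    by_cases h : b = a
    · subst h
      rw [Pi.single_eq_same, H.der.one, mul_zero, zero_add]
    · rw [Pi.single_eq_of_ne h, H.der.zero, mul_zero, zero_add]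
  rw [h0, h1] at hz
  have h2 : inE (κ := κ) E (pol (C Δ)) * D (fE (κ := κ) y c ^ p * mE F y η a) =
      fE (κ := κ) y c ^ p * lc (fun b => G b a) (mE F y η) + fE (κ := κ) y c ^ p * d z := by
    rw [Derivation.leibniz, d_fp (κ := κ) p D, smul_zero, add_zero, smul_eq_mul, ← mul_add, ← hz]
    ring
  have h3 := congrArg (fun t => res (Tr κ E t)) h2
  rw [tr_inE_mul, hr.smul, hr.tr_D H, map_add, hr.add, tp_lc H.toKL hr p hp c, tp_d H.toKL hr p, add_zero] at h3
  have h4 : res (Tr κ E (fE (κ := κ) y c ^ p * mE F y η a)) = tp p F c (η a) := tp_res H.toKL hr p hp c (η a)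
  rw [h4] at h3
  exact h3

end MPadcPC
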