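import Pool.Agent.Lib.MP_adc574_ag_PC.F1

/-!
# LEAF F3: the functionals are given by exact classes, so they are isotropic

`exists_rho`: let `f = f_c ^ p`, `d f = 0` (`d_fp`). `KL.split_E`: `f = ev y g + ∑ a, inE (pol (C (c' a))) * fE y a + β`, `BDeg 0 β`. Put `h = - br F g - ∑ a, cc (c' a) * η (Sum.inr a)`. Then `ev y h / F_Y = - d (ev y g) - ∑ a c' a m_(inr a)` (`KL.d_ev`), and this is
`d β - d f + ∑ a, c' a (d (fE y a) - m_(inr a)) = d β + ∑ ..`, which has `BDeg (-2)`: `KL.bdeg_two` for `β`, `KL.low` for `Sum.inr a` (`bE κ y (Sum.inr a) = fE y a`), `BDeg.smul`/`KL.d_const`, `BDeg.neg`, `BDeg.add`, `BDeg.sum`. By `KL.reg`: `h = fo F c₁ + g₁ * F`. Put `ρ = Sum.elim c₁ c'`. By `KL.lc_inl`-type computation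
(`lc ρ (mE F y η) = lc (Sum.elim c₁ 0) .. + lc (Sum.elim 0 c') ..`, `ev y (fo F c₁) = ev y h`): `lc ρ (mE F y η) = ev y h / F_Y + ∑ c' a m_(inr a) = - d (ev y g) = d (- ev y g)`, and `lc ρ (bE κ y) = ∑ c' a fE y a = f - ev y g - β`.
The values: take `res` from `exists_res κ`. By `KL.Jp_lc` for `Pi.single a 1` and `ρ` (`lc (Pi.single a 1) m = m a`): `Jp res d m_a b_a (lc ρ m) (lc ρ b) = BB J0 (Pi.single a 1) ρ = ∑ b, J0 a b * ρ b` (`BB` is in LP, unfold). On the other hand, with `g₂ = - ev y g`, `lc ρ m = d g₂`, `lc ρ b = f + g₂ - β`: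
`Jp res d m_a b_a (d g₂) (f + g₂ - β) = Jp res d m_a b_a (d g₂) (g₂ + (-β)) + res (Tr (- f * m_a + f * d b_a))`; the first is `0` (`KL.Jp_exact_right`, `InB` of `ev`: `KL.inB_ev`, `KL.low`), `res (Tr (f * d b_a)) = 0` (`tp_d`) and `res (Tr (f * m_a)) = tp p F c (η a)` (`tp_res`).

`tp_iso`: with `ρ`, `ρ'` for `c`, `c'`: `u = - J0 ρ`, `u' = - J0 ρ'`, `J0ᵀ = - J0`, `J0 * J0 = -1`, so `uᵀ J0 u' = ρᵀ J0ᵀ J0 J0 ρ' = ρᵀ J0 ρ' = BB J0 ρ ρ' = 0` by `KL.ex_iso`.
-/

set_option autoImplicit false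

namespace MPadcPC

open Polynomial MPadcCov MPadcLF

variable {κ : Type*} [Field κ] {E : Type*} [Field E] [Algebra (RatFunc κ) E] {w n : ℕ}
  {F : κ[X][X]} {y : E} {e : Module.Basis (Fin n) (RatFunc κ) E}
  {dK : RatFunc κ → RatFunc κ} {d : Derivation ℤ E E} {η : IX w n → κ[X][X]}

private theorem F3_split (p : ℕ) [Fact p.Prime] [CharP κ p] (H : KL w n F y e dK d) (hη : HB w n F η)
    (c : Gx w n) : ∃ (ρ : IX w n → κ) (g : κ[X][X]) (β : E), BDeg e (aa w n) 0 β ∧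
      lc ρ (mE F y η) = d (ev y (-g)) ∧
      lc ρ (bE κ y) = fE (κ := κ) y c ^ p + (ev y (-g) + -β) := by
  obtain ⟨f, hf⟩ : ∃ f : E, f = fE (κ := κ) y c ^ p := ⟨_, rfl⟩
  have hdf : d f = 0 := by
    rw [hf]
    exact d_fp (κ := κ) p d _
  rw [← hf]
  obtain ⟨g, c', β, hβ, hbs⟩ := H.split_E f
  have hFy := H.Fy
  have h1 : ev y (-(∑ a, cc (c' a) * η (Sum.inr a)) - br F g) / ev y (py F) =
      -(∑ a, inE (κ := κ) E (pol (C (c' a))) * mE F y η (Sum.inr a)) - d (ev y g) := by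
    rw [map_sub, map_neg, sub_div, neg_div, map_sum, Finset.sum_div, ← H.d_ev g,
      mul_div_assoc, div_self hFy, mul_one]
    congr 2
    refine Finset.sum_congr rfl fun a _ => ?_
    rw [map_mul, cc, ev_C, mE, mul_div_assoc]
  have h2 : d (ev y g) + (∑ a, inE (κ := κ) E (pol (C (c' a))) * d (fE (κ := κ) y a)) + d β = 0 := by
    rw [← hdf]
    conv_rhs => rw [hbs]
    rw [map_add, map_add, map_sum]
    congr 2
    refine Finset.sum_congr rfl fun a _ => ?_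
    exact (H.d_const (c' a) _).symm
  have h3 : -(∑ a, inE (κ := κ) E (pol (C (c' a))) * mE F y η (Sum.inr a)) - d (ev y g) =
      d β - (∑ a, inE (κ := κ) E (pol (C (c' a))) *
        (mE F y η (Sum.inr a) - d (bE κ y (Sum.inr a)))) := by
    have h4 : (∑ a, inE (κ := κ) E (pol (C (c' a))) *
        (mE F y η (Sum.inr a) - d (bE κ y (Sum.inr a)))) =
        (∑ a, inE (κ := κ) E (pol (C (c' a))) * mE F y η (Sum.inr a)) -
        (∑ a, inE (κ := κ) E (pol (C (c' a))) * d (fE (κ := κ) y a)) := by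
      rw [← Finset.sum_sub_distrib]
      refine Finset.sum_congr rfl fun a _ => ?_
      rw [mul_sub]
      rfl
    rw [h4]
    linear_combination (-1 : E) * h2
  have h5 : BDeg e (aa w n) (-2)
      (ev y (-(∑ a, cc (c' a) * η (Sum.inr a)) - br F g) / ev y (py F)) := by
    rw [h1, h3]
    refine BDeg.sub (H.bdeg_two hβ) (BDeg.sum _ _ fun a _ => ?_)
    have h6 : Dle (pol (C (c' a))) 0 := by
      rw [dle_pol_iff, natDegree_C]
      right
      exact le_refl _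
    have h7 := BDeg.smul h6 (H.low hη (Sum.inr a))
    rw [add_zero] at h7
    exact h7
  obtain ⟨c₁, g', h8⟩ := H.reg _ h5
  refine ⟨Sum.elim c₁ c', g, β, hβ, ?_, ?_⟩
  · have h9 : ∑ a, cc (Sum.elim c₁ c' a) * η a =
        fo F c₁ + ∑ a, cc (c' a) * η (Sum.inr a) := by
      rw [Fintype.sum_sum_type, fo]
      congr 1
      refine Finset.sum_congr rfl fun a _ => ?_
      rw [Sum.elim_inl, hη.phi a]
    have h10 : lc (Sum.elim c₁ c') (mE F y η) * ev y (py F) = ev y (-(br F g) - g' * F) := by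
      rw [H.lc_mE, h9]
      congr 1
      linear_combination (-1 : κ[X][X]) * h8
    rw [map_sub, map_mul, H.root, mul_zero, sub_zero, map_neg, ← H.d_ev g] at h10
    rw [map_neg, map_neg]
    apply mul_right_cancel₀ hFy
    rw [h10]
    ring
  · have h9 : lc (Sum.elim c₁ c') (bE κ y) = ∑ a, inE (κ := κ) E (pol (C (c' a))) * fE (κ := κ) y a := by
      unfold lc bE
      rw [Fintype.sum_sum_type]
      simp only [Sum.elim_inl, Sum.elim_inr, mul_zero, Finset.sum_const_zero, zero_add]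
    rw [h9, map_neg]
    linear_combination (-1 : E) * hbs

private theorem F3_single (a : IX w n) (m : IX w n → E) :
    lc (Pi.single a (1 : κ) : IX w n → κ) m = m a := by
  unfold lc
  rw [Finset.sum_eq_single a]
  · rw [Pi.single_eq_same, C_1, pol, map_one, inE, map_one, one_mul]
  · intro b _ hb
    rw [Pi.single_eq_of_ne hb, C_0, pol, map_zero, inE, map_zero, zero_mul]
  · intro h
    exact absurd (Finset.mem_univ a) h

theorem exists_rho (p : ℕ) [Fact p.Prime] [CharP κ p] (H : KL w n F y e dK d) (hη : HB w n F η)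
    (c : Gx w n) : ∃ ρ : IX w n → κ, (∃ z, d z = lc ρ (mE F y η)) ∧
      ∀ a, tp p F c (η a) = -∑ b, J0 κ (Gx w n) a b * ρ b := by
  obtain ⟨res, hr⟩ := exists_res κ
  obtain ⟨ρ, g, β, hβ, h1, h2⟩ := F3_split p H hη c
  refine ⟨ρ, ⟨ev y (-g), h1.symm⟩, fun a => ?_⟩
  have h3 := H.Jp_lc hr hη (Pi.single a 1) ρ
  rw [F3_single, F3_single, h1, h2] at h3
  have h4 : MPadcLP.BB (J0 κ (Gx w n)) (Pi.single a 1) ρ = ∑ b, J0 κ (Gx w n) a b * ρ b := by
    unfold MPadcLP.BB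
    rw [single_one_dotProduct]
    rfl
  rw [h4] at h3
  have hm : InB e (mE F y η a * ev y (py F)) := by
    have h5 : mE F y η a * ev y (py F) = ev y (η a) := div_mul_cancel₀ _ H.Fy
    rw [h5]
    exact H.inB_ev _
  have h5 := H.Jp_exact_right hr (H.inB_ev (-g)) (BDeg.neg hβ) hm (H.low hη a)
  have h6 := tp_res H hr p (Fact.out : p.Prime).pos c (η a)
  have h7 := tp_d H hr p (fE (κ := κ) y c) (bE κ y a)
  unfold Jp at h3 h5
  have h8 : bE κ y a * d (ev y (-g)) - (fE (κ := κ) y c ^ p + (ev y (-g) + -β)) * mE F y η a +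
      (fE (κ := κ) y c ^ p + (ev y (-g) + -β)) * d (bE κ y a) =
      (bE κ y a * d (ev y (-g)) - (ev y (-g) + -β) * mE F y η a +
        (ev y (-g) + -β) * d (bE κ y a)) - fE (κ := κ) y c ^ p * (ev y (η a) / ev y (py F)) +
        fE (κ := κ) y c ^ p * d (bE κ y a) := by
    unfold mE
    ring
  rw [h8, map_add, map_sub, hr.add, hr.sub, h5, h6, h7] at h3
  linear_combination (-1 : κ) * h3

theorem tp_iso (p : ℕ) [Fact p.Prime] [CharP κ p] (H : KL w n F y e dK d) (hη : HB w n F η)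
    (hs : Sm F 1) (c c' : Gx w n) :
    ∑ a, ∑ b, tp p F c (η a) * J0 κ (Gx w n) a b * tp p F c' (η b) = 0 := by
  obtain ⟨ρ, hρ1, hρ2⟩ := exists_rho p H hη c
  obtain ⟨ρ', hρ1', hρ2'⟩ := exists_rho p H hη c'
  have h1 := H.ex_iso p hη hs ρ ρ' hρ1 hρ1'
  obtain ⟨J, hJ⟩ : ∃ J : Matrix (IX w n) (IX w n) κ, J = J0 κ (Gx w n) := ⟨_, rfl⟩
  rw [← hJ] at h1
  have hJJ : J * J = -1 := by
    rw [hJ, J0, Matrix.fromBlocks_multiply]
    simp [← Matrix.fromBlocks_one, Matrix.fromBlocks_neg]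
  have hJt : J.transpose = -J := by
    rw [hJ, J0, Matrix.fromBlocks_transpose, Matrix.fromBlocks_neg]
    simp
  have h2 : (fun a => tp p F c (η a)) = -(J.mulVec ρ) := by
    funext a
    rw [hρ2, Pi.neg_apply, hJ]
    rfl
  have h3 : (fun a => tp p F c' (η a)) = -(J.mulVec ρ') := by
    funext a
    rw [hρ2', Pi.neg_apply, hJ]
    rfl
  have h4 : ∑ a, ∑ b, tp p F c (η a) * J0 κ (Gx w n) a b * tp p F c' (η b) =
      (fun a => tp p F c (η a)) ⬝ᵥ J.mulVec fun b => tp p F c' (η b) := by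
    rw [← hJ]
    unfold dotProduct Matrix.mulVec dotProduct
    refine Finset.sum_congr rfl fun a _ => ?_
    rw [Finset.mul_sum]
    refine Finset.sum_congr rfl fun b _ => ?_
    ring
  rw [h4, h2, h3, Matrix.mulVec_neg, neg_dotProduct_neg, Matrix.mulVec_mulVec, hJJ, Matrix.neg_mulVec,
    Matrix.one_mulVec, dotProduct_neg]
  unfold MPadcLP.BB at h1
  have h5 : J.mulVec ρ ⬝ᵥ ρ' = ρ ⬝ᵥ J.transpose.mulVec ρ' := by
    rw [Matrix.dotProduct_mulVec, Matrix.vecMul_transpose]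
  rw [h5, hJt, Matrix.neg_mulVec, dotProduct_neg, neg_neg]
  exact h1

end MPadcPC
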