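import Pool.Agent.Lib.MP_adc574_ag_PC.F1

/-!
# LEAF F4: the functions killed by `d` in characteristic `p`

`pow_span`, `pow_indep`: `y ^ (p i)`, `i < n`, is a basis of `E` over `RatFunc κ`: it is enough that `y ∈ RatFunc κ (y ^ p)` (`E` is generated by `y`: `H.basis`; and the degree of `y ^ p` is then `n`, so its first `n` powers are a basis: `IntermediateField.powerBasis..`, or: `n` spanning vectors of an `n`-dimensional space). `E` is separable over `RatFunc κ`: `H.sep` says that it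
is formally unramified (`Algebra.FormallyUnramified.iff_isSeparable`), or directly: `Field.Emb..`; Mathlib: `IntermediateField.adjoin_simple_eq_adjoin_pow_expChar_of_isSeparable` (or `isSeparable_iff..`, `Field.adjoin_..pow_expChar`). ALTERNATIVE without fields: the matrix `Tr (y ^ (p i) y ^ (p j)) = (Tr (y ^ i y ^ j)) ^ p` has the determinant `(det (Tr (y ^ i y ^ j))) ^ p ≠ 0` (the trace form is
nondegenerate by `H.euler`), so the `y ^ (p i)` are independent.

`rat_ker`: `r = pol u / pol v`, `v ≠ 0`; `r = pol (u v ^ (p - 1)) / pol (v ^ p)`, `dK (pol (v ^ p)) = 0`, so `derivative (u v ^ (p - 1)) = 0`, so `u v ^ (p - 1) = expand κ p u'` (Mathlib: `Polynomial.expand_contract`), and `v ^ p = expand κ p (..)`(`derivative = 0`) too. Dividing with remainder the numerator by the denominator and then expanding the proper fraction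
(as `split_rat` in LF/SK.lean, applied to the rational function `r'` with `r(x) = r'(x ^ p)`): `r = pol (expand p q) + ∑ l < L, C (c l) x ^ (- p (l + 1)) + r''`, `dK r'' = 0` and `r''` of degree `≤ - p (L + 1)`; we only need: degree `≤ - (L : ℤ)`. (`RatFunc.map`/`liftRingHom` of `expand κ p` gives the ring homomorphism `σ : RatFunc κ →+* RatFunc κ`, `σ (pol q) = pol (expand κ p q)`;
`intDegree (σ r') = p * intDegree r'`: only `Dle r' (-1 - L) → Dle (σ r') (- L)` is needed.)

`ker_split`: `a = ∑ i, inE (r i) * y ^ (p i)` (`pow_span`), `0 = d a = ∑ i, inE (dK (r i)) * y ^ (p i)` (`d (y ^ (p i)) = 0`: `d_fp`), so `dK (r i) = 0` (`pow_indep`). `rat_ker` with `L = w i - 1` (`L = 0` for `i = 0`): the polynomial parts give `ev y g`, the middle parts the `f_c ^ p` (`c = (i, l)`, `l < w i - 1`), and the sum of the `r''_i y ^ (p i)` is `β`: its `BDeg 0` needs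
degree `≤ - w p i`, so for this take `Dle r'' (- p (L + 1))`, `p (L + 1) = p w i` for `i ≥ 1`.
-/

set_option autoImplicit false

namespace MPadcPC

open Polynomial MPadcCov MPadcLF

variable {κ : Type*} [Field κ] {E : Type*} [Field E] [Algebra (RatFunc κ) E] {w n : ℕ}
  {F : κ[X][X]} {y : E} {e : Module.Basis (Fin n) (RatFunc κ) E}
  {dK : RatFunc κ → RatFunc κ} {d : Derivation ℤ E E} {η : IX w n → κ[X][X]}

private theorem F4_sep (H : KL w n F y e dK d) : Algebra.IsSeparable (RatFunc κ) E := by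
  by_contra hns
  have h1 : Algebra.trace (RatFunc κ) E = 0 := Algebra.trace_eq_zero_of_not_isSeparable hns
  have h2 := H.euler (X ^ (n - 1))
  have h3 : tau F (X ^ (n - 1)) = 1 := by
    have hn := H.hn
    rw [tau_pow H.wt.monic H.wt.deg (n - 1) (by omega), if_pos (by omega)]
  have h4 : Tr κ E (ev (κ := κ) y (X ^ (n - 1)) / ev y (py F)) = 0 := by
    change (Algebra.trace (RatFunc κ) E) _ = 0
    rw [h1]
    rfl
  rw [h3, h4] at h2
  exact zero_ne_one (h2.trans (map_one (algebraMap κ[X] (RatFunc κ))))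

private theorem F4_basis (p : ℕ) [Fact p.Prime] [CharP κ p] (H : KL w n F y e dK d) :
    ∃ b : Module.Basis (Fin n) (RatFunc κ) E, ∀ i, b i = y ^ (p * (i : ℕ)) := by
  have hsep := F4_sep H
  have hch : CharP (RatFunc κ) p := charP_of_injective_algebraMap (algebraMap κ (RatFunc κ)).injective p
  have hex : ExpChar (RatFunc κ) p := ExpChar.prime (Fact.out : p.Prime)
  refine ⟨Module.Basis.mapPowExpCharPowOfIsSeparable p 1 e, fun i => ?_⟩
  have h1 : (Module.Basis.mapPowExpCharPowOfIsSeparable p 1 e) i = e i ^ p ^ 1 := by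
    unfold Module.Basis.mapPowExpCharPowOfIsSeparable
    rw [Module.Basis.mk_apply]
  rw [h1, H.basis, pow_one, ← pow_mul, mul_comm]

theorem pow_span (p : ℕ) [Fact p.Prime] [CharP κ p] (H : KL w n F y e dK d) (a : E) :
    ∃ r : Fin n → RatFunc κ, a = ∑ i, inE (κ := κ) E (r i) * y ^ (p * (i : ℕ)) := by
  obtain ⟨b, hb⟩ := F4_basis p H
  refine ⟨fun i => b.repr a i, ?_⟩
  conv_lhs => rw [← b.sum_repr a]
  refine Finset.sum_congr rfl fun i _ => ?_
  rw [hb, Algebra.smul_def]

theorem pow_indep (p : ℕ) [Fact p.Prime] [CharP κ p] (H : KL w n F y e dK d) (s : Fin n → RatFunc κ)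
    (h : ∑ i, inE (κ := κ) E (s i) * y ^ (p * (i : ℕ)) = 0) : s = 0 := by
  obtain ⟨b, hb⟩ := F4_basis p H
  funext i
  have h1 : ∑ i, s i • b i = 0 := by
    rw [← h]
    refine Finset.sum_congr rfl fun i _ => ?_
    rw [hb, Algebra.smul_def]
  exact Fintype.linearIndependent_iff.1 b.linearIndependent s h1 i

private theorem F4_exp_inj (p : ℕ) [Fact p.Prime] :
    Function.Injective (expand κ p : κ[X] →ₐ[κ] κ[X]).toRingHom :=
  expand_injective (Fact.out : p.Prime).pos

/-- The substitution of `x ^ p` for `x`. -/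
private noncomputable def F4_sig (κ : Type*) [Field κ] (p : ℕ) [Fact p.Prime] : RatFunc κ →+* RatFunc κ :=
  IsFractionRing.map (F4_exp_inj (κ := κ) p)

private theorem F4_sig_pol (p : ℕ) [Fact p.Prime] (q : κ[X]) :
    F4_sig κ p (pol q) = pol (expand κ p q) := by
  unfold F4_sig IsFractionRing.map
  exact IsLocalization.map_eq _ q

private theorem F4_sig_X (p : ℕ) [Fact p.Prime] : F4_sig κ p RatFunc.X = RatFunc.X ^ p := by
  rw [← RatFunc.algebraMap_X, ← map_pow, ← expand_X]
  exact F4_sig_pol p X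

private theorem F4_sig_deg (p : ℕ) [Fact p.Prime] {r : RatFunc κ} {m : ℤ} (h : Dle r m) :
    Dle (F4_sig κ p r) (p * m) := by
  rcases eq_or_ne r 0 with h0 | h0
  · rw [h0, map_zero]
    exact Dle.zero _
  obtain ⟨u, q, hq, hu⟩ := exists_rep r
  have hp := (Fact.out : p.Prime).pos
  have hq' : expand κ p q ≠ 0 := (expand_ne_zero hp).2 hq
  have hqp : pol q ≠ 0 := by
    rw [Ne, pol, map_eq_zero_iff _ pol_injective]
    exact hq
  have h1 : Dle (pol u) (q.natDegree + m) := by
    rw [← hu]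
    exact Dle.mul (dle_pol_iff.2 (Or.inr le_rfl)) h
  have hu0 : u ≠ 0 := by
    intro h2
    rw [h2] at hu
    rw [pol, pol, map_zero] at hu
    exact mul_ne_zero hqp h0 hu
  have h2 : (u.natDegree : ℤ) ≤ q.natDegree + m := (dle_pol_iff.1 h1).resolve_left hu0
  apply dle_of_mul hq'
  rw [← F4_sig_pol, ← map_mul, hu, F4_sig_pol, dle_pol_iff, natDegree_expand, natDegree_expand]
  right
  push_cast
  have h3 : (0 : ℤ) ≤ (p : ℤ) := Int.natCast_nonneg p
  calc (u.natDegree : ℤ) * p ≤ (q.natDegree + m) * p := mul_le_mul_of_nonneg_right h2 h3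
    _ = q.natDegree * p + p * m := by ring

private theorem F4_dK_sig (p : ℕ) [Fact p.Prime] [CharP κ p] (H : KL w n F y e dK d)
    (r : RatFunc κ) : dK (F4_sig κ p r) = 0 := by
  obtain ⟨u, q, hq, hu⟩ := exists_rep r
  have hp := (Fact.out : p.Prime).pos
  have hder : ∀ f : κ[X], dK (pol (expand κ p f)) = 0 := by
    intro f
    rw [H.dK_pol, derivative_expand, CharP.cast_eq_zero, zero_mul, mul_zero, pol, map_zero]
  have hq' : pol (expand κ p q) ≠ 0 := by
    rw [Ne, pol, map_eq_zero_iff _ pol_injective]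
    exact (expand_ne_zero hp).2 hq
  have h1 : pol (expand κ p q) * F4_sig κ p r = pol (expand κ p u) := by
    rw [← F4_sig_pol, ← map_mul, hu, F4_sig_pol]
  have h2 := H.dK_mul (pol (expand κ p q)) (F4_sig κ p r)
  rw [h1, hder, hder, mul_zero, add_zero] at h2
  exact (mul_eq_zero.1 h2.symm).resolve_left hq'

private theorem F4_ker (p : ℕ) [Fact p.Prime] [CharP κ p] (H : KL w n F y e dK d)
    (r : RatFunc κ) (h : dK r = 0) : ∃ r0, r = F4_sig κ p r0 := by
  obtain ⟨u, q, hq, hu⟩ := exists_rep r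
  have hp := (Fact.out : p.Prime).pos
  have hp0 := (Fact.out : p.Prime).ne_zero
  have hqp : pol (q ^ p) ≠ 0 := by
    rw [Ne, pol, map_eq_zero_iff _ pol_injective]
    exact pow_ne_zero _ hq
  have hder : derivative (q ^ p) = 0 := by
    rw [derivative_pow, CharP.cast_eq_zero, map_zero, zero_mul, zero_mul]
  have h1 : pol (q ^ p) * r = pol (u * q ^ (p - 1)) := by
    have h2 : q ^ p = q * q ^ (p - 1) := by
      rw [← pow_succ', Nat.sub_add_cancel hp]
    have h3 : pol (q * q ^ (p - 1)) = pol q * pol (q ^ (p - 1)) := map_mul _ _ _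
    have h4 : pol (u * q ^ (p - 1)) = pol u * pol (q ^ (p - 1)) := map_mul _ _ _
    rw [h2, h3, h4, ← hu]
    ring
  have h2 : derivative (u * q ^ (p - 1)) = 0 := by
    have h3 := H.dK_mul (pol (q ^ p)) r
    rw [h, mul_zero, zero_add, H.dK_pol, hder, h1, H.dK_pol] at h3
    rw [pol, pol, map_zero, mul_zero] at h3
    exact (map_eq_zero_iff _ pol_injective).1 h3
  have hu' := expand_contract p h2 hp0
  have hq' := expand_contract p hder hp0
  have h5 : F4_sig κ p (pol (contract p (q ^ p))) = pol (q ^ p) := by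
    rw [F4_sig_pol, hq']
  refine ⟨pol (contract p (u * q ^ (p - 1))) / pol (contract p (q ^ p)), ?_⟩
  rw [map_div₀, h5, F4_sig_pol, hu', eq_div_iff hqp, mul_comm, h1]

theorem rat_ker (p : ℕ) [Fact p.Prime] [CharP κ p] (H : KL w n F y e dK d) (r : RatFunc κ)
    (h : dK r = 0) (L : ℕ) :
    ∃ (q : κ[X]) (c : Fin L → κ) (r' : RatFunc κ), dK (pol q) = 0 ∧ dK r' = 0 ∧ Dle r' (-(p * (L + 1) : ℤ)) ∧
      r = pol q + (∑ l, pol (C (c l)) * (RatFunc.X⁻¹) ^ (p * ((l : ℕ) + 1))) + r' := by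
  obtain ⟨r0, hr0⟩ := F4_ker p H r h
  obtain ⟨q0, c, r1, h1, h2⟩ := split_rat r0 L
  refine ⟨expand κ p q0, c, F4_sig κ p r1, ?_, F4_dK_sig p H r1, ?_, ?_⟩
  · rw [← F4_sig_pol]
    exact F4_dK_sig p H _
  · refine (F4_sig_deg p h1).mono ?_
    apply le_of_eq
    ring
  · rw [hr0, h2, map_add, map_add, F4_sig_pol, map_sum]
    congr 2
    refine Finset.sum_congr rfl fun l _ => ?_
    rw [map_mul, F4_sig_pol, expand_C, map_pow, map_inv₀, F4_sig_X, ← inv_pow, ← pow_mul]

theorem ker_split (p : ℕ) [Fact p.Prime] [CharP κ p] (H : KL w n F y e dK d) (a : E) (ha : d a = 0) :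
    ∃ (g : κ[X][X]) (lam : Gx w n → κ) (β : E), d (ev y g) = 0 ∧ d β = 0 ∧ BDeg e (aa w n) 0 β ∧
      a = ev y g + (∑ c, inE (κ := κ) E (pol (C (lam c))) * fE (κ := κ) y c ^ p) + β := by
  obtain ⟨r, hr⟩ := pow_span p H a
  have hdy : ∀ i : ℕ, d (y ^ (p * i)) = 0 := by
    intro i
    rw [mul_comm, pow_mul]
    exact d_fp (κ := κ) p d (y ^ i)
  have hdt : ∀ (s : RatFunc κ) (i : ℕ), d (inE (κ := κ) E s * y ^ (p * i)) =
      inE (κ := κ) E (dK s) * y ^ (p * i) := by
    intro s i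
    rw [Derivation.leibniz, hdy, smul_zero, zero_add, smul_eq_mul, inE, H.d_alg, mul_comm]
  have hdr : ∀ i, dK (r i) = 0 := by
    have h1 : ∑ i : Fin n, inE (κ := κ) E (dK (r i)) * y ^ (p * (i : ℕ)) = 0 := by
      rw [← ha, hr, map_sum]
      exact (Finset.sum_congr rfl fun i _ => hdt (r i) i).symm
    have h2 := pow_indep p H (fun i => dK (r i)) h1
    exact fun i => congrFun h2 i
  choose q c r' h1 h2 h3 h4 using fun i : Fin n => rat_ker p H (r i) (hdr i) (w * (i : ℕ) - 1)
  have hevp : ∀ i : ℕ, ev y (X ^ (p * i) : κ[X][X]) = y ^ (p * i) := by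
    intro i
    rw [map_pow, ev_X]
  refine ⟨∑ i : Fin n, C (q i) * X ^ (p * (i : ℕ)), fun a => c a.1 a.2,
    ∑ i : Fin n, inE (κ := κ) E (r' i) * y ^ (p * (i : ℕ)), ?_, ?_, ?_, ?_⟩
  · rw [map_sum, map_sum]
    refine Finset.sum_eq_zero fun i _ => ?_
    rw [map_mul, ev_C, hevp, hdt, h1, inE, map_zero, zero_mul]
  · rw [map_sum]
    refine Finset.sum_eq_zero fun i _ => ?_
    rw [hdt, h2, inE, map_zero, zero_mul]
  · refine BDeg.sum _ _ fun i _ => ?_
    have h5 : BDeg e (aa w n) ((w * (p * (i : ℕ)) : ℕ) : ℤ) (y ^ (p * (i : ℕ))) := by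
      rw [← hevp]
      exact H.bdeg_ev (WD.ofX_pow _)
    refine BDeg.mono (BDeg.smul (h3 i) h5) ?_
    have hp : (0 : ℤ) < (p : ℤ) := Int.natCast_pos.2 (Fact.out : p.Prime).pos
    have h6 : ((w * (i : ℕ) : ℕ) : ℤ) ≤ ((w * (i : ℕ) - 1 : ℕ) : ℤ) + 1 := by omega
    have h7 : ((w * (p * (i : ℕ)) : ℕ) : ℤ) = p * ((w * (i : ℕ) : ℕ) : ℤ) := by
      push_cast
      ring
    rw [h7]
    nlinarith [mul_le_mul_of_nonneg_left h6 hp.le]
  · have h5 : ev y (∑ i : Fin n, C (q i) * X ^ (p * (i : ℕ))) =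
        ∑ i : Fin n, inE (κ := κ) E (pol (q i)) * y ^ (p * (i : ℕ)) := by
      rw [map_sum]
      refine Finset.sum_congr rfl fun i _ => ?_
      rw [map_mul, ev_C, hevp]
    have h6 : (∑ a : Gx w n, inE (κ := κ) E (pol (C (c a.1 a.2))) * fE (κ := κ) y a ^ p) =
        ∑ i : Fin n, inE (κ := κ) E (∑ l : Fin (w * (i : ℕ) - 1), pol (C (c i l)) *
          (RatFunc.X⁻¹) ^ (p * ((l : ℕ) + 1))) * y ^ (p * (i : ℕ)) := by
      rw [Fintype.sum_sigma]
      refine Finset.sum_congr rfl fun i _ => ?_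
      rw [inE, map_sum, Finset.sum_mul]
      refine Finset.sum_congr rfl fun l _ => ?_
      rw [fE, map_mul, mul_pow, ← map_pow, ← pow_mul, ← pow_mul, mul_assoc, mul_comm p, mul_comm p]
    rw [h5, h6, ← Finset.sum_add_distrib, ← Finset.sum_add_distrib]
    refine hr.trans (Finset.sum_congr rfl fun i _ => ?_)
    rw [← add_mul, ← add_mul, inE, inE, inE, inE, ← map_add, ← map_add, ← h4 i]

end MPadcPC
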