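import Pool.Agent.Lib.MP_adc574_ag_PC.F4
import Pool.Agent.Lib.MP_adc574_ag_PC.F3

/-!
# LEAF F5: the common kernel of the functionals; independence

`exact_of_tp`: `φ = lc x (mE F y η)`, `b = lc x (bE κ y)`, `A = d^[p - 1] φ`, `d A = 0` (`KL.iterate_p`). Take `res` from `exists_res κ`.
(1) for every `a` with `d a = 0`: `res (Tr (a * φ)) = 0`. By `ker_split` `a = ev y g + ∑ lam c f_c ^ p + β`. `res (Tr (ev y g * φ)) = 0`: `IsRes.tr_pol` (`φ * F_Y ∈ B`: `KL.lc_mE`, `KL.inB_ev`). `res (Tr (f_c ^ p * φ)) = ∑ tp p F c (η a) * x a = 0` (`tp_lc`, `h0`). `β φ = β (φ - d b) + d (β b)` (`d β = 0`): `KL.lc_low`, `KL.bdeg_mul`, `IsRes.tr_low`, `IsRes.tr_d`.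
(2) `φ + x ^ (p - 1) A` is exact (`KL.exact_iff`: `d^[p - 1] (x ^ (p - 1) A) = (p - 1)! A = - A`, Wilson: `ZMod.wilsons_lemma`, or use `(p - 1)! ≠ 0` and `φ - ((p - 1)!)⁻¹ x ^ (p - 1) A` in place of it; `d x = 1`, `d A = 0`), `= d z`; so `res (Tr (a * x ^ (p - 1) * A)) = - res (Tr (a * φ)) + res (Tr (d (a z))) = 0` for all `a` with `d a = 0`.
(3) If `A ≠ 0` take `a = A⁻¹ x ^ (- p)`, `d a = 0`: `a x ^ (p - 1) A = x⁻¹`, `Tr (x⁻¹) = n x⁻¹` (`Algebra.trace_algebraMap`, `finrank = n` by `e`), `res = n ≠ 0`. So `A = 0` and `φ` is exact (`KL.exact_iff`).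

`tp_li`: let `U` be the matrix `U c a = tp p F c (η a)`. The space `N = {x | U x = 0}` is isotropic for `BB J0` (`exact_of_tp`, `KL.ex_iso`), so `dim N ≤ g` where `g = card (Gx w n)` (`J0` is nondegenerate on a space of dimension `2 g`: `N ≤ N^⊥`, `dim N + dim N^⊥ = 2 g`; elementary: `x ↦ J0 x` maps `N` injectively into the annihilator of `N`), so the rank of `U` is
`≥ 2 g - g = g` = the number of its rows (`Matrix.rank`, `LinearMap.finrank_range_add_finrank_ker`): the rows are independent.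
-/

set_option autoImplicit false

namespace MPadcPC

open Polynomial MPadcCov MPadcLF

variable {κ : Type*} [Field κ] {E : Type*} [Field E] [Algebra (RatFunc κ) E] {w n : ℕ}
  {F : κ[X][X]} {y : E} {e : Module.Basis (Fin n) (RatFunc κ) E}
  {dK : RatFunc κ → RatFunc κ} {d : Derivation ℤ E E} {η : IX w n → κ[X][X]}

private theorem F5_itmul {E : Type*} [Field E] (θ : Derivation ℤ E E) (u v : E) (hu : θ u = 0) (m : ℕ) :
    θ^[m] (u * v) = u * θ^[m] v := by
  induction m with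
  | zero => rfl
  | succ m ih =>
    rw [Function.iterate_succ_apply', ih, Derivation.leibniz, hu, smul_zero, add_zero,
      smul_eq_mul, Function.iterate_succ_apply']

private theorem F5_itpow {E : Type*} [Field E] (θ : Derivation ℤ E E) (t : E) (ht : θ t = 1) (m j : ℕ)
    (hj : j ≤ m) : θ^[j] (t ^ m) = (m.descFactorial j : E) * t ^ (m - j) := by
  induction j with
  | zero => simp
  | succ j ih =>
    rw [Function.iterate_succ_apply', ih (by omega), Derivation.leibniz, Derivation.map_natCast,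
      smul_zero, add_zero, smul_eq_mul, Derivation.leibniz_pow, ht, smul_eq_mul, mul_one,
      Nat.descFactorial_succ]
    obtain ⟨l, hl⟩ : ∃ l, m - j = l + 1 := ⟨m - j - 1, by omega⟩
    rw [hl, show m - (j + 1) = l by omega, Nat.add_sub_cancel, nsmul_eq_mul]
    push_cast
    ring

private theorem F5_x (H : KL w n F y e dK d) : d (inE (κ := κ) E (pol X)) = 1 := by
  show d (algebraMap (RatFunc κ) E (pol X)) = 1
  rw [H.d_alg, H.dK_pol, derivative_X]
  show algebraMap (RatFunc κ) E (algebraMap κ[X] (RatFunc κ) 1) = 1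
  rw [map_one, map_one]

private theorem F5_step (p : ℕ) [Fact p.Prime] [CharP κ p] (H : KL w n F y e dK d) (hη : HB w n F η)
    {res : RatFunc κ → κ} (hr : IsRes res) (x : IX w n → κ)
    (h0 : ∀ c : Gx w n, ∑ a, tp p F c (η a) * x a = 0) (a : E) (ha : d a = 0) :
    res (Tr κ E (a * lc x (mE F y η))) = 0 := by
  have hp : 0 < p := (Fact.out : p.Prime).pos
  obtain ⟨g, lam, β, -, hβd, hβ, hsplit⟩ := ker_split p H a ha
  obtain ⟨φ, hφ⟩ : ∃ φ, φ = lc x (mE F y η) := ⟨_, rfl⟩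
  obtain ⟨b, hb⟩ : ∃ b, b = lc x (bE κ y) := ⟨_, rfl⟩
  rw [← hφ]
  have hm : InB e (φ * ev y (py F)) := by
    rw [hφ, H.lc_mE]
    exact H.inB_ev _
  have hlow : BDeg e (aa w n) (-2) (φ - d b) := by
    rw [hφ, hb]
    exact H.lc_low hη x
  have h1 : a * φ = φ * ev y g +
      (∑ c, inE (κ := κ) E (pol (C (lam c))) * (fE (κ := κ) y c ^ p * φ)) +
      (β * (φ - d b) + d (β * b)) := by
    have h2 : d (β * b) = β * d b := by
      rw [Derivation.leibniz, hβd, smul_zero, add_zero, smul_eq_mul]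
    have h3 : (∑ c, inE (κ := κ) E (pol (C (lam c))) * (fE (κ := κ) y c ^ p * φ)) =
        (∑ c, inE (κ := κ) E (pol (C (lam c))) * fE (κ := κ) y c ^ p) * φ := by
      rw [Finset.sum_mul]
      exact Finset.sum_congr rfl fun c _ => by ring
    rw [h2, h3, hsplit]
    ring
  have hS : res (Tr κ E (∑ c, inE (κ := κ) E (pol (C (lam c))) * (fE (κ := κ) y c ^ p * φ))) = 0 := by
    rw [map_sum, hr.sum]
    refine Finset.sum_eq_zero fun c _ => ?_
    rw [tr_inE_mul, hr.smul, hφ, tp_lc H hr p hp, h0, mul_zero]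
  have hβ2 : BDeg e (aa w n) (-2) (β * (φ - d b)) := by
    have h3 := H.bdeg_mul hβ hlow
    rwa [zero_add] at h3
  rw [h1, map_add, map_add, map_add, hr.add, hr.add, hr.add, hr.tr_pol H hm (H.inB_ev g), hS,
    hr.tr_low H hβ2, hr.tr_d H]
  ring

private theorem F5_nondeg (R : Type*) [CommRing R] (γ : Type) [Fintype γ] [DecidableEq γ]
    (u : γ ⊕ γ → R) (h : ∀ v, MPadcLP.BB (J0 R γ) u v = 0) : u = 0 := by
  have hJ : J0 R γ * (-J0 R γ) = 1 := by
    unfold J0
    rw [mul_neg, Matrix.fromBlocks_multiply]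
    simp only [mul_zero, add_zero, zero_add, mul_one, mul_neg, neg_zero]
    rw [Matrix.fromBlocks_neg, neg_neg, neg_zero, Matrix.fromBlocks_one]
  have h1 : Matrix.vecMul u (J0 R γ) = 0 := by
    apply dotProduct_eq_zero
    intro v
    rw [← Matrix.dotProduct_mulVec]
    exact h v
  have h2 : Matrix.vecMul (Matrix.vecMul u (J0 R γ)) (-J0 R γ) = u := by
    rw [Matrix.vecMul_vecMul, hJ, Matrix.vecMul_one]
  rw [← h2, h1, Matrix.zero_vecMul]

private theorem F5_lin {κ : Type*} [Field κ] {γ : Type} [Fintype γ] [DecidableEq γ]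
    (U : Matrix γ (γ ⊕ γ) κ)
    (h : ∀ x x' : γ ⊕ γ → κ, U.mulVec x = 0 → U.mulVec x' = 0 → MPadcLP.BB (J0 κ γ) x x' = 0) :
    LinearIndependent κ U := by
  classical
  obtain ⟨N, hN⟩ : ∃ N, N = LinearMap.ker U.mulVecLin := ⟨_, rfl⟩
  have hmem : ∀ x, x ∈ N ↔ U.mulVec x = 0 := by
    intro x
    rw [hN, LinearMap.mem_ker, Matrix.mulVecLin_apply]
  let Ψ : (γ ⊕ γ → κ) →ₗ[κ] Module.Dual κ (γ ⊕ γ → κ) :=
    LinearMap.mk₂ κ (fun u v => MPadcLP.BB (J0 κ γ) u v)
      (fun u u' v => by unfold MPadcLP.BB; exact add_dotProduct _ _ _)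
      (fun c u v => by unfold MPadcLP.BB; exact smul_dotProduct _ _ _)
      (fun u v v' => by unfold MPadcLP.BB; rw [Matrix.mulVec_add]; exact dotProduct_add _ _ _)
      (fun c u v => by unfold MPadcLP.BB; rw [Matrix.mulVec_smul]; exact dotProduct_smul _ _ _)
  have hΨ : ∀ u v, Ψ u v = MPadcLP.BB (J0 κ γ) u v := fun _ _ => rfl
  have hinj : Function.Injective Ψ := by
    rw [← LinearMap.ker_eq_bot, LinearMap.ker_eq_bot']
    intro u hu
    refine F5_nondeg κ γ u fun v => ?_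
    rw [← hΨ, hu]
    rfl
  have hle : N.map Ψ ≤ N.dualAnnihilator := by
    rintro _ ⟨u, hu, rfl⟩
    rw [Submodule.mem_dualAnnihilator]
    intro v hv
    rw [hΨ]
    exact h u v ((hmem u).1 hu) ((hmem v).1 hv)
  have h1 : Module.finrank κ (N.map Ψ) = Module.finrank κ N :=
    (LinearEquiv.finrank_eq (Submodule.equivMapOfInjective Ψ hinj N)).symm
  have h2 := Submodule.finrank_mono hle
  have h3 := Subspace.finrank_add_finrank_dualAnnihilator_eq N
  have h4 : Module.finrank κ (γ ⊕ γ → κ) = Fintype.card γ + Fintype.card γ := by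
    rw [Module.finrank_fintype_fun_eq_card, Fintype.card_sum]
  have h5 := LinearMap.finrank_range_add_finrank_ker U.mulVecLin
  rw [← hN] at h5
  have h6 : Fintype.card γ ≤ U.rank := by
    show Fintype.card γ ≤ Module.finrank κ (LinearMap.range U.mulVecLin)
    omega
  rw [linearIndependent_iff_card_le_finrank_span]
  rw [Matrix.rank_eq_finrank_span_row] at h6
  exact h6

theorem exact_of_tp (p : ℕ) [Fact p.Prime] [CharP κ p] (H : KL w n F y e dK d) (hη : HB w n F η)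
    (hn : ((n : ℕ) : κ) ≠ 0) (x : IX w n → κ) (h0 : ∀ c : Gx w n, ∑ a, tp p F c (η a) * x a = 0) :
    ∃ z, d z = lc x (mE F y η) := by
  obtain ⟨res, hr⟩ := exists_res κ
  have hp : 0 < p := (Fact.out : p.Prime).pos
  have hchar : CharP E p :=
    charP_of_injective_ringHom ((algebraMap (RatFunc κ) E).comp
      ((algebraMap κ[X] (RatFunc κ)).comp (C : κ →+* κ[X]))).injective p
  obtain ⟨φ, hφ⟩ : ∃ φ, φ = lc x (mE F y η) := ⟨_, rfl⟩
  rw [← hφ]
  have hkey : ∀ a : E, d a = 0 → res (Tr κ E (a * φ)) = 0 := by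
    intro a ha
    rw [hφ]
    exact F5_step p H hη hr x h0 a ha
  obtain ⟨A, hA⟩ : ∃ A, A = d^[p - 1] φ := ⟨_, rfl⟩
  have hdA : d A = 0 := by
    have h1 := KL.iterate_p p H φ
    have h2 : p = (p - 1) + 1 := by omega
    rw [h2, Function.iterate_succ_apply', ← hA] at h1
    exact h1
  obtain ⟨t, ht⟩ : ∃ t : E, t = inE (κ := κ) E (pol X) := ⟨_, rfl⟩
  have hdt : d t = 1 := by
    rw [ht]
    exact F5_x H
  have ht0 : t ≠ 0 := by
    intro h1
    rw [h1, map_zero] at hdt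
    exact zero_ne_one hdt
  obtain ⟨f, hf⟩ : ∃ f : E, f = (((p - 1).factorial : ℕ) : E) := ⟨_, rfl⟩
  have hf0 : f ≠ 0 := by
    rw [hf, Ne, CharP.cast_eq_zero_iff E p, (Fact.out : p.Prime).dvd_factorial]
    omega
  have hdf : d f = 0 := by
    rw [hf]
    exact Derivation.map_natCast d _
  have hinv : ∀ u : E, d u = 0 → d u⁻¹ = 0 := by
    intro u hu
    rcases eq_or_ne u 0 with h1 | h1
    · rw [h1, inv_zero, map_zero]
    have h2 := d.leibniz u u⁻¹
    rw [mul_inv_cancel₀ h1, Derivation.map_one_eq_zero, hu, smul_zero, add_zero, smul_eq_mul] at h2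
    exact (mul_eq_zero.1 h2.symm).resolve_left h1
  have hmul : ∀ u v : E, d u = 0 → d v = 0 → d (u * v) = 0 := by
    intro u v hu hv
    rw [Derivation.leibniz, hu, hv, smul_zero, smul_zero, add_zero]
  by_cases hA0 : A = 0
  · rw [hA0] at hA
    exact (KL.exact_iff p H φ).2 hA.symm
  exfalso
  have hsub : d^[p - 1] (φ - f⁻¹ * A * t ^ (p - 1)) = 0 := by
    have h1 : ∀ (m : ℕ) (u v : E), d^[m] (u - v) = d^[m] u - d^[m] v := by
      intro m
      induction m with
      | zero => intro u v; rfl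
      | succ m ih => intro u v; rw [Function.iterate_succ_apply, map_sub, ih]; rfl
    rw [h1, F5_itmul d _ _ (hmul _ _ (hinv _ hdf) hdA), F5_itpow d t hdt _ _ le_rfl, ← hA,
      Nat.descFactorial_self, ← hf, Nat.sub_self, pow_zero, mul_one]
    have h2 : f⁻¹ * A * f = A := by
      rw [mul_comm f⁻¹ A, mul_assoc, inv_mul_cancel₀ hf0, mul_one]
    rw [h2, sub_self]
  obtain ⟨z, hz⟩ := (KL.exact_iff p H _).2 hsub
  obtain ⟨a, ha⟩ : ∃ a : E, a = f * A⁻¹ * (t⁻¹) ^ p := ⟨_, rfl⟩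
  have hda : d a = 0 := by
    rw [ha]
    exact hmul _ _ (hmul _ _ hdf (hinv _ hdA)) (d_fp (κ := κ) p d _)
  have h2 : res (Tr κ E (a * (f⁻¹ * A * t ^ (p - 1)))) = 0 := by
    have h3 : a * (f⁻¹ * A * t ^ (p - 1)) = a * φ - d (a * z) := by
      rw [Derivation.leibniz, hda, smul_zero, add_zero, smul_eq_mul, hz]
      ring
    rw [h3, map_sub, hr.sub, hkey a hda, hr.tr_d H, sub_zero]
  have h3 : a * (f⁻¹ * A * t ^ (p - 1)) = algebraMap (RatFunc κ) E (RatFunc.X⁻¹) := by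
    have h4 : (t⁻¹) ^ p * t ^ (p - 1) = t⁻¹ := by
      have h5 : (t⁻¹) ^ p = (t⁻¹) ^ (p - 1) * t⁻¹ := by
        rw [← pow_succ]
        congr 1
        omega
      rw [h5, mul_right_comm, ← mul_pow, inv_mul_cancel₀ ht0, one_pow, one_mul]
    have h6 : t⁻¹ = algebraMap (RatFunc κ) E (RatFunc.X⁻¹) := by
      rw [ht, map_inv₀, ← RatFunc.algebraMap_X]
    rw [← h6, ← h4, ha]
    field_simp
  rw [h3] at h2
  have h4 : Tr κ E (algebraMap (RatFunc κ) E (RatFunc.X⁻¹)) = pol (C ((n : ℕ) : κ)) * RatFunc.X⁻¹ := by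
    show Algebra.trace (RatFunc κ) E _ = _
    rw [Algebra.trace_algebraMap, Module.finrank_eq_card_basis e, Fintype.card_fin, nsmul_eq_mul]
    congr 1
    rw [C_eq_natCast]
    exact (map_natCast (algebraMap κ[X] (RatFunc κ)) n).symm
  rw [h4, hr.smul, hr.one, mul_one] at h2
  exact hn h2

theorem tp_li (p : ℕ) [Fact p.Prime] [CharP κ p] (H : KL w n F y e dK d) (hη : HB w n F η)
    (hs : Sm F 1) (hn : ((n : ℕ) : κ) ≠ 0) :
    LinearIndependent κ fun (c : Gx w n) (a : IX w n) => tp p F c (η a) := by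
  refine F5_lin (fun (c : Gx w n) (a : IX w n) => tp p F c (η a)) fun x x' hx hx' => ?_
  exact KL.ex_iso p H hη hs x x'
    (exact_of_tp p H hη hn x fun c => congrFun hx c)
    (exact_of_tp p H hη hn x' fun c => congrFun hx' c)

end MPadcPC
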