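import Pool.Agent.Lib.MP_adc574_ag_PC.FR
import Pool.Agent.Lib.MP_adc574_ag_PC.F2
import Pool.Agent.Lib.MP_adc574_ag_PC.F3

/-!
# LEAF F6: naturality of the functionals; the frame over `k[t]` is horizontal and isotropic

* `mp_tp`: `mp_tau` (LF/Tau.lean), `map_mul`, `map_pow`, `mapRingHom` of `X`, `coeff_map`.
* `fr_hor`, `fr_iso`: model: `MPadcLF.fiber` (LF/Fiber.lean). Let `φ = (algebraMap k[X] (RatFunc k)).comp (mapRingHom ψ) = fp ψ`, `F' = mp φ F`, `δ` from `exists_ddt k p` (`δ (algebraMap q) = algebraMap (derivative q)`). `F'`, `η'`, `Δ' = φ Δ ≠ 0`, `G'` have the properties `Wt.map`, `HB.map`, `IsGM.map`, `sm_one (Sm.map ..)`, `tp_one (Tp.map ..)`; `F'` is irreducible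
(`irreducible_of_sm`), `exists_KL`, `KL.exists_KD` for `δ`; `tp_hor`, `tp_iso` over `RatFunc k`; by `mp_tp` and injectivity of `k[X] → RatFunc k` (`RatFunc.algebraMap_injective`) they hold over `k[X]`.
-/

set_option autoImplicit false

namespace MPadcPC

open Polynomial Matrix MPadcCov MPadcLF MPadcOA

theorem mp_tp {R R' : Type*} [CommRing R] [CommRing R'] [Nontrivial R'] (φ : R →+* R') {F : R[X][X]}
    (hF : F.Monic) {w n : ℕ} (p : ℕ) (c : Gx w n) (h : R[X][X]) :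
    φ (tp p F c h) = tp p (mp φ F) c (mp φ h) := by
  have hX : mp φ (X ^ (p * (c.1 : ℕ)) * h) = X ^ (p * (c.1 : ℕ)) * mp φ h := by
    rw [map_mul, map_pow, coe_mapRingHom, Polynomial.map_X]
  unfold tp
  rw [← hX, ← mp_tau φ hF, coeff_map]

private theorem F6_mp {R S T : Type*} [CommRing R] [CommRing S] [CommRing T] (φ : R →+* S)
    (ψ : S →+* T) (F : R[X][X]) : mp ψ (mp φ F) = mp (ψ.comp φ) F := by
  simp only [mp, coe_mapRingHom]
  rw [Polynomial.map_map, mapRingHom_comp]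

private theorem F6_tp {A : Type} [CommRing A] {w n : ℕ} (𝓕 : Fam A w n) (h : 𝓕.Ok) {k : Type}
    [Field k] (p : ℕ) (ψ : A →+* k) (c : Gx w n) (a : IX w n) :
    algebraMap k[X] (RatFunc k) (tp p (mp (mapRingHom ψ) 𝓕.F) c (mp (mapRingHom ψ) (𝓕.η a))) =
      tp p (mp (fp ψ) 𝓕.F) c (mp (fp ψ) (𝓕.η a)) := by
  have hm : (mp (mapRingHom ψ) 𝓕.F).Monic := (h.wt.map (mapRingHom ψ)).monic
  rw [mp_tp (algebraMap k[X] (RatFunc k)) hm, F6_mp, F6_mp]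
  rfl

private theorem F6_frame {A : Type} [CommRing A] {w n : ℕ} (𝓕 : Fam A w n) (h : 𝓕.Ok) {k : Type}
    [Field k] (p : ℕ) [Fact p.Prime] [CharP k p] (ψ : A →+* k) (hΔ : 𝓕.Δ.map ψ ≠ 0) :
    (∀ (c : Gx w n) (a : IX w n), 𝓕.Δ.map ψ *
        derivative (tp p (mp (mapRingHom ψ) 𝓕.F) c (mp (mapRingHom ψ) (𝓕.η a))) =
      ∑ b, tp p (mp (mapRingHom ψ) 𝓕.F) c (mp (mapRingHom ψ) (𝓕.η b)) * (𝓕.G b a).map ψ) ∧
    ∀ c c' : Gx w n,
      ∑ a, ∑ b, tp p (mp (mapRingHom ψ) 𝓕.F) c (mp (mapRingHom ψ) (𝓕.η a)) *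
        J0 k[X] (Gx w n) a b *
          tp p (mp (mapRingHom ψ) 𝓕.F) c' (mp (mapRingHom ψ) (𝓕.η b)) = 0 := by
  obtain ⟨δ, hδ, hδpol, -⟩ := exists_ddt k p
  have hinj : Function.Injective (algebraMap k[X] (RatFunc k)) := RatFunc.algebraMap_injective k
  have h2 : fp ψ 𝓕.Δ ≠ 0 := by
    intro h0
    apply hΔ
    apply hinj
    rw [map_zero]
    exact h0
  have hcharK : CharP (RatFunc k) p := charP_of_injective_algebraMap
    (FaithfulSMul.algebraMap_injective k (RatFunc k)) p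
  have hcomm : ∀ q : A[X], fp ψ (derivative q) = δ (fp ψ q) := by
    intro q
    change algebraMap k[X] (RatFunc k) ((derivative q).map ψ) =
      δ (algebraMap k[X] (RatFunc k) (q.map ψ))
    rw [hδpol, derivative_map]
  have hF' := h.wt.map (fp ψ)
  have hB' := HB.map (fp ψ) h.wt.monic h.hb
  have hG' := IsGM.map (fp ψ) (isDer_derivative A) hδ hcomm h.gm
  have hS' := sm_one (Sm.map (fp ψ) h.sm) h2
  have hT' := tp_one (Tp.map (fp ψ) h.tp) h2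
  have hirr := irreducible_of_sm h.hn h.hw hF' hS' hT'
  obtain ⟨E, _, _, y, e, dK, d, H, -⟩ := exists_KL h.hn h.hw _ hF' hirr hT'
  obtain ⟨DK, D, HD⟩ := H.exists_KD (fun x => δ x) hδ
  refine ⟨fun c a => ?_, fun c c' => ?_⟩
  · apply hinj
    have h5 := tp_hor p HD hG' c a
    rw [map_mul, ← hδpol, F6_tp 𝓕 h, map_sum]
    refine Eq.trans h5 (Finset.sum_congr rfl fun b _ => ?_)
    rw [map_mul, F6_tp 𝓕 h]
    rfl
  · apply hinj
    have h5 := tp_iso p H hB' hS' c c'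
    rw [map_zero, ← h5, map_sum]
    refine Finset.sum_congr rfl fun a _ => ?_
    rw [map_sum]
    refine Finset.sum_congr rfl fun b _ => ?_
    rw [map_mul, map_mul, F6_tp 𝓕 h, F6_tp 𝓕 h, ← bridge_J0 (algebraMap k[X] (RatFunc k))]
    rfl

theorem fr_hor {A : Type} [CommRing A] {w n : ℕ} (𝓕 : Fam A w n) (h : 𝓕.Ok) {k : Type} [Field k]
    (p : ℕ) [Fact p.Prime] [CharP k p] (ψ : A →+* k) (hΔ : 𝓕.Δ.map ψ ≠ 0) (c : Gx w n) (a : IX w n) :
    𝓕.Δ.map ψ * derivative (tp p (mp (mapRingHom ψ) 𝓕.F) c (mp (mapRingHom ψ) (𝓕.η a))) =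
      ∑ b, tp p (mp (mapRingHom ψ) 𝓕.F) c (mp (mapRingHom ψ) (𝓕.η b)) * (𝓕.G b a).map ψ := by
  exact (F6_frame 𝓕 h p ψ hΔ).1 c a

theorem fr_iso {A : Type} [CommRing A] {w n : ℕ} (𝓕 : Fam A w n) (h : 𝓕.Ok) {k : Type} [Field k]
    (p : ℕ) [Fact p.Prime] [CharP k p] (ψ : A →+* k) (hΔ : 𝓕.Δ.map ψ ≠ 0) (c c' : Gx w n) :
    ∑ a, ∑ b, tp p (mp (mapRingHom ψ) 𝓕.F) c (mp (mapRingHom ψ) (𝓕.η a)) * J0 k[X] (Gx w n) a b *
      tp p (mp (mapRingHom ψ) 𝓕.F) c' (mp (mapRingHom ψ) (𝓕.η b)) = 0 := by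
  exact (F6_frame 𝓕 h p ψ hΔ).2 c c'

end MPadcPC
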