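import Pool.Agent.Lib.MP_adc574_ag_PC.F5
import Pool.Agent.Lib.MP_adc574_ag_PC.F6

/-!
# LEAF F7: the curve at a point

`kl_at`: `mp (eval₂RingHom ψ τ) F` has `Wt` (`Wt.map`), `Sm .. 1`, `Tp .. 1` (`Sm.map`, `Tp.map` with the value `(Δ.map ψ).eval τ ≠ 0`: `eval₂ ψ τ Δ = (Δ.map ψ).eval τ`; `sm_one`, `tp_one`), is irreducible over `RatFunc k` (`irreducible_of_sm`), `exists_KL`.
`fr_li`: `(tp p (mp (mapRingHom ψ) F) c ..).eval τ = tp p (mp (eval₂RingHom ψ τ) F) c (mp (eval₂RingHom ψ τ) (η a))` (`mp_tp` for `evalRingHom τ` and for `eval₂RingHom ψ τ = (evalRingHom τ).comp (mapRingHom ψ)`), `tp_li`; `((n : ℕ) : k) ≠ 0` as `0 < n < p`.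
-/

set_option autoImplicit false

namespace MPadcPC

open Polynomial Matrix MPadcCov MPadcLF MPadcOA

private theorem F7_comp {A : Type} [CommRing A] {k : Type} [Field k] (ψ : A →+* k) (τ : k) (h : A[X][X][X]) :
    mp (evalRingHom τ) (mp (mapRingHom ψ) h) = mp (eval₂RingHom ψ τ) h := by
  have h1 : (evalRingHom τ).comp (mapRingHom ψ) = eval₂RingHom ψ τ := by
    refine RingHom.ext fun q => ?_
    rw [RingHom.comp_apply, coe_mapRingHom, coe_evalRingHom, coe_eval₂RingHom, eval_map]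
  rw [← h1]
  simp only [mp]
  rw [← mapRingHom_comp, ← mapRingHom_comp, RingHom.comp_apply]

theorem sm_at {A : Type} [CommRing A] {w n : ℕ} (𝓕 : Fam A w n) (h : 𝓕.Ok) {k : Type} [Field k]
    (ψ : A →+* k) (τ : k) (hτ : (𝓕.Δ.map ψ).eval τ ≠ 0) :
    Wt w n (𝓕.at ψ τ) ∧ Sm (𝓕.at ψ τ) 1 ∧ Tp w n (𝓕.at ψ τ) 1 ∧
      Irreducible ((𝓕.at ψ τ).map (algebraMap k[X] (RatFunc k))) ∧
      HB w n (𝓕.at ψ τ) fun a => mp (eval₂RingHom ψ τ) (𝓕.η a) := by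
  have hτ' : eval₂RingHom ψ τ 𝓕.Δ ≠ 0 := by
    rwa [coe_eval₂RingHom, ← eval_map]
  have h1 : Wt w n (𝓕.at ψ τ) := h.wt.map (eval₂RingHom ψ τ)
  have h2 : Sm (𝓕.at ψ τ) 1 := sm_one (Sm.map (eval₂RingHom ψ τ) h.sm) hτ'
  have h3 : Tp w n (𝓕.at ψ τ) 1 := tp_one (Tp.map (eval₂RingHom ψ τ) h.tp) hτ'
  exact ⟨h1, h2, h3, irreducible_of_sm h.hn h.hw h1 h2 h3, HB.map (eval₂RingHom ψ τ) h.wt.monic h.hb⟩

theorem tp_at {A : Type} [CommRing A] {w n : ℕ} (𝓕 : Fam A w n) (h : 𝓕.Ok) {k : Type} [Field k]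
    (p : ℕ) (ψ : A →+* k) (τ : k) (c : Gx w n) (a : IX w n) :
    (tp p (mp (mapRingHom ψ) 𝓕.F) c (mp (mapRingHom ψ) (𝓕.η a))).eval τ =
      tp p (𝓕.at ψ τ) c (mp (eval₂RingHom ψ τ) (𝓕.η a)) := by
  have h1 := mp_tp (evalRingHom τ) (F := mp (mapRingHom ψ) 𝓕.F) (h.wt.monic.map _) p c
    (mp (mapRingHom ψ) (𝓕.η a))
  rw [F7_comp, F7_comp] at h1
  exact h1

theorem fr_li {A : Type} [CommRing A] {w n : ℕ} (𝓕 : Fam A w n) (h : 𝓕.Ok) {k : Type} [Field k]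
    (p : ℕ) [Fact p.Prime] [CharP k p] (hnp : n < p) (ψ : A →+* k) (τ : k) (hτ : (𝓕.Δ.map ψ).eval τ ≠ 0) :
    LinearIndependent k fun (c : Gx w n) (a : IX w n) =>
      (tp p (mp (mapRingHom ψ) 𝓕.F) c (mp (mapRingHom ψ) (𝓕.η a))).eval τ := by
  obtain ⟨h1, h2, h3, h4, h5⟩ := sm_at 𝓕 h ψ τ hτ
  obtain ⟨E, _, _, y, e, dK, d, H, -⟩ := exists_KL h.hn h.hw (𝓕.at ψ τ) h1 h4 h3
  have hn : ((n : ℕ) : k) ≠ 0 := fun h0 =>
    absurd (Nat.le_of_dvd h.hn ((CharP.cast_eq_zero_iff k p n).1 h0)) (not_le.2 hnp)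
  have h6 : (fun (c : Gx w n) (a : IX w n) =>
      (tp p (mp (mapRingHom ψ) 𝓕.F) c (mp (mapRingHom ψ) (𝓕.η a))).eval τ) =
      fun (c : Gx w n) (a : IX w n) => tp p (𝓕.at ψ τ) c (mp (eval₂RingHom ψ τ) (𝓕.η a)) := by
    funext c a
    exact tp_at 𝓕 h p ψ τ c a
  rw [h6]
  exact tp_li p H h5 h2 hn

end MPadcPC
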