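import Pool.Agent.Lib.MP_adc574_ag_LF.Fiber
import Pool.Agent.Lib.MP_adc574_ag_LF.Flt
import Pool.Agent.Lib.MP_adc574_ag_LF.IsoP
import Pool.Agent.Lib.MP_adc574_ag_LF.SK
import Pool.Agent.Lib.MP_adc574_ag_LF.Hex
import Pool.Agent.Lib.MP_adc574_ag_LF.Irr
import Pool.Agent.Lib.MP_adc574_ag_LF.ExiB
import Pool.Agent.Lib.MP_adc574_ag_CC.Defs

/-!
# Frames of horizontal functionals in characteristic `p`: definitions

`F` is a curve `F(x, Y) = 0` of shape `(w, n)` as in the library MP_adc574_ag_LF, `f_c = x ^ (- l - 1) Y ^ i` for `c = (i, l) ∈ Gx w n`.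
`tp p F c h` is the residue of `f_c ^ p h / F_Y`.
-/

set_option autoImplicit false

namespace MPadcPC

open Polynomial MPadcCov MPadcLF

/-- The residue of `f_c ^ p h / F_Y`. -/
noncomputable def tp {R : Type*} [CommRing R] {w n : ℕ} (p : ℕ) (F : R[X][X]) (c : Gx w n)
    (h : R[X][X]) : R :=
  (tau F (X ^ (p * (c.1 : ℕ)) * h)).coeff (p * ((c.2 : ℕ) + 1) - 1)

/-- `L = E(x, y)` is the function field of the plane curve `F(x, y) = 0`; `F` is a polynomial in `y` whose coefficients
are polynomials in `x`. -/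
structure IsPlaneField {E L : Type*} [Field E] [Field L] [Algebra E L] (F : E[X][X]) (x y : L) : Prop where
  /-- `x` is a variable -/
  trans : Transcendental E x
  /-- the equation -/
  eq : eval₂ (aeval x : E[X] →ₐ[E] L).toRingHom y F = 0
  /-- `L` is generated by `x` and `y` -/
  gen : IntermediateField.adjoin E {x, y} = ⊤

universe u

/-- The smooth projective curve with the affine equation `F(x, y) = 0` over `E` is ordinary in the sense of Bloch and
Kato. -/
def PlaneIsOrdinary {E : Type u} [Field E] (F : E[X][X]) : Prop :=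
  (∃ (L : Type u) (_ : Field L) (_ : Algebra E L) (x y : L), IsPlaneField F x y) ∧
    ∀ (L : Type u) [Field L] [Algebra E L] (x y : L), IsPlaneField F x y →
      MPadcCC.IsOrdinary E x

end MPadcPC
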