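import Pool.Agent.Lib.MP_adc574_ag_PC.FD

/-!
# LEAF G1: the function field of a plane curve

Model: LF/ExiA.lean (`exists_KL`, private `exia_gen`: for a power basis of `E` with minimal polynomial `F`).
* `exists_KL_of`: the `RatFunc κ`-algebra structure of `L`: `RatFunc.lift`-type homomorphism with `X ↦ x` (injective on `κ[X]` as `x` is transcendental; `IsFractionRing.lift`). `y` is a root of `F.map (algebraMap κ[X] (RatFunc κ))`, which is irreducible and monic, so it is the minimal polynomial of `y`; `L = RatFunc κ (y)` (`h.gen`: the image of `RatFunc κ` is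
`κ(x)`), so `y` gives a power basis with this minimal polynomial. Either copy the proof of `exia_gen` (prefix `G1_`), or take `E`, `KL` and `AdjoinRoot (..) ≃ₐ E` from `exists_KL`, the isomorphism `θ : E ≃ₐ[RatFunc κ] L` with `θ y' = y` and transport the structure (`e.map θ`, `d' = θ ∘ d ∘ θ⁻¹`; all fields of `KL` are preserved: `θ (ev y' h) = ev y h`, `Tr (θ z) = Tr z`).
* `exists_plane`: `exists_KL`: `L = E`, `x = inE X`, the `κ`-algebra structure of `E` is that of `RatFunc κ` (`((algebraMap (RatFunc κ) E).comp (algebraMap κ (RatFunc κ))).toAlgebra`).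
-/

set_option autoImplicit false

namespace MPadcPC

open Polynomial MPadcCov MPadcLF MPadcCC

universe u

section gen

variable {K E : Type*} [Field K] [Field E] [Algebra K E]

private theorem G1_sep [FiniteDimensional K E] (sep : ∀ θ : Derivation K E E, θ = 0) :
    Algebra.IsSeparable K E := by
  have h2 : ∀ ω : KaehlerDifferential K E, ω = 0 := by
    intro ω
    rw [← Module.forall_dual_apply_eq_zero_iff E ω]
    intro φ
    have h3 : φ = 0 := by
      apply (KaehlerDifferential.linearMapEquivDerivation K E).injective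
      rw [map_zero]
      exact sep _
    rw [h3, LinearMap.zero_apply]
  have h1 : Algebra.FormallyUnramified K E := ⟨⟨fun a b => by rw [h2 a, h2 b]⟩⟩
  exact Algebra.FormallyUnramified.isSeparable K E

private theorem G1_lift [Algebra.FormallySmooth K E] (d : K →+ E)
    (hd : ∀ a b, d (a * b) = algebraMap K E a * d b + algebraMap K E b * d a) :
    ∃ D : Derivation ℤ E E, ∀ a, D (algebraMap K E a) = d a := by
  have h1 : d 1 = 0 := by
    have := hd 1 1
    rw [mul_one, (algebraMap K E).map_one, one_mul] at this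
    exact left_eq_add.mp this
  let φ : K →+* TrivSqZeroExt E E :=
    { toFun := fun a => TrivSqZeroExt.inl (algebraMap K E a) + TrivSqZeroExt.inr (d a)
      map_one' := by
        rw [h1, map_one]
        simp
      map_zero' := by
        rw [map_zero, map_zero]
        simp
      map_add' := by
        intro a b
        rw [map_add, map_add]
        ext
        · simp
        · simp
      map_mul' := by
        intro a b
        rw [map_mul, hd]
        ext
        · simp
        · simp [mul_comm] }
  let _ : Algebra K (TrivSqZeroExt E E) := φ.toAlgebra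
  let π : TrivSqZeroExt E E →ₐ[K] E :=
    { toFun := TrivSqZeroExt.fst
      map_one' := TrivSqZeroExt.fst_one
      map_mul' := fun _ _ => TrivSqZeroExt.fst_mul _ _
      map_zero' := TrivSqZeroExt.fst_zero
      map_add' := fun _ _ => TrivSqZeroExt.fst_add _ _
      commutes' := by
        intro a
        show (φ a).fst = algebraMap K E a
        simp [φ] }
  have hsur : Function.Surjective π := fun z =>
    ⟨(TrivSqZeroExt.inl z : TrivSqZeroExt E E), TrivSqZeroExt.fst_inl E z⟩
  have hnil : IsNilpotent (RingHom.ker (π : TrivSqZeroExt E E →+* E)) := by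
    have h2 : ∀ I : Ideal (TrivSqZeroExt E E), (∀ u ∈ I, ∀ v ∈ I, u * v = 0) → I ^ 2 = 0 := by
      intro I hI
      rw [pow_two, Ideal.zero_eq_bot, eq_bot_iff, Ideal.mul_le]
      intro u hu v hv
      rw [Ideal.mem_bot]
      exact hI u hu v hv
    refine ⟨2, h2 _ ?_⟩
    intro u hu v hv
    have hu' : u.fst = 0 := hu
    have hv' : v.fst = 0 := hv
    ext
    · simp [hu']
    · simp [hu', hv']
  let σ : E →ₐ[K] TrivSqZeroExt E E :=
    Algebra.FormallySmooth.liftOfSurjective (AlgHom.id K E) π hsur hnil
  have hσ : ∀ z, (σ z).fst = z := fun z =>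
    Algebra.FormallySmooth.liftOfSurjective_apply (AlgHom.id K E) π hsur hnil z
  let D' : E →+ E :=
    { toFun := fun z => (σ z).snd
      map_zero' := by
        rw [map_zero]
        rfl
      map_add' := by
        intro a b
        rw [map_add]
        rfl }
  refine ⟨Derivation.mk' D'.toIntLinearMap ?_, ?_⟩
  · intro a b
    show (σ (a * b)).snd = a • (σ b).snd + b • (σ a).snd
    rw [map_mul, TrivSqZeroExt.snd_mul, hσ, hσ]
    simp [mul_comm]
  · intro a
    show (σ (algebraMap K E a)).snd = d a
    rw [AlgHom.commutes]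
    show (φ a).snd = d a
    simp [φ]

/-- Extension of a derivation to a finite separable extension. -/
private theorem G1_ext {m : ℕ} (e : Module.Basis (Fin m) K E)
    (sep : ∀ θ : Derivation K E E, θ = 0) (d0 : Derivation ℤ K K) :
    ∃ D : Derivation ℤ E E, (∀ a, D (algebraMap K E a) = algebraMap K E (d0 a)) ∧
      ∀ z, Algebra.trace K E (D z) = d0 (Algebra.trace K E z) := by
  have hfin : FiniteDimensional K E := Module.Finite.of_basis e
  have hs : Algebra.IsSeparable K E := G1_sep sep
  have he : Algebra.FormallyEtale K E := Algebra.FormallyEtale.of_isSeparable K E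
  obtain ⟨D, hD⟩ := G1_lift (K := K) (E := E)
    ((algebraMap K E).toAddMonoidHom.comp d0.toLinearMap.toAddMonoidHom) (by
      intro a b
      show algebraMap K E (d0 (a * b)) = algebraMap K E a * algebraMap K E (d0 b) +
        algebraMap K E b * algebraMap K E (d0 a)
      rw [Derivation.leibniz, smul_eq_mul, smul_eq_mul, map_add, map_mul, map_mul])
  have hD' : ∀ a, D (algebraMap K E a) = algebraMap K E (d0 a) := hD
  exact ⟨D, hD', tr_der e d0 D hD'⟩

/-- A derivation of a ring extends to the field of fractions. -/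
private theorem G1_frac {R K : Type*} [CommRing R] [IsDomain R] [Field K] [Algebra R K]
    [IsFractionRing R K] (f : R → R) (hf : IsDer f) :
    ∃ d0 : Derivation ℤ K K, ∀ r, d0 (algebraMap R K r) = algebraMap R K (f r) := by
  have h0 : f 0 = 0 := by
    have h1 := hf.add 0 0
    rw [add_zero] at h1
    exact left_eq_add.mp h1
  obtain ⟨d0, hd0⟩ := ext_frac (R := R) (K := K) (Derivation.mk' (AddMonoidHom.toIntLinearMap
    { toFun := f, map_zero' := h0, map_add' := hf.add }) (fun a b => by
      show f (a * b) = a • f b + b • f a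
      rw [hf.mul, smul_eq_mul, smul_eq_mul]))
  exact ⟨d0, hd0⟩

private theorem G1_tr [FiniteDimensional K E] [Algebra.IsSeparable K E] (pb : PowerBasis K E)
    {j : ℕ} (hj : j < pb.dim) :
    Algebra.trace K E (pb.gen ^ j / aeval pb.gen (derivative (minpoly K pb.gen))) =
      if pb.dim - 1 = j then 1 else 0 := by
  apply (algebraMap K (AlgebraicClosure K)).injective
  have hint : IsIntegral K pb.gen := pb.isIntegral_gen
  have h := sum_smul_minpolyDiv_eq_X_pow (L := E) (AlgebraicClosure K) pb.adjoin_gen_eq_top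
    (r := j) (by rw [pb.finrank]; exact hj)
  have h1 := congrArg (fun p : (AlgebraicClosure K)[X] => p.coeff (pb.dim - 1)) h
  have hdeg : (minpolyDiv K pb.gen).natDegree = pb.dim - 1 := by
    rw [natDegree_minpolyDiv, pb.natDegree_minpoly]
  have hm : (minpolyDiv K pb.gen).coeff (pb.dim - 1) = 1 := by
    rw [← hdeg]
    exact (minpolyDiv_monic hint).coeff_natDegree
  rw [trace_eq_sum_embeddings (AlgebraicClosure K)]
  simp only [finsetSum_coeff, coeff_map, coeff_smul, smul_eq_mul, coeff_X_pow, hm, mul_one] at h1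
  refine Eq.trans ?_ (h1.trans ?_)
  · rfl
  · split_ifs with h2
    · rw [map_one]
    · rw [map_zero]

end gen

private theorem G1_cm {S : Type*} [CommRing S] : IsDer (fun p : S[X] => derivative p) :=
  ⟨fun a b => derivative_add, fun a b => by
    show derivative (a * b) = a * derivative b + b * derivative a
    rw [derivative_mul]
    ring⟩

private theorem G1_topp {κ : Type*} [Field κ] {w n : ℕ} (F : κ[X][X]) (m : ℕ) :
    (topp w n F).coeff m = if m ≤ n then (F.coeff m).coeff (w * (n - m)) else 0 := by
  unfold topp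
  rw [finsetSum_coeff]
  simp only [coeff_C_mul, coeff_X_pow, mul_ite, mul_one, mul_zero]
  rw [Finset.sum_ite_eq]
  simp only [Finset.mem_range, Nat.lt_succ_iff]

/-- The derivative of `F` is not zero. -/
private theorem G1_derF {κ : Type*} [Field κ] {w n : ℕ} (hn : 0 < n) (F : κ[X][X])
    (hF : Wt w n F) (ht : Tp w n F 1) : derivative F ≠ 0 := by
  intro h0
  obtain ⟨u, v, huv⟩ := ht
  have h1 : ∀ m, F.coeff (m + 1) * ((m : κ[X]) + 1) = 0 := by
    intro m
    have h2 := congrArg (fun p : κ[X][X] => p.coeff m) h0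
    simp only [coeff_zero] at h2
    rw [coeff_derivative] at h2
    exact h2
  have h3 : derivative (topp w n F) = 0 := by
    ext m
    rw [coeff_derivative, G1_topp, coeff_zero]
    split_ifs with hm
    · have h4 := congrArg (fun p : κ[X] => p.coeff (w * (n - (m + 1)))) (h1 m)
      simp only [coeff_zero] at h4
      have h5 : ((m : κ[X]) + 1) = C ((m : κ) + 1) := by
        rw [map_add, map_natCast, map_one]
      rw [h5, coeff_mul_C] at h4
      exact h4
    · rw [zero_mul]
  rw [h3, mul_zero, add_zero, map_one] at huv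
  have hu : IsUnit (topp w n F) := IsUnit.of_mul_eq_one u (by rw [mul_comm]; exact huv)
  have hd := natDegree_eq_zero_of_isUnit hu
  have hc : (topp w n F).coeff n = 1 := by
    rw [G1_topp, if_pos le_rfl, Nat.sub_self, mul_zero]
    have h6 := hF.monic.coeff_natDegree
    rw [hF.deg] at h6
    rw [h6, coeff_one_zero]
  have hle : n ≤ (topp w n F).natDegree := le_natDegree_of_ne_zero (by rw [hc]; exact one_ne_zero)
  omega

private theorem G1_gen {κ : Type u} [Field κ] {w n : ℕ} (hn : 0 < n) (hw : 0 < w) (F : κ[X][X])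
    (hF : Wt w n F) (hirr : Irreducible (F.map (algebraMap κ[X] (RatFunc κ))))
    (ht : Tp w n F 1) {E : Type u} [Field E] [Algebra (RatFunc κ) E]
    (pb : PowerBasis (RatFunc κ) E) (y : E) (hy : y = pb.gen)
    (hmin : minpoly (RatFunc κ) pb.gen = F.map (algebraMap κ[X] (RatFunc κ))) :
    ∃ (e : Module.Basis (Fin n) (RatFunc κ) E) (dK : RatFunc κ → RatFunc κ)
      (d : Derivation ℤ E E), KL w n F y e dK d := by
  have hinj : Function.Injective (algebraMap κ[X] (RatFunc κ)) :=
    IsFractionRing.injective κ[X] (RatFunc κ)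
  have hdim : pb.dim = n := by
    rw [← pb.natDegree_minpoly, hmin, natDegree_map_eq_of_injective hinj, hF.deg]
  obtain ⟨G, hG⟩ : ∃ G, G = F.map (algebraMap κ[X] (RatFunc κ)) := ⟨_, rfl⟩
  have hev : ∀ p : κ[X][X], ev y p = aeval y (p.map (algebraMap κ[X] (RatFunc κ))) := by
    intro p
    rw [aeval_def, eval₂_map]
    rfl
  have hroot : ev y F = 0 := by
    rw [hev, ← hmin, hy]
    exact minpoly.aeval _ _
  have hdG : derivative G ≠ 0 := by
    rw [hG, derivative_map]
    intro h0
    apply G1_derF hn F hF ht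
    apply Polynomial.map_injective _ hinj
    rw [h0, Polynomial.map_zero]
  rw [← hG] at hmin hirr
  have hsepG : G.Separable := (separable_iff_derivative_ne_zero hirr).2 hdG
  have hG0 : aeval y G = 0 := by
    rw [← hmin, hy]
    exact minpoly.aeval _ _
  have hGy : aeval y (derivative G) ≠ 0 := hsepG.aeval_derivative_ne_zero hG0
  have hFy : ev y (py F) ≠ 0 := by
    rw [hev]
    unfold py
    rw [← derivative_map, ← hG]
    exact hGy
  have sep : ∀ θ : Derivation (RatFunc κ) E E, θ = 0 := by
    intro θ
    have h1 : θ y = 0 := by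
      have h2 := θ.map_aeval G y
      rw [hG0, map_zero, smul_eq_mul] at h2
      exact (mul_eq_zero.1 h2.symm).resolve_left hGy
    refine Derivation.ext_of_adjoin_eq_top {y} (by rw [hy]; exact pb.adjoin_gen_eq_top) ?_
    intro z hz
    rw [Set.mem_singleton_iff.1 hz, h1]
    rfl
  have hb : ∀ i : Fin n, (pb.basis.reindex (finCongr hdim)) i = y ^ (i : ℕ) := by
    intro i
    rw [Module.Basis.reindex_apply, pb.basis_eq_pow, hy]
    rfl
  obtain ⟨d0, hd0⟩ := G1_frac (K := RatFunc κ) (fun p : κ[X] => derivative p) G1_cm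
  obtain ⟨d, hd, htr⟩ := G1_ext (pb.basis.reindex (finCongr hdim)) sep d0
  refine ⟨pb.basis.reindex (finCongr hdim), fun r => d0 r, d, ?_⟩
  refine
    { hn := hn
      hw := hw
      wt := hF
      basis := hb
      root := hroot
      Fy := hFy
      dK_pol := hd0
      d_alg := hd
      tr_d := htr
      sep := sep
      euler := ?_
      top := ht }
  intro h
  have hfin : FiniteDimensional (RatFunc κ) E := Module.Finite.of_basis pb.basis
  have hs : Algebra.IsSeparable (RatFunc κ) E := G1_sep sep
  have hmod : ev y h = ev y (h %ₘ F) := by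
    conv_lhs => rw [← modByMonic_add_div h F]
    rw [map_add, map_mul, hroot, zero_mul, add_zero]
  have hdeg : (h %ₘ F).natDegree < n := by
    have h3 := natDegree_modByMonic_lt h hF.monic (by
      intro h4
      have h5 := hF.deg
      rw [h4, natDegree_one] at h5
      omega)
    rwa [hF.deg] at h3
  have hsum : ev y (h %ₘ F) / ev y (py F) = ∑ j ∈ Finset.range n,
      pol ((h %ₘ F).coeff j) • (y ^ j / aeval y (derivative G)) := by
    have h6 : ev y (py F) = aeval y (derivative G) := by
      rw [hev]
      unfold py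
      rw [← derivative_map, ← hG]
    rw [h6]
    have h7 : ev y (h %ₘ F) = ∑ j ∈ Finset.range n, pol ((h %ₘ F).coeff j) • y ^ j := by
      rw [hev, aeval_eq_sum_range' (lt_of_le_of_lt natDegree_map_le hdeg)]
      refine Finset.sum_congr rfl fun j _ => ?_
      rw [coeff_map]
    rw [h7, Finset.sum_div]
    refine Finset.sum_congr rfl fun j _ => ?_
    rw [smul_div_assoc]
  rw [hmod, hsum, map_sum]
  have hterm : ∀ j ∈ Finset.range n, Tr κ E (pol ((h %ₘ F).coeff j) • (y ^ j /
      aeval y (derivative G))) = if j = n - 1 then pol ((h %ₘ F).coeff j) else 0 := by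
    intro j hj
    have h8 := G1_tr pb (j := j) (by rw [hdim]; exact Finset.mem_range.1 hj)
    rw [hmin, ← hy, hdim] at h8
    rw [map_smul, h8, smul_eq_mul]
    by_cases h9 : j = n - 1
    · rw [if_pos h9, if_pos h9.symm, mul_one]
    · rw [if_neg h9, if_neg (Ne.symm h9), mul_zero]
  rw [Finset.sum_congr rfl hterm, Finset.sum_ite_eq', if_pos (Finset.mem_range.2 (by omega))]
  unfold tau
  rw [hF.deg]


private theorem G1_pb {K L : Type*} [Field K] [Field L] [Algebra K L] (y : L) (hi : IsIntegral K y)
    (ht : IntermediateField.adjoin K {y} = ⊤) : ∃ pb : PowerBasis K L, pb.gen = y := by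
  refine ⟨(IntermediateField.adjoin.powerBasis hi).map
    ((IntermediateField.equivOfEq ht).trans IntermediateField.topEquiv), ?_⟩
  rw [PowerBasis.map_gen, IntermediateField.adjoin.powerBasis_gen]
  rfl

private theorem G1_top {κ K L : Type*} [Field κ] [Field K] [Field L] [Algebra κ K] [Algebra K L]
    [Algebra κ L] [IsScalarTower κ K L] (x y : L) (hx : x ∈ (algebraMap K L).range)
    (h : IntermediateField.adjoin κ {x, y} = ⊤) : IntermediateField.adjoin K {y} = ⊤ := by
  have h1 : IntermediateField.adjoin κ {x, y} ≤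
      (IntermediateField.adjoin K {y}).restrictScalars κ := by
    rw [IntermediateField.adjoin_le_iff]
    intro z hz
    rcases hz with hz | hz
    · obtain ⟨r, hr⟩ := hx
      rw [hz, ← hr]
      exact IntermediateField.algebraMap_mem _ r
    · rw [Set.mem_singleton_iff.1 hz]
      exact IntermediateField.subset_adjoin K {y} rfl
  rw [h] at h1
  rw [eq_top_iff]
  intro z _
  exact h1 (IntermediateField.mem_top : z ∈ (⊤ : IntermediateField κ L))

theorem exists_KL_of {κ L : Type u} [Field κ] [Field L] [Algebra κ L] {w n : ℕ} (hn : 0 < n)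
    (hw : 0 < w) {F : κ[X][X]} (hF : Wt w n F)
    (hirr : Irreducible (F.map (algebraMap κ[X] (RatFunc κ)))) (ht : Tp w n F 1) {x y : L}
    (h : IsPlaneField F x y) :
    ∃ (_ : Algebra (RatFunc κ) L) (_ : IsScalarTower κ (RatFunc κ) L)
      (e : Module.Basis (Fin n) (RatFunc κ) L) (dK : RatFunc κ → RatFunc κ) (d : Derivation ℤ L L),
      algebraMap (RatFunc κ) L RatFunc.X = x ∧ KL w n F y e dK d := by
  have hinj : Function.Injective (aeval x : κ[X] →ₐ[κ] L) := by
    rw [injective_iff_map_eq_zero]
    intro p hp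
    by_contra hne
    exact h.trans ⟨p, hne, hp⟩
  obtain ⟨φ, hφ⟩ : ∃ φ : RatFunc κ →ₐ[κ] L, ∀ p : κ[X], φ (algebraMap κ[X] (RatFunc κ) p) = aeval x p :=
    ⟨IsFractionRing.liftAlgHom hinj, fun p => IsFractionRing.lift_algebraMap hinj p⟩
  let _ : Algebra (RatFunc κ) L := φ.toRingHom.toAlgebra
  have hφa : ∀ r, algebraMap (RatFunc κ) L r = φ r := fun r => rfl
  have htow : IsScalarTower κ (RatFunc κ) L := IsScalarTower.of_algebraMap_eq fun c => by
    rw [hφa, AlgHom.commutes]
  have hX : algebraMap (RatFunc κ) L RatFunc.X = x := by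
    rw [hφa, ← RatFunc.algebraMap_X, hφ, aeval_X]
  have hcomp : (algebraMap (RatFunc κ) L).comp (algebraMap κ[X] (RatFunc κ)) =
      (aeval x : κ[X] →ₐ[κ] L).toRingHom := by
    refine RingHom.ext fun p => ?_
    exact hφ p
  have hmon : (F.map (algebraMap κ[X] (RatFunc κ))).Monic := hF.monic.map _
  have hroot : aeval y (F.map (algebraMap κ[X] (RatFunc κ))) = 0 := by
    rw [aeval_def, eval₂_map, hcomp]
    exact h.eq
  have hint : IsIntegral (RatFunc κ) y := ⟨_, hmon, hroot⟩
  have htop : IntermediateField.adjoin (RatFunc κ) {y} = ⊤ :=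
    G1_top x y ⟨RatFunc.X, hX⟩ h.gen
  obtain ⟨pb, hpb⟩ := G1_pb y hint htop
  have hmin : minpoly (RatFunc κ) pb.gen = F.map (algebraMap κ[X] (RatFunc κ)) := by
    rw [hpb]
    exact (minpoly.eq_of_irreducible_of_monic hirr hroot hmon).symm
  obtain ⟨e, dK, d, hKL⟩ := G1_gen hn hw F hF hirr ht pb y hpb.symm hmin
  exact ⟨inferInstance, htow, e, dK, d, hX, hKL⟩

theorem exists_plane {κ : Type u} [Field κ] {w n : ℕ} (hn : 0 < n)
    (hw : 0 < w) {F : κ[X][X]} (hF : Wt w n F)
    (hirr : Irreducible (F.map (algebraMap κ[X] (RatFunc κ)))) (ht : Tp w n F 1) :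
    ∃ (L : Type u) (_ : Field L) (_ : Algebra κ L) (x y : L), IsPlaneField F x y := by
  obtain ⟨E, _, _, y, e, dK, d, hKL, -⟩ := exists_KL hn hw F hF hirr ht
  let _ : Algebra κ E := ((algebraMap (RatFunc κ) E).comp (algebraMap κ (RatFunc κ))).toAlgebra
  have htow : IsScalarTower κ (RatFunc κ) E := IsScalarTower.of_algebraMap_eq fun c => rfl
  have hae : ∀ p : κ[X], aeval (algebraMap (RatFunc κ) E RatFunc.X) p =
      algebraMap (RatFunc κ) E (algebraMap κ[X] (RatFunc κ) p) := by
    intro p
    rw [aeval_algebraMap_apply]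
    congr 1
    rw [← RatFunc.algebraMap_X, aeval_algebraMap_apply, aeval_X_left_apply]
  have hinj : Function.Injective (algebraMap κ[X] (RatFunc κ)) :=
    IsFractionRing.injective κ[X] (RatFunc κ)
  refine ⟨E, inferInstance, inferInstance, algebraMap (RatFunc κ) E RatFunc.X, y, ?_⟩
  refine ⟨?_, ?_, ?_⟩
  · rintro ⟨p, hp, h0⟩
    rw [hae] at h0
    apply hp
    apply hinj
    rw [map_zero]
    exact (map_eq_zero (algebraMap (RatFunc κ) E)).1 h0
  · have h1 : (aeval (algebraMap (RatFunc κ) E RatFunc.X) : κ[X] →ₐ[κ] E).toRingHom =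
        (algebraMap (RatFunc κ) E).comp (algebraMap κ[X] (RatFunc κ)) :=
      RingHom.ext fun p => hae p
    rw [h1]
    exact hKL.root
  · rw [eq_top_iff]
    intro z _
    have hx : algebraMap (RatFunc κ) E RatFunc.X ∈
        IntermediateField.adjoin κ {algebraMap (RatFunc κ) E RatFunc.X, y} :=
      IntermediateField.subset_adjoin κ _ (Or.inl rfl)
    have hy : y ∈ IntermediateField.adjoin κ {algebraMap (RatFunc κ) E RatFunc.X, y} :=
      IntermediateField.subset_adjoin κ _ (Or.inr rfl)
    have hp : ∀ p : κ[X], algebraMap (RatFunc κ) E (algebraMap κ[X] (RatFunc κ) p) ∈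
        IntermediateField.adjoin κ {algebraMap (RatFunc κ) E RatFunc.X, y} := by
      intro p
      rw [← hae, aeval_eq_sum_range]
      refine sum_mem fun i _ => ?_
      rw [Algebra.smul_def]
      exact mul_mem (IntermediateField.algebraMap_mem _ _) (pow_mem hx i)
    have hr : ∀ r : RatFunc κ, algebraMap (RatFunc κ) E r ∈
        IntermediateField.adjoin κ {algebraMap (RatFunc κ) E RatFunc.X, y} := by
      intro r
      rw [← RatFunc.num_div_denom r, map_div₀]
      exact div_mem (hp _) (hp _)
    rw [← e.sum_repr z]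
    refine sum_mem fun i _ => ?_
    rw [Algebra.smul_def, hKL.basis i]
    exact mul_mem (hr _) (pow_mem hy _)

end MPadcPC
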