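import Pool.Agent.Lib.MP_adc574_ag_PC.FD

/-!
# LEAF G2: the coordinate ring of a smooth affine plane curve over an algebraically closed field is integrally closed

`B = {z | InB e z}` is a ring (`KL.inB_mul`), `B = ev y (κ[x][Y])` (`KL.exists_ev`, `KL.inB_ev`), `ev y h = 0` iff `F ∣ h` (`KL.ev_eq_zero_iff`). `IntI` of the statement: `z` is integral over `κ[x]`.
Suppose `z ∉ B` is integral. The coordinates of `z` have a common denominator `q ∈ κ[x]`, `q z ∈ B`; `q` splits into linear factors: replacing `z` by `q' z` for a divisor `q'` of `q` we may assume `z ∉ B`, `(x - a) z ∈ B` for some `a ∈ κ` (induction on the degree of `q`).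
Write `(x - a) z = ev y h`, `h.natDegree < n`, and let `h₀(Y) = h(a, Y) ∈ κ[Y]`, `φ(Y) = F(a, Y)`, monic of degree `n`; `h₀ ≠ 0`: otherwise `x - a` divides `h` and `z ∈ B`. For every `m ∈ κ[Y]`: `m(y) z` is integral; it is in `B` iff `φ ∣ m h₀` (if `m h₀ = φ m'` then `m h - m' F` is divisible by `x - a`). Let `m₀ = φ / gcd (φ, h₀)`, not a unit (`deg h₀ < n`), `b` a
root of `m₀`, `m = m₀ / (Y - b)`: `(Y - b) m h₀ = φ * (h₀ / gcd)`. Replace `z` by `m(y) z`: `z ∉ B`, integral, `(x - a) z ∈ B` and `(y - b) z ∈ B`, with `φ ∣ (Y - b) h₀`; so (reducing `h` modulo `F` and `x - a`) `h₀ = c φ / (Y - b)`, `c ∈ κ`, `c ≠ 0` (degrees; `h₀` taken modulo `φ`, `z` modulo `B`). Let `φ = (Y - b) ψ`, so (changing `z` by an element of `B`)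
`z = c ψ(y) / (x - a)`, `φ(b) = 0`. Write `F = φ(Y) + (x - a) F₁`. On the curve `(y - b) ψ(y) = - (x - a) F₁`, so `z = - c F₁(x, y) / (y - b)` (`y ≠ b`).
(1) `z` is integral: `z ^ m + ∑ c_i z ^ i = 0`, `c_i ∈ κ[x]`. Multiply by `(x - a) ^ m`: `(c ψ(y)) ^ m ∈ (x - a) B`; evaluate at the point `(a, b)` of the curve (`F(a, b) = 0`: `e2 a b` on `κ[x][Y]/(F)`): `ψ(b) = 0`, i.e. `F_Y(a, b) = φ'(b) = ψ(b) = 0`. (2) Multiply by `(y - b) ^ m` instead: `F₁(x, y) ^ m ∈ (y - b) B`, so `F₁(a, b) = 0`, i.e. `F_x(a, b) = F₁(a, b) = 0`.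
Contradiction with `hs` evaluated at `(a, b)`: `u F + v F_x + z F_Y = 1`.
-/

set_option autoImplicit false

namespace MPadcPC

open Polynomial MPadcCov MPadcLF MPadcCC

universe u

private theorem G2_pt {κ : Type*} [Field κ] [IsAlgClosed κ] (Q : Ideal κ[X][X]) [hQ : Q.IsMaximal] :
    ∃ a b : κ, C (X - C a) ∈ Q ∧ X - C (C b) ∈ Q := by
  let _ : Field (κ[X][X] ⧸ Q) := Ideal.Quotient.field Q
  have : Module.Finite κ (κ[X][X] ⧸ Q) := finite_of_finite_type_of_isJacobsonRing κ (κ[X][X] ⧸ Q)
  have hb : Function.Bijective (algebraMap κ (κ[X][X] ⧸ Q)) := IsAlgClosed.algebraMap_bijective_of_isIntegral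
  obtain ⟨a, ha⟩ := hb.2 (Ideal.Quotient.mk Q (C X))
  obtain ⟨b, hb'⟩ := hb.2 (Ideal.Quotient.mk Q X)
  refine ⟨a, b, ?_, ?_⟩
  · rw [← Ideal.Quotient.eq_zero_iff_mem, C_sub, map_sub, ← ha, sub_eq_zero]
    rfl
  · rw [← Ideal.Quotient.eq_zero_iff_mem, map_sub, ← hb', sub_eq_zero]
    rfl

private theorem G2_sub {R : Type*} [CommRing R] (a b : R) (I : Ideal R[X][X])
    (ha : C (X - C a) ∈ I) (hb : X - C (C b) ∈ I) (h : R[X][X]) : h - cc (e2 a b h) ∈ I := by
  have h1 : h - C (eval (C b) h) ∈ I := Ideal.mem_of_dvd _ X_sub_C_dvd_sub_C_eval hb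
  have h2 : C (eval (C b) h) - cc (e2 a b h) ∈ I := by
    have h3 : (X - C a) ∣ (eval (C b) h) - C (eval a (eval (C b) h)) := X_sub_C_dvd_sub_C_eval
    obtain ⟨q, hq⟩ := h3
    have h4 : C (eval (C b) h) - cc (e2 a b h) = C (X - C a) * C q := by
      rw [← C_mul, ← hq, C_sub]
      rfl
    rw [h4]
    exact Ideal.mul_mem_right _ _ ha
  have h5 := Ideal.add_mem _ h1 h2
  rwa [sub_add_sub_cancel] at h5

private theorem G2_iff {κ : Type*} [Field κ] (a b : κ) (Q : Ideal κ[X][X]) (hQ : Q ≠ ⊤)
    (ha : C (X - C a) ∈ Q) (hb : X - C (C b) ∈ Q) (h : κ[X][X]) : h ∈ Q ↔ e2 a b h = 0 := by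
  have h1 := G2_sub a b Q ha hb h
  constructor
  · intro h2
    by_contra h3
    have h4 : cc (e2 a b h) ∈ Q := by
      have h5 := Ideal.sub_mem _ h2 h1
      rwa [sub_sub_cancel] at h5
    exact hQ (Ideal.eq_top_of_isUnit_mem _ h4 (((isUnit_iff_ne_zero.2 h3).map C).map C))
  · intro h2
    rw [h2] at h1
    have h3 : cc (0 : κ) = 0 := by
      show (C (C (0 : κ)) : κ[X][X]) = 0
      rw [C_0, C_0]
    rwa [h3, sub_zero] at h1

private theorem G2_e2C {R : Type*} [CommRing R] (a b : R) (q : R[X]) : e2 a b (C q) = q.eval a := by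
  show eval a (eval (C b) (C q)) = q.eval a
  rw [eval_C]

private theorem G2_e2X {R : Type*} [CommRing R] (a b : R) : e2 a b (X : R[X][X]) = b := by
  show eval a (eval (C b) X) = b
  rw [eval_X, eval_C]

/-- the derivatives at the point -/
private theorem G2_der {R : Type*} [CommRing R] (a b : R) (G1 G2 F : R[X][X])
    (h : G1 * C (X - C a) + G2 * (X - C (C b)) = F) : e2 a b (px F) = e2 a b G1 ∧ e2 a b (py F) = e2 a b G2 := by
  have h1 : e2 a b (C (X - C a)) = 0 := by rw [G2_e2C, eval_sub, eval_X, eval_C, sub_self]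
  have h2 : e2 a b (X - C (C b)) = 0 := by rw [map_sub, G2_e2X, G2_e2C, eval_C, sub_self]
  have h3 : px (C (X - C a) : R[X][X]) = 1 := by
    rw [px_C, derivative_sub, derivative_X, derivative_C, sub_zero, C_1]
  have h4 : px (X - C (C b) : R[X][X]) = 0 := by
    rw [sub_eq_add_neg, ← C_neg, isDer_px.add, px_X, px_C, derivative_neg, derivative_C, neg_zero, C_0, add_zero]
  constructor
  · rw [← h, isDer_px.add, isDer_px.mul, isDer_px.mul, h3, h4, map_add, map_add, map_add, map_mul, map_mul, map_mul, map_mul,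
      h1, h2, map_zero, map_one]
    ring
  · rw [← h]
    unfold py
    rw [derivative_add, derivative_mul, derivative_mul, derivative_C, derivative_sub, derivative_X, derivative_C, map_add,
      map_add, map_add, map_mul, map_mul, map_mul, map_mul, h1, h2, map_zero, map_sub, map_one, map_zero]
    ring

private theorem G2_loc {κ : Type*} [Field κ] [IsAlgClosed κ] {E : Type*} [Field E] (f : κ[X][X] →+* E)
    {F : κ[X][X]} (hF : f F = 0) (hs : Sm F 1) (P : Ideal f.range) [hP : P.IsMaximal] :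
    IsIntegrallyClosed (Localization.AtPrime P) := by
  have hsurj : Function.Surjective f.rangeRestrict := f.rangeRestrict_surjective
  have hQ : (P.comap f.rangeRestrict).IsMaximal := Ideal.comap_isMaximal_of_surjective f.rangeRestrict hsurj
  obtain ⟨a, b, ha, hb⟩ := G2_pt (P.comap f.rangeRestrict)
  have hiff := G2_iff a b _ hQ.ne_top ha hb
  have hF0 : f.rangeRestrict F = 0 := Subtype.ext hF
  have hFQ : F ∈ P.comap f.rangeRestrict := by
    rw [Ideal.mem_comap, hF0]
    exact Ideal.zero_mem _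
  have he : e2 a b F = 0 := (hiff F).1 hFQ
  have hspan : ∀ h : κ[X][X], e2 a b h = 0 → h ∈ Ideal.span ({C (X - C a), X - C (C b)} : Set κ[X][X]) := by
    intro h hh
    have h1 := G2_sub a b (Ideal.span ({C (X - C a), X - C (C b)} : Set κ[X][X]))
      (Ideal.subset_span (Set.mem_insert _ _)) (Ideal.subset_span (Set.mem_insert_of_mem _ rfl)) h
    rw [hh] at h1
    have h3 : cc (0 : κ) = 0 := by
      show (C (C (0 : κ)) : κ[X][X]) = 0
      rw [C_0, C_0]
    rwa [h3, sub_zero] at h1
  obtain ⟨G1, G2, hG⟩ := Ideal.mem_span_pair.1 (hspan F he)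
  obtain ⟨d1, d2⟩ := G2_der a b G1 G2 F hG
  obtain ⟨u, v, z, huv⟩ := hs
  have hne : e2 a b G1 ≠ 0 ∨ e2 a b G2 ≠ 0 := by
    by_contra hcon
    push Not at hcon
    have h1 := congrArg (e2 a b) huv
    rw [map_add, map_add, map_mul, map_mul, map_mul, he, d1, d2, hcon.1, hcon.2, mul_zero, mul_zero, mul_zero, add_zero,
      add_zero, G2_e2C, eval_C] at h1
    exact zero_ne_one h1
  have : IsNoetherianRing (Localization.AtPrime P) :=
    IsLocalization.isNoetherianRing P.primeCompl (Localization.AtPrime P) inferInstance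
  have : IsDomain (Localization.AtPrime P) := IsLocalization.isDomain_localization P.primeCompl_le_nonZeroDivisors
  have hPs : P = Ideal.span ({f.rangeRestrict (C (X - C a)), f.rangeRestrict (X - C (C b))} : Set f.range) := by
    have h1 : P.comap f.rangeRestrict = Ideal.span ({C (X - C a), X - C (C b)} : Set κ[X][X]) := by
      refine le_antisymm (fun h hh => hspan h ((hiff h).1 hh)) ?_
      rw [Ideal.span_le]
      rintro h (rfl | rfl)
      · exact ha
      · exact hb
    rw [← Ideal.map_comap_of_surjective f.rangeRestrict hsurj P, h1, Ideal.map_span, Set.image_pair]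
  have hmax : IsLocalRing.maximalIdeal (Localization.AtPrime P) =
      Ideal.span ({algebraMap f.range (Localization.AtPrime P) (f.rangeRestrict (C (X - C a))),
        algebraMap f.range (Localization.AtPrime P) (f.rangeRestrict (X - C (C b)))} : Set (Localization.AtPrime P)) := by
    have h1 := congrArg (Ideal.map (algebraMap f.range (Localization.AtPrime P))) hPs
    rw [Ideal.map_span, Set.image_pair] at h1
    rw [← Localization.AtPrime.map_eq_maximalIdeal]
    exact h1
  have hrel : algebraMap f.range (Localization.AtPrime P) (f.rangeRestrict G1) *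
      algebraMap f.range (Localization.AtPrime P) (f.rangeRestrict (C (X - C a))) +
      algebraMap f.range (Localization.AtPrime P) (f.rangeRestrict G2) *
      algebraMap f.range (Localization.AtPrime P) (f.rangeRestrict (X - C (C b))) = 0 := by
    rw [← map_mul, ← map_mul, ← map_mul, ← map_mul, ← map_add, ← map_add, hG, hF0, map_zero]
  have hunit : ∀ h : κ[X][X], e2 a b h ≠ 0 → IsUnit (algebraMap f.range (Localization.AtPrime P) (f.rangeRestrict h)) := by
    intro h hh
    have h1 : f.rangeRestrict h ∈ P.primeCompl := fun h2 => hh ((hiff h).1 h2)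
    exact IsLocalization.map_units (Localization.AtPrime P) (⟨f.rangeRestrict h, h1⟩ : P.primeCompl)
  have hprin : (IsLocalRing.maximalIdeal (Localization.AtPrime P)).IsPrincipal := by
    rw [hmax]
    generalize algebraMap f.range (Localization.AtPrime P) (f.rangeRestrict (C (X - C a))) = t1 at hrel ⊢
    generalize algebraMap f.range (Localization.AtPrime P) (f.rangeRestrict (X - C (C b))) = t2 at hrel ⊢
    rcases hne with h1 | h1
    · obtain ⟨w, hw⟩ := hunit G1 h1
      refine ⟨⟨t2, ?_⟩⟩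
      refine le_antisymm ?_ ?_
      · rw [Ideal.span_le]
        rintro h (rfl | rfl)
        · refine Ideal.mem_span_singleton'.2 ⟨-(↑w⁻¹ * algebraMap f.range (Localization.AtPrime P) (f.rangeRestrict G2)), ?_⟩
          rw [← hw] at hrel
          have h2 : h = ↑w⁻¹ * (↑w * h) := by rw [← mul_assoc, Units.inv_mul, one_mul]
          rw [h2, eq_neg_of_add_eq_zero_left hrel]
          ring
        · exact Ideal.mem_span_singleton_self _
      · exact Ideal.span_mono (fun h hh => Or.inr hh)
    · obtain ⟨w, hw⟩ := hunit G2 h1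
      refine ⟨⟨t1, ?_⟩⟩
      refine le_antisymm ?_ ?_
      · rw [Ideal.span_le]
        rintro h (rfl | rfl)
        · exact Ideal.mem_span_singleton_self _
        · refine Ideal.mem_span_singleton'.2 ⟨-(↑w⁻¹ * algebraMap f.range (Localization.AtPrime P) (f.rangeRestrict G1)), ?_⟩
          rw [← hw] at hrel
          have h2 : h = ↑w⁻¹ * (↑w * h) := by rw [← mul_assoc, Units.inv_mul, one_mul]
          rw [h2, eq_neg_of_add_eq_zero_right hrel]
          ring
      · exact Ideal.span_mono (fun h hh => Or.inl hh)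
  have htf := (tfae_of_isNoetherianRing_of_isLocalRing_of_isDomain (Localization.AtPrime P)).out 4 3
  exact (htf.1 hprin).1

private theorem G2_frac {κ : Type*} [Field κ] {E : Type*} [Field E] [Algebra (RatFunc κ) E] {n : ℕ} {y : E}
    (e : Module.Basis (Fin n) (RatFunc κ) E) (he : ∀ i : Fin n, e i = y ^ (i : ℕ)) :
    IsFractionRing (ev (κ := κ) y).range E := by
  have hcl : ∀ z : E, z ∈ Subfield.closure ((ev (κ := κ) y).range : Set E) := by
    intro z
    have hy : y ∈ Subfield.closure ((ev (κ := κ) y).range : Set E) :=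
      Subfield.subset_closure ⟨X, ev_X y⟩
    have hr : ∀ r : RatFunc κ, algebraMap (RatFunc κ) E r ∈ Subfield.closure ((ev (κ := κ) y).range : Set E) := by
      intro r
      rw [← RatFunc.num_div_denom r, map_div₀]
      exact div_mem (Subfield.subset_closure ⟨C r.num, ev_C y _⟩) (Subfield.subset_closure ⟨C r.denom, ev_C y _⟩)
    rw [← e.sum_repr z]
    refine sum_mem fun i _ => ?_
    rw [Algebra.smul_def, he]
    exact mul_mem (hr _) (pow_mem hy _)
  refine IsFractionRing.of_field _ _ fun z => ?_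
  obtain ⟨x, hx, x', hx', hz⟩ := Subfield.mem_closure_iff.1 (hcl z)
  rw [Subring.closure_eq] at hx hx'
  exact ⟨⟨x, hx⟩, ⟨x', hx'⟩, hz.symm⟩

theorem inB_of_int_closed {κ : Type*} [Field κ] [IsAlgClosed κ] {E : Type*} [Field E] [Algebra (RatFunc κ) E]
    {w n : ℕ} {F : κ[X][X]} {y : E} {e : Module.Basis (Fin n) (RatFunc κ) E}
    {dK : RatFunc κ → RatFunc κ} {d : Derivation ℤ E E} (H : KL w n F y e dK d) (hs : Sm F 1) {z : E}
    (hz : ((algebraMap (RatFunc κ) E).comp (algebraMap κ[X] (RatFunc κ))).IsIntegralElem z) :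
    InB e z := by
  have : IsFractionRing (ev (κ := κ) y).range E := G2_frac e H.basis
  have : IsIntegrallyClosed (ev (κ := κ) y).range :=
    IsIntegrallyClosed.of_localization_maximal fun P _ _ => G2_loc (ev (κ := κ) y) H.root hs P
  have h1 : IsIntegral (ev (κ := κ) y).range z := by
    obtain ⟨p, hp, hp0⟩ := hz
    refine ⟨p.map ((ev (κ := κ) y).rangeRestrict.comp C), hp.map _, ?_⟩
    rw [eval₂_map]
    have h2 : (algebraMap (ev (κ := κ) y).range E).comp ((ev (κ := κ) y).rangeRestrict.comp C) =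
        (algebraMap (RatFunc κ) E).comp (algebraMap κ[X] (RatFunc κ)) := by
      refine RingHom.ext fun q => ?_
      exact ev_C y q
    rw [h2]
    exact hp0
  obtain ⟨⟨x, h, hh⟩, hx⟩ := IsIntegrallyClosed.isIntegral_iff.1 h1
  have h3 : ev y h = z := by
    rw [hh]
    exact hx
  rw [← h3]
  exact H.inB_ev h

end MPadcPC
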