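import Pool.Agent.Lib.MP_adc574_ag_PC.G2

/-!
# LEAF G3: the coordinate ring of a smooth affine plane curve is integrally closed (any field)

Let `κ' = AlgebraicClosure κ`, `F' = mp (algebraMap κ κ') F`: `Wt.map`, `Sm.map`, `Tp.map` (`F'` has `Sm F' 1`, `Tp w n F' 1`; `H.top`), irreducible over `RatFunc κ'` (`irreducible_of_sm`), so `exists_KL` gives `E'`, `y'`, `e'`, .. over `κ'`. `ρ : RatFunc κ →+* RatFunc κ'` the extension of `mapRingHom` (`RatFunc.map`.. or `IsFractionRing.map` for the injective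
`mapRingHom (algebraMap κ κ')`), `ρ (pol q) = pol (q.map _)`. The map `Φ : E → E'`, `Φ (∑ r i y ^ i) = ∑ ρ (r i) y' ^ i`, is a ring homomorphism: `E` is `RatFunc κ [Y] / F` (the powers `y ^ i`, `i < n`, are a basis and `ev y F = 0`; the kernel of `(RatFunc κ)[Y] → E` is generated by `F`: monic of degree `n`, `Polynomial.modByMonic`), so define it by
lifting (`AdjoinRoot.lift` or `Polynomial.eval₂` and `Ideal.Quotient.lift`), or check the product on the basis. `Φ z` is integral over `κ'[x]`, so `InB e' (Φ z)` (`inB_of_int_closed`): `ρ (e.repr z i)` is a polynomial over `κ'`. `r = pol u / pol v` in lowest terms: `u.map = q * v.map`, so `v.map ∣ u.map`, so `v ∣ u` (`Polynomial.map_dvd_map'`), `r` is a polynomial.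
-/

set_option autoImplicit false

namespace MPadcPC

open Polynomial MPadcCov MPadcLF MPadcCC

universe u

private theorem G3_lift {A B D : Type*} [CommRing A] [CommRing B] [CommRing D] (α : A →+* B)
    (hα : Function.Surjective α) (β : A →+* D) (hk : ∀ p, α p = 0 → β p = 0) :
    ∃ θ : B →+* D, ∀ p, θ (α p) = β p := by
  refine ⟨RingHom.liftOfSurjective α hα ⟨β, fun p hp => hk p hp⟩, fun p => ?_⟩
  exact RingHom.liftOfRightInverse_comp_apply _ _ _ _ _

private theorem G3_theta {κ E Λ : Type*} [Field κ] [Field E] [Field Λ] [Algebra (RatFunc κ) E]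
    {w n : ℕ} {F : κ[X][X]} {y : E} {e : Module.Basis (Fin n) (RatFunc κ) E}
    {dK : RatFunc κ → RatFunc κ} {d : Derivation ℤ E E} (H : KL w n F y e dK d) (φ : RatFunc κ →+* Λ) (y' : Λ)
    (h0 : eval₂ (φ.comp (algebraMap κ[X] (RatFunc κ))) y' F = 0) :
    ∃ θ : E →+* Λ, (∀ r, θ (algebraMap (RatFunc κ) E r) = φ r) ∧ θ y = y' := by
  have hα : ∀ p : (RatFunc κ)[X], p.natDegree < n → ∀ i : Fin n, e.repr (aeval y p) i = p.coeff i := by
    intro p hp i
    have h1 : aeval y p = ∑ i : Fin n, (p.coeff i) • e i := by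
      rw [aeval_eq_sum_range' hp, Finset.sum_range]
      refine Finset.sum_congr rfl fun i _ => ?_
      rw [H.basis i]
    rw [h1, Module.Basis.repr_sum_self]
  obtain ⟨FK, hFK⟩ : ∃ FK : (RatFunc κ)[X], FK = F.map (algebraMap κ[X] (RatFunc κ)) := ⟨_, rfl⟩
  have hFKm : FK.Monic := by rw [hFK]; exact H.wt.monic.map _
  have hFKd : FK.natDegree = n := by rw [hFK, H.wt.monic.natDegree_map, H.wt.deg]
  have hFK0 : aeval y FK = 0 := by
    rw [hFK, aeval_def, eval₂_map]
    exact H.root
  have hker : ∀ p : (RatFunc κ)[X], aeval y p = 0 → eval₂ φ y' p = 0 := by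
    intro p hp
    have h1 := modByMonic_add_div p FK
    have hlt : (p %ₘ FK).natDegree < n := by
      have h2 := natDegree_modByMonic_lt p hFKm (by
        intro h3
        have h4 := hFKd
        rw [h3, natDegree_one] at h4
        have := H.hn
        omega)
      rwa [hFKd] at h2
    have h2 : aeval y (p %ₘ FK) = 0 := by
      rw [← h1, map_add, map_mul, hFK0, zero_mul, add_zero] at hp
      exact hp
    have h3 : p %ₘ FK = 0 := by
      ext1 i
      rw [coeff_zero]
      by_cases hi : i < n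
      · have h4 := hα _ hlt ⟨i, hi⟩
        rw [h2, map_zero, Finsupp.zero_apply] at h4
        exact h4.symm
      · exact coeff_eq_zero_of_natDegree_lt (lt_of_lt_of_le hlt (not_lt.mp hi))
    have h5 : eval₂ φ y' FK = 0 := by rw [hFK, eval₂_map, h0]
    rw [← h1, h3, zero_add, eval₂_mul, h5, zero_mul]
  have hsurj : Function.Surjective ((aeval y : (RatFunc κ)[X] →ₐ[RatFunc κ] E) : (RatFunc κ)[X] →+* E) := by
    intro z
    refine ⟨∑ i : Fin n, C (e.repr z i) * X ^ (i : ℕ), ?_⟩
    rw [RingHom.coe_coe, map_sum]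
    conv_rhs => rw [← e.sum_repr z]
    refine Finset.sum_congr rfl fun i _ => ?_
    rw [map_mul, map_pow, aeval_C, aeval_X, H.basis i, Algebra.smul_def]
  obtain ⟨θ, hθ⟩ := G3_lift _ hsurj (eval₂RingHom φ y') (fun p hp => hker p hp)
  refine ⟨θ, fun r => ?_, ?_⟩
  · have h1 := hθ (C r)
    rw [RingHom.coe_coe, aeval_C, coe_eval₂RingHom, eval₂_C] at h1
    exact h1
  · have h1 := hθ X
    rw [RingHom.coe_coe, aeval_X, coe_eval₂RingHom, eval₂_X] at h1
    exact h1

private theorem G3_isPol {κ κ' : Type*} [Field κ] [Field κ'] (φ : κ →+* κ') (ρ : RatFunc κ →+* RatFunc κ')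
    (hρ : ∀ q : κ[X], ρ (pol q) = pol (q.map φ)) (r : RatFunc κ) (hr : IsPol (ρ r)) : IsPol r := by
  obtain ⟨u, v, hv, huv⟩ := exists_rep r
  obtain ⟨t', ht'⟩ := hr
  have h1 : pol (u.map φ) = pol (v.map φ * t') := by
    rw [← hρ, ← huv, map_mul ρ, hρ, ← ht']
    exact (map_mul (algebraMap κ'[X] (RatFunc κ')) _ _).symm
  have h2 : u.map φ = v.map φ * t' := pol_injective h1
  have h3 : v ∣ u := (map_dvd_map' φ).1 ⟨t', h2⟩
  obtain ⟨t, rfl⟩ := h3
  refine ⟨t, ?_⟩
  have h4 : pol v ≠ 0 := by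
    intro h5
    apply hv
    apply pol_injective
    rw [map_zero]
    exact h5
  apply mul_left_cancel₀ h4
  rw [huv]
  exact (map_mul (algebraMap κ[X] (RatFunc κ)) v t).symm

theorem inB_of_int {κ : Type u} [Field κ] {E : Type u} [Field E] [Algebra (RatFunc κ) E]
    {w n : ℕ} {F : κ[X][X]} {y : E} {e : Module.Basis (Fin n) (RatFunc κ) E}
    {dK : RatFunc κ → RatFunc κ} {d : Derivation ℤ E E} (H : KL w n F y e dK d) (hs : Sm F 1) {z : E}
    (hz : ((algebraMap (RatFunc κ) E).comp (algebraMap κ[X] (RatFunc κ))).IsIntegralElem z) :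
    InB e z := by
  obtain ⟨φ, hφ⟩ : ∃ φ : κ →+* AlgebraicClosure κ, φ = algebraMap κ (AlgebraicClosure κ) := ⟨_, rfl⟩
  have hF' : Wt w n (mp φ F) := H.wt.map φ
  have hs' : Sm (mp φ F) 1 := by
    have h1 := hs.map φ
    rw [map_one φ] at h1
    exact h1
  have ht' : Tp w n (mp φ F) 1 := by
    have h1 := H.top.map φ
    rw [map_one φ] at h1
    exact h1
  obtain ⟨E', _, _, y', e', dK', d', H', -⟩ := exists_KL H.hn H.hw (mp φ F) hF'
    (irreducible_of_sm H.hn H.hw hF' hs' ht') ht'
  have hinj : Function.Injective ((algebraMap (AlgebraicClosure κ)[X] (RatFunc (AlgebraicClosure κ))).comp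
      (mapRingHom φ)) := by
    rw [RingHom.coe_comp]
    exact pol_injective.comp (map_injective φ φ.injective)
  obtain ⟨ρ, hρ⟩ : ∃ ρ : RatFunc κ →+* RatFunc (AlgebraicClosure κ), ∀ q : κ[X], ρ (pol q) = pol (q.map φ) := by
    refine ⟨IsFractionRing.lift hinj, fun q => ?_⟩
    rw [IsFractionRing.lift_algebraMap, RingHom.comp_apply, coe_mapRingHom]
  have hcomp : (((algebraMap (RatFunc (AlgebraicClosure κ)) E').comp ρ).comp (algebraMap κ[X] (RatFunc κ))) =
      ((algebraMap (RatFunc (AlgebraicClosure κ)) E').comp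
        (algebraMap (AlgebraicClosure κ)[X] (RatFunc (AlgebraicClosure κ)))).comp (mapRingHom φ) := by
    apply RingHom.ext
    intro q
    rw [RingHom.comp_apply, RingHom.comp_apply, hρ q]
    rfl
  have h0 : eval₂ (((algebraMap (RatFunc (AlgebraicClosure κ)) E').comp ρ).comp (algebraMap κ[X] (RatFunc κ))) y' F =
      0 := by
    have h1 := H'.root
    have h2 : ev y' (mp φ F) = eval₂ ((algebraMap (RatFunc (AlgebraicClosure κ)) E').comp
        (algebraMap (AlgebraicClosure κ)[X] (RatFunc (AlgebraicClosure κ)))) y' (F.map (mapRingHom φ)) := rfl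
    rw [h2, eval₂_map] at h1
    rw [hcomp]
    exact h1
  obtain ⟨θ, hθ, hθy⟩ := G3_theta H ((algebraMap (RatFunc (AlgebraicClosure κ)) E').comp ρ) y' h0
  have hrepr : ∀ i, e'.repr (θ z) i = ρ (e.repr z i) := by
    intro i
    have h1 : θ z = ∑ i : Fin n, (ρ (e.repr z i)) • e' i := by
      conv_lhs => rw [← e.sum_repr z]
      rw [map_sum]
      refine Finset.sum_congr rfl fun i _ => ?_
      rw [Algebra.smul_def, map_mul, hθ, H.basis i, map_pow, hθy, Algebra.smul_def, H'.basis i]
      rfl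
    rw [h1, Module.Basis.repr_sum_self]
  have hint : ((algebraMap (RatFunc (AlgebraicClosure κ)) E').comp
      (algebraMap (AlgebraicClosure κ)[X] (RatFunc (AlgebraicClosure κ)))).IsIntegralElem (θ z) := by
    obtain ⟨p, hp, hp0⟩ := hz
    refine ⟨p.map (mapRingHom φ), hp.map _, ?_⟩
    rw [eval₂_map, ← hcomp]
    have h1 : (((algebraMap (RatFunc (AlgebraicClosure κ)) E').comp ρ).comp (algebraMap κ[X] (RatFunc κ))) =
        θ.comp ((algebraMap (RatFunc κ) E).comp (algebraMap κ[X] (RatFunc κ))) := by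
      apply RingHom.ext
      intro q
      exact (hθ _).symm
    rw [h1, ← hom_eval₂, hp0, map_zero]
  have hB := inB_of_int_closed H' hs' hint
  intro i
  refine G3_isPol φ ρ hρ _ ?_
  rw [← hrepr i]
  exact hB i

end MPadcPC
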