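import Pool.Agent.Lib.MP_adc574_ag_PC.G3

/-!
# LEAF G4: regular functions on the open sets `x ≠ ∞`, `x ≠ 0`, `x ≠ 0, ∞`

`X = algebraMap (RatFunc κ) E RatFunc.X`; `reg κ S` = the elements integral over `Algebra.adjoin κ S` (CC/Defs.lean).
* `reg_iff`: `→`: a monic equation over `Algebra.adjoin κ {X}`, whose elements are `aeval X q = inE (pol q)` (`Algebra.adjoin_singleton_eq_range_aeval`): integral over `κ[x]`, `inB_of_int`. `←`: `z = ev y g` (`KL.exists_ev`); `y` is integral (root of the monic `F`), `X` is in the ring, `IsIntegral.add`, `.mul`, `.pow`, `.sum`.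
* `bdeg_of_reg`: `X⁻¹ ^ (w i) * y ^ i` is integral over `κ[X⁻¹]` (`Hex_int`, `Hex_inv` in LF/Hex.lean, private: `ζ = X⁻¹ ^ w * y` is a root of `∑ j, x ^ (- w (n - j)) F_j(x) Z ^ j`). So `Tr (z X⁻¹ ^ (w i) y ^ i)` is integral over `κ[X⁻¹]` (`Algebra.isIntegral_trace` over the ring `κ[1/x]` or through conjugates) and in `RatFunc κ`, so a polynomial in `x⁻¹` (integrally closed) and has
degree `≤ 0`: `Dle (Tr (z * y ^ i)) (w i)`. `z = ∑ i, inE (Tr (z * y ^ i)) * ev y (bb F i) / F_Y` (both sides have the same traces against `y ^ j`: `KL.tr_ev_div`/`H.euler`, `tau_bb`; the trace form is nondegenerate), `bb F i` has weight `w (n - 1 - i)`, so `z * F_Y` has `BDeg (w (n - 1))`: `KL.bdeg_ev`, `BDeg.smul`, and `KL.bdeg_div` with `m = 0`. Model: `KL.isReg` in LF/Hex.lean.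
* `reg_inv_of`: the coordinates `r i` of `z` satisfy `X ^ N r i ∈ κ[x]` and `Dle (r i) (- w i)`, so `r i = x ^ (- w i) q_i(1/x)` with `q_i` a polynomial, `z = ∑ q_i(1/x) ζ ^ i`, `ζ = X⁻¹ ^ w * y` integral over `κ[X⁻¹]`.
* `reg_both`: `z` integral over `κ[X, X⁻¹]`: `X ^ N * z` is integral over `κ[X]` for large `N` (multiply the equation by `X ^ (N m)`; every element of `Algebra.adjoin κ {X, X⁻¹}` becomes an element of `Algebra.adjoin κ {X}` after multiplication by a power of `X`: `Algebra.adjoin_induction`), `reg_iff`.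

-/

set_option autoImplicit false

namespace MPadcPC

open Polynomial MPadcCov MPadcLF MPadcCC

universe u

variable {κ : Type u} [Field κ] {E : Type u} [Field E] [Algebra κ E] [Algebra (RatFunc κ) E]
    [IsScalarTower κ (RatFunc κ) E]
    {w n : ℕ} {F : κ[X][X]} {y : E} {e : Module.Basis (Fin n) (RatFunc κ) E}
    {dK : RatFunc κ → RatFunc κ} {d : Derivation ℤ E E}

omit [Algebra (RatFunc κ) E] [IsScalarTower κ (RatFunc κ) E] in
private theorem G4_up {φ : κ[X] →+* E} {S : Subalgebra κ E} (h : ∀ q, φ q ∈ S) {z : E}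
    (hz : φ.IsIntegralElem z) : IsIntegral S z := by
  obtain ⟨p, hp, hpz⟩ := hz
  set g : κ[X] →+* S := φ.codRestrict S h with hg
  refine ⟨p.map g, hp.map g, ?_⟩
  rw [eval₂_map]
  exact hpz

omit [Algebra (RatFunc κ) E] [IsScalarTower κ (RatFunc κ) E] in
private theorem G4_down {φ : κ[X] →+* E} {S : Subalgebra κ E} (h : ∀ a ∈ S, ∃ q, φ q = a) {z : E}
    (hz : IsIntegral S z) : φ.IsIntegralElem z := by
  obtain ⟨p, hp, hpz⟩ := hz
  have h1 : p.map (algebraMap S E) ∈ Polynomial.lifts φ := by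
    rw [Polynomial.lifts_iff_coeff_lifts]
    intro i
    rw [coeff_map]
    obtain ⟨q, hq⟩ := h _ (p.coeff i).2
    exact ⟨q, hq⟩
  obtain ⟨q, hq, -, hqm⟩ := Polynomial.lifts_and_natDegree_eq_and_monic h1 (hp.map _)
  refine ⟨q, hqm, ?_⟩
  rw [← eval_map, hq, eval_map]
  exact hpz

private theorem G4_phiX (q : κ[X]) : ((algebraMap (RatFunc κ) E).comp (algebraMap κ[X] (RatFunc κ))) q =
    aeval (algebraMap (RatFunc κ) E RatFunc.X) q := by
  rw [aeval_algebraMap_apply, RatFunc.aeval_X_left_eq_algebraMap]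
  rfl

private theorem G4_phiI (q : κ[X]) : ((algebraMap (RatFunc κ) E).comp
    (aeval (RatFunc.X⁻¹ : RatFunc κ) : κ[X] →ₐ[κ] RatFunc κ).toRingHom) q =
    aeval (algebraMap (RatFunc κ) E RatFunc.X)⁻¹ q := by
  rw [← map_inv₀, aeval_algebraMap_apply]
  rfl

/-- The valuation ring of the functions of degree at most `0`. -/
private def G4_V (κ : Type*) [Field κ] : ValuationSubring (RatFunc κ) where
  carrier := {r | Dle r 0}
  zero_mem' := Or.inl rfl
  one_mem' := Or.inr (by simp)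
  add_mem' := fun hr hs => Dle.add hr hs
  mul_mem' := fun hr hs => (Dle.mul hr hs).mono (by norm_num)
  neg_mem' := fun hr => Dle.neg hr
  mem_or_inv_mem' := by
    intro r
    rcases le_total r.intDegree 0 with h | h
    · exact Or.inl (Or.inr h)
    · refine Or.inr (Or.inr ?_)
      rw [RatFunc.intDegree_inv]
      linarith

private theorem G4_mem (p : κ[X]) : (aeval (RatFunc.X⁻¹ : RatFunc κ) p) ∈ G4_V κ := by
  induction p using Polynomial.induction_on' with
  | add p q hp hq =>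
    rw [map_add]
    exact (G4_V κ).add_mem _ _ hp hq
  | monomial n c =>
    rw [aeval_monomial]
    refine (G4_V κ).mul_mem _ _ ?_ (pow_mem ?_ n)
    · right
      have h1 : algebraMap κ (RatFunc κ) c = RatFunc.C c := rfl
      rw [h1, RatFunc.intDegree_C]
    · right
      rw [RatFunc.intDegree_inv, RatFunc.intDegree_X]
      norm_num

omit [Algebra κ E] [IsScalarTower κ (RatFunc κ) E] in
/-- The trace of an element integral over `κ[1/x]`. -/
private theorem G4_tr [FiniteDimensional (RatFunc κ) E] {u : E} (hu : IntI κ u) : Dle (Tr κ E u) 0 := by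
  let _ : Algebra (G4_V κ) E := ((algebraMap (RatFunc κ) E).comp (algebraMap (G4_V κ) (RatFunc κ))).toAlgebra
  have _ : IsScalarTower (G4_V κ) (RatFunc κ) E := IsScalarTower.of_algebraMap_eq fun _ => rfl
  have h1 : IsIntegral (G4_V κ) u := by
    obtain ⟨p, hp, hpb⟩ := hu
    set f : κ[X] →+* RatFunc κ := (aeval (RatFunc.X⁻¹ : RatFunc κ) : κ[X] →ₐ[κ] RatFunc κ).toRingHom
      with hf
    set g : κ[X] →+* G4_V κ := f.codRestrict (G4_V κ) (fun q => G4_mem q) with hg
    refine ⟨p.map g, hp.map g, ?_⟩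
    rw [eval₂_map]
    exact hpb
  have h2 := Algebra.isIntegral_trace (R := G4_V κ) (L := RatFunc κ) (F := E) h1
  obtain ⟨v, hv⟩ := (IsIntegrallyClosed.isIntegral_iff (R := G4_V κ) (K := RatFunc κ)).1 h2
  have h3 := v.2
  have h4 : (v : RatFunc κ) = Tr κ E u := hv
  rw [← h4]
  exact h3

private theorem G4_inv {κ : Type*} [Field κ] (N : ℕ) (f : κ[X]) (hf : f.natDegree ≤ N) :
    (aeval (RatFunc.X⁻¹ : RatFunc κ) : κ[X] →ₐ[κ] RatFunc κ) (reflect N f) * RatFunc.X ^ N =
      pol f := by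
  let _ : Invertible (RatFunc.X : RatFunc κ) := invertibleOfNonzero RatFunc.X_ne_zero
  have h1 := eval₂_reflect_mul_pow (algebraMap κ (RatFunc κ)) (RatFunc.X : RatFunc κ) N f hf
  rw [invOf_eq_inv] at h1
  rw [aeval_def, h1]
  have h2 : pol f = eval₂ (algebraMap κ (RatFunc κ)) RatFunc.X f := by
    have h3 : (algebraMap κ[X] (RatFunc κ)) = eval₂RingHom (algebraMap κ (RatFunc κ)) RatFunc.X := by
      apply Polynomial.ringHom_ext
      · intro a
        rw [coe_eval₂RingHom, eval₂_C, RatFunc.algebraMap_C, RatFunc.algebraMap_eq_C]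
      · rw [coe_eval₂RingHom, eval₂_X, RatFunc.algebraMap_X]
    unfold pol
    rw [h3]
    rfl
  exact h2.symm

private theorem G4_pow {A B : Type*} [CommRing A] [CommRing B] (f : A →+* B) {x : B}
    (hx : f.IsIntegralElem x) (m : ℕ) : f.IsIntegralElem (x ^ m) := by
  induction m with
  | zero =>
    rw [pow_zero]
    refine ⟨X - 1, ?_, ?_⟩
    · have h1 : (X - 1 : A[X]) = X - C 1 := by rw [C_1]
      rw [h1]
      exact monic_X_sub_C 1
    · rw [eval₂_sub, eval₂_X, eval₂_one, sub_self]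
  | succ m ih =>
    rw [pow_succ]
    exact RingHom.IsIntegralElem.mul f ih hx

omit [Algebra κ E] [IsScalarTower κ (RatFunc κ) E] in
/-- `ζ = x ^ (-w) y` is integral over `κ[1/x]` -/
private theorem G4_int (H : KL w n F y e dK d) :
    IntI κ (inE (κ := κ) E ((RatFunc.X⁻¹) ^ w) * y) := by
  have hX : (RatFunc.X : RatFunc κ) ≠ 0 := RatFunc.X_ne_zero
  set P : κ[X][X] := ∑ j ∈ Finset.range (n + 1), C (reflect (w * (n - j)) (F.coeff j)) * X ^ j
    with hP
  have hcoef : ∀ i, P.coeff i = if i ≤ n then reflect (w * (n - i)) (F.coeff i) else 0 := by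
    intro i
    rw [hP, finsetSum_coeff]
    simp only [coeff_C_mul, coeff_X_pow, mul_ite, mul_one, mul_zero]
    rw [Finset.sum_ite_eq]
    simp only [Finset.mem_range, Nat.lt_succ_iff]
  have hFn : F.coeff n = 1 := by
    have h1 := H.wt.monic.coeff_natDegree
    rwa [H.wt.deg] at h1
  have hPn : P.coeff n = 1 := by
    rw [hcoef, if_pos le_rfl, Nat.sub_self, mul_zero, hFn]
    have h1 : (1 : κ[X]) = C 1 := C_1.symm
    rw [h1, reflect_C, pow_zero, mul_one]
  have hPd : P.natDegree ≤ n := by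
    refine natDegree_le_iff_coeff_eq_zero.2 fun m hm => ?_
    rw [hcoef, if_neg (by omega)]
  refine ⟨P, monic_of_natDegree_le_of_coeff_eq_one n hPd hPn, ?_⟩
  have hdeg : ∀ j, j ≤ n → (F.coeff j).natDegree ≤ w * (n - j) := by
    intro j hj
    by_cases h0 : F.coeff j = 0
    · rw [h0, natDegree_zero]
      exact Nat.zero_le _
    · have h1 := H.wt.wd j h0
      have h2 : w * (n - j) + w * j = w * n := by
        rw [← mul_add, Nat.sub_add_cancel hj]
      omega
  rw [hP, eval₂_finsetSum]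
  have hterm : ∀ j ∈ Finset.range (n + 1),
      eval₂ ((algebraMap (RatFunc κ) E).comp
        (aeval (RatFunc.X⁻¹ : RatFunc κ) : κ[X] →ₐ[κ] RatFunc κ).toRingHom)
        (inE (κ := κ) E ((RatFunc.X⁻¹) ^ w) * y)
        (C (reflect (w * (n - j)) (F.coeff j)) * X ^ j) =
      inE (κ := κ) E ((RatFunc.X⁻¹) ^ (w * n)) * (inE (κ := κ) E (pol (F.coeff j)) * y ^ j) := by
    intro j hj
    have hj' : j ≤ n := Nat.lt_succ_iff.1 (Finset.mem_range.1 hj)
    rw [eval₂_mul, eval₂_C, eval₂_pow, eval₂_X]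
    show inE (κ := κ) E ((aeval (RatFunc.X⁻¹ : RatFunc κ) : κ[X] →ₐ[κ] RatFunc κ)
      (reflect (w * (n - j)) (F.coeff j))) * (inE (κ := κ) E ((RatFunc.X⁻¹) ^ w) * y) ^ j = _
    have h1 := G4_inv (w * (n - j)) (F.coeff j) (hdeg j hj')
    have h2 : (aeval (RatFunc.X⁻¹ : RatFunc κ) : κ[X] →ₐ[κ] RatFunc κ)
        (reflect (w * (n - j)) (F.coeff j)) * (RatFunc.X⁻¹ ^ w) ^ j =
        (RatFunc.X⁻¹) ^ (w * n) * pol (F.coeff j) := by
      rw [← h1]
      have h3 : w * n = w * (n - j) + w * j := by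
        rw [← mul_add, Nat.sub_add_cancel hj']
      rw [h3, pow_add, ← pow_mul, inv_pow, inv_pow]
      field_simp
    rw [mul_pow, ← mul_assoc, ← mul_assoc]
    congr 1
    rw [← map_pow, ← map_mul, h2, map_mul]
  rw [Finset.sum_congr rfl hterm, ← Finset.mul_sum]
  have h4 : ev y F = ∑ j ∈ Finset.range (n + 1), inE (κ := κ) E (pol (F.coeff j)) * y ^ j := by
    have h5 : ev y F = eval₂ ((algebraMap (RatFunc κ) E).comp (algebraMap κ[X] (RatFunc κ))) y F :=
      rfl
    rw [h5, eval₂_eq_sum_range, H.wt.deg]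
    rfl
  rw [← h4, H.root, mul_zero]

omit [Algebra κ E] [IsScalarTower κ (RatFunc κ) E] in
private theorem G4_xpow (N : ℕ) : inE (κ := κ) E (pol (X ^ N)) = algebraMap (RatFunc κ) E RatFunc.X ^ N := by
  unfold inE pol
  rw [map_pow, map_pow, RatFunc.algebraMap_X]

omit [Algebra κ E] [IsScalarTower κ (RatFunc κ) E] in
private theorem G4_x0 : algebraMap (RatFunc κ) E RatFunc.X ≠ 0 := by
  intro h
  exact RatFunc.X_ne_zero ((map_eq_zero _).1 h)

omit [IsScalarTower κ (RatFunc κ) E] in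
/-- `κ[x, 1/x]` in `κ[x]` after multiplication by a power of `x`. -/
private theorem G4_both {b : E} (hb : b ∈ Algebra.adjoin κ
      {algebraMap (RatFunc κ) E RatFunc.X, (algebraMap (RatFunc κ) E RatFunc.X)⁻¹}) :
    ∃ (N : ℕ) (q : κ[X]), aeval (algebraMap (RatFunc κ) E RatFunc.X) q =
      algebraMap (RatFunc κ) E RatFunc.X ^ N * b := by
  induction hb using Algebra.adjoin_induction with
  | mem b hb =>
    rcases hb with rfl | hb
    · exact ⟨0, X, by rw [aeval_X, pow_zero, one_mul]⟩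
    · rw [Set.mem_singleton_iff] at hb
      refine ⟨1, 1, ?_⟩
      rw [map_one, pow_one, hb, mul_inv_cancel₀ G4_x0]
  | algebraMap c => exact ⟨0, C c, by rw [aeval_C, pow_zero, one_mul]⟩
  | add b b' _ _ h h' =>
    obtain ⟨N, q, hq⟩ := h
    obtain ⟨N', q', hq'⟩ := h'
    refine ⟨N + N', X ^ N' * q + X ^ N * q', ?_⟩
    rw [map_add, map_mul, map_mul, map_pow, map_pow, aeval_X, hq, hq']
    ring
  | mul b b' _ _ h h' =>
    obtain ⟨N, q, hq⟩ := h
    obtain ⟨N', q', hq'⟩ := h'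
    refine ⟨N + N', q * q', ?_⟩
    rw [map_mul, hq, hq']
    ring


omit [Algebra (RatFunc κ) E] [IsScalarTower κ (RatFunc κ) E] in
private theorem G4_scale {x z : E} {B : Subalgebra κ E} {φ : κ[X] →+* E} (hx : φ X = x)
    (hB : ∀ b ∈ B, ∃ (N : ℕ) (q : κ[X]), φ q = x ^ N * b) (hz : IsIntegral B z) :
    ∃ M : ℕ, φ.IsIntegralElem (x ^ M * z) := by
  classical
  obtain ⟨p, hp, hpz⟩ := hz
  have h1 : ∀ i : ℕ, ∃ (N : ℕ) (q : κ[X]), φ q = x ^ N * (p.coeff i : E) :=
    fun i => hB _ (p.coeff i).2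
  choose N q hq using h1
  refine ⟨∑ i ∈ Finset.range (p.natDegree + 1), N i, ?_⟩
  set M : ℕ := ∑ i ∈ Finset.range (p.natDegree + 1), N i with hM
  set P : E[X] := p.map (algebraMap B E) with hP
  have hPm : P.Monic := hp.map _
  have hroot : eval₂ (RingHom.id E) z P = 0 := by
    rw [hP, eval₂_map, RingHom.id_comp]
    exact hpz
  have hroot2 := scaleRoots_eval₂_mul (RingHom.id E) (p := P) (r := z) (s := x ^ M)
  rw [hroot, mul_zero, RingHom.id_apply] at hroot2
  have hdeg : P.natDegree = p.natDegree := hp.natDegree_map _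
  have hco : ∀ i, P.coeff i = (p.coeff i : E) := by
    intro i
    rw [hP, coeff_map]
    rfl
  have hlift : scaleRoots P (x ^ M) ∈ Polynomial.lifts φ := by
    rw [Polynomial.lifts_iff_coeff_lifts]
    intro i
    rw [coeff_scaleRoots]
    rcases lt_trichotomy i P.natDegree with hi | hi | hi
    · have hle : N i ≤ M := Finset.single_le_sum (f := N) (fun j _ => Nat.zero_le _)
        (Finset.mem_range.2 (by omega))
      refine ⟨X ^ (M - N i) * q i * (X ^ M) ^ (P.natDegree - i - 1), ?_⟩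
      have h2 : P.natDegree - i = (P.natDegree - i - 1) + 1 := by omega
      have h3 : x ^ M = x ^ (M - N i) * x ^ (N i) := by
        rw [← pow_add, Nat.sub_add_cancel hle]
      have h4 : (x ^ M) ^ (P.natDegree - i) = (x ^ M) ^ (P.natDegree - i - 1) * (x ^ (M - N i) * x ^ (N i)) := by
        rw [← h3, ← pow_succ, ← h2]
      rw [map_mul, map_mul, map_pow, map_pow, map_pow, hx, hq, h4, hco]
      ring
    · refine ⟨1, ?_⟩
      rw [map_one, hi, Nat.sub_self, pow_zero, mul_one]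
      exact hPm.coeff_natDegree.symm
    · refine ⟨0, ?_⟩
      rw [map_zero, coeff_eq_zero_of_natDegree_lt hi, zero_mul]
  obtain ⟨Q, hQ, -, hQm⟩ := Polynomial.lifts_and_natDegree_eq_and_monic hlift
    ((monic_scaleRoots_iff _).2 hPm)
  refine ⟨Q, hQm, ?_⟩
  rw [← eval_map, hQ]
  exact hroot2

theorem reg_iff (H : KL w n F y e dK d) (hs : Sm F 1) (z : E) :
    z ∈ reg κ {algebraMap (RatFunc κ) E RatFunc.X} ↔ InB e z := by
  constructor
  · intro hz
    refine inB_of_int H hs (G4_down (fun a ha => ?_) hz)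
    rw [Algebra.adjoin_singleton_eq_range_aeval] at ha
    obtain ⟨q, hq⟩ := ha
    refine ⟨q, ?_⟩
    rw [G4_phiX]
    exact hq
  · intro hz
    obtain ⟨h, -, rfl⟩ := H.exists_ev hz
    have hmem : ∀ q : κ[X], ((algebraMap (RatFunc κ) E).comp (algebraMap κ[X] (RatFunc κ))) q ∈
        Algebra.adjoin κ {algebraMap (RatFunc κ) E RatFunc.X} := by
      intro q
      rw [G4_phiX, Algebra.adjoin_singleton_eq_range_aeval]
      exact ⟨q, rfl⟩
    have hC : ∀ q : κ[X], IsIntegral (Algebra.adjoin κ {algebraMap (RatFunc κ) E RatFunc.X})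
        (((algebraMap (RatFunc κ) E).comp (algebraMap κ[X] (RatFunc κ))) q) := fun q =>
      isIntegral_algebraMap (R := Algebra.adjoin κ {algebraMap (RatFunc κ) E RatFunc.X}) (A := E)
        (x := ⟨_, hmem q⟩)
    have hy : IsIntegral (Algebra.adjoin κ {algebraMap (RatFunc κ) E RatFunc.X}) y := by
      refine G4_up hmem ?_
      exact ⟨F, H.wt.monic, H.root⟩
    show IsIntegral _ (ev y h)
    clear hz
    induction h using Polynomial.induction_on' with
    | add p q hp hq =>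
      rw [map_add]
      exact hp.add hq
    | monomial m c =>
      rw [← C_mul_X_pow_eq_monomial, map_mul, map_pow, ev_C, ev_X]
      exact (hC c).mul (hy.pow m)

theorem bdeg_of_reg (H : KL w n F y e dK d) {z : E}
    (hz : z ∈ reg κ {(algebraMap (RatFunc κ) E RatFunc.X)⁻¹}) : BDeg e (aa w n) 0 z := by
  classical
  have hX : (RatFunc.X : RatFunc κ) ≠ 0 := RatFunc.X_ne_zero
  have hfd : FiniteDimensional (RatFunc κ) E := Module.Finite.of_basis e
  have hmon := H.wt.monic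
  have hzI : IntI κ z := by
    refine G4_down (fun a ha => ?_) hz
    rw [Algebra.adjoin_singleton_eq_range_aeval] at ha
    obtain ⟨q, hq⟩ := ha
    refine ⟨q, ?_⟩
    rw [G4_phiI]
    exact hq
  have h2 : ∀ j : ℕ, Dle (Tr κ E (z * y ^ j)) ((w * j : ℕ) : ℤ) := by
    intro j
    have h3 := G4_tr (RingHom.IsIntegralElem.mul _ hzI (G4_pow _ (G4_int H) j))
    have h4 : z * (inE (κ := κ) E ((RatFunc.X⁻¹) ^ w) * y) ^ j =
        inE (κ := κ) E ((RatFunc.X⁻¹) ^ (w * j)) * (z * y ^ j) := by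
      rw [mul_pow, ← map_pow, ← pow_mul]
      ring
    rw [h4, tr_inE_mul] at h3
    have h5 : Tr κ E (z * y ^ j) = pol (X ^ (w * j)) * ((RatFunc.X⁻¹) ^ (w * j) * Tr κ E (z * y ^ j)) := by
      have h6 : pol (X ^ (w * j)) * (RatFunc.X⁻¹ : RatFunc κ) ^ (w * j) = 1 := by
        rw [pol, map_pow, RatFunc.algebraMap_X, ← mul_pow, mul_inv_cancel₀ hX, one_pow]
      rw [← mul_assoc, h6, one_mul]
    rw [h5]
    have h7 : Dle (pol (X ^ (w * j) : κ[X])) ((w * j : ℕ) : ℤ) :=
      dle_pol_iff.2 (Or.inr (by rw [natDegree_X_pow]))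
    exact (h7.mul h3).mono (by linarith)
  set s : ℕ → RatFunc κ := fun j => Tr κ E (z * y ^ j) with hs
  set t : E := ∑ i ∈ Finset.range n, inE (κ := κ) E (s i) * (ev y (bb F i) / ev y (py F)) with ht
  have h3 : ∀ j, j < n → Tr κ E ((z - t) * y ^ j) = 0 := by
    intro j hj
    have h4 : ev y (X ^ j : κ[X][X]) = y ^ j := by rw [map_pow, ev_X]
    rw [sub_mul, map_sub]
    have h5 : Tr κ E (t * y ^ j) = s j := by
      rw [ht, Finset.sum_mul, map_sum, Finset.sum_eq_single j]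
      · rw [mul_assoc, tr_inE_mul, ← h4, H.tr_ev_div, mul_comm (bb F j),
          tau_bb hmon H.wt.deg _ _ hj hj, if_pos rfl, pol, map_one, mul_one]
      · intro i hi hne
        rw [mul_assoc, tr_inE_mul, ← h4, H.tr_ev_div, mul_comm (bb F i),
          tau_bb hmon H.wt.deg _ _ (Finset.mem_range.mp hi) hj, if_neg hne, pol, map_zero, mul_zero]
      · intro h7
        exact absurd (Finset.mem_range.mpr hj) h7
    rw [h5]
    exact sub_self _
  have h4 : ∀ z' : E, Tr κ E ((z - t) * z') = 0 := by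
    intro z'
    rw [← e.sum_repr z', Finset.mul_sum, map_sum]
    refine Finset.sum_eq_zero fun i _ => ?_
    have h5 : (z - t) * (e.repr z' i • e i) = e.repr z' i • ((z - t) * y ^ (i : ℕ)) := by
      rw [H.basis i, Algebra.smul_def, Algebra.smul_def]
      ring
    rw [h5, map_smul, h3 _ i.2, smul_zero]
  have h5 : z - t = 0 := by
    by_contra hne
    have h6 := h4 ((z - t)⁻¹ * (ev y (X ^ (n - 1) : κ[X][X]) / ev y (py F)))
    rw [← mul_assoc, mul_inv_cancel₀ hne, one_mul, H.euler,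
      tau_pow hmon H.wt.deg _ (by have := H.hn; omega),
      if_pos (by have := H.hn; omega)] at h6
    rw [pol, map_one] at h6
    exact one_ne_zero h6
  have h6 : z = t := sub_eq_zero.1 h5
  refine H.bdeg_div (m := 0) ?_
  have h7 : z * ev y (py F) = ∑ i ∈ Finset.range n, inE (κ := κ) E (s i) * ev y (bb F i) := by
    rw [h6, ht, Finset.sum_mul]
    refine Finset.sum_congr rfl fun i _ => ?_
    rw [mul_assoc, div_mul_cancel₀ _ H.Fy]
  rw [h7]
  refine BDeg.sum _ _ fun i hi => ?_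
  have hi' := Finset.mem_range.1 hi
  refine BDeg.mono (BDeg.smul (h2 i) (H.bdeg_ev (WD.ofbb H.wt i hi'))) ?_
  have h8 : w * (n - 1 - i) + w * i = w * (n - 1) := by
    rw [← mul_add]
    congr 1
    omega
  have h9 : ((n - 1 : ℕ) : ℤ) = (n : ℤ) - 1 := by
    have := H.hn
    omega
  rw [zero_add, ← Nat.cast_add, h8]
  push_cast
  rw [h9]

theorem reg_inv_of (H : KL w n F y e dK d) {z : E} (N : ℕ)
    (hN : InB e (inE (κ := κ) E (pol (X ^ N)) * z)) (hb : BDeg e (aa w n) 0 z) :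
    z ∈ reg κ {(algebraMap (RatFunc κ) E RatFunc.X)⁻¹} := by
  have hX : (RatFunc.X : RatFunc κ) ≠ 0 := RatFunc.X_ne_zero
  have hmem : ∀ q : κ[X], ((algebraMap (RatFunc κ) E).comp
      (aeval (RatFunc.X⁻¹ : RatFunc κ) : κ[X] →ₐ[κ] RatFunc κ).toRingHom) q ∈
      Algebra.adjoin κ {(algebraMap (RatFunc κ) E RatFunc.X)⁻¹} := by
    intro q
    rw [G4_phiI, Algebra.adjoin_singleton_eq_range_aeval]
    exact ⟨q, rfl⟩
  have hC : ∀ q : κ[X], IsIntegral (Algebra.adjoin κ {(algebraMap (RatFunc κ) E RatFunc.X)⁻¹})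
      (((algebraMap (RatFunc κ) E).comp
      (aeval (RatFunc.X⁻¹ : RatFunc κ) : κ[X] →ₐ[κ] RatFunc κ).toRingHom) q) := fun q =>
    isIntegral_algebraMap (R := Algebra.adjoin κ {(algebraMap (RatFunc κ) E RatFunc.X)⁻¹}) (A := E)
      (x := ⟨_, hmem q⟩)
  have hζ : IsIntegral (Algebra.adjoin κ {(algebraMap (RatFunc κ) E RatFunc.X)⁻¹})
      (inE (κ := κ) E ((RatFunc.X⁻¹) ^ w) * y) := G4_up hmem (G4_int H)
  show IsIntegral _ z
  rw [← e.sum_repr z]
  refine IsIntegral.sum _ fun i _ => ?_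
  obtain ⟨p, hp⟩ := hN i
  rw [repr_inE_mul] at hp
  have hxN : pol (X ^ N : κ[X]) = (RatFunc.X : RatFunc κ) ^ N := by
    rw [pol, map_pow, RatFunc.algebraMap_X]
  rw [hxN] at hp
  have hd : p = 0 ∨ (p.natDegree : ℤ) ≤ (N : ℤ) + (0 - ((aa w n i : ℕ) : ℤ)) := by
    rw [← dle_pol_iff, hp, ← hxN]
    refine Dle.mul ?_ (hb i)
    exact dle_pol_iff.2 (Or.inr (by rw [natDegree_X_pow]))
  have hq : ∃ q : κ[X], e.repr z i = (aeval (RatFunc.X⁻¹ : RatFunc κ) : κ[X] →ₐ[κ] RatFunc κ) q *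
      (RatFunc.X⁻¹ ^ w) ^ (i : ℕ) := by
    rcases hd with hd | hd
    · refine ⟨0, ?_⟩
      rw [hd, pol, map_zero] at hp
      rw [map_zero, zero_mul]
      rcases mul_eq_zero.1 hp.symm with h | h
      · exact absurd h (pow_ne_zero _ hX)
      · exact h
    · have hd' : p.natDegree ≤ N - w * (i : ℕ) := by
        have : ((aa w n i : ℕ) : ℤ) = ((w * (i : ℕ) : ℕ) : ℤ) := rfl
        omega
      have hle : w * (i : ℕ) ≤ N := by
        have : ((aa w n i : ℕ) : ℤ) = ((w * (i : ℕ) : ℕ) : ℤ) := rfl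
        omega
      have h1 := G4_inv (N - w * (i : ℕ)) p hd'
      refine ⟨reflect (N - w * (i : ℕ)) p, ?_⟩
      have h2 : (RatFunc.X : RatFunc κ) ^ N * e.repr z i =
          (RatFunc.X : RatFunc κ) ^ N * ((aeval (RatFunc.X⁻¹ : RatFunc κ) : κ[X] →ₐ[κ] RatFunc κ)
            (reflect (N - w * (i : ℕ)) p) * (RatFunc.X⁻¹ ^ w) ^ (i : ℕ)) := by
        rw [← hp, ← h1]
        have h3 : (RatFunc.X : RatFunc κ) ^ N = RatFunc.X ^ (N - w * (i : ℕ)) * RatFunc.X ^ (w * (i : ℕ)) := by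
          rw [← pow_add, Nat.sub_add_cancel hle]
        rw [h3, ← pow_mul, inv_pow]
        field_simp
      exact mul_left_cancel₀ (pow_ne_zero _ hX) h2
  obtain ⟨q, hq⟩ := hq
  have h5 : e.repr z i • e i = (((algebraMap (RatFunc κ) E).comp
      (aeval (RatFunc.X⁻¹ : RatFunc κ) : κ[X] →ₐ[κ] RatFunc κ).toRingHom) q) *
      (inE (κ := κ) E ((RatFunc.X⁻¹) ^ w) * y) ^ (i : ℕ) := by
    rw [H.basis i, Algebra.smul_def, hq, map_mul, mul_pow, ← map_pow, mul_assoc]
    rfl
  rw [h5]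
  exact (hC q).mul (hζ.pow _)

theorem reg_both (H : KL w n F y e dK d) (hs : Sm F 1) {z : E}
    (hz : z ∈ reg κ {algebraMap (RatFunc κ) E RatFunc.X, (algebraMap (RatFunc κ) E RatFunc.X)⁻¹}) :
    ∃ N : ℕ, InB e (inE (κ := κ) E (pol (X ^ N)) * z) := by
  obtain ⟨M, hM⟩ := G4_scale (x := algebraMap (RatFunc κ) E RatFunc.X)
    (φ := (algebraMap (RatFunc κ) E).comp (algebraMap κ[X] (RatFunc κ))) (by rw [G4_phiX, aeval_X])
    (fun b hb => by
      obtain ⟨N, q, hq⟩ := G4_both hb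
      exact ⟨N, q, by rw [G4_phiX, hq]⟩) hz
  refine ⟨M, inB_of_int H hs ?_⟩
  rw [G4_xpow]
  exact hM

end MPadcPC
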