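import Pool.Agent.Lib.MP_adc574_ag_PC.F1

/-!
# LEAF G5: Kähler differentials of the function field

`d_const`: `d` kills the constants (`KL.d_const` or `H.d_alg`, `H.dK_pol (C c)`), so it is a `κ`-derivation of `E` and induces `Ω[E⁄κ] →ₗ[E] E` with `D z ↦ d z` (`Derivation.liftKaehlerDifferential`; as in `KL.isEx`, LF/Hex.lean): `d_of_D`.
`D_eq`: `τ z = D z - d z • D X` is a derivation `E → Ω[E⁄κ]` over `κ` which kills `X`, so it kills `κ[x]` and `RatFunc κ` (quotient rule): it is `RatFunc κ`-linear. For every `E`-linear form `ℓ : Ω[E⁄κ] → E` the composite `ℓ ∘ τ` is a derivation of `E` over `RatFunc κ`, so zero by `H.sep`; linear forms separate the points of a vector space (`Module.forall_dual_apply_eq_zero_iff`), so `τ = 0`.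
(`H.sep` is stated for `Derivation (RatFunc κ) E E`.)
-/

set_option autoImplicit false

namespace MPadcPC

open Polynomial MPadcCov MPadcLF MPadcCC

universe u

variable {κ : Type u} [Field κ] {E : Type u} [Field E] [Algebra κ E] [Algebra (RatFunc κ) E]
    [IsScalarTower κ (RatFunc κ) E]
    {w n : ℕ} {F : κ[X][X]} {y : E} {e : Module.Basis (Fin n) (RatFunc κ) E}
    {dK : RatFunc κ → RatFunc κ} {d : Derivation ℤ E E}

private theorem G5_alg (c : κ) : algebraMap κ E c = algebraMap (RatFunc κ) E (pol (C c)) := by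
  rw [IsScalarTower.algebraMap_apply κ (RatFunc κ) E, pol, RatFunc.algebraMap_C, RatFunc.algebraMap_eq_C]

private theorem G5_der (H : KL w n F y e dK d) : ∃ Δ : Derivation κ E E, ∀ z, Δ z = d z := by
  have hC : ∀ c : κ, dK (pol (C c)) = 0 := by
    intro c
    rw [H.dK_pol, derivative_C]
    exact map_zero _
  refine ⟨Derivation.mk'
    { toFun := fun z => d z
      map_add' := fun x y => map_add d x y
      map_smul' := by
        intro c x
        rw [Algebra.smul_def, Derivation.leibniz, G5_alg c, H.d_alg, hC, map_zero, smul_zero, add_zero,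
          RingHom.id_apply, Algebra.smul_def c, G5_alg c, smul_eq_mul] }
    (fun x y => d.leibniz x y), fun z => rfl⟩

omit [Algebra κ E] [IsScalarTower κ (RatFunc κ) E] in
private theorem G5_X (H : KL w n F y e dK d) : d (algebraMap (RatFunc κ) E RatFunc.X) = 1 := by
  rw [H.d_alg, ← RatFunc.algebraMap_X]
  have h4 : dK (pol (X : κ[X])) = 1 := by
    rw [H.dK_pol, derivative_X, pol, map_one]
  rw [h4, map_one]

private theorem G5_pol (τ : Derivation κ E E) (h : τ (algebraMap (RatFunc κ) E RatFunc.X) = 0) (p : κ[X]) :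
    τ (algebraMap (RatFunc κ) E (pol p)) = 0 := by
  induction p using Polynomial.induction_on' with
  | add p q hp hq =>
    rw [pol, map_add, map_add, map_add, hp, hq, add_zero]
  | monomial n c =>
    have h1 : algebraMap (RatFunc κ) E (pol (monomial n c)) = c • (algebraMap (RatFunc κ) E RatFunc.X) ^ n := by
      rw [← C_mul_X_pow_eq_monomial, pol, map_mul, map_mul, map_pow, map_pow, RatFunc.algebraMap_X, Algebra.smul_def,
        G5_alg c]
    rw [h1, τ.map_smul, Derivation.leibniz_pow, h, smul_zero, smul_zero, smul_zero]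

private theorem G5_rat (τ : Derivation κ E E) (h : τ (algebraMap (RatFunc κ) E RatFunc.X) = 0) (r : RatFunc κ) :
    τ (algebraMap (RatFunc κ) E r) = 0 := by
  induction r using RatFunc.induction_on with
  | _ p q hq =>
    have h1 : algebraMap (RatFunc κ) E (algebraMap κ[X] (RatFunc κ) q) ≠ 0 := by
      rw [Ne, map_eq_zero]
      exact RatFunc.algebraMap_ne_zero hq
    have h2 : algebraMap (RatFunc κ) E (algebraMap κ[X] (RatFunc κ) q) *
        algebraMap (RatFunc κ) E (algebraMap κ[X] (RatFunc κ) p / algebraMap κ[X] (RatFunc κ) q) =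
        algebraMap (RatFunc κ) E (algebraMap κ[X] (RatFunc κ) p) := by
      rw [map_div₀, mul_div_cancel₀ _ h1]
    have h3 := congrArg τ h2
    have h4 : τ (algebraMap (RatFunc κ) E (algebraMap κ[X] (RatFunc κ) q)) = 0 := G5_pol τ h q
    have h5 : τ (algebraMap (RatFunc κ) E (algebraMap κ[X] (RatFunc κ) p)) = 0 := G5_pol τ h p
    rw [Derivation.leibniz, h4, h5, smul_zero, add_zero, smul_eq_mul] at h3
    exact (mul_eq_zero.1 h3).resolve_left h1

private theorem G5_zero (H : KL w n F y e dK d) (τ : Derivation κ E E)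
    (h : τ (algebraMap (RatFunc κ) E RatFunc.X) = 0) (z : E) : τ z = 0 := by
  have h1 := H.sep (Derivation.mk'
    { toFun := fun z => τ z
      map_add' := fun x y => map_add τ x y
      map_smul' := by
        intro r x
        rw [Algebra.smul_def, Derivation.leibniz, G5_rat τ h, smul_zero, add_zero, RingHom.id_apply,
          Algebra.smul_def r, smul_eq_mul] }
    (fun x y => τ.leibniz x y))
  exact congrArg (fun θ : Derivation (RatFunc κ) E E => θ z) h1

theorem D_eq (H : KL w n F y e dK d) (z : E) : KaehlerDifferential.D κ E z =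
    d z • KaehlerDifferential.D κ E (algebraMap (RatFunc κ) E RatFunc.X) := by
  obtain ⟨Δ, hΔ⟩ := G5_der H
  rw [← sub_eq_zero]
  refine (Module.forall_dual_apply_eq_zero_iff E _).1 fun ℓ => ?_
  have h1 := G5_zero H (ℓ.compDer (KaehlerDifferential.D κ E) -
    (ℓ (KaehlerDifferential.D κ E (algebraMap (RatFunc κ) E RatFunc.X))) • Δ) (by
      rw [Derivation.sub_apply, Derivation.smul_apply, hΔ, G5_X H, smul_eq_mul, mul_one]
      exact sub_self _) z
  rw [Derivation.sub_apply, Derivation.smul_apply, hΔ, smul_eq_mul] at h1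
  rw [map_sub, map_smul, smul_eq_mul, mul_comm]
  exact h1

theorem d_of_D (H : KL w n F y e dK d) {z z' : E}
    (h : KaehlerDifferential.D κ E z = KaehlerDifferential.D κ E z') : d z = d z' := by
  obtain ⟨Δ, hΔ⟩ := G5_der H
  have h1 := congrArg Δ.liftKaehlerDifferential h
  rw [Derivation.liftKaehlerDifferential_comp_D, Derivation.liftKaehlerDifferential_comp_D, hΔ, hΔ] at h1
  exact h1

end MPadcPC
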