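import Pool.Agent.Lib.MP_adc574_ag_PC.G4
import Pool.Agent.Lib.MP_adc574_ag_PC.G5

/-!
# LEAF G6: `H ^ 0 (X, BΩ) = 0` and `H ^ 1 (X, BΩ) = 0`

`tp_inl`: the matrix `A c c' = tp p F c (η (Sum.inl c'))` describes the Frobenius: `f_c ^ p = ev y g + ∑ c', A c c' f_c' + β`, `BDeg 0 β` (`KL.split_E` with the coefficients `c₁ c'`; apply `res (Tr ( · * mE F y η (Sum.inl c')))`: `IsRes.tr_pol` for `ev y g`, `IsRes.tr_low` for `β` (`mE .. (Sum.inl c')` has `BDeg (-2)`: `KL.low`, `bE .. (Sum.inl _) = 0`), `res (Tr (f_c'' * mE .. (Sum.inl c'))) = if c'' = c' then 1 else 0`: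
`KL.Jp_basis` for `Sum.inr c''`, `Sum.inl c'` (`bE .. (Sum.inl _) = 0`, so `Jp = res (Tr (b * m'))`, `J0 (inr c'') (inl c') = 1` iff equal); the left side is `tp p F c (η (Sum.inl c'))` by `tp_res`).
`H0_plane`: `φ = d f = d g` (`d_of_D`). `InB e f` (`reg_iff`), `f = ev y h₀`, `φ * F_Y = ev y (br F h₀)` (`KL.d_ev`); `BDeg (-2) φ` (`bdeg_of_reg` for `g`, `KL.bdeg_two`). `KL.reg`: `br F h₀ = fo F c₁ + g' * F`, so `φ = ev y (fo F c₁) / F_Y = lc (Sum.elim c₁ 0) (mE F y η)` (`KL.lc_inl`). By `tp_d`, `tp_lc` (`φ = d f`): `∑ c', A c c' * c₁ c' = 0` for all `c`: `c₁ = 0` by `hdet`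
(`Matrix.eq_zero_of_mulVec_eq_zero`). So `φ = 0` and `D f = φ • D X = 0` (`D_eq`).
`H1_plane`: `KL.split_E`: `f = ev y g + ∑ lam c f_c + β`. Let `ν` be the row with `∑ c, ν c * A c c' = lam c'` (`hdet`), `μ c ^ p = ν c` (`hp`). `(∑ c, μ c f_c) ^ p = ∑ ν c f_c ^ p` (characteristic `p`, `add_pow_char`/`sum_pow_char`) `= ∑ ν c (ev y g_c + β_c) + ∑ lam c' f_c'` (`tp_inl`). So `f = (∑ μ c f_c) ^ p + g' + h'` with `g' = ev y (g - ∑ ν c g_c) ∈ reg κ {X}` and
`h' = β - ∑ ν c β_c`, `BDeg 0 h'`. `X ^ N * h' ∈ B` for large `N`: `h' = f - (..) ^ p - g'`, `reg_both` for `f`, `KL.fE_mul`: `X ^ (w n) f_c = ev y (gg c)`. So `h' ∈ reg κ {X⁻¹}` (`reg_inv_of`). `D ((..) ^ p) = 0` (`D_eq`, `d_fp`).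
-/

set_option autoImplicit false

namespace MPadcPC

open Polynomial MPadcCov MPadcLF MPadcCC

universe u

variable {κ : Type u} [Field κ] {E : Type u} [Field E] [Algebra κ E] [Algebra (RatFunc κ) E]
    [IsScalarTower κ (RatFunc κ) E]
    {w n : ℕ} {F : κ[X][X]} {y : E} {e : Module.Basis (Fin n) (RatFunc κ) E}
    {dK : RatFunc κ → RatFunc κ} {d : Derivation ℤ E E} {η : IX w n → κ[X][X]}

theorem tp_inl (p : ℕ) [Fact p.Prime] [CharP κ p] (H : KL w n F y e dK d) (hη : HB w n F η)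
    (c : Gx w n) : ∃ (g : κ[X][X]) (β : E), BDeg e (aa w n) 0 β ∧
      fE (κ := κ) y c ^ p = ev y g + (∑ c', inE (κ := κ) E (pol (C (tp p F c (η (Sum.inl c'))))) *
        fE (κ := κ) y c') + β := by
  obtain ⟨g, c₁, β, hβ, hs⟩ := H.split_E (fE (κ := κ) y c ^ p)
  refine ⟨g, β, hβ, ?_⟩
  have hp : 0 < p := (Fact.out : p.Prime).pos
  obtain ⟨res, hr⟩ := exists_res κ
  have key : ∀ a : Gx w n, c₁ a = tp p F c (η (Sum.inl a)) := by
    intro a'
    have hm : mE F y η (Sum.inl a') * ev y (py F) = ev y (η (Sum.inl a')) := div_mul_cancel₀ _ H.Fy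
    have h1 : res (Tr κ E (ev y g * mE F y η (Sum.inl a'))) = 0 := by
      rw [mul_comm]
      exact hr.tr_pol H (by rw [hm]; exact H.inB_ev _) (H.inB_ev g)
    have h2 : ∀ a : Gx w n, res (Tr κ E (fE (κ := κ) y a * mE F y η (Sum.inl a'))) =
        if a = a' then 1 else 0 := by
      intro a
      have h3 := H.Jp_basis hr hη (Sum.inr a) (Sum.inl a')
      unfold Jp J0 bE at h3
      rw [Sum.elim_inr, Sum.elim_inl, Matrix.fromBlocks_apply₂₁, zero_mul, zero_mul, add_zero, sub_zero,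
        Matrix.one_apply] at h3
      exact h3
    have h3 : res (Tr κ E (β * mE F y η (Sum.inl a'))) = 0 := by
      have h4 := H.low hη (Sum.inl a')
      unfold bE at h4
      rw [Sum.elim_inl, map_zero, sub_zero] at h4
      have h5 := H.bdeg_mul hβ h4
      rw [zero_add] at h5
      exact hr.tr_low H h5
    have h4 := tp_res H hr p hp c (η (Sum.inl a'))
    rw [← h4]
    change c₁ a' = res (Tr κ E (fE (κ := κ) y c ^ p * mE F y η (Sum.inl a')))
    rw [hs, add_mul, add_mul, Finset.sum_mul, map_add, map_add, hr.add, hr.add, h1, h3, zero_add, add_zero,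
      map_sum, hr.sum, Finset.sum_eq_single a']
    · rw [mul_assoc, tr_inE_mul, hr.smul, h2, if_pos rfl, mul_one]
    · intro b _ hb
      rw [mul_assoc, tr_inE_mul, hr.smul, h2, if_neg hb, mul_zero]
    · exact fun h => absurd (Finset.mem_univ _) h
  rw [hs]
  refine congrArg (fun t => ev y g + t + β) (Finset.sum_congr rfl fun a _ => ?_)
  rw [key]

theorem H0_plane (p : ℕ) [Fact p.Prime] [CharP κ p] (H : KL w n F y e dK d) (hη : HB w n F η)
    (hs : Sm F 1) (hdet : (Matrix.of fun c c' : Gx w n => tp p F c (η (Sum.inl c'))).det ≠ 0) (f g : E)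
    (hf : f ∈ reg κ {algebraMap (RatFunc κ) E RatFunc.X})
    (hg : g ∈ reg κ {(algebraMap (RatFunc κ) E RatFunc.X)⁻¹})
    (h : KaehlerDifferential.D κ E f = KaehlerDifferential.D κ E g) : KaehlerDifferential.D κ E f = 0 := by
  have hp : 0 < p := (Fact.out : p.Prime).pos
  obtain ⟨res, hr⟩ := exists_res κ
  have hd : d f = d g := d_of_D H h
  obtain ⟨h₀, -, hh₀⟩ := H.exists_ev ((reg_iff H hs f).1 hf)
  have h1 : d f * ev y (py F) = ev y (br F h₀) := by
    rw [← hh₀]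
    exact H.d_ev h₀
  have h2 : d f = ev y (br F h₀) / ev y (py F) := by
    rw [← h1, mul_div_cancel_right₀ _ H.Fy]
  have h3 : BDeg e (aa w n) (-2) (ev y (br F h₀) / ev y (py F)) := by
    rw [← h2, hd]
    exact H.bdeg_two (bdeg_of_reg H hg)
  obtain ⟨c₁, g', h4⟩ := H.reg _ h3
  have h5 : d f = lc (Sum.elim c₁ 0) (mE F y η) := by
    rw [H.lc_inl hη, h2, h4, map_add, map_mul, H.root, mul_zero, add_zero]
  have h6 : (Matrix.of fun c c' : Gx w n => tp p F c (η (Sum.inl c'))).mulVec c₁ = 0 := by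
    funext c
    have h7 := tp_lc (η := η) H hr p hp c (Sum.elim c₁ 0)
    rw [← h5, tp_d H hr p, Fintype.sum_sum_type] at h7
    have h8 : ∑ a : Gx w n, tp p F c (η (Sum.inr a)) * (Sum.elim c₁ 0 : IX w n → κ) (Sum.inr a) = 0 :=
      Finset.sum_eq_zero fun a _ => mul_zero _
    rw [h8, add_zero] at h7
    exact h7.symm
  have h7 : c₁ = 0 := Matrix.eq_zero_of_mulVec_eq_zero hdet h6
  have h8 : d f = 0 := by
    rw [h5, h7]
    unfold lc
    refine Finset.sum_eq_zero fun a _ => ?_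
    have h9 : (Sum.elim 0 0 : IX w n → κ) a = 0 := by
      rcases a with a | a <;> rfl
    rw [h9, C_0, pol, map_zero, inE, map_zero, zero_mul]
  rw [D_eq H, h8, zero_smul]

theorem H1_plane (p : ℕ) [Fact p.Prime] [CharP κ p] (hp : ∀ a : κ, ∃ b : κ, b ^ p = a)
    (H : KL w n F y e dK d) (hη : HB w n F η)
    (hs : Sm F 1) (hdet : (Matrix.of fun c c' : Gx w n => tp p F c (η (Sum.inl c'))).det ≠ 0) (f : E)
    (hf : f ∈ reg κ {algebraMap (RatFunc κ) E RatFunc.X, (algebraMap (RatFunc κ) E RatFunc.X)⁻¹}) :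
    ∃ g ∈ reg κ {algebraMap (RatFunc κ) E RatFunc.X}, ∃ h ∈ reg κ {(algebraMap (RatFunc κ) E RatFunc.X)⁻¹},
      KaehlerDifferential.D κ E f = KaehlerDifferential.D κ E g + KaehlerDifferential.D κ E h := by
  classical
  obtain ⟨M, hM⟩ : ∃ M : Matrix (Gx w n) (Gx w n) κ, M = Matrix.of fun c c' : Gx w n => tp p F c (η (Sum.inl c')) :=
    ⟨_, rfl⟩
  rw [← hM] at hdet
  obtain ⟨k, hk⟩ : ∃ k : κ →+* E, ∀ a, k a = inE (κ := κ) E (pol (C a)) :=
    ⟨(algebraMap (RatFunc κ) E).comp ((algebraMap κ[X] (RatFunc κ)).comp C), fun _ => rfl⟩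
  obtain ⟨g, lam, β, hβ, hfs⟩ := H.split_E f
  obtain ⟨ν, hν⟩ : ∃ ν : Gx w n → κ, ∀ c', ∑ c, ν c * M c c' = lam c' := by
    refine ⟨Matrix.vecMul lam M⁻¹, fun c' => ?_⟩
    have h1 : Matrix.vecMul (Matrix.vecMul lam M⁻¹) M = lam := by
      rw [Matrix.vecMul_vecMul, Matrix.nonsing_inv_mul _ (isUnit_iff_ne_zero.2 hdet), Matrix.vecMul_one]
    exact congrFun h1 c'
  choose μ hμ using fun c => hp (ν c)
  choose gc βc hβc hgc using fun c : Gx w n => tp_inl p H hη c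
  obtain ⟨P, hP⟩ : ∃ P : E, P = ∑ c, k (μ c) * fE (κ := κ) y c := ⟨_, rfl⟩
  have hchar : CharP E p := charP_of_injective_ringHom k.injective p
  have hPp : P ^ p = ev y (∑ c, cc (ν c) * gc c) + (∑ c', k (lam c') * fE (κ := κ) y c') + ∑ c, k (ν c) * βc c := by
    have h1 : P ^ p = ∑ c, k (ν c) * fE (κ := κ) y c ^ p := by
      rw [hP, sum_pow_char]
      refine Finset.sum_congr rfl fun c _ => ?_
      rw [mul_pow, ← map_pow, hμ]
    have h2 : ev y (∑ c, cc (ν c) * gc c) = ∑ c, k (ν c) * ev y (gc c) := by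
      rw [map_sum]
      refine Finset.sum_congr rfl fun c _ => ?_
      rw [map_mul, cc, ev_C, hk]
    have h3 : ∑ c', k (lam c') * fE (κ := κ) y c' =
        ∑ c, k (ν c) * ∑ c', inE (κ := κ) E (pol (C (tp p F c (η (Sum.inl c'))))) * fE (κ := κ) y c' := by
      have h4 : ∀ c', k (lam c') * fE (κ := κ) y c' =
          ∑ c, k (ν c) * (inE (κ := κ) E (pol (C (tp p F c (η (Sum.inl c'))))) * fE (κ := κ) y c') := by
        intro c'
        rw [← hν c', map_sum, Finset.sum_mul]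
        refine Finset.sum_congr rfl fun c _ => ?_
        rw [map_mul, ← hk, hM, Matrix.of_apply, mul_assoc]
      rw [Finset.sum_congr rfl fun c' _ => h4 c', Finset.sum_comm]
      refine Finset.sum_congr rfl fun c _ => ?_
      rw [Finset.mul_sum]
    rw [h1, h2, h3, ← Finset.sum_add_distrib, ← Finset.sum_add_distrib]
    refine Finset.sum_congr rfl fun c _ => ?_
    rw [hgc c, mul_add, mul_add]
  obtain ⟨g', hg'⟩ : ∃ g' : E, g' = ev y (g - ∑ c, cc (ν c) * gc c) := ⟨_, rfl⟩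
  obtain ⟨h', hh'⟩ : ∃ h' : E, h' = β - ∑ c, k (ν c) * βc c := ⟨_, rfl⟩
  have hsum : f = P ^ p + g' + h' := by
    rw [hPp, hg', hh', hfs, map_sub, Finset.sum_congr rfl fun a _ => by rw [← hk]]
    ring
  have hg'B : InB e g' := by
    rw [hg']
    exact H.inB_ev _
  have hh'B : BDeg e (aa w n) 0 h' := by
    rw [hh']
    refine BDeg.sub hβ (BDeg.sum _ _ fun c _ => ?_)
    have h6 : Dle (pol (C (ν c))) 0 := by
      rw [dle_pol_iff, natDegree_C]
      right
      exact le_refl _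
    have h7 := BDeg.smul h6 (hβc c)
    rw [add_zero] at h7
    rw [hk]
    exact h7
  obtain ⟨N, hN⟩ := reg_both H hs hf
  have hPB : InB e (inE (κ := κ) E (pol (X ^ (w * n * p))) * P ^ p) := by
    have h1 : inE (κ := κ) E (pol (X ^ (w * n))) * P = ev y (∑ c, cc (μ c) * gg c) := by
      rw [hP, Finset.mul_sum, map_sum]
      refine Finset.sum_congr rfl fun c _ => ?_
      rw [map_mul, cc, ev_C, ← H.fE_mul, hk]
      ring
    have h2 : inE (κ := κ) E (pol (X ^ (w * n * p))) * P ^ p = (ev y (∑ c, cc (μ c) * gg c)) ^ p := by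
      rw [← h1, mul_pow]
      congr 1
      rw [pow_mul, pol, pol, map_pow (algebraMap κ[X] (RatFunc κ)) (X ^ (w * n)) p, inE, inE, map_pow]
    rw [h2, ← map_pow]
    exact H.inB_ev _
  have hX : ∀ a b : ℕ, inE (κ := κ) E (pol (X ^ (a + b))) =
      inE (κ := κ) E (pol (X ^ a)) * inE (κ := κ) E (pol (X ^ b)) := by
    intro a b
    rw [inE, inE, inE, pow_add, pol, pol, pol, map_mul, map_mul]
  have hh'r : h' ∈ reg κ {(algebraMap (RatFunc κ) E RatFunc.X)⁻¹} := by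
    refine reg_inv_of H (N + w * n * p) ?_ hh'B
    have h1 : inE (κ := κ) E (pol (X ^ (N + w * n * p))) * h' =
        inE (κ := κ) E (pol (X ^ (w * n * p))) * (inE (κ := κ) E (pol (X ^ N)) * f) -
        inE (κ := κ) E (pol (X ^ N)) * (inE (κ := κ) E (pol (X ^ (w * n * p))) * P ^ p) -
        inE (κ := κ) E (pol (X ^ (N + w * n * p))) * g' := by
      rw [hX, hsum]
      ring
    rw [h1]
    exact InB.sub (InB.sub (InB.pol_mul hN _) (InB.pol_mul hPB _)) (InB.pol_mul hg'B _)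
  refine ⟨g', (reg_iff H hs g').2 hg'B, h', hh'r, ?_⟩
  rw [hsum, map_add, map_add, D_eq H (P ^ p), d_fp (κ := κ) p d P, zero_smul, zero_add]

end MPadcPC
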