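import Pool.Agent.Lib.MP_adc574_ag_PC.G1
import Pool.Agent.Lib.MP_adc574_ag_PC.G6

/-!
# G7: the criterion
-/

set_option autoImplicit false

namespace MPadcPC

open Polynomial MPadcCov MPadcLF MPadcCC

universe u

theorem plane_ordinary {κ : Type u} [Field κ] [Finite κ] (p : ℕ) [Fact p.Prime] [CharP κ p] {w n : ℕ}
    (hn : 0 < n) (hw : 0 < w) {F : κ[X][X]} (hF : Wt w n F)
    (hirr : Irreducible (F.map (algebraMap κ[X] (RatFunc κ)))) (hs : Sm F 1) (ht : Tp w n F 1)
    {η : IX w n → κ[X][X]} (hη : HB w n F η)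
    (hdet : (Matrix.of fun c c' : Gx w n => tp p F c (η (Sum.inl c'))).det ≠ 0) : PlaneIsOrdinary F := by
  have hE : ∀ a : κ, ∃ b : κ, b ^ p = a := by
    intro a
    have hinj : Function.Injective (frobenius κ p) := RingHom.injective _
    have hsurj : Function.Surjective (frobenius κ p) := Finite.surjective_of_injective hinj
    obtain ⟨b, hb⟩ := hsurj a
    exact ⟨b, by simpa [frobenius_def] using hb⟩
  refine ⟨exists_plane hn hw hF hirr ht, ?_⟩
  intro L _ _ x y h
  obtain ⟨iA, iT, e, dK, d, hx, H⟩ := exists_KL_of hn hw hF hirr ht h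
  rw [← hx]
  exact ⟨fun f hf g hg hfg => H0_plane p H hη hs hdet f g hf hg hfg,
    fun f hf => H1_plane p hE H hη hs hdet f hf⟩

end MPadcPC
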