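import Pool.Agent.Lib.MP_adc574_ag_PC.KD

/-!
# K1: the polar classes of a smooth affine curve exist

PROOF. Let `1 = α F + β F_x + γ F_Y` (`hS`, with the factors in any order). Let `N` be the `K`-submodule of the `h = br F B + e * F`
(closed under sums: `br F` is additive, and `K`-multiples: `k • h = cc k * h`, `br F (cc k * B) = cc k * br F B`), `V = K[X][X] ⧸ N`.
Define recursively `q 0 P = P`, `q (a + 1) P = - q a (R (a + 1) P)` with `R a P = a * (α * P) + px (β * P) + py (γ * P)`
(`K`-linear maps), `σ a P` = class of `q a P`. `surj`, `ker` are clear.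
`br F h = px h * py F - py h * px F`; `px`, `py` are derivations with `px (py h) = py (px h)`.
By induction on `a` prove at once (for `a ≥ 1` in (i), (ii), (iii); (iv) for all `a`):
(i) `σ a (F P) = - a σ (a - 1) P`; (ii) `σ a (F_x B) = - σ (a - 1) (B_x)`; (iii) `σ a (F_Y B) = - σ (a - 1) (B_Y)`;
(iv) `σ a (br F B) = 0` (`a = 0`: definition; `a ≥ 1`: (ii), (iii) and `B_xY = B_Yx`: `σ a (F_Y B_x - F_x B_Y) = - σ (a - 1) (B_xY - B_Yx) = 0`).
For (i): `R a (F P) = a α F P + F ((β P)_x + (γ P)_Y) + (β F_x + γ F_Y) P = P + F ((a - 1) α P + (β P)_x + (γ P)_Y)`; for `a = 1` the second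
term has class 0, for `a ≥ 2` its class is `- (a - 1) σ (a - 2) (R (a - 1) P) = (a - 1) σ (a - 1) P` by (i) for `a - 1`.
For (ii): since `β F_x = 1 - α F - γ F_Y`: `R a (F_x B) = B_x + (a - 1) α F_x B - F (α B)_x - br F (γ B)` [check:
`(β F_x B)_x = B_x - (α F B)_x - (γ F_Y B)_x = B_x - F (α B)_x - F_x α B - F_Y (γ B)_x - F_xY γ B`,
`(γ F_x B)_Y = F_x (γ B)_Y + F_xY γ B`]; the class of `br F (γ B)` is 0 by (iv), and the two middle terms cancel by (ii) and (i) for
`a - 1` (for `a = 1` they are 0).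
(iii) is the same with the roles of `x`, `Y` exchanged: `R a (F_Y B) = B_Y + (a - 1) α F_Y B - F (α B)_Y + br F (β B)`.
-/

set_option autoImplicit false

namespace MPadcPC

open Polynomial MPadcLF

universe u

variable {K : Type u} [Field K]

private theorem K1_smul (k : K) (P : K[X][X]) : k • P = cc k * P := by
  show k • P = C (C k) * P
  rw [Polynomial.C_mul']
  exact (algebraMap_smul K[X] k P).symm

private theorem K1_px_smul (k : K) (P : K[X][X]) : px (k • P) = k • px P := by
  rw [K1_smul, K1_smul, isDer_px.mul, px_C, derivative_C, C_0, mul_zero, add_zero]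

private theorem K1_py_smul (k : K) (P : K[X][X]) : py (k • P) = k • py P := by
  rw [K1_smul, K1_smul, isDer_py.mul, py_C, mul_zero, add_zero]

/-- The reduction of the order of the pole. -/
private noncomputable def K1_R (u v z : K[X][X]) (a : K) : K[X][X] →ₗ[K] K[X][X] where
  toFun P := a • (u * P) + px (v * P) + py (z * P)
  map_add' P Q := by
    rw [mul_add, mul_add, mul_add, smul_add, isDer_px.add, isDer_py.add]
    ring
  map_smul' k P := by
    rw [RingHom.id_apply, mul_smul_comm, mul_smul_comm, mul_smul_comm, K1_px_smul, K1_py_smul, smul_comm a k, smul_add, smul_add]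

private theorem K1_R_apply (u v z : K[X][X]) (a : K) (P : K[X][X]) :
    K1_R u v z a P = a • (u * P) + px (v * P) + py (z * P) := rfl

/-- The exact forms. -/
private def K1_N (F : K[X][X]) : Submodule K K[X][X] where
  carrier := {h | ∃ B e, h = br F B + e * F}
  add_mem' := by
    rintro _ _ ⟨B, e, rfl⟩ ⟨B', e', rfl⟩
    refine ⟨B + B', e + e', ?_⟩
    rw [(isDer_br F).add]
    ring
  zero_mem' := ⟨0, 0, by rw [(isDer_br F).zero]; ring⟩
  smul_mem' := by
    rintro k _ ⟨B, e, rfl⟩
    refine ⟨cc k * B, cc k * e, ?_⟩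
    rw [K1_smul, br_cc_mul]
    ring

private theorem K1_mem {F : K[X][X]} (h : K[X][X]) : h ∈ K1_N F ↔ ∃ B e, h = br F B + e * F := Iff.rfl

/-- The classes. -/
private noncomputable def K1_s (F u v z : K[X][X]) : ℕ → (K[X][X] →ₗ[K] (K[X][X] ⧸ K1_N F))
  | 0 => (K1_N F).mkQ
  | a + 1 => -(K1_s F u v z a ∘ₗ K1_R u v z ((a : K) + 1))

private theorem K1_s_succ (F u v z : K[X][X]) (a : ℕ) (P : K[X][X]) :
    K1_s F u v z (a + 1) P = -(K1_s F u v z a (K1_R u v z ((a : K) + 1) P)) := rfl

section step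

variable {F u v z : K[X][X]} {V : Type u} [AddCommGroup V] [Module K V] {a : K} {s t : K[X][X] →ₗ[K] V}

private theorem K1_i (hS : u * F + v * px F + z * py F = 1)
    (h1 : ∀ P, s (F * P) = -(a • t P)) (h5 : ∀ P, a • t (K1_R u v z a P) = -(a • s P)) (P : K[X][X]) :
    s (K1_R u v z (a + 1) (F * P)) = (a + 1) • s P := by
  have e1 : K1_R u v z (a + 1) (F * P) = P + F * K1_R u v z a P := by
    rw [K1_R_apply, K1_R_apply, add_smul, one_smul]
    have e2 : px (v * (F * P)) = F * px (v * P) + v * P * px F := by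
      rw [← mul_assoc, mul_comm v F, mul_assoc, isDer_px.mul]
    have e3 : py (z * (F * P)) = F * py (z * P) + z * P * py F := by
      rw [← mul_assoc, mul_comm z F, mul_assoc, isDer_py.mul]
    rw [e2, e3, K1_smul, K1_smul]
    linear_combination P * hS
  rw [e1, map_add, h1, h5, neg_neg, add_smul, one_smul, add_comm]

private theorem K1_ii (hS : u * F + v * px F + z * py F = 1)
    (h1 : ∀ P, s (F * P) = -(a • t P)) (h2 : ∀ B, a • s (px F * B) = -(a • t (px B)))
    (h4 : ∀ B, s (br F B) = 0) (B : K[X][X]) :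
    s (K1_R u v z (a + 1) (px F * B)) = s (px B) := by
  have e1 : K1_R u v z (a + 1) (px F * B) = px B + a • (px F * (u * B)) - F * px (u * B) - br F (z * B) := by
    rw [K1_R_apply, add_smul, one_smul]
    have e2 : px (v * (px F * B)) = px B - (F * px (u * B) + u * B * px F) - (py F * px (z * B) + z * B * px (py F)) := by
      have e3 : v * (px F * B) = B - F * (u * B) - py F * (z * B) := by linear_combination B * hS
      rw [e3, isDer_px.sub, isDer_px.sub, isDer_px.mul F (u * B), isDer_px.mul (py F) (z * B)]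
    have e3 : py (z * (px F * B)) = px F * py (z * B) + z * B * px (py F) := by
      rw [← mul_assoc, mul_comm z (px F), mul_assoc, isDer_py.mul, py_px]
    rw [e2, e3, K1_smul, K1_smul]
    unfold br
    ring
  rw [e1, map_sub, map_sub, map_add, map_smul, h1, h2, h4]
  abel

private theorem K1_iii (hS : u * F + v * px F + z * py F = 1)
    (h1 : ∀ P, s (F * P) = -(a • t P)) (h3 : ∀ B, a • s (py F * B) = -(a • t (py B)))
    (h4 : ∀ B, s (br F B) = 0) (B : K[X][X]) :
    s (K1_R u v z (a + 1) (py F * B)) = s (py B) := by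
  have e1 : K1_R u v z (a + 1) (py F * B) = py B + a • (py F * (u * B)) - F * py (u * B) + br F (v * B) := by
    rw [K1_R_apply, add_smul, one_smul]
    have e2 : py (z * (py F * B)) = py B - (F * py (u * B) + u * B * py F) - (px F * py (v * B) + v * B * px (py F)) := by
      have e3 : z * (py F * B) = B - F * (u * B) - px F * (v * B) := by linear_combination B * hS
      rw [e3, isDer_py.sub, isDer_py.sub, isDer_py.mul F (u * B), isDer_py.mul (px F) (v * B), py_px]
    have e3 : px (v * (py F * B)) = py F * px (v * B) + v * B * px (py F) := by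
      rw [← mul_assoc, mul_comm v (py F), mul_assoc, isDer_px.mul]
    rw [e2, e3, K1_smul, K1_smul]
    unfold br
    ring
  rw [e1, map_add, map_sub, map_add, map_smul, h1, h3, h4]
  abel

end step

private theorem K1_all {F u v z : K[X][X]} (hS : u * F + v * px F + z * py F = 1) (a : ℕ) :
    (∀ P, K1_s F u v z (a + 1) (F * P) = -(((a : K) + 1) • K1_s F u v z a P)) ∧
    (∀ B, K1_s F u v z (a + 1) (px F * B) = -K1_s F u v z a (px B)) ∧
    (∀ B, K1_s F u v z (a + 1) (py F * B) = -K1_s F u v z a (py B)) ∧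
    (∀ B, K1_s F u v z (a + 1) (br F B) = 0) := by
  have key : ∀ (n : ℕ), (∀ P, K1_s F u v z (n + 1) (F * P) = -(((n : K) + 1) • K1_s F u v z n P)) →
      (∀ B, K1_s F u v z (n + 1) (px F * B) = -K1_s F u v z n (px B)) →
      (∀ B, K1_s F u v z (n + 1) (py F * B) = -K1_s F u v z n (py B)) →
      (∀ B, K1_s F u v z (n + 1) (br F B) = 0) := by
    intro n _ h2 h3 B
    have e1 : br F B = py F * px B - px F * py B := by
      unfold br
      ring
    rw [e1, map_sub, h2, h3, py_px]
    abel
  induction a with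
  | zero =>
    have h1 : ∀ P, K1_s F u v z 0 (F * P) = -((0 : K) • (0 : K[X][X] →ₗ[K] (K[X][X] ⧸ K1_N F)) P) := by
      intro P
      rw [zero_smul, neg_zero]
      refine (Submodule.Quotient.mk_eq_zero _).2 ((K1_mem _).2 ⟨0, P, ?_⟩)
      rw [(isDer_br F).zero]
      ring
    have h4 : ∀ B, K1_s F u v z 0 (br F B) = 0 := by
      intro B
      refine (Submodule.Quotient.mk_eq_zero _).2 ((K1_mem _).2 ⟨B, 0, ?_⟩)
      ring
    have c1 : ∀ P, K1_s F u v z (0 + 1) (F * P) = -((((0 : ℕ) : K) + 1) • K1_s F u v z 0 P) := by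
      intro P
      rw [K1_s_succ, Nat.cast_zero]
      exact congrArg _ (K1_i hS h1 (fun P => by rw [zero_smul, zero_smul, neg_zero]) P)
    have c2 : ∀ B, K1_s F u v z (0 + 1) (px F * B) = -K1_s F u v z 0 (px B) := by
      intro B
      rw [K1_s_succ, Nat.cast_zero]
      exact congrArg _ (K1_ii hS h1 (fun P => by rw [zero_smul, zero_smul, neg_zero]) h4 B)
    have c3 : ∀ B, K1_s F u v z (0 + 1) (py F * B) = -K1_s F u v z 0 (py B) := by
      intro B
      rw [K1_s_succ, Nat.cast_zero]
      exact congrArg _ (K1_iii hS h1 (fun P => by rw [zero_smul, zero_smul, neg_zero]) h4 B)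
    exact ⟨c1, c2, c3, key 0 c1 c2 c3⟩
  | succ n ih =>
    obtain ⟨i1, i2, i3, i4⟩ := ih
    have g5 : ∀ P, ((n : K) + 1) • K1_s F u v z n (K1_R u v z ((n : K) + 1) P) = -(((n : K) + 1) • K1_s F u v z (n + 1) P) := by
      intro P
      rw [K1_s_succ, smul_neg, neg_neg]
    have g2 : ∀ B, ((n : K) + 1) • K1_s F u v z (n + 1) (px F * B) = -(((n : K) + 1) • K1_s F u v z n (px B)) := by
      intro B
      rw [i2, smul_neg]
    have g3 : ∀ B, ((n : K) + 1) • K1_s F u v z (n + 1) (py F * B) = -(((n : K) + 1) • K1_s F u v z n (py B)) := by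
      intro B
      rw [i3, smul_neg]
    have c1 : ∀ P, K1_s F u v z (n + 1 + 1) (F * P) = -((((n + 1 : ℕ) : K) + 1) • K1_s F u v z (n + 1) P) := by
      intro P
      rw [K1_s_succ, Nat.cast_succ]
      exact congrArg _ (K1_i hS i1 g5 P)
    have c2 : ∀ B, K1_s F u v z (n + 1 + 1) (px F * B) = -K1_s F u v z (n + 1) (px B) := by
      intro B
      rw [K1_s_succ, Nat.cast_succ]
      exact congrArg _ (K1_ii hS i1 g2 i4 B)
    have c3 : ∀ B, K1_s F u v z (n + 1 + 1) (py F * B) = -K1_s F u v z (n + 1) (py B) := by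
      intro B
      rw [K1_s_succ, Nat.cast_succ]
      exact congrArg _ (K1_iii hS i1 g3 i4 B)
    exact ⟨c1, c2, c3, key (n + 1) c1 c2 c3⟩

theorem exists_pol {K : Type u} [Field K] {F : K[X][X]} (hS : Sm F 1) :
    ∃ (V : Type u) (_ : AddCommGroup V) (_ : Module K V) (σ : ℕ → K[X][X] →ₗ[K] V), Pol F σ := by
  obtain ⟨u, v, z, h⟩ := hS
  have hS : u * F + v * px F + z * py F = 1 := by
    rw [h]
    show C (C 1) = (1 : K[X][X])
    rw [C_1, C_1]
  refine ⟨K[X][X] ⧸ K1_N F, inferInstance, inferInstance, K1_s F u v z, ⟨?_, ?_, ?_, ?_, ?_⟩⟩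
  · exact Submodule.Quotient.mk_surjective _
  · intro h
    exact (Submodule.Quotient.mk_eq_zero _).trans (K1_mem h)
  · intro a P
    rw [Nat.cast_succ]
    exact (K1_all hS a).1 P
  · exact fun a B => (K1_all hS a).2.1 B
  · exact fun a B => (K1_all hS a).2.2.1 B

end MPadcPC
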