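import Pool.Agent.Lib.MP_adc574_ag_PC.KD

/-!
# K2: the connection on the polar classes

PROOF of `exists_conn`. Write `P'` for `pT δ P` (a derivation of `K[X][X]` which commutes with `px`, `py`; `pT δ (k • P) = δ k • P + k • P'`).
Let `1 = α F + β F_x + γ F_Y`. Put `d a P = σ a P' + σ (a + 1) (F' P)` (additive in `P`).
(1) `d 0 P = 0` if `P = br F B + e F`: `d 0 (e F) = σ 0 (e' F + e F') + σ 1 (F F' e) = σ 0 (e F') - σ 0 (F' e) = 0` (`σ 0 (e' F) = 0` by `ker`);
`d 0 (br F B) = σ 0 (br F B' + B_x F'_Y - B_Y F'_x) + σ 1 (F_Y (F' B_x)) - σ 1 (F_x (F' B_Y))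
= σ 0 (B_x F'_Y - B_Y F'_x) - σ 0 ((F' B_x)_Y) + σ 0 ((F' B_Y)_x) = 0`.
So there is `D` with `D (σ 0 P) = d 0 P` (choose a preimage under the surjection `σ 0`), additive, and Leibniz: for `v = σ 0 P`:
`D (k • v) = d 0 (k • P) = δ k • σ 0 P + k • d 0 P`.
(2) `D (σ a P) = d a P` by induction on `a`. For `a + 1`: `P = F α P + F_x β P + F_Y γ P`, so with `R = (a + 1) α P + (β P)_x + (γ P)_Y`:
`σ (a + 1) P = - σ a R` (`mulF`, `dx`, `dy`), hence `D (σ (a + 1) P) = - d a R = - σ a R' - σ (a + 1) (F' R)`. On the other hand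
`P' = F (α P)' + F' α P + F_x (β P)' + F'_x β P + F_Y (γ P)' + F'_Y γ P`, so `σ (a + 1) P' = - σ a R' + σ (a + 1) (α P F' + β P F'_x + γ P F'_Y)`,
and `σ (a + 2) (F' P) = σ (a + 2) (F (α F' P) + F_x (β F' P) + F_Y (γ F' P)) = - (a + 2) σ (a + 1) (α F' P) - σ (a + 1) ((β F' P)_x) -
σ (a + 1) ((γ F' P)_Y)`; the sum of the two is `- σ a R' - σ (a + 1) (F' R)`.
PROOF of `conn_eta`: from `IsGM`: `Δ η_a F' = F_x α + F_Y β + F γ`, so `Δ • σ 1 (F' η_a) = - σ 0 (α_x + β_Y + γ)`, and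
`Δ • σ 0 (η_a') - σ 0 (α_x + β_Y + γ) = ∑ G_ba σ 0 (η_b)` by the second formula and `ker`.
-/

set_option autoImplicit false

namespace MPadcPC

open Polynomial MPadcLF

private theorem K2_cc {K : Type*} [Field K] {V : Type*} [AddCommGroup V] [Module K V] (f : K[X][X] →ₗ[K] V)
    (k : K) (P : K[X][X]) : f (cc k * P) = k • f P := by
  have h1 : cc k * P = k • P := by
    rw [Algebra.smul_def]
    rfl
  rw [h1, map_smul]

private theorem K2_nat {K : Type*} [Field K] {V : Type*} [AddCommGroup V] [Module K V] (f : K[X][X] →ₗ[K] V)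
    (n : ℕ) (P : K[X][X]) : f ((n : K[X][X]) * P) = (n : K) • f P := by
  rw [← nsmul_eq_mul, map_nsmul, Nat.cast_smul_eq_nsmul]

private theorem K2_mulF {K : Type*} [Field K] {F : K[X][X]} {V : Type*} [AddCommGroup V] [Module K V]
    {σ : ℕ → K[X][X] →ₗ[K] V} (h : Pol F σ) (a : ℕ) (P : K[X][X]) :
    σ (a + 1) (F * P) = - σ a (((a + 1 : ℕ) : K[X][X]) * P) := by
  rw [h.mulF, K2_nat]

private theorem K2_ker0 {K : Type*} [Field K] {F : K[X][X]} {V : Type*} [AddCommGroup V] [Module K V]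
    {σ : ℕ → K[X][X] →ₗ[K] V} (h : Pol F σ) (B e : K[X][X]) : σ 0 (br F B + e * F) = 0 :=
  (h.ker _).2 ⟨B, e, rfl⟩

private theorem K2_br {K : Type*} [Field K] {F : K[X][X]} {V : Type*} [AddCommGroup V] [Module K V]
    {σ : ℕ → K[X][X] →ₗ[K] V} (h : Pol F σ) (B : K[X][X]) : σ 0 (br F B) = 0 := by
  have h1 := K2_ker0 h B 0
  rwa [zero_mul, add_zero] at h1

private theorem K2_mul {K : Type*} [Field K] {F : K[X][X]} {V : Type*} [AddCommGroup V] [Module K V]
    {σ : ℕ → K[X][X] →ₗ[K] V} (h : Pol F σ) (e : K[X][X]) : σ 0 (e * F) = 0 := by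
  have h1 := K2_ker0 h 0 e
  have h2 : br F (0 : K[X][X]) = 0 := (isDer_br F).zero
  rwa [h2, zero_add] at h1

private theorem K2_zero {K : Type*} [Field K] {F : K[X][X]} {V : Type*} [AddCommGroup V] [Module K V]
    {σ : ℕ → K[X][X] →ₗ[K] V} (h : Pol F σ) (δ : K → K) (hδ : IsDer δ) (B e : K[X][X]) :
    σ 0 (pT δ (br F B + e * F)) + σ 1 (pT δ F * (br F B + e * F)) = 0 := by
  have hT := isDer_pT hδ
  have e1 : pT δ (br F B + e * F) = br F (pT δ B) + (px B * py (pT δ F) - py B * px (pT δ F)) +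
      (e * pT δ F + pT δ e * F) := by
    unfold br
    rw [hT.add, hT.sub, hT.mul, hT.mul, hT.mul, pT_px hδ, pT_px hδ, pT_py hδ, pT_py hδ]
    ring
  have e2 : pT δ F * (br F B + e * F) = py F * (pT δ F * px B) - px F * (pT δ F * py B) + F * (pT δ F * e) := by
    unfold br
    ring
  have e3 : σ 1 (F * (pT δ F * e)) = - σ 0 (pT δ F * e) := by
    have h1 := K2_mulF h 0 (pT δ F * e)
    rw [h1]
    norm_num
  have e4 : py (pT δ F * px B) = pT δ F * px (py B) + px B * py (pT δ F) := by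
    rw [isDer_py.mul, py_px]
  have e5 : px (pT δ F * py B) = pT δ F * px (py B) + py B * px (pT δ F) := isDer_px.mul _ _
  have dx0 : ∀ B, σ 1 (px F * B) = - σ 0 (px B) := h.dx 0
  have dy0 : ∀ B, σ 1 (py F * B) = - σ 0 (py B) := h.dy 0
  have e6 : σ 1 (pT δ F * (br F B + e * F)) = - σ 0 (py (pT δ F * px B)) - - σ 0 (px (pT δ F * py B)) +
      - σ 0 (pT δ F * e) := by
    rw [e2, map_add, map_sub, dx0, dy0, e3]
  rw [e6, e1, e4, e5]
  simp only [map_add, map_sub]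
  rw [K2_br h, K2_mul h, mul_comm e (pT δ F)]
  abel

theorem exists_conn {K : Type*} [Field K] {F : K[X][X]} (hS : Sm F 1) {V : Type*} [AddCommGroup V] [Module K V]
    {σ : ℕ → K[X][X] →ₗ[K] V} (h : Pol F σ) (δ : K → K) (hδ : IsDer δ) : ∃ D : V → V, PolD F σ δ D := by
  classical
  have hT := isDer_pT hδ
  have hadd : ∀ a P Q, σ a (pT δ (P + Q)) + σ (a + 1) (pT δ F * (P + Q)) =
      (σ a (pT δ P) + σ (a + 1) (pT δ F * P)) + (σ a (pT δ Q) + σ (a + 1) (pT δ F * Q)) := by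
    intro a P Q
    rw [hT.add, mul_add, map_add, map_add]
    abel
  have hD : ∃ D : V → V, ∀ P, D (σ 0 P) = σ 0 (pT δ P) + σ 1 (pT δ F * P) := by
    refine ⟨fun v => σ 0 (pT δ (Function.surjInv h.surj v)) + σ 1 (pT δ F * Function.surjInv h.surj v), fun P => ?_⟩
    obtain ⟨Q, hQ⟩ : ∃ Q, Q = Function.surjInv h.surj (σ 0 P) := ⟨_, rfl⟩
    show σ 0 (pT δ (Function.surjInv h.surj (σ 0 P))) + σ 1 (pT δ F * Function.surjInv h.surj (σ 0 P)) = _
    rw [← hQ]
    have h1 : σ 0 Q = σ 0 P := by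
      rw [hQ]
      exact Function.surjInv_eq h.surj _
    have h2 : σ 0 (Q - P) = 0 := by
      rw [map_sub, h1, sub_self]
    obtain ⟨B, e, he⟩ := (h.ker _).1 h2
    have h3 : Q = P + (br F B + e * F) := by
      rw [← he]
      ring
    have h4 := hadd 0 P (br F B + e * F)
    rw [h3]
    rw [zero_add] at h4
    rw [h4, K2_zero h δ hδ, add_zero]
  obtain ⟨D, hD⟩ := hD
  have hDadd : ∀ u v, D (u + v) = D u + D v := by
    intro u v
    obtain ⟨P, rfl⟩ := h.surj u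
    obtain ⟨Q, rfl⟩ := h.surj v
    have h4 := hadd 0 P Q
    rw [zero_add] at h4
    rw [← map_add, hD, hD, hD, h4]
  have hDneg : ∀ u, D (-u) = - D u := by
    intro u
    have h1 := hDadd 0 0
    rw [add_zero] at h1
    have h0 : D 0 = 0 := by
      have h2 : D 0 + 0 = D 0 + D 0 := by rw [add_zero]; exact h1
      exact (add_left_cancel h2).symm
    have h3 := hDadd u (-u)
    rw [add_neg_cancel, h0] at h3
    exact (neg_eq_of_add_eq_zero_right h3.symm).symm
  obtain ⟨u, v, z, huvz⟩ := hS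
  have hcc : (cc (1 : K) : K[X][X]) = 1 := by
    unfold cc
    rw [C_1, C_1]
  rw [hcc] at huvz
  have hP : ∀ P : K[X][X], P = F * (u * P) + px F * (v * P) + py F * (z * P) := by
    intro P
    linear_combination (-P) * huvz
  have hdec : ∀ (a : ℕ) (P : K[X][X]), σ (a + 1) P =
      - σ a (((a + 1 : ℕ) : K[X][X]) * (u * P) + px (v * P) + py (z * P)) := by
    intro a P
    have h1 : σ (a + 1) P = σ (a + 1) (F * (u * P)) + σ (a + 1) (px F * (v * P)) + σ (a + 1) (py F * (z * P)) := by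
      rw [← map_add, ← map_add, ← hP P]
    rw [h1, K2_mulF h, h.dx, h.dy, map_add, map_add]
    abel
  refine ⟨D, hDadd, ?_, ?_⟩
  · intro k w
    obtain ⟨P, rfl⟩ := h.surj w
    rw [← K2_cc (σ 0) k P, hD, hD, hT.mul, pT_cc hδ, map_add, K2_cc]
    have e1 : P * cc (δ k) = cc (δ k) * P := mul_comm _ _
    have e2 : pT δ F * (cc k * P) = cc k * (pT δ F * P) := by ring
    rw [e1, e2, K2_cc, K2_cc, smul_add]
    abel
  · intro a
    induction a with
    | zero => exact fun P => hD P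
    | succ a ih =>
      intro P
      have hTn : ∀ (n : ℕ) (Q : K[X][X]), pT δ ((n : K[X][X]) * Q) = (n : K[X][X]) * pT δ Q := by
        intro n Q
        rw [hT.mul, hT.natCast, mul_zero, add_zero]
      have e1 : pT δ P = F * pT δ (u * P) + px F * pT δ (v * P) + py F * pT δ (z * P) +
          (pT δ F * (u * P) + px (pT δ F) * (v * P) + py (pT δ F) * (z * P)) := by
        have h1 := congrArg (pT δ) (hP P)
        rw [hT.add, hT.add, hT.mul F (u * P), hT.mul (px F) (v * P), hT.mul (py F) (z * P), pT_px hδ, pT_py hδ] at h1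
        rw [h1]
        ring
      have e2 : pT δ (((a + 1 : ℕ) : K[X][X]) * (u * P) + px (v * P) + py (z * P)) =
          ((a + 1 : ℕ) : K[X][X]) * pT δ (u * P) + px (pT δ (v * P)) + py (pT δ (z * P)) := by
        rw [hT.add, hT.add, hTn, pT_px hδ, pT_py hδ]
      have e3 : ((a + 1 + 1 : ℕ) : K[X][X]) * (u * (pT δ F * P)) + px (v * (pT δ F * P)) + py (z * (pT δ F * P)) =
          pT δ F * (((a + 1 : ℕ) : K[X][X]) * (u * P) + px (v * P) + py (z * P)) +
          (pT δ F * (u * P) + px (pT δ F) * (v * P) + py (pT δ F) * (z * P)) := by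
        have h1 : v * (pT δ F * P) = pT δ F * (v * P) := by ring
        have h2 : z * (pT δ F * P) = pT δ F * (z * P) := by ring
        rw [h1, h2, isDer_px.mul, isDer_py.mul, Nat.cast_add ((a + 1 : ℕ)) 1, Nat.cast_one]
        ring
      rw [hdec a P, hDneg, ih, e2, hdec (a + 1) (pT δ F * P), e3]
      nth_rewrite 1 [e1]
      simp only [map_add, K2_mulF h, h.dx, h.dy]
      abel

theorem conn_eta {K : Type*} [Field K] {F : K[X][X]} {V : Type*} [AddCommGroup V] [Module K V]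
    {σ : ℕ → K[X][X] →ₗ[K] V} (h : Pol F σ) {δ : K → K} {D : V → V} (hD : PolD F σ δ D) {w n : ℕ}
    {η : IX w n → K[X][X]} {Δ : K} {G : Matrix (IX w n) (IX w n) K} (hG : IsGM δ Δ F η G) (a : IX w n) :
    Δ • D (σ 0 (η a)) = ∑ b, G b a • σ 0 (η b) := by
  obtain ⟨α, β, γ, g, e, h1, h2⟩ := hG a
  have e1 : Δ • D (σ 0 (η a)) = σ 0 (cc Δ * pT δ (η a)) + σ 1 (cc Δ * η a * pT δ F) := by
    have h3 : cc Δ * η a * pT δ F = cc Δ * (pT δ F * η a) := by ring
    rw [hD.cls 0, h3, K2_cc, K2_cc, smul_add]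
  have e2 : σ 1 (cc Δ * η a * pT δ F) = - σ 0 (px α) - σ 0 (py β) - σ 0 γ := by
    have h3 : α * px F + β * py F + γ * F = px F * α + py F * β + F * γ := by ring
    have h4 := K2_mulF h 0 γ
    have h5 : (((0 + 1 : ℕ) : K[X][X])) * γ = γ := by
      norm_num
    rw [h5] at h4
    rw [h1, h3, map_add, map_add, h.dx 0, h.dy 0, h4]
    abel
  have e3 : σ 0 (cc Δ * pT δ (η a)) + (- σ 0 (px α) - σ 0 (py β) - σ 0 γ) =
      σ 0 (cc Δ * pT δ (η a) - px α - py β - γ) := by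
    rw [map_sub, map_sub, map_sub]
    abel
  rw [e1, e2, e3, h2, add_assoc, map_add, K2_ker0 h, add_zero, map_sum]
  exact Finset.sum_congr rfl fun b _ => K2_cc _ _ _

end MPadcPC
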