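import Pool.Agent.Lib.MP_adc574_ag_PC.KD

/-!
# K3: the homomorphism from the module of the projective curve to the polar classes

`Fh` is a form of degree `d` in `X 0, X 1, X 2` over `K = κ(t)`, `F = af Fh` is its dehomogenisation. `PKm d Fh` is the quotient of the
polynomials by the `dl Fh i Q = ∂_i Q + Fh_i Q` and the monomials of degree `D` with `d ∤ D + 3`.

PROOF. Let `c : MvPolynomial (Fin 3) K →ₗ[K] V` be the linear map with `c (monomial e 1) = σ a (af (monomial e 1))` if
`dg e + 3 = d * (a + 1)` (`a = (dg e + 3) / d - 1`) and `= 0` if `d ∤ dg e + 3` (`MvPolynomial.basisMonomials` and `Basis.constr`, or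
`Finsupp.lsum`). `exists_lift` needs `c (dl Fh i Q) = 0`; by linearity `Q = monomial e 1`. If `d ∤ dg e + 2`, all monomials of
`dl Fh i Q` have degrees `dg e - 1` or `dg e + d - 1` and `c` is 0 on them (if `e i = 0`, the first term is 0). If `dg e + 2 = d (a + 1)`, then
`c (∂_i Q) = σ a (af (∂_i Q))` and `c (Fh_i Q) = σ (a + 1) (af Fh_i * af Q)` (all monomials of degree `dg e + d - 1`; `Fh_i` is homogeneous of
degree `d - 1`; note `e i = 0` is allowed, and `d ≥ 3`, so `a` makes sense). For `i = 0`: `af (∂_0 P) = px (af P)`, `af (∂_1 P) = py (af P)` for all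
`P` (check on the variables), so the sum is 0 by `dx`, `dy`. For `i = 2`: `af (∂_2 P) = m * af P - (C X) * px (af P) - X * py (af P)` for `P`
homogeneous of degree `m` (Euler, `MvPolynomial.IsHomogeneous.sum_X_mul_pderiv`, applied to the monomials or to `P`), so with
`Q₀ = af Q`, `x = C X`: `c (Fh_2 Q) = σ (a + 1) ((d F - x F_x - Y F_Y) Q₀) = - (a + 1) d σ a Q₀ + σ a ((x Q₀)_x + (Y Q₀)_Y)
= σ a ((2 - (a + 1) d) Q₀ + x Q₀_x + Y Q₀_Y)` and `c (∂_2 Q) = σ a (dg e Q₀ - x Q₀_x - Y Q₀_Y)`, `dg e = d (a + 1) - 2`. The sum is 0.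
Horizontality: `nb (DZ κ) Fh P = cder (DZ κ) P + cder (DZ κ) Fh * P` (see the definition of `nb` in LZ/Defs.lean). By additivity take
`P = monomial e k`. If `d ∤ dg e + 3`, both sides are 0 (`D 0 = 0`). Otherwise
`D (k • σ a E) = k' • σ a E + k • σ (a + 1) (F' E)` for `E = af (monomial e 1)` (`pT δ E = 0`), and `cder (DZ κ) Fh` is homogeneous of degree `d`
with `af (cder (DZ κ) Fh) = pT (DK κ) F`.
-/

set_option autoImplicit false

namespace MPadcPC

open Polynomial MPadcLF MPadcLZ MPadcHM

universe u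

section

variable {K : Type*} [Field K]

private theorem K3_iff {R : Type*} [CommRing R] (m : ℕ) (P : MvPolynomial (Fin 3) R) :
    Hm m P ↔ P.IsHomogeneous m := by
  have h1 : ∀ e : Fin 3 →₀ ℕ, Finsupp.weight (1 : Fin 3 → ℕ) e = dg e := by
    intro e
    rw [Finsupp.weight_apply, Finsupp.sum_fintype e (fun i c => c • (1 : Fin 3 → ℕ) i)
      (fun i => zero_smul ℕ _)]
    unfold dg
    refine Finset.sum_congr rfl fun i _ => ?_
    rw [Pi.one_apply, smul_eq_mul, mul_one]
  constructor
  · intro h e he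
    rw [h1]
    exact h e (MvPolynomial.mem_support_iff.2 he)
  · intro h e he
    rw [← h1]
    exact h (MvPolynomial.mem_support_iff.1 he)

private theorem K3_mul {m m' : ℕ} {P Q : MvPolynomial (Fin 3) K} (hP : Hm m P) (hQ : Hm m' Q) :
    Hm (m + m') (P * Q) := by
  rw [K3_iff] at hP hQ ⊢
  exact hP.mul hQ

private theorem K3_pd {m : ℕ} {P : MvPolynomial (Fin 3) K} (hP : Hm m P) (j : Fin 3) :
    Hm (m - 1) (MvPolynomial.pderiv j P) := by
  rw [K3_iff] at hP ⊢
  exact hP.pderiv

private theorem K3_mono (u : Fin 3 →₀ ℕ) (k : K) : Hm (dg u) (MvPolynomial.monomial u k) := by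
  classical
  intro e he
  have h1 := MvPolynomial.support_monomial_subset he
  rw [Finset.mem_singleton] at h1
  rw [h1]

private theorem K3_cd {m : ℕ} {P : MvPolynomial (Fin 3) K} (hP : Hm m P) (D : Derivation ℤ K K) :
    Hm m (cder D P) := by
  intro e he
  rw [MvPolynomial.mem_support_iff, ← cderD_apply, coeff_cderD] at he
  apply hP
  rw [MvPolynomial.mem_support_iff]
  intro h
  rw [h, map_zero] at he
  exact he rfl

private theorem K3_p0 (P : MvPolynomial (Fin 3) K) (hP : Hm 0 P) (i : Fin 3) :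
    MvPolynomial.pderiv i P = 0 := by
  have h1 : P = MvPolynomial.C (P.coeff 0) := by
    rw [K3_iff] at hP
    exact MvPolynomial.totalDegree_eq_zero_iff_eq_C.1 (Nat.le_zero.1 hP.totalDegree_le)
  rw [h1, MvPolynomial.pderiv_C]

private theorem K3_C (a : K) : af K (MvPolynomial.C a) = C (C a) := by
  unfold af
  rw [MvPolynomial.aeval_C]
  rfl

private theorem K3_X (i : Fin 3) : af K (MvPolynomial.X i) = (![C X, X, 1] : Fin 3 → K[X][X]) i := by
  unfold af
  rw [MvPolynomial.aeval_X]

private theorem K3_smul (k : K) (P : K[X][X]) : k • P = C (C k) * P := by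
  ext i j
  rw [coeff_smul, coeff_smul, coeff_C_mul, coeff_C_mul, smul_eq_mul]

private theorem K3_ax (P : MvPolynomial (Fin 3) K) : af K (MvPolynomial.pderiv 0 P) = px (af K P) := by
  induction P using MvPolynomial.induction_on with
  | C a => rw [MvPolynomial.pderiv_C, map_zero, K3_C, px_C, derivative_C, C_0]
  | add p q hp hq => rw [map_add, map_add, map_add, hp, hq, isDer_px.add]
  | mul_X p i hp =>
    rw [Derivation.leibniz, map_add, smul_eq_mul, smul_eq_mul, map_mul, map_mul, map_mul, hp, isDer_px.mul,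
      MvPolynomial.pderiv_X, K3_X]
    have h1 : af K (Pi.single (M := fun _ => MvPolynomial (Fin 3) K) 0 1 i) =
        px ((![C X, X, 1] : Fin 3 → K[X][X]) i) := by
      fin_cases i
      · show af K 1 = px (C X)
        rw [map_one, px_C, derivative_X, C_1]
      · show af K 0 = px X
        rw [map_zero, px_X]
      · show af K 0 = px 1
        rw [map_zero, isDer_px.one]
    rw [h1]

private theorem K3_ay (P : MvPolynomial (Fin 3) K) : af K (MvPolynomial.pderiv 1 P) = py (af K P) := by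
  induction P using MvPolynomial.induction_on with
  | C a => rw [MvPolynomial.pderiv_C, map_zero, K3_C, py_C]
  | add p q hp hq => rw [map_add, map_add, map_add, hp, hq, isDer_py.add]
  | mul_X p i hp =>
    rw [Derivation.leibniz, map_add, smul_eq_mul, smul_eq_mul, map_mul, map_mul, map_mul, hp, isDer_py.mul,
      MvPolynomial.pderiv_X, K3_X]
    have h1 : af K (Pi.single (M := fun _ => MvPolynomial (Fin 3) K) 1 1 i) =
        py ((![C X, X, 1] : Fin 3 → K[X][X]) i) := by
      fin_cases i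
      · show af K 0 = py (C X)
        rw [map_zero, py_C]
      · show af K 1 = py X
        rw [map_one, py_X]
      · show af K 0 = py 1
        rw [map_zero, isDer_py.one]
    rw [h1]

private theorem K3_at (D : Derivation ℤ K K) (hD : IsDer fun k => D k) (P : MvPolynomial (Fin 3) K) :
    af K (cder D P) = pT (fun k => D k) (af K P) := by
  rw [← cderD_apply]
  induction P using MvPolynomial.induction_on with
  | C a =>
    have h1 : (MvPolynomial.C a : MvPolynomial (Fin 3) K) = MvPolynomial.monomial 0 a := rfl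
    have h2 : (MvPolynomial.C (D a) : MvPolynomial (Fin 3) K) = MvPolynomial.monomial 0 (D a) := rfl
    rw [h1, cderD_monomial, ← h1, ← h2, K3_C, K3_C, pT_cc hD]
  | add p q hp hq => rw [map_add, map_add, map_add, hp, hq, (isDer_pT hD).add]
  | mul_X p i hp =>
    rw [Derivation.leibniz, map_add, smul_eq_mul, smul_eq_mul, map_mul, map_mul, map_mul, hp, (isDer_pT hD).mul,
      K3_X]
    have h1 : cderD D (MvPolynomial.X i : MvPolynomial (Fin 3) K) = 0 := by
      show cderD D (MvPolynomial.monomial (Finsupp.single i 1) (1 : K)) = 0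
      rw [cderD_monomial, Derivation.map_one_eq_zero, MvPolynomial.monomial_zero]
    have h2 : pT (fun k => D k) ((![C X, X, 1] : Fin 3 → K[X][X]) i) = 0 := by
      fin_cases i
      · exact pT_CX hD
      · exact pT_X hD
      · exact (isDer_pT hD).one
    rw [h1, h2, map_zero]

private theorem K3_az {m : ℕ} (P : MvPolynomial (Fin 3) K) (hP : Hm m P) :
    af K (MvPolynomial.pderiv 2 P) = (m : K) • af K P - C X * px (af K P) - X * py (af K P) := by
  rw [K3_iff] at hP
  have h1 := congrArg (af K) hP.sum_X_mul_pderiv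
  rw [map_sum, Fin.sum_univ_three, map_mul, map_mul, map_mul, K3_X, K3_X, K3_X, K3_ax, K3_ay] at h1
  have h2 : af K (m • P) = (m : K) • af K P := by
    rw [map_nsmul, Nat.cast_smul_eq_nsmul]
  rw [h2] at h1
  have h3 : C X * px (af K P) + X * py (af K P) + 1 * af K (MvPolynomial.pderiv 2 P) = (m : K) • af K P := h1
  rw [← h3]
  ring

/-- The linear map. -/
private noncomputable def K3_c (d : ℕ) {V : Type*} [AddCommGroup V] [Module K V] (σ : ℕ → K[X][X] →ₗ[K] V) :
    MvPolynomial (Fin 3) K →ₗ[K] V :=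
  open Classical in
  (MvPolynomial.basisMonomials (Fin 3) K).constr K fun e =>
    if d ∣ dg e + 3 then σ ((dg e + 3) / d - 1) (af K (MvPolynomial.monomial e 1)) else 0

private theorem K3_cm (d : ℕ) {V : Type*} [AddCommGroup V] [Module K V] (σ : ℕ → K[X][X] →ₗ[K] V)
    (e : Fin 3 →₀ ℕ) (k : K) (he : d ∣ dg e + 3) : K3_c d σ (MvPolynomial.monomial e k) =
    σ ((dg e + 3) / d - 1) (af K (MvPolynomial.monomial e k)) := by
  have h1 : (MvPolynomial.monomial e k : MvPolynomial (Fin 3) K) = k • MvPolynomial.basisMonomials (Fin 3) K e := by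
    rw [MvPolynomial.coe_basisMonomials, MvPolynomial.smul_monomial, smul_eq_mul, mul_one]
  have h2 : (MvPolynomial.monomial e k : MvPolynomial (Fin 3) K) = k • MvPolynomial.monomial e 1 := by
    rw [MvPolynomial.smul_monomial, smul_eq_mul, mul_one]
  rw [h1, map_smul, ← h1, h2, map_smul, map_smul]
  unfold K3_c
  rw [Module.Basis.constr_basis, if_pos he]

private theorem K3_cm' (d : ℕ) {V : Type*} [AddCommGroup V] [Module K V] (σ : ℕ → K[X][X] →ₗ[K] V)
    (e : Fin 3 →₀ ℕ) (k : K) (he : ¬ d ∣ dg e + 3) : K3_c d σ (MvPolynomial.monomial e k) = 0 := by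
  have h1 : (MvPolynomial.monomial e k : MvPolynomial (Fin 3) K) = k • MvPolynomial.basisMonomials (Fin 3) K e := by
    rw [MvPolynomial.coe_basisMonomials, MvPolynomial.smul_monomial, smul_eq_mul, mul_one]
  rw [h1, map_smul]
  unfold K3_c
  rw [Module.Basis.constr_basis, if_neg he, smul_zero]

private theorem K3_cP {d : ℕ} (hd : 0 < d) {V : Type*} [AddCommGroup V] [Module K V] (σ : ℕ → K[X][X] →ₗ[K] V)
    {m a : ℕ} (hm : m + 3 = d * (a + 1)) (P : MvPolynomial (Fin 3) K) (hP : Hm m P) :
    K3_c d σ P = σ a (af K P) := by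
  have h1 : K3_c d σ P = ∑ e ∈ P.support, K3_c d σ (MvPolynomial.monomial e (P.coeff e)) := by
    rw [← map_sum, ← MvPolynomial.as_sum]
  have h2 : σ a (af K P) = ∑ e ∈ P.support, σ a (af K (MvPolynomial.monomial e (P.coeff e))) := by
    rw [← map_sum, ← map_sum, ← MvPolynomial.as_sum]
  rw [h1, h2]
  refine Finset.sum_congr rfl fun e he => ?_
  have h3 : dg e + 3 = d * (a + 1) := by rw [hP e he, hm]
  rw [K3_cm d σ e _ ⟨a + 1, h3⟩, h3, Nat.mul_div_cancel_left _ hd, Nat.add_sub_cancel]

private theorem K3_cQ {d : ℕ} {V : Type*} [AddCommGroup V] [Module K V] (σ : ℕ → K[X][X] →ₗ[K] V)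
    {m : ℕ} (hm : ¬ d ∣ m + 3) (P : MvPolynomial (Fin 3) K) (hP : Hm m P) :
    K3_c d σ P = 0 := by
  have h1 : K3_c d σ P = ∑ e ∈ P.support, K3_c d σ (MvPolynomial.monomial e (P.coeff e)) := by
    rw [← map_sum, ← MvPolynomial.as_sum]
  rw [h1]
  refine Finset.sum_eq_zero fun e he => ?_
  refine K3_cm' d σ e _ ?_
  rw [hP e he]
  exact hm

private theorem K3_dl {d : ℕ} (hd : 3 ≤ d) {F : MvPolynomial (Fin 3) K} (hF : Hm d F)
    {V : Type*} [AddCommGroup V] [Module K V] {σ : ℕ → K[X][X] →ₗ[K] V}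
    (h : Pol (af K F) σ) (i : Fin 3) {m : ℕ} (Q : MvPolynomial (Fin 3) K) (hQ : Hm m Q) :
    K3_c d σ (dl F i Q) = 0 := by
  unfold dl
  rw [map_add]
  have e1 : Hm (d - 1 + m) (MvPolynomial.pderiv i F * Q) := K3_mul (K3_pd hF i) hQ
  by_cases hm : d ∣ m + 2
  · obtain ⟨b, hb⟩ := hm
    have hb0 : b ≠ 0 := by
      rintro rfl
      omega
    obtain ⟨a, rfl⟩ := Nat.exists_eq_succ_of_ne_zero hb0
    have hm1 : 1 ≤ m := by
      have : d * 1 ≤ d * (a + 1) := Nat.mul_le_mul_left d (by omega)
      rw [Nat.succ_eq_add_one] at hb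
      omega
    have hb2 : m - 1 + 3 = d * (a + 1) := by
      rw [Nat.succ_eq_add_one] at hb
      omega
    have hb3 : d - 1 + m + 3 = d * (a + 1 + 1) := by
      have : d * (a + 1 + 1) = d * (a + 1) + d := by ring
      omega
    rw [K3_cP (by omega) σ hb2 _ (K3_pd hQ i), K3_cP (by omega) σ hb3 _ e1, map_mul]
    fin_cases i
    · show σ a (af K (MvPolynomial.pderiv 0 Q)) + σ (a + 1) (af K (MvPolynomial.pderiv 0 F) * af K Q) = 0
      rw [K3_ax, K3_ax, h.dx, add_neg_cancel]
    · show σ a (af K (MvPolynomial.pderiv 1 Q)) + σ (a + 1) (af K (MvPolynomial.pderiv 1 F) * af K Q) = 0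
      rw [K3_ay, K3_ay, h.dy, add_neg_cancel]
    · show σ a (af K (MvPolynomial.pderiv 2 Q)) + σ (a + 1) (af K (MvPolynomial.pderiv 2 F) * af K Q) = 0
      rw [K3_az Q hQ, K3_az F hF]
      have h1 : ((d : K) • af K F - C X * px (af K F) - X * py (af K F)) * af K Q =
          (d : K) • (af K F * af K Q) - px (af K F) * (C X * af K Q) - py (af K F) * (X * af K Q) := by
        rw [K3_smul, K3_smul]
        ring
      have h2 : px (C X * af K Q) = af K Q + C X * px (af K Q) := by
        rw [isDer_px.mul, px_C, derivative_X, C_1]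
        ring
      have h3 : py (X * af K Q) = af K Q + X * py (af K Q) := by
        rw [isDer_py.mul, py_X]
        ring
      have h7 : σ (a + 1) ((d : K) • (af K F * af K Q) - px (af K F) * (C X * af K Q) - py (af K F) * (X * af K Q)) =
          (d : K) • -(((a + 1 : ℕ) : K) • σ a (af K Q)) + (σ a (af K Q) + σ a (C X * px (af K Q))) +
            (σ a (af K Q) + σ a (X * py (af K Q))) := by
        rw [map_sub, map_sub, map_smul, h.mulF, h.dx, h.dy, h2, h3, map_add, map_add]
        abel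
      rw [h1, h7, map_sub, map_sub, map_smul]
      have h4 : (m : K) = (d : K) * ((a + 1 : ℕ) : K) - 2 := by
        have h5 : m + 2 = d * (a + 1) := hb
        have h6 := congrArg (Nat.cast : ℕ → K) h5
        rw [Nat.cast_add, Nat.cast_mul] at h6
        rw [← h6]
        norm_num
      rw [h4]
      module
  · have hb3 : ¬ d ∣ d - 1 + m + 3 := by
      intro hc
      apply hm
      have h1 : d - 1 + m + 3 = d + (m + 2) := by omega
      rw [h1] at hc
      exact (Nat.dvd_add_right (dvd_refl d)).1 hc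
    rw [K3_cQ σ hb3 _ e1, add_zero]
    by_cases hm0 : m = 0
    · subst hm0
      rw [K3_p0 Q hQ i, map_zero]
    · refine K3_cQ σ (m := m - 1) ?_ _ (K3_pd hQ i)
      have h1 : m - 1 + 3 = m + 2 := by omega
      rw [h1]
      exact hm

private theorem K3_dla {d : ℕ} (hd : 3 ≤ d) {F : MvPolynomial (Fin 3) K} (hF : Hm d F)
    {V : Type*} [AddCommGroup V] [Module K V] {σ : ℕ → K[X][X] →ₗ[K] V}
    (h : Pol (af K F) σ) (i : Fin 3) (Q : MvPolynomial (Fin 3) K) :
    K3_c d σ (dl F i Q) = 0 := by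
  induction Q using MvPolynomial.induction_on' with
  | monomial u a => exact K3_dl hd hF h i _ (K3_mono u a)
  | add p q hp hq =>
    have h1 : dl F i (p + q) = dl F i p + dl F i q := by
      unfold dl
      rw [map_add]
      ring
    rw [h1, map_add, hp, hq, add_zero]

private theorem K3_hz {d : ℕ} (hd : 3 ≤ d) {F : MvPolynomial (Fin 3) K} (hF : Hm d F)
    {V : Type*} [AddCommGroup V] [Module K V] {σ : ℕ → K[X][X] →ₗ[K] V}
    (E : Derivation ℤ K K) (hE : IsDer fun k => E k) {D : V → V} (hD : PolD (af K F) σ (fun k => E k) D)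
    (P : MvPolynomial (Fin 3) K) :
    D (K3_c d σ P) = K3_c d σ (MPadcLZ.nb E F P) := by
  have hD0 : D 0 = 0 := by
    have h1 := hD.add 0 0
    rw [add_zero] at h1
    exact left_eq_add.1 h1
  induction P using MvPolynomial.induction_on' with
  | monomial u a =>
    unfold MPadcLZ.nb
    rw [map_add]
    have e1 : Hm (d + dg u) (cder E F * MvPolynomial.monomial u a) := K3_mul (K3_cd hF E) (K3_mono u a)
    have e2 : Hm (dg u) (cder E (MvPolynomial.monomial u a)) := K3_cd (K3_mono u a) E
    by_cases hm : d ∣ dg u + 3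
    · obtain ⟨b, hb⟩ := hm
      have hb0 : b ≠ 0 := by
        rintro rfl
        omega
      obtain ⟨a', rfl⟩ := Nat.exists_eq_succ_of_ne_zero hb0
      have hb3 : d + dg u + 3 = d * (a' + 1 + 1) := by
        have : d * (a' + 1 + 1) = d * (a' + 1) + d := by ring
        rw [Nat.succ_eq_add_one] at hb
        omega
      rw [K3_cP (by omega) σ hb _ (K3_mono u a), K3_cP (by omega) σ hb _ e2, K3_cP (by omega) σ hb3 _ e1, map_mul,
        K3_at E hE, K3_at E hE, hD.cls]
    · have hb3 : ¬ d ∣ d + dg u + 3 := by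
        intro hc
        apply hm
        rw [add_assoc] at hc
        exact (Nat.dvd_add_right (dvd_refl d)).1 hc
      rw [K3_cQ σ hm _ (K3_mono u a), K3_cQ σ hm _ e2, K3_cQ σ hb3 _ e1, hD0, add_zero]
  | add p q hp hq =>
    have h1 : MPadcLZ.nb E F (p + q) = MPadcLZ.nb E F p + MPadcLZ.nb E F q := by
      unfold MPadcLZ.nb
      simp only [← cderD_apply]
      rw [map_add]
      ring
    rw [h1, map_add, map_add, hD.add, hp, hq]

end

theorem exists_hom {κ : Type u} [Field κ] [CharZero κ] {d : ℕ} (hd : 3 ≤ d) {Fh : MvPolynomial (Fin 3) (RatFunc κ)}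
    (hF : Hm d Fh) {V : Type*} [AddCommGroup V] [Module (RatFunc κ) V] {σ : ℕ → (RatFunc κ)[X][X] →ₗ[RatFunc κ] V}
    (h : Pol (af (RatFunc κ) Fh) σ) {D : V → V} (hD : PolD (af (RatFunc κ) Fh) σ (fun k => DK κ k) D) :
    ∃ c : PKm d Fh →ₗ[RatFunc κ] V,
      (∀ P : MvPolynomial (Fin 3) (RatFunc κ), Hm (d - 3) P → c (brP d Fh P) = σ 0 (af (RatFunc κ) P)) ∧
      ∀ P : MvPolynomial (Fin 3) (RatFunc κ), D (c (brP d Fh P)) = c (brP d Fh (MPadcLZ.nb (DZ κ) Fh P)) := by
  have hE : IsDer fun k : RatFunc κ => DZ κ k := by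
    constructor
    · intro a b
      exact map_add (DZ κ) a b
    · intro a b
      show DK κ (a * b) = a * DK κ b + b * DK κ a
      rw [Derivation.leibniz, smul_eq_mul, smul_eq_mul]
  obtain ⟨c', hc'⟩ := exists_lift d Fh (K3_c d σ) (fun i Q => K3_dla hd hF h i Q)
    (fun e he => K3_cm' d σ e 1 he)
  refine ⟨c', fun P hP => ?_, fun P => ?_⟩
  · rw [hc']
    refine K3_cP (by omega) σ (m := d - 3) ?_ P hP
    omega
  · rw [hc', hc']
    exact K3_hz hd hF (DZ κ) hE hD P

end MPadcPC
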