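import Pool.Agent.Lib.MP_adc574_ag_PC.KD

/-!
# K4: homogenisation; the linear algebra of the comparison

PROOF of `exists_hz`: `P = ∑ j, ∑ i, (h.coeff j).coeff i • X 0 ^ i X 1 ^ j X 2 ^ (m - i - j)`.
PROOF of `exists_hz_eta`: `η (inl c) = C (X ^ l) * bb F i` (`HB.phi`), `bb F i = divX^[i + 1] F`, its coefficient of `Y ^ j` is `F.coeff (j + i + 1)`, of degree at most
`n - (j + i + 1)` (`hF.wd`, `w = 1`; it is 0 if `j + i + 1 > n`), so the weight of `η (inl c)` is at most `l + n - i - 1 ≤ n - 3`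
(`l < i - 1`, see the definition of `Ix`).
PROOF of `exists_theta`. `λ x = ∑ a, x a • v a` for `x : ι ⊕ ι → K` is injective. Let `nb' x = fun a => δ (x a) + Δ⁻¹ * ∑ b, G a b * x b`;
then `D (λ x) = λ (nb' x)`. `ker c` is `nab`-stable (`D 0 = 0` by `leib` with `k = 0`, or `add`); it is not `⊤` since `c (p i) = v (inl i) ≠ 0`;
so `c` is injective. `U' = {m | ∃ x, c m = λ x}` is a stable submodule which contains `p i`, and `p i ≠ 0`, so `U' = ⊤`. Hence
`c m = λ (θ m)` for an injective linear map `θ : M → (ι ⊕ ι → K)` with `θ (nab m) = nb' (θ m)`, `θ (p i) = Pi.single (inl i) 1`.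
Let `U = range θ` and `U⊥ = {y | ∀ x ∈ U, ∑ a, ∑ b, x a * J0 a b * y b = 0}`. By `flat` (and `δ` a derivation)
`δ (⟨x, y⟩) = ⟨nb' x, y⟩ + ⟨x, nb' y⟩`, so `U⊥` is stable under `nb'`. For `y ∈ U⊥`: `⟨single (inl i) 1, y⟩ = - y (inr i) = 0`, so `y` is a combination of
the `single (inl i) 1` and `y ∈ U`. So `{m | θ m ∈ U⊥}` is stable: `⊥` or `⊤`. If it is `⊤` then every `θ m` is in the span of the
`single (inl i) 1 = θ (p i)`, so `M = span p`, against `hlow`. So `U⊥ = 0` (as `U⊥ ⊂ U`). If `U ≠ ⊤` there is a functional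
`f ≠ 0` on `ι ⊕ ι → K` with `f = 0` on `U`; `f x = ∑ a, x a * f_a`, and `y` with `J0 y = f_a` (`J0 * J0 = -1`) is a nonzero element of `U⊥`, a
contradiction. So `θ` is bijective and `b a = θ⁻¹ (single a 1)`; `nb' (single a 1) = Δ⁻¹ • ∑ b', G b' a • single b' 1` (`δ 0 = δ 1 = 0`).
-/

set_option autoImplicit false

namespace MPadcPC

open Polynomial MPadcLF MPadcLZ MPadcHM

theorem exists_hz {K : Type*} [CommRing K] (m : ℕ) (h : K[X][X]) (hh : WD 1 m h) :
    ∃ P : MvPolynomial (Fin 3) K, Hm m P ∧ af K P = h := by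
  classical
  obtain ⟨u, hu⟩ : ∃ u : ℕ → ℕ → (Fin 3 →₀ ℕ), u = fun i j =>
      Finsupp.single 0 i + Finsupp.single 1 j + Finsupp.single 2 (m - i - j) := ⟨_, rfl⟩
  have hu0 : ∀ i j, u i j 0 = i := by
    intro i j
    rw [hu]
    simp
  have hu1 : ∀ i j, u i j 1 = j := by
    intro i j
    rw [hu]
    simp
  have hu2 : ∀ i j, u i j 2 = m - i - j := by
    intro i j
    rw [hu]
    simp
  refine ⟨∑ j ∈ Finset.range (m + 1), ∑ i ∈ Finset.range (m + 1 - j),
    MvPolynomial.monomial (u i j) ((h.coeff j).coeff i), ?_, ?_⟩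
  · intro e he
    obtain ⟨j, hj, h1⟩ := Finset.mem_biUnion.1 (MvPolynomial.support_sum he)
    obtain ⟨i, hi, h2⟩ := Finset.mem_biUnion.1 (MvPolynomial.support_sum h1)
    have h3 := MvPolynomial.support_monomial_subset h2
    rw [Finset.mem_singleton] at h3
    rw [Finset.mem_range] at hi hj
    unfold dg
    rw [h3, Fin.sum_univ_three, hu0, hu1, hu2]
    omega
  · have h1 : ∀ j ∈ Finset.range (m + 1), ∀ i ∈ Finset.range (m + 1 - j),
        af K (MvPolynomial.monomial (u i j) ((h.coeff j).coeff i)) =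
          C (C ((h.coeff j).coeff i) * X ^ i) * X ^ j := by
      intro j _ i _
      unfold af
      rw [MvPolynomial.aeval_monomial, Finsupp.prod_fintype _ _ (fun _ => pow_zero _), Fin.prod_univ_three, hu0,
        hu1, hu2]
      simp only [Matrix.cons_val_zero, Matrix.cons_val_one, Matrix.cons_val, one_pow, mul_one]
      rw [map_mul, map_pow, mul_assoc]
      rfl
    rw [map_sum]
    have h2 : ∀ j ∈ Finset.range (m + 1),
        af K (∑ i ∈ Finset.range (m + 1 - j), MvPolynomial.monomial (u i j) ((h.coeff j).coeff i)) =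
          C (h.coeff j) * X ^ j := by
      intro j hj
      rw [map_sum, Finset.sum_congr rfl (h1 j hj), ← Finset.sum_mul, ← map_sum]
      rw [Finset.mem_range] at hj
      have h3 : (h.coeff j).natDegree < m + 1 - j := by
        by_cases h0 : h.coeff j = 0
        · rw [h0, natDegree_zero]
          omega
        · have h4 := hh j h0
          omega
      rw [← as_sum_range_C_mul_X_pow' _ h3]
    rw [Finset.sum_congr rfl h2]
    have h3 : h.natDegree < m + 1 := by
      rw [Nat.lt_succ_iff, natDegree_le_iff_coeff_eq_zero]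
      intro j hj
      by_contra h0
      have h4 := hh j h0
      omega
    exact (as_sum_range_C_mul_X_pow' _ h3).symm

theorem exists_hz_eta {K : Type*} [CommRing K] {n : ℕ} {F : K[X][X]} (hF : Wt 1 n F)
    {η : IX 1 n → K[X][X]} (hB : HB 1 n F η) (c : Gx 1 n) :
    ∃ P : MvPolynomial (Fin 3) K, Hm (n - 3) P ∧ af K P = η (Sum.inl c) := by
  refine exists_hz _ _ ?_
  rw [hB.phi c]
  have h1 : (c.2 : ℕ) < 1 * (c.1 : ℕ) - 1 := c.2.2
  have h2 : (c.1 : ℕ) < n := c.1.2
  have h3 : WD 1 ((c.2 : ℕ) + 1 * (n - 1 - (c.1 : ℕ))) (C (X ^ (c.2 : ℕ)) * bb F (c.1 : ℕ)) :=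
    (WD.ofC (natDegree_X_pow_le _)).mul (WD.ofbb hF _ c.1.2)
  refine h3.mono ?_
  omega

theorem exists_theta {K : Type*} [Field K] {δ : K → K} (hδ : IsDer δ) {M V : Type*} [AddCommGroup M] [Module K M]
    [AddCommGroup V] [Module K V] (nab : M →+ M) (leib : ∀ (k : K) m, nab (k • m) = δ k • m + k • nab m) (D : V → V)
    (Dadd : ∀ u v, D (u + v) = D u + D v) (Dleib : ∀ (k : K) v, D (k • v) = δ k • v + k • D v) (c : M →ₗ[K] V)
    (hc : ∀ m, D (c m) = c (nab m)) (irr : ∀ H' : Submodule K M, (∀ x ∈ H', nab x ∈ H') → H' = ⊥ ∨ H' = ⊤)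
    {ι : Type} [Fintype ι] [DecidableEq ι] [Nonempty ι] (v : ι ⊕ ι → V) (hv : LinearIndependent K v) (Δ : K) (hΔ : Δ ≠ 0)
    (G : Matrix (ι ⊕ ι) (ι ⊕ ι) K) (hG : ∀ a, Δ • D (v a) = ∑ b, G b a • v b)
    (flat : G.transpose * J0 K ι + J0 K ι * G = 0) (p : ι → M) (hp : ∀ i, c (p i) = v (Sum.inl i))
    (hlow : Submodule.span K (Set.range p) ≠ ⊤) :
    ∃ b : Module.Basis (ι ⊕ ι) K M, ∀ a, Δ • nab (b a) = ∑ b', G b' a • b b' := by
  classical
  have hδ0 : δ 0 = 0 := by
    have h1 := hδ.add 0 0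
    rw [add_zero] at h1
    exact (add_eq_left.1 h1.symm)
  have hδ1 : δ 1 = 0 := by
    have h1 := hδ.mul 1 1
    rw [one_mul, one_mul] at h1
    exact (add_eq_left.1 h1.symm)
  have hδn : ∀ a, δ (-a) = -δ a := by
    intro a
    have h1 := hδ.add a (-a)
    rw [add_neg_cancel, hδ0] at h1
    exact (neg_eq_of_add_eq_zero_right h1.symm).symm
  have hδs : ∀ (f : ι → K), δ (∑ i, f i) = ∑ i, δ (f i) := by
    intro f
    exact map_sum (⟨⟨δ, hδ0⟩, hδ.add⟩ : K →+ K) f Finset.univ
  have hD0 : D 0 = 0 := by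
    have h1 := Dadd 0 0
    rw [add_zero] at h1
    exact (add_eq_left.1 h1.symm)
  have hDs : ∀ (f : ι ⊕ ι → V), D (∑ i, f i) = ∑ i, D (f i) := by
    intro f
    exact map_sum (⟨⟨D, hD0⟩, Dadd⟩ : V →+ V) f Finset.univ
  -- the map `lam`
  obtain ⟨lam, hlam⟩ : ∃ lam : (ι ⊕ ι → K) →ₗ[K] V, ∀ x, lam x = ∑ a, x a • v a :=
    ⟨Fintype.linearCombination K v, fun x => Fintype.linearCombination_apply K v x⟩
  have hinj : Function.Injective lam := by
    rw [injective_iff_map_eq_zero]
    intro x hx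
    rw [hlam] at hx
    exact funext (Fintype.linearIndependent_iff.1 hv x hx)
  obtain ⟨nb', hnb⟩ : ∃ nb' : (ι ⊕ ι → K) → (ι ⊕ ι → K), ∀ x a, nb' x a = δ (x a) + Δ⁻¹ * ∑ b, G a b * x b :=
    ⟨_, fun _ _ => rfl⟩
  have hDv : ∀ a, D (v a) = Δ⁻¹ • ∑ b, G b a • v b := by
    intro a
    rw [← hG a, smul_smul, inv_mul_cancel₀ hΔ, one_smul]
  have hDlam : ∀ x, D (lam x) = lam (nb' x) := by
    intro x
    rw [hlam, hlam, hDs]
    have h1 : ∀ a, D (x a • v a) = δ (x a) • v a + ∑ b, (Δ⁻¹ * (G b a * x a)) • v b := by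
      intro a
      rw [Dleib, hDv, smul_smul, Finset.smul_sum]
      congr 1
      refine Finset.sum_congr rfl fun b _ => ?_
      rw [smul_smul]
      congr 1
      ring
    rw [Finset.sum_congr rfl fun a _ => h1 a, Finset.sum_add_distrib, Finset.sum_comm, ← Finset.sum_add_distrib]
    refine Finset.sum_congr rfl fun a _ => ?_
    rw [hnb, add_smul, Finset.mul_sum, Finset.sum_smul]
  have hcker : LinearMap.ker c = ⊥ := by
    rcases irr (LinearMap.ker c) (fun x hx => by
      rw [LinearMap.mem_ker] at hx ⊢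
      rw [← hc, hx, hD0]) with h1 | h1
    · exact h1
    · exfalso
      obtain ⟨i⟩ : Nonempty ι := inferInstance
      have h2 : p i ∈ LinearMap.ker c := by
        rw [h1]
        exact Submodule.mem_top
      rw [LinearMap.mem_ker, hp] at h2
      exact hv.ne_zero _ h2
  have hcinj : Function.Injective c := LinearMap.ker_eq_bot.1 hcker
  have hrange : ∀ m, ∃ x, lam x = c m := by
    have h0 : ∀ m, m ∈ (LinearMap.range lam).comap c ↔ ∃ x, lam x = c m := fun m => by
      rw [Submodule.mem_comap, LinearMap.mem_range]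
    rcases irr ((LinearMap.range lam).comap c) (fun m hm => by
      rw [h0] at hm ⊢
      obtain ⟨x, hx⟩ := hm
      exact ⟨nb' x, by rw [← hDlam, hx, hc]⟩) with h1 | h1
    · exfalso
      obtain ⟨i⟩ : Nonempty ι := inferInstance
      have h2 : p i ∈ (LinearMap.range lam).comap c := by
        rw [h0]
        refine ⟨Pi.single (Sum.inl i) 1, ?_⟩
        rw [hlam, hp, Finset.sum_eq_single (Sum.inl i)]
        · rw [Pi.single_eq_same, one_smul]
        · intro b _ hb
          rw [Pi.single_eq_of_ne hb, zero_smul]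
        · exact fun h => absurd (Finset.mem_univ _) h
      rw [h1, Submodule.mem_bot] at h2
      have h3 := hp i
      rw [h2, map_zero] at h3
      exact hv.ne_zero _ h3.symm
    · intro m
      rw [← h0, h1]
      exact Submodule.mem_top
  obtain ⟨θ, hθ⟩ : ∃ θ : M →ₗ[K] (ι ⊕ ι → K), ∀ m, lam (θ m) = c m := by
    choose f hf using hrange
    exact ⟨{ toFun := f
             map_add' := fun a b => hinj (by rw [map_add, hf, hf, hf, map_add])
             map_smul' := fun k a => hinj (by rw [map_smul, hf, hf, map_smul, RingHom.id_apply]) }, hf⟩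
  have hθinj : Function.Injective θ := by
    intro a b hab
    apply hcinj
    rw [← hθ, ← hθ, hab]
  have hθnab : ∀ m, θ (nab m) = nb' (θ m) := by
    intro m
    apply hinj
    rw [hθ, ← hDlam, hθ, hc]
  have hθp : ∀ i, θ (p i) = Pi.single (Sum.inl i) 1 := by
    intro i
    apply hinj
    rw [hθ, hp, hlam, Finset.sum_eq_single (Sum.inl i)]
    · rw [Pi.single_eq_same, one_smul]
    · intro b _ hb
      rw [Pi.single_eq_of_ne hb, zero_smul]
    · exact fun h => absurd (Finset.mem_univ _) h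
  -- the form
  obtain ⟨B, hB⟩ : ∃ B : (ι ⊕ ι → K) → (ι ⊕ ι → K) → K, ∀ x y, B x y =
      ∑ i : ι, (x (Sum.inr i) * y (Sum.inl i) - x (Sum.inl i) * y (Sum.inr i)) := ⟨_, fun _ _ => rfl⟩
  have hBJ : ∀ x y, B x y = dotProduct x ((J0 K ι).mulVec y) := by
    intro x y
    unfold J0
    rw [hB, Matrix.fromBlocks_mulVec, Matrix.zero_mulVec, Matrix.neg_mulVec, Matrix.one_mulVec, Matrix.one_mulVec,
      Matrix.zero_mulVec, zero_add, add_zero, dotProduct, Fintype.sum_sum_type, ← Finset.sum_add_distrib]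
    refine Finset.sum_congr rfl fun i _ => ?_
    simp only [Sum.elim_inl, Sum.elim_inr, Pi.neg_apply, Function.comp_apply]
    ring
  have hBG : ∀ x y, B (G.mulVec x) y + B x (G.mulVec y) = 0 := by
    intro x y
    rw [hBJ, hBJ]
    have h1 : dotProduct (G.mulVec x) ((J0 K ι).mulVec y) =
        dotProduct x (G.transpose.mulVec ((J0 K ι).mulVec y)) := by
      rw [Matrix.dotProduct_mulVec x, Matrix.vecMul_transpose]
    rw [h1, Matrix.mulVec_mulVec, Matrix.mulVec_mulVec, ← dotProduct_add, ← Matrix.add_mulVec, flat,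
      Matrix.zero_mulVec, dotProduct_zero]
  have hBadd1 : ∀ x x' y, B (x + x') y = B x y + B x' y := by
    intro x x' y
    rw [hBJ, hBJ, hBJ, add_dotProduct]
  have hBadd2 : ∀ x y y', B x (y + y') = B x y + B x y' := by
    intro x y y'
    rw [hBJ, hBJ, hBJ, Matrix.mulVec_add, dotProduct_add]
  have hBs1 : ∀ (k : K) x y, B (k • x) y = k * B x y := by
    intro k x y
    rw [hBJ, hBJ, smul_dotProduct, smul_eq_mul]
  have hBs2 : ∀ (k : K) x y, B x (k • y) = k * B x y := by
    intro k x y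
    rw [hBJ, hBJ, Matrix.mulVec_smul, dotProduct_smul, smul_eq_mul]
  have hBδ : ∀ x y, δ (B x y) = B (nb' x) y + B x (nb' y) := by
    intro x y
    have h1 : ∀ z, nb' z = (fun a => δ (z a)) + Δ⁻¹ • G.mulVec z := by
      intro z
      funext a
      rw [hnb]
      rfl
    rw [h1, h1, hBadd1, hBadd2, hBs1, hBs2]
    have h2 := hBG x y
    have h3 : δ (B x y) = B (fun a => δ (x a)) y + B x fun a => δ (y a) := by
      rw [hB, hB, hB, hδs, ← Finset.sum_add_distrib]
      refine Finset.sum_congr rfl fun i _ => ?_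
      rw [sub_eq_add_neg, hδ.add, hδn, hδ.mul, hδ.mul]
      ring
    rw [h3]
    linear_combination (-Δ⁻¹) * h2
  -- the orthogonal complement
  have hperp1 : ∀ y, (∀ m, B (θ m) y = 0) → ∀ m, B (θ m) (nb' y) = 0 := by
    intro y hy m
    have h1 := hBδ (θ m) y
    rw [hy m, hδ0, ← hθnab, hy, zero_add] at h1
    exact h1.symm
  have hperp2 : ∀ y, (∀ m, B (θ m) y = 0) → y = θ (∑ i, y (Sum.inl i) • p i) := by
    intro y hy
    have h1 : ∀ i, y (Sum.inr i) = 0 := by
      intro i
      have h2 := hy (p i)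
      rw [hθp, hB, Finset.sum_eq_single i] at h2
      · rw [Pi.single_eq_same, Pi.single_eq_of_ne (fun h => by cases h), zero_mul, zero_sub, one_mul,
          neg_eq_zero] at h2
        exact h2
      · intro j _ hj
        rw [Pi.single_eq_of_ne (fun h => by cases h), Pi.single_eq_of_ne (fun h => hj (Sum.inl.inj h)), zero_mul,
          zero_mul, sub_zero]
      · exact fun h => absurd (Finset.mem_univ _) h
    rw [map_sum]
    funext a
    rw [Finset.sum_apply]
    rcases a with j | j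
    · rw [Finset.sum_eq_single j]
      · rw [map_smul, hθp, Pi.smul_apply, Pi.single_eq_same, smul_eq_mul, mul_one]
      · intro i _ hi
        rw [map_smul, hθp, Pi.smul_apply, Pi.single_eq_of_ne (fun h => hi (Sum.inl.inj h).symm), smul_zero]
      · exact fun h => absurd (Finset.mem_univ _) h
    · rw [h1, Finset.sum_eq_zero]
      intro i _
      rw [map_smul, hθp, Pi.smul_apply, Pi.single_eq_of_ne (fun h => by cases h), smul_zero]
  obtain ⟨S, hS⟩ : ∃ S : Submodule K M, ∀ m, m ∈ S ↔ ∀ m', B (θ m') (θ m) = 0 := by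
    refine ⟨{ carrier := {m | ∀ m', B (θ m') (θ m) = 0}
              add_mem' := fun {a b} ha hb m' => ?_
              zero_mem' := fun m' => ?_
              smul_mem' := fun k a ha m' => ?_ }, fun m => Iff.rfl⟩
    · rw [map_add, hBadd2, ha m', hb m', add_zero]
    · rw [map_zero, hBJ, Matrix.mulVec_zero, dotProduct_zero]
    · rw [map_smul, hBs2, ha m', mul_zero]
  have hSbot : S = ⊥ := by
    rcases irr S (fun m hm => by
      rw [hS] at hm ⊢
      intro m'
      rw [hθnab]
      exact hperp1 _ hm m') with h1 | h1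
    · exact h1
    · exfalso
      apply hlow
      rw [eq_top_iff]
      intro m _
      have h2 : m ∈ S := by
        rw [h1]
        exact Submodule.mem_top
      have h3 := hθinj (hperp2 _ ((hS m).1 h2))
      rw [h3]
      exact Submodule.sum_mem _ fun i _ => Submodule.smul_mem _ _ (Submodule.subset_span ⟨i, rfl⟩)
  have hperp0 : ∀ y, (∀ m, B (θ m) y = 0) → y = 0 := by
    intro y hy
    have h1 := hperp2 y hy
    have h2 : (∑ i, y (Sum.inl i) • p i) ∈ S := by
      rw [hS, ← h1]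
      exact hy
    rw [hSbot, Submodule.mem_bot] at h2
    rw [h1, h2, map_zero]
  have hsurj : Function.Surjective θ := by
    rw [← LinearMap.range_eq_top]
    by_contra hne
    obtain ⟨f, hf0, hf⟩ := Submodule.exists_le_ker_of_lt_top _ (lt_top_iff_ne_top.2 hne)
    apply hf0
    have hfx : ∀ x : ι ⊕ ι → K, f x = ∑ a, x a * f (Pi.single a 1) := by
      intro x
      conv_lhs => rw [← Finset.univ_sum_single x]
      rw [map_sum]
      refine Finset.sum_congr rfl fun a _ => ?_
      have h1 : (Pi.single a (x a) : ι ⊕ ι → K) = x a • Pi.single a (1 : K) := by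
        rw [← Pi.single_smul, smul_eq_mul, mul_one]
      rw [h1, map_smul, smul_eq_mul]
    obtain ⟨y, hy⟩ : ∃ y : ι ⊕ ι → K, y = Sum.elim (fun i => f (Pi.single (Sum.inr i) 1))
        (fun i => -f (Pi.single (Sum.inl i) 1)) := ⟨_, rfl⟩
    have h1 : ∀ x, B x y = f x := by
      intro x
      rw [hB, hfx, Fintype.sum_sum_type, ← Finset.sum_add_distrib, hy]
      refine Finset.sum_congr rfl fun i _ => ?_
      rw [Sum.elim_inl, Sum.elim_inr]
      ring
    have h2 : y = 0 := by
      refine hperp0 y fun m => ?_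
      rw [h1]
      exact hf ⟨m, rfl⟩
    refine LinearMap.ext fun x => ?_
    rw [← h1, h2, hBJ, Matrix.mulVec_zero, dotProduct_zero, LinearMap.zero_apply]
  let Θ : M ≃ₗ[K] (ι ⊕ ι → K) := LinearEquiv.ofBijective θ ⟨hθinj, hsurj⟩
  have hΘ : ∀ x, θ (Θ.symm x) = x := fun x => Θ.apply_symm_apply x
  refine ⟨(Pi.basisFun K (ι ⊕ ι)).map Θ.symm, fun a => ?_⟩
  apply hθinj
  have hb : ∀ a, θ (((Pi.basisFun K (ι ⊕ ι)).map Θ.symm) a) = Pi.single a 1 := by
    intro a
    rw [Module.Basis.map_apply, hΘ, Pi.basisFun_apply]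
  rw [map_smul, hθnab, hb, map_sum]
  funext a'
  rw [Pi.smul_apply, hnb, Finset.sum_apply, Finset.sum_eq_single a, Pi.single_eq_same, mul_one, smul_eq_mul,
    Finset.sum_eq_single a', map_smul, hb, Pi.smul_apply, Pi.single_eq_same, smul_eq_mul, mul_one]
  · have h1 : δ ((Pi.single a 1 : ι ⊕ ι → K) a') = 0 := by
      by_cases h2 : a' = a
      · rw [h2, Pi.single_eq_same, hδ1]
      · rw [Pi.single_eq_of_ne h2, hδ0]
    rw [h1, zero_add, ← mul_assoc, mul_inv_cancel₀ hΔ, one_mul]
  · intro b _ hb'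
    rw [map_smul, hb, Pi.smul_apply, Pi.single_eq_of_ne hb'.symm, smul_zero]
  · exact fun h => absurd (Finset.mem_univ _) h
  · intro b _ hb'
    rw [Pi.single_eq_of_ne hb', mul_zero]
  · exact fun h => absurd (Finset.mem_univ _) h

end MPadcPC
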