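import Pool.Agent.Lib.MP_adc574_ag_PC.K1
import Pool.Agent.Lib.MP_adc574_ag_PC.K2
import Pool.Agent.Lib.MP_adc574_ag_PC.K3
import Pool.Agent.Lib.MP_adc574_ag_PC.K4
import Pool.Agent.Lib.MP_adc574_ag_BN.BigL
import Pool.Agent.Lib.MP_adc574_ag_LF.ClaimL
import Pool.Agent.Lib.MP_adc574_ag_LF.Prim
import Pool.Agent.Lib.MP_adc574_ag_LF.ExiA
import Pool.Agent.Lib.MP_adc574_ag_LF.Irr

/-!
# K5: the module of the projective curve has a basis with the connection matrix of the affine family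

PROOF (write `K = RatFunc κ`, `d = S.d`, `Fh = S.FK`). `hF` is used by `subst` (`F = af Fh`). `Hm d Fh`: `fk_eq` (`Fh = G - t H`), `hS.homG`, `hS.homH`.
`K1.exists_pol hSm` gives `V`, `σ`, `h : Pol F σ`; `K2.exists_conn hSm h (fun k => DK κ k)` gives `D` (`IsDer (fun k => DK κ k)`: additive, Leibniz);
`K3.exists_hom hS.hd` gives `c : PKm d Fh →ₗ V` with `D (c (brP P)) = c (brP (nb P)) = c (nab (brP P))` (`hG.nab_br`), so `D (c m) = c (nab m)` for all `m`
(`brP_surj`). Put `v a = σ 0 (η a)`. It is linearly independent over `K`: `∑ x_a • v a = σ 0 (∑ cc (x_a) * η a) = 0` gives by `h.ker`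
`∑ cc (x_a) * η a = br F B + e * F`, so `x = 0` by `claimL` (MPadcLF) with `PLinf` from `KL.plinf_etale`, where `KL` comes from
`exists_KL (irreducible_of_sm ..)` and `hwt`, `hSm`, `hTp` (`k • σ 0 P = σ 0 (k • P)`, `k • P = cc k * P`). `conn_eta h hD hGM a` gives
`Δ • D (v a) = ∑ b, G b a • v b`. `exists_hz_eta hwt hη i` gives `P i` homogeneous of degree `d - 3` with `af (P i) = η (inl i)`; let
`p i = brP (P i)`, so `c (p i) = v (inl i)` (K3). `Nonempty (Gx 1 d)`: the pair `(d - 1, 0)` (`0 < (d - 1) - 1` as `d ≥ 3`). `hlow`: if `span p = ⊤`,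
then `B x y = 0` for all `x y`, since `B (p i) (p j)` is a combination of the `B (brP (monomial u 1)) (brP (monomial v 1))` with
`dg u = dg v = d - 3`, which are 0 by `hP.low` (`2 (d - 3) < 3 (d - 2)`); this contradicts `bl_pair S hS hP` (MPadcBN). Apply
`K4.exists_theta` (`leib` is `hG.leib`).
-/

set_option autoImplicit false

namespace MPadcPC

open Polynomial MPadcLF MPadcLZ MPadcHM

universe u

private theorem K5_span {K M : Type*} [Field K] [AddCommGroup M] [Module K M] {ι : Type*} (p : ι → M)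
    (B : M →ₗ[K] M →ₗ[K] K) (h : ∀ i j, B (p i) (p j) = 0) (ht : Submodule.span K (Set.range p) = ⊤)
    (x y : M) : B x y = 0 := by
  have h1 : ∀ i, B (p i) = 0 := by
    intro i
    refine LinearMap.ext_on ht ?_
    rintro _ ⟨j, rfl⟩
    exact h i j
  have h2 : B = 0 := by
    refine LinearMap.ext_on ht ?_
    rintro _ ⟨i, rfl⟩
    rw [h1 i]
    rfl
  rw [h2]
  rfl

private theorem K5_exp {K : Type*} [CommRing K] {N : ℕ} (P : MvPolynomial (Fin N) K) :
    P = ∑ e ∈ P.support, P.coeff e • MvPolynomial.monomial e (1 : K) := by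
  conv_lhs => rw [P.as_sum]
  refine Finset.sum_congr rfl fun e _ => ?_
  rw [MvPolynomial.smul_monomial, smul_eq_mul, mul_one]

private theorem K5_low {K M : Type*} [Field K] [AddCommGroup M] [Module K M] {N k : ℕ}
    (B : M →ₗ[K] M →ₗ[K] K) (br : MvPolynomial (Fin N) K →ₗ[K] M)
    (hB : ∀ u v : Fin N →₀ ℕ, dg u + dg v < k →
      B (br (MvPolynomial.monomial u 1)) (br (MvPolynomial.monomial v 1)) = 0)
    {m : ℕ} (hm : m + m < k) (P Q : MvPolynomial (Fin N) K) (hP : Hm m P) (hQ : Hm m Q) :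
    B (br P) (br Q) = 0 := by
  have h1 : ∀ u ∈ P.support, B (br (MvPolynomial.monomial u 1)) (br Q) = 0 := by
    intro u hu
    rw [K5_exp Q, map_sum, map_sum]
    refine Finset.sum_eq_zero fun v hv => ?_
    rw [map_smul, map_smul, hB u v (by rw [hP u hu, hQ v hv]; exact hm), smul_zero]
  rw [K5_exp P, map_sum, map_sum, LinearMap.sum_apply]
  refine Finset.sum_eq_zero fun u hu => ?_
  rw [map_smul, map_smul, LinearMap.smul_apply, h1 u hu, smul_zero]

theorem exists_pbasis {κ : Type u} [Field κ] [CharZero κ] (S : PDat κ 3) (hS : S.Ok) {nab : PKm S.d S.FK →+ PKm S.d S.FK}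
    (hG : IsHG S nab (brP S.d S.FK)) {B : PKm S.d S.FK →ₗ[RatFunc κ] PKm S.d S.FK →ₗ[RatFunc κ] RatFunc κ}
    {rho : MvPolynomial (Fin 3) (RatFunc κ) →ₗ[RatFunc κ] RatFunc κ} (hP : IsPP S nab (brP S.d S.FK) B rho)
    (irr : ∀ H' : Submodule (RatFunc κ) (PKm S.d S.FK), (∀ x ∈ H', nab x ∈ H') → H' = ⊥ ∨ H' = ⊤)
    {F : (RatFunc κ)[X][X]} (hF : af (RatFunc κ) S.FK = F) (hwt : Wt 1 S.d F) (hSm : Sm F 1) (hTp : Tp 1 S.d F 1)
    {η : IX 1 S.d → (RatFunc κ)[X][X]} (hη : HB 1 S.d F η) {Δ : RatFunc κ} (hΔ : Δ ≠ 0)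
    {G : Matrix (IX 1 S.d) (IX 1 S.d) (RatFunc κ)} (hGM : IsGM (fun k => DK κ k) Δ F η G)
    (flat : G.transpose * J0 (RatFunc κ) (Gx 1 S.d) + J0 (RatFunc κ) (Gx 1 S.d) * G = 0) :
    ∃ b : Module.Basis (IX 1 S.d) (RatFunc κ) (PKm S.d S.FK), ∀ a, Δ • nab (b a) = ∑ b', G b' a • b b' := by
  subst hF
  have hd : 3 ≤ S.d := hS.hd
  have hFm : Hm S.d S.FK := fk_hom S hS
  have hδ : IsDer (fun k => DK κ k) := by
    constructor
    · intro a b
      exact map_add _ a b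
    · intro a b
      exact Derivation.leibniz _ a b
  obtain ⟨V, _, _, σ, h⟩ := exists_pol hSm
  obtain ⟨D, hD⟩ := exists_conn hSm h (fun k => DK κ k) hδ
  obtain ⟨c, hc1, hc2⟩ := exists_hom hd hFm h hD
  have hc : ∀ m, D (c m) = c (nab m) := by
    intro m
    obtain ⟨P, rfl⟩ := brP_surj S.d S.FK m
    rw [hc2, hG.nab_br]
  have hPL : PLinf 1 S.d (af (RatFunc κ) S.FK) := by
    obtain ⟨E, _, _, y, e, dK, d, hKL, -⟩ := exists_KL (by omega : 0 < S.d) Nat.one_pos
      (af (RatFunc κ) S.FK) hwt (irreducible_of_sm (by omega) Nat.one_pos hwt hSm hTp) hTp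
    exact hKL.plinf_etale
  have hv : LinearIndependent (RatFunc κ) (fun a => σ 0 (η a)) := by
    rw [Fintype.linearIndependent_iff]
    intro g hg
    have h1 : σ 0 (∑ a, cc (g a) * η a) = 0 := by
      rw [map_sum, ← hg]
      refine Finset.sum_congr rfl fun a _ => ?_
      rw [← map_smul]
      congr 1
      rw [Algebra.smul_def]
      rfl
    obtain ⟨b, e, hbe⟩ := (h.ker _).1 h1
    obtain ⟨h2, -⟩ := claimL Nat.one_pos (by omega) hwt hη hPL g b e hbe
    intro i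
    rw [h2]
    rfl
  have hp : ∀ i : Gx 1 S.d, ∃ P : MvPolynomial (Fin 3) (RatFunc κ), Hm (S.d - 3) P ∧
      af (RatFunc κ) P = η (Sum.inl i) := exists_hz_eta hwt hη
  choose P hP1 hP2 using hp
  have hne : Nonempty (Gx 1 S.d) :=
    ⟨⟨⟨S.d - 1, by omega⟩, ⟨0, by show 0 < 1 * (S.d - 1) - 1; omega⟩⟩⟩
  refine exists_theta hδ nab hG.leib D hD.add hD.leib c hc irr (fun a => σ 0 (η a)) hv Δ hΔ G
    (fun a => conn_eta h hD hGM a) flat (fun i => brP S.d S.FK (P i)) ?_ ?_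
  · intro i
    rw [hc1 _ (hP1 i), hP2]
  · intro ht
    obtain ⟨u, v, huv, -⟩ := MPadcBN.bl_pair S hS hP
    refine huv (K5_span _ B (fun i j => ?_) ht _ _)
    exact K5_low B (brP S.d S.FK) hP.low (by omega) (P i) (P j) (hP1 i) (hP1 j)

end MPadcPC
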