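import Pool.Agent.Lib.MP_adc574_ag_PC.U1

/-!
# U6: the pencil of a Morse polynomial

Write `G = hz d a`, `H = X 2 ^ d`.
PROOF of `lef_of_morse` (`IsSing G H τ x`: `x ≠ 0`, `∂_i G (x) = τ ∂_i H (x)`). `∂_0 H = ∂_1 H = 0`, `∂_2 H = d X 2 ^ (d - 1)`.
base: if `x 2 = 0` then `∂_0 G (x) = ∂_1 G (x) = 0` with `(x 0, x 1) ≠ 0`, against `hM.top` (`x = ![x 0, x 1, 0]`). So `x 2 ≠ 0`.
Let `p = (x 0 / x 2, x 1 / x 2)`. By homogeneity (`∂_i G` has degree `d - 1`, `∂_i ∂_j G` degree `d - 2`; values at `x = x 2 • ![p.1, p.2, 1]`; `aeval_hom` of LZ/GeoB.lean) `IsCrit a p.1 p.2`, and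
by Euler `d (G(x) - τ x 2 ^ d) = ∑ x i ∂_i (G - τ H)(x) = 0`, so `vh G p.1 p.2 = τ`.
node: let `v` be in the kernel of the Hessian of `Q = G - C τ * H` at `x`. By Euler for `∂_a Q` (degree `d - 1`): `∑ b, ∂_a ∂_b Q (x) x_b = (d - 1) ∂_a Q (x) = 0`. So `v' = v - (v 2 / x 2) • x` is in the kernel and `v' 2 = 0`. For `a, b ∈ {0, 1}`:
`∂_a ∂_b Q (x) = x 2 ^ (d - 2) * vh (∂_a ∂_b G) p`, with determinant `x 2 ^ (2 (d - 2)) * hess ≠ 0` (`hM.node`), so `v' 0 = v' 1 = 0` and `v = (v 2 / x 2) • x`.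
uniq: `x`, `y` singular for the same `τ`: both `p`, `p'` are critical with the same value `τ`, so `p = p'` (`hM.val`), `y = (y 2 / x 2) • x`.
PROOF of `inf_of_morse`: the ideal `I = span {∂_0 G, ∂_1 G, X 2}` has only the zero `0` in `κ³` (`hM.top`), so `X i ^ M ∈ I` for all `i` (`null_c` of LZ/GeoA.lean), and a monomial of degree `≥ 3 M` is divisible by some
`X i ^ M` (compare `mono_mem`, `exists_jac` in LZ/Geo*.lean).
-/

set_option autoImplicit false

namespace MPadcPC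

open Polynomial MPadcLF MPadcLZ MPadcHM

universe u

private theorem U6_ev {κ : Type u} [CommRing κ] {N m : ℕ} (c : κ) (p : Fin N → κ) (P : MvPolynomial (Fin N) κ) (hP : Hm m P) :
    MvPolynomial.eval (fun k => c * p k) P = c ^ m * MvPolynomial.eval p P := by
  have h := aeval_hom (R := κ) (A := κ) c p P hP
  simpa using h

private theorem U6_scale {κ : Type u} [Field κ] (x : Fin 3 → κ) (h : x 2 ≠ 0) :
    x = fun k => x 2 * (![x 0 / x 2, x 1 / x 2, 1] : Fin 3 → κ) k := by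
  funext k
  fin_cases k
  · simp only [Fin.zero_eta, Matrix.cons_val_zero]
    rw [mul_div_cancel₀ _ h]
  · simp only [Fin.mk_one, Matrix.cons_val_one, Matrix.cons_val_zero]
    rw [mul_div_cancel₀ _ h]
  · simp

private theorem U6_H {κ : Type u} [Field κ] (d : ℕ) (i : Fin 3) (hi : i ≠ 2) :
    MvPolynomial.pderiv i ((MvPolynomial.X 2 : MvPolynomial (Fin 3) κ) ^ d) = 0 := by
  rw [MvPolynomial.pderiv_pow, MvPolynomial.pderiv_X_of_ne (Ne.symm hi), mul_zero]

private theorem U6_comm {κ : Type u} [CommRing κ] {N : ℕ} (i j : Fin N) (p : MvPolynomial (Fin N) κ) :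
    MvPolynomial.pderiv i (MvPolynomial.pderiv j p) = MvPolynomial.pderiv j (MvPolynomial.pderiv i p) := by
  rcases eq_or_ne i j with h | h
  · rw [h]
  · ext m
    rw [MvPolynomial.coeff_pderiv, MvPolynomial.coeff_pderiv, MvPolynomial.coeff_pderiv, MvPolynomial.coeff_pderiv, add_right_comm]
    have h1 : (m + Finsupp.single i 1 : Fin N →₀ ℕ) j = m j := by
      rw [Finsupp.add_apply, Finsupp.single_eq_of_ne (Ne.symm h), add_zero]
    have h2 : (m + Finsupp.single j 1 : Fin N →₀ ℕ) i = m i := by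
      rw [Finsupp.add_apply, Finsupp.single_eq_of_ne h, add_zero]
    rw [h1, h2]
    ring

private theorem U6_ne {κ : Type u} [Field κ] [CharZero κ] {d : ℕ} (a : Ic d → κ) (hM : Morse a) (τ : κ) (x : Fin 3 → κ)
    (hs : IsSing (hz d a) (MvPolynomial.X 2 ^ d) τ x) : x 2 ≠ 0 := by
  intro h2
  have hx : x = ![x 0, x 1, 0] := by
    funext k
    fin_cases k
    · rfl
    · rfl
    · simpa using h2
  refine hM.top (x 0) (x 1) ?_ ⟨?_, ?_⟩
  · rintro ⟨h0, h1⟩
    apply hs.1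
    rw [hx, h0, h1]
    funext k
    fin_cases k <;> simp
  · rw [← hx, hs.2 0, U6_H d 0 (by decide), map_zero, mul_zero]
  · rw [← hx, hs.2 1, U6_H d 1 (by decide), map_zero, mul_zero]

private theorem U6_crit {κ : Type u} [Field κ] [CharZero κ] {d : ℕ} (hd : 3 ≤ d) (a : Ic d → κ) (hM : Morse a) (τ : κ) (x : Fin 3 → κ)
    (hs : IsSing (hz d a) (MvPolynomial.X 2 ^ d) τ x) :
    IsCrit a (x 0 / x 2) (x 1 / x 2) ∧ vh (hz d a) (x 0 / x 2) (x 1 / x 2) = τ := by
  have h2 := U6_ne a hM τ x hs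
  have hG : (hz d a).IsHomogeneous d := Hm_iff.1 (hm_hz a)
  have hsc := U6_scale x h2
  have hc : ∀ i : Fin 3, i ≠ 2 → vh (MvPolynomial.pderiv i (hz d a)) (x 0 / x 2) (x 1 / x 2) = 0 := by
    intro i hi
    have h3 := hs.2 i
    rw [U6_H d i hi, map_zero, mul_zero] at h3
    have h4 := U6_ev (x 2) ![x 0 / x 2, x 1 / x 2, 1] _ (Hm_iff.2 (hG.pderiv (i := i)))
    rw [← hsc, h3] at h4
    exact (mul_eq_zero.1 h4.symm).resolve_left (pow_ne_zero _ h2)
  refine ⟨⟨hc 0 (by decide), hc 1 (by decide)⟩, ?_⟩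
  have hE := congrArg (MvPolynomial.eval x) hG.sum_X_mul_pderiv
  have hH : ((MvPolynomial.X 2 : MvPolynomial (Fin 3) κ) ^ d).IsHomogeneous d := by
    have := (MvPolynomial.isHomogeneous_X κ (2 : Fin 3)).pow d
    rwa [one_mul] at this
  have hE' := congrArg (MvPolynomial.eval x) hH.sum_X_mul_pderiv
  simp only [map_sum, map_mul, MvPolynomial.eval_X, nsmul_eq_mul, map_pow, map_natCast] at hE hE'
  have h5 : (d : κ) * MvPolynomial.eval x (hz d a) = (d : κ) * (τ * x 2 ^ d) := by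
    rw [← hE, mul_left_comm, ← hE', Finset.mul_sum]
    refine Finset.sum_congr rfl fun i _ => ?_
    rw [hs.2 i]
    ring
  have hd0 : (d : κ) ≠ 0 := Nat.cast_ne_zero.2 (by omega)
  have h6 := mul_left_cancel₀ hd0 h5
  have h7 := U6_ev (x 2) ![x 0 / x 2, x 1 / x 2, 1] _ (hm_hz a)
  rw [← hsc, h6, mul_comm τ] at h7
  exact (mul_left_cancel₀ (pow_ne_zero _ h2) h7).symm

theorem lef_of_morse {κ : Type u} [Field κ] [CharZero κ] [IsAlgClosed κ] {d : ℕ} (hd : 3 ≤ d) (a : Ic d → κ) (hM : Morse a) :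
    IsLef (hz d a) (MvPolynomial.X 2 ^ d) := by
  refine ⟨fun τ x hs => ?_, fun τ x hs v hv => ?_, fun τ x y hx hy => ?_⟩
  · rw [map_pow, MvPolynomial.eval_X]
    exact pow_ne_zero _ (U6_ne a hM τ x hs)
  · have h2 := U6_ne a hM τ x hs
    obtain ⟨hc, hτ⟩ := U6_crit hd a hM τ x hs
    have hsc := U6_scale x h2
    have hG : (hz d a).IsHomogeneous d := Hm_iff.1 (hm_hz a)
    have hH : ((MvPolynomial.X 2 : MvPolynomial (Fin 3) κ) ^ d).IsHomogeneous d := by
      have := (MvPolynomial.isHomogeneous_X κ (2 : Fin 3)).pow d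
      rwa [one_mul] at this
    have hQ : (hz d a - MvPolynomial.C τ * MvPolynomial.X 2 ^ d).IsHomogeneous d :=
      hG.sub (by
        have := (MvPolynomial.isHomogeneous_C (Fin 3) τ).mul hH
        rwa [zero_add] at this)
    -- the point itself is in the kernel
    have hker : ∀ i : Fin 3, ∑ b, MvPolynomial.eval x (MvPolynomial.pderiv i (MvPolynomial.pderiv b
        (hz d a - MvPolynomial.C τ * MvPolynomial.X 2 ^ d))) * x b = 0 := by
      intro i
      have h3 := congrArg (MvPolynomial.eval x) (hQ.pderiv (i := i)).sum_X_mul_pderiv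
      have h4 : MvPolynomial.eval x (MvPolynomial.pderiv i (hz d a - MvPolynomial.C τ * MvPolynomial.X 2 ^ d)) = 0 := by
        rw [map_sub, MvPolynomial.pderiv_C_mul, map_sub, map_mul, MvPolynomial.eval_C, hs.2 i, sub_self]
      simp only [map_sum, map_mul, MvPolynomial.eval_X, map_nsmul, h4, smul_zero] at h3
      rw [← h3]
      refine Finset.sum_congr rfl fun b _ => ?_
      rw [U6_comm i b, mul_comm]
    set c : κ := v 2 / x 2 with hcdef
    have hv' : ∀ i : Fin 3, ∑ b, MvPolynomial.eval x (MvPolynomial.pderiv i (MvPolynomial.pderiv b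
        (hz d a - MvPolynomial.C τ * MvPolynomial.X 2 ^ d))) * (v b - c * x b) = 0 := by
      intro i
      have h3 := hv i
      have h4 := hker i
      calc _ = (∑ b, MvPolynomial.eval x (MvPolynomial.pderiv i (MvPolynomial.pderiv b
        (hz d a - MvPolynomial.C τ * MvPolynomial.X 2 ^ d))) * v b) - c * ∑ b, MvPolynomial.eval x (MvPolynomial.pderiv i (MvPolynomial.pderiv b
        (hz d a - MvPolynomial.C τ * MvPolynomial.X 2 ^ d))) * x b := by
            rw [Finset.mul_sum, ← Finset.sum_sub_distrib]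
            refine Finset.sum_congr rfl fun b _ => ?_
            ring
        _ = 0 := by rw [h3, h4, mul_zero, sub_zero]
    have hz2 : v 2 - c * x 2 = 0 := by
      rw [hcdef, div_mul_cancel₀ _ h2, sub_self]
    have hent : ∀ i b : Fin 3, b ≠ 2 → MvPolynomial.eval x (MvPolynomial.pderiv i (MvPolynomial.pderiv b
        (hz d a - MvPolynomial.C τ * MvPolynomial.X 2 ^ d))) =
        x 2 ^ (d - 1 - 1) * vh (MvPolynomial.pderiv i (MvPolynomial.pderiv b (hz d a))) (x 0 / x 2) (x 1 / x 2) := by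
      intro i b hb
      rw [map_sub, MvPolynomial.pderiv_C_mul, U6_H d b hb, mul_zero, sub_zero]
      have h4 := U6_ev (x 2) ![x 0 / x 2, x 1 / x 2, 1] _ (Hm_iff.2 ((hG.pderiv (i := b)).pderiv (i := i)))
      rw [← hsc] at h4
      exact h4
    have hp : x 2 ^ (d - 1 - 1) ≠ 0 := pow_ne_zero _ h2
    have hA := hv' 0
    have hB := hv' 1
    rw [Fin.sum_univ_three, hz2, mul_zero, add_zero, hent 0 0 (by decide), hent 0 1 (by decide)] at hA
    rw [Fin.sum_univ_three, hz2, mul_zero, add_zero, hent 1 0 (by decide), hent 1 1 (by decide), U6_comm 1 0] at hB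
    have hN := hM.node _ _ hc
    unfold hess at hN
    set q00 := vh (MvPolynomial.pderiv 0 (MvPolynomial.pderiv 0 (hz d a))) (x 0 / x 2) (x 1 / x 2) with hq00
    set q01 := vh (MvPolynomial.pderiv 0 (MvPolynomial.pderiv 1 (hz d a))) (x 0 / x 2) (x 1 / x 2) with hq01
    set q11 := vh (MvPolynomial.pderiv 1 (MvPolynomial.pderiv 1 (hz d a))) (x 0 / x 2) (x 1 / x 2) with hq11
    have hA' : q00 * (v 0 - c * x 0) + q01 * (v 1 - c * x 1) = 0 := by
      refine (mul_eq_zero.1 ?_).resolve_left hp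
      rw [← hA]
      ring
    have hB' : q01 * (v 0 - c * x 0) + q11 * (v 1 - c * x 1) = 0 := by
      refine (mul_eq_zero.1 ?_).resolve_left hp
      rw [← hB]
      ring
    have h0 : v 0 - c * x 0 = 0 := by
      refine (mul_eq_zero.1 ?_).resolve_left hN
      linear_combination q11 * hA' - q01 * hB'
    have h1 : v 1 - c * x 1 = 0 := by
      refine (mul_eq_zero.1 ?_).resolve_left hN
      linear_combination q00 * hB' - q01 * hA'
    refine ⟨c, ?_⟩
    funext k
    fin_cases k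
    · exact sub_eq_zero.1 h0
    · exact sub_eq_zero.1 h1
    · exact sub_eq_zero.1 hz2
  · have hx2 := U6_ne a hM τ x hx
    have hy2 := U6_ne a hM τ y hy
    obtain ⟨hcx, hτx⟩ := U6_crit hd a hM τ x hx
    obtain ⟨hcy, hτy⟩ := U6_crit hd a hM τ y hy
    obtain ⟨h0, h1⟩ := hM.val _ _ _ _ hcx hcy (hτx.trans hτy.symm)
    refine ⟨y 2 / x 2, ?_⟩
    have e1 := U6_scale y hy2
    rw [← h0, ← h1] at e1
    funext k
    have e2 := congrFun e1 k
    have e3 := congrFun (U6_scale x hx2) k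
    rw [Pi.smul_apply, smul_eq_mul, e3, ← mul_assoc, div_mul_cancel₀ _ hx2]
    exact e2

theorem inf_of_morse {κ : Type u} [Field κ] [CharZero κ] [IsAlgClosed κ] {d : ℕ} (hd : 3 ≤ d) (a : Ic d → κ) (hM : Morse a) :
    ∃ M₀ : ℕ, ∀ e : Fin 3 →₀ ℕ, M₀ ≤ dg e → MvPolynomial.monomial e (1 : κ) ∈
      Ideal.span ({P | ∃ i, i ≠ 2 ∧ P = MvPolynomial.pderiv i (hz d a)} ∪ {MvPolynomial.X 2}) := by
  obtain ⟨M, hMM⟩ := null_c (Ideal.span ({P | ∃ i, i ≠ 2 ∧ P = MvPolynomial.pderiv i (hz d a)} ∪ {MvPolynomial.X 2})) (by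
    intro x hx
    have h2 : x 2 = 0 := by
      have := hx (MvPolynomial.X 2) (Ideal.subset_span (Or.inr rfl))
      rwa [MvPolynomial.eval_X] at this
    have hxx : x = ![x 0, x 1, 0] := by
      funext k
      fin_cases k
      · rfl
      · rfl
      · simpa using h2
    have h3 : ∀ i : Fin 3, i ≠ 2 → MvPolynomial.eval ![x 0, x 1, 0] (MvPolynomial.pderiv i (hz d a)) = 0 := by
      intro i hi
      rw [← hxx]
      exact hx _ (Ideal.subset_span (Or.inl ⟨i, hi, rfl⟩))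
    by_contra hne
    refine hM.top (x 0) (x 1) ?_ ⟨h3 0 (by decide), h3 1 (by decide)⟩
    rintro ⟨h0, h1⟩
    apply hne
    rw [hxx, h0, h1]
    funext k
    fin_cases k <;> simp)
  exact ⟨3 * M, fun e he => mono_mem (by norm_num) _ M hMM e he⟩

end MPadcPC
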