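import Pool.Agent.Lib.MP_adc574_ag_PC.K5
import Pool.Agent.Lib.MP_adc574_ag_PC.K6
import Pool.Agent.Lib.MP_adc574_ag_PC.L4
import Pool.Agent.Lib.MP_adc574_ag_PC.U6

/-!
# K7: the level curves of a Morse polynomial have big monodromy

PROOF. `lef_of_morse`, `inf_of_morse` (U6) and `exists_pdat` (`N = 3`, `G = hz d a`, `H = X 2 ^ d`, `Hm d H`; MP_adc574_ag_LZ/GeoMain.lean, with the `M₀` of `inf_of_morse`) give `S : PDat κ 3` with `S.d = d` (subst), `S.G = hz d a`, `S.H = X 2 ^ S.d`,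
`M₀ ≤ S.M`, `hS : S.Ok`. Follow the proof of `big_pdat` in MP_adc574_ag_BN/BigL.lean: `exists_hg`, `exists_pp`, `infw_morse` (K6), `pk_exists`, `mo_fin`, `bl_pair` (nontrivial), `bl_sign`, `halt` (`3` is odd), `exists_LB`, `irr_pdat`,
`bl_loc`. `K5.exists_pbasis` with `F = mp (algebraMap κ[X] (RatFunc κ)) (fT d a)`: `hF` is `af_fk` with `af_hz` and the definition of `fT`; `hwt = (wt_fT ..).map`; `hSm`, `hTp`: `Sm.map`, `sm_one`, `Tp.map`, `tp_one` (MP_adc574_ag_LF/Nat.lean, Bridge.lean) since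
the image of `Δ` is not 0; `hη`: `HB.map`; `hGM`: `IsGM.map` (`DK κ (algebraMap q) = algebraMap (derivative q)`, `DK_poly`); `flat`: `flat_map`. This gives a basis indexed by `IX 1 d`; reindex it by `eN 1 d` : `IX 1 d ≃ Nx (gn 1 d)`:
then `he` of `L4.big_of_mo` holds for `Gm G` (definition of `Gm`). `0 < gn 1 d`: `Gx 1 d` contains `(d - 1, 0)`. `symp_gm` (K6) gives `symp`. Apply `big_of_mo`.
-/

set_option autoImplicit false

namespace MPadcPC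

open Polynomial Matrix MPadcLF MPadcLZ MPadcHM MPadcOA MPadcBM MPadcBN

private theorem K7_DK (κ : Type) [Field κ] : IsDer (fun k : RatFunc κ => DK κ k) := by
  constructor
  · intro a b
    exact map_add (DK κ) a b
  · intro a b
    show DK κ (a * b) = a * DK κ b + b * DK κ a
    rw [Derivation.leibniz, smul_eq_mul, smul_eq_mul]

private theorem K7_main {κ : Type} [Field κ] [CharZero κ] [IsAlgClosed κ] (S : PDat κ 3) (hS : S.Ok)
    (hH : S.H = MvPolynomial.X 2 ^ S.d) (a : Ic S.d → κ) (hSG : S.G = hz S.d a)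
    (hG0 : ∀ e : Fin 3 →₀ ℕ, S.M ≤ dg e → MvPolynomial.monomial e (1 : κ) ∈
      Ideal.span ({P | ∃ i, i ≠ 2 ∧ P = MvPolynomial.pderiv i S.G} ∪ {MvPolynomial.X 2}))
    {η : IX 1 S.d → κ[X][X][X]} (hη : HB 1 S.d (fT S.d a) η) {Δ : κ[X]} (hΔ : Δ ≠ 0)
    {G : Matrix (IX 1 S.d) (IX 1 S.d) κ[X]}
    (hGM : IsGM (fun q : κ[X] => derivative q) Δ (fT S.d a) η G)
    (flat : G.transpose * J0 κ[X] (Gx 1 S.d) + J0 κ[X] (Gx 1 S.d) * G = 0) (hSm : Sm (fT S.d a) Δ)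
    (hTp : Tp 1 S.d (fT S.d a) Δ) : Big Δ (Gm G) := by
  classical
  have hd : 3 ≤ S.d := hS.hd
  obtain ⟨nab, hG⟩ := exists_hg S hS
  obtain ⟨B, rho, hP⟩ := exists_pp S hS hG
  obtain ⟨s, r₀, g, w, W₀, hIW⟩ := infw_morse S hS 2 hH hG0 nab hG
  obtain ⟨k, E, u, al, hK⟩ := pk_exists S hS hG
  have hfin := mo_fin S hS hG hP
  obtain ⟨u₁, v₁, hne, -⟩ := bl_pair S hS hP
  have hnt : Nontrivial (PKm S.d S.FK) := by
    refine ⟨⟨brP S.d S.FK (MvPolynomial.monomial u₁ 1), 0, fun h0 => hne ?_⟩⟩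
    rw [h0, map_zero, LinearMap.zero_apply]
  have hsign : ∀ x y, B y x = (-1) ^ 3 * B x y := bl_sign S hS hG hP hIW
  have halt : ∀ x y, B y x = -B x y := by
    intro x y
    rw [hsign, (show Odd 3 by decide).neg_one_pow, neg_one_mul]
  obtain ⟨n, b, hb⟩ := exists_LB hK.ld.fg hK.ld.spn
  have irr := irr_pdat S hS hG hP hIW
  have hinj : Function.Injective (algebraMap κ[X] (RatFunc κ)) := RatFunc.algebraMap_injective κ
  have hΔ' : algebraMap κ[X] (RatFunc κ) Δ ≠ 0 := (map_ne_zero_iff _ hinj).2 hΔ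
  have hwt : Wt 1 S.d (fT S.d a) := wt_fT (by omega) a
  have hF : af (RatFunc κ) S.FK = mp (algebraMap κ[X] (RatFunc κ)) (fT S.d a) := by
    rw [af_fk S hH, hSG, af_hz]
    rfl
  have hGM' := IsGM.map (algebraMap κ[X] (RatFunc κ)) (isDer_derivative κ) (K7_DK κ)
    (fun q => (DK_poly κ q).symm) hGM
  obtain ⟨e0, he0⟩ := exists_pbasis S hS hG hP irr hF (hwt.map (algebraMap κ[X] (RatFunc κ)))
    (sm_one (Sm.map (algebraMap κ[X] (RatFunc κ)) hSm) hΔ')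
    (tp_one (Tp.map (algebraMap κ[X] (RatFunc κ)) hTp) hΔ')
    (HB.map (algebraMap κ[X] (RatFunc κ)) hwt.monic hη) hΔ' hGM' (flat_map (algebraMap κ[X] (RatFunc κ)) flat)
  have hg : 0 < gn 1 S.d := by
    have : Nonempty (Gx 1 S.d) := ⟨⟨⟨S.d - 1, by omega⟩, ⟨0, by
      show 0 < 1 * (S.d - 1) - 1
      omega⟩⟩⟩
    exact Fintype.card_pos
  refine big_of_mo hG.leib hK.ld.fg hK.ld.spn b hb hIW.ok irr (bl_loc S hS hG hK hP halt b hb) hg
    (e0.reindex (eN 1 S.d)) Δ hΔ (Gm G) (symp_gm G flat) fun l => ?_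
  rw [Module.Basis.reindex_apply, he0, ← Equiv.sum_comp (eN 1 S.d).symm]
  refine Finset.sum_congr rfl fun l' _ => ?_
  rw [Module.Basis.reindex_apply]
  rfl

theorem big_plane {κ : Type} [Field κ] [CharZero κ] [IsAlgClosed κ] {d : ℕ} (hd : 3 ≤ d) (a : Ic d → κ) (hM : Morse a)
    {η : IX 1 d → κ[X][X][X]} (hη : HB 1 d (fT d a) η) {Δ : κ[X]} (hΔ : Δ ≠ 0) {G : Matrix (IX 1 d) (IX 1 d) κ[X]}
    (hGM : IsGM (fun q : κ[X] => derivative q) Δ (fT d a) η G)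
    (flat : G.transpose * J0 κ[X] (Gx 1 d) + J0 κ[X] (Gx 1 d) * G = 0) (hSm : Sm (fT d a) Δ) (hTp : Tp 1 d (fT d a) Δ) :
    Big Δ (Gm G) := by
  obtain ⟨M₀, hM₀⟩ := inf_of_morse hd a hM
  have hHm : Hm d (MvPolynomial.X 2 ^ d : MvPolynomial (Fin 3) κ) :=
    Hm_iff.2 (MvPolynomial.isHomogeneous_X_pow (R := κ) (2 : Fin 3) d)
  obtain ⟨S, hSd, hSG, hSH, hSM, hS⟩ := exists_pdat (le_refl 3) hd (hz d a) (MvPolynomial.X 2 ^ d) (hm_hz a) hHm
    (lef_of_morse hd a hM) M₀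
  subst hSd
  exact K7_main S hS hSH a hSG (fun e he => by
    rw [hSG]
    exact hM₀ e (hSM.trans he)) hη hΔ hGM flat hSm hTp

end MPadcPC
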