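import Pool.Agent.Lib.MP_adc574_ag_PC.FR
import Pool.Agent.Lib.MP_adc574_ag_LZ.PK
import Pool.Agent.Lib.MP_adc574_ag_LF.Ssq

/-!
# Polar classes: definitions

`F(x, Y) = 0` is a smooth affine curve over `K`. The class of `(-1) ^ a a! P dx dY / F ^ (a + 1)` (modulo exact forms on the complement of
the curve) is `σ a P`; the classes `σ 0 P` are the classes of the forms `P dx / F_Y` on the curve modulo exact forms.
-/

set_option autoImplicit false

namespace MPadcPC

open Polynomial MPadcLF

/-- The polar classes. -/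
structure Pol {K : Type*} [Field K] (F : K[X][X]) {V : Type*} [AddCommGroup V] [Module K V]
    (σ : ℕ → K[X][X] →ₗ[K] V) : Prop where
  surj : Function.Surjective (σ 0)
  ker : ∀ h, σ 0 h = 0 ↔ ∃ B e, h = br F B + e * F
  mulF : ∀ a P, σ (a + 1) (F * P) = -(((a + 1 : ℕ) : K) • σ a P)
  dx : ∀ a B, σ (a + 1) (px F * B) = - σ a (px B)
  dy : ∀ a B, σ (a + 1) (py F * B) = - σ a (py B)

/-- The connection on the polar classes. -/
structure PolD {K : Type*} [Field K] (F : K[X][X]) {V : Type*} [AddCommGroup V] [Module K V]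
    (σ : ℕ → K[X][X] →ₗ[K] V) (δ : K → K) (D : V → V) : Prop where
  add : ∀ u v, D (u + v) = D u + D v
  leib : ∀ (k : K) v, D (k • v) = δ k • v + k • D v
  cls : ∀ a P, D (σ a P) = σ a (pT δ P) + σ (a + 1) (pT δ F * P)

/-- The dehomogenisation. -/
noncomputable def af (K : Type*) [CommRing K] : MvPolynomial (Fin 3) K →ₐ[K] K[X][X] :=
  MvPolynomial.aeval ![C X, X, 1]

end MPadcPC
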