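import Pool.Agent.Lib.MP_adc574_ag_PC.LD

/-!
# L1: the multilinear forms of an array

PROOF. `om_apply`: `MultilinearMap.sum_apply`, `smul_apply`, `compLinearMap_apply`, `mkPiAlgebra_apply`, `LinearMap.flip_apply`. `om_add`, `om_smul`: from `om_apply`.
`om_inj`: let `φ t l ≠ 0` for some `t : Fin m → Fin g`, `l : Fin m → Nx g` (an element `s` of `Kx g m` is `fun i => (t i, l i)`). Take
`v i = e (Sum.inr a)` if `l i = Sum.inl a` and `v i = - e (Sum.inl a)` if `l i = Sum.inr a`. With `hB` and the definition of `JJ`,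
`B (v i) (e l') = if l' = l i then 1 else 0`, so `om B e φ t v = φ (t, l)`.
`om_KS`: `(KS Y *ᵥ φ) (t, l') = ∑ u, ∑ l₁ : Nx g, Y (l' u) l₁ * φ (t, update l' u l₁)` (definition of `KS`: the `s'` with
`s' = update s i ((s i).1, (s' i).2)` are the `(t, update l' u l₁)`). Insert `y (l u) = ∑ l₁, Y l₁ (l u) • e l₁` on the left, and exchange the sums:
for fixed `u` the pairs `(l, l₁)` and `(l' = update l u l₁, l u)` correspond (`Finset.sum_bij'` or `Equiv.sum_comp` with
`Equiv.funSplitAt` / `Function.update`), the product becomes `∏ i, B (v i) (e (l' i))` (`Finset.mul_prod_erase`).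
-/

set_option autoImplicit false

namespace MPadcPC

open Polynomial Matrix MPadcOA

variable {K : Type*} [Field K] {M : Type*} [AddCommGroup M] [Module K M] {g m : ℕ} (B : M →ₗ[K] M →ₗ[K] K)

private def L1_sw {m : ℕ} {α : Type} (u : Fin m) : ((Fin m → α) × α) ≃ ((Fin m → α) × α) where
  toFun p := (Function.update p.1 u p.2, p.1 u)
  invFun p := (Function.update p.1 u p.2, p.1 u)
  left_inv p := by
    refine Prod.ext ?_ ?_
    · change Function.update (Function.update p.1 u p.2) u (p.1 u) = p.1
      rw [Function.update_idem, Function.update_eq_self]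
    · change Function.update p.1 u p.2 u = p.2
      rw [Function.update_self]
  right_inv p := by
    refine Prod.ext ?_ ?_
    · change Function.update (Function.update p.1 u p.2) u (p.1 u) = p.1
      rw [Function.update_idem, Function.update_eq_self]
    · change Function.update p.1 u p.2 u = p.2
      rw [Function.update_self]

omit [AddCommGroup M] [Module K M] in
private theorem L1_KS (Y : Matrix (Nx g) (Nx g) K) (φ : Kx g m → K) (s : Kx g m) :
    (KS Y *ᵥ φ) s = ∑ u, ∑ l₁ : Nx g, Y (s u).2 l₁ * φ (Function.update s u ((s u).1, l₁)) := by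
  classical
  have h1 : (KS Y *ᵥ φ) s = ∑ s' : Kx g m, (∑ u, if s' = Function.update s u ((s u).1, (s' u).2) then
      Y (s u).2 (s' u).2 else 0) * φ s' := rfl
  rw [h1]
  have h2 : ∀ s' : Kx g m, (∑ u, if s' = Function.update s u ((s u).1, (s' u).2) then
      Y (s u).2 (s' u).2 else 0) * φ s' = ∑ u, (if s' = Function.update s u ((s u).1, (s' u).2) then
      Y (s u).2 (s' u).2 else 0) * φ s' := fun s' => Finset.sum_mul _ _ _
  rw [Finset.sum_congr rfl fun s' _ => h2 s', Finset.sum_comm]
  refine Finset.sum_congr rfl fun u _ => ?_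
  have h3 : ∀ l₁ : Nx g, Y (s u).2 l₁ * φ (Function.update s u ((s u).1, l₁)) =
      ∑ s' : Kx g m, if s' = Function.update s u ((s u).1, l₁) then
        (if s' = Function.update s u ((s u).1, (s' u).2) then Y (s u).2 (s' u).2 else 0) * φ s' else 0 := by
    intro l₁
    rw [Finset.sum_ite_eq' Finset.univ, if_pos (Finset.mem_univ _), Function.update_self, if_pos rfl]
  rw [Finset.sum_congr rfl fun l₁ _ => h3 l₁, Finset.sum_comm]
  refine Finset.sum_congr rfl fun s' _ => ?_
  by_cases h4 : s' = Function.update s u ((s u).1, (s' u).2)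
  · rw [Finset.sum_eq_single (s' u).2]
    · rw [if_pos h4, if_pos h4]
    · intro l₁ _ hl
      rw [if_neg]
      intro h5
      apply hl
      rw [h5, Function.update_self]
    · intro h5
      exact absurd (Finset.mem_univ _) h5
  · rw [if_neg h4, zero_mul]
    symm
    refine Finset.sum_eq_zero fun l₁ _ => ?_
    split_ifs <;> rfl

theorem om_apply (e : Nx g → M) (φ : Kx g m → K) (t : Fin m → Fin g) (v : Fin m → M) :
    om B e φ t v = ∑ l : Fin m → Nx g, φ (fun i => (t i, l i)) * ∏ i, B (v i) (e (l i)) := by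
  unfold om
  rw [_root_.sum_apply]
  refine Finset.sum_congr rfl fun l _ => ?_
  rw [_root_.smul_apply, MultilinearMap.compLinearMap_apply, MultilinearMap.mkPiAlgebra_apply, smul_eq_mul]
  rfl

theorem om_add (e : Nx g → M) (φ ψ : Kx g m → K) : om B e (φ + ψ) = om B e φ + om B e ψ := by
  funext t
  refine MultilinearMap.ext fun v => ?_
  rw [Pi.add_apply, _root_.add_apply, om_apply, om_apply, om_apply, ← Finset.sum_add_distrib]
  refine Finset.sum_congr rfl fun l _ => ?_
  rw [Pi.add_apply, add_mul]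

theorem om_smul (e : Nx g → M) (c : K) (φ : Kx g m → K) : om B e (c • φ) = c • om B e φ := by
  funext t
  refine MultilinearMap.ext fun v => ?_
  rw [Pi.smul_apply, _root_.smul_apply, om_apply, om_apply, Finset.smul_sum]
  refine Finset.sum_congr rfl fun l _ => ?_
  rw [Pi.smul_apply, smul_eq_mul, smul_eq_mul, mul_assoc]

theorem om_inj (e : Nx g → M) (hB : ∀ a b, B (e a) (e b) = - JJ g K a b) (φ : Kx g m → K) (h : om B e φ = 0) : φ = 0 := by
  classical
  funext s
  rw [Pi.zero_apply]
  obtain ⟨v, hv⟩ : ∃ v : Fin m → M, ∀ i l', B (v i) (e l') = if l' = (s i).2 then 1 else 0 := by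
    have h1 : ∀ l : Nx g, ∃ w : M, ∀ l', B w (e l') = if l' = l then 1 else 0 := by
      rintro (a | a)
      · refine ⟨e (Sum.inr a), ?_⟩
        rintro (b | b)
        · rw [hB, JJ, Matrix.fromBlocks_apply₂₁, Matrix.neg_apply, neg_neg, Matrix.one_apply]
          by_cases hab : a = b
          · rw [if_pos hab, if_pos (congrArg Sum.inl hab.symm)]
          · rw [if_neg hab, if_neg fun h => hab (Sum.inl_injective h).symm]
        · rw [hB, JJ, Matrix.fromBlocks_apply₂₂, Matrix.zero_apply, neg_zero, if_neg Sum.inr_ne_inl]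
      · refine ⟨- e (Sum.inl a), ?_⟩
        rintro (b | b)
        · rw [map_neg, LinearMap.neg_apply, hB, neg_neg, JJ, Matrix.fromBlocks_apply₁₁, Matrix.zero_apply,
            if_neg Sum.inl_ne_inr]
        · rw [map_neg, LinearMap.neg_apply, hB, neg_neg, JJ, Matrix.fromBlocks_apply₁₂, Matrix.one_apply]
          by_cases hab : a = b
          · rw [if_pos hab, if_pos (congrArg Sum.inr hab.symm)]
          · rw [if_neg hab, if_neg fun h => hab (Sum.inr_injective h).symm]
    choose w hw using h1
    exact ⟨fun i => w (s i).2, fun i l' => hw _ l'⟩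
  have h2 : om B e φ (fun i => (s i).1) v = 0 := by
    rw [h]
    rfl
  rw [om_apply, Finset.sum_eq_single fun i => (s i).2] at h2
  · rw [Finset.prod_eq_one fun i _ => by rw [hv, if_pos rfl], mul_one] at h2
    exact h2
  · intro l _ hl
    obtain ⟨i, hi⟩ : ∃ i, l i ≠ (s i).2 := by
      by_contra h3
      push Not at h3
      exact hl (funext h3)
    rw [Finset.prod_eq_zero (Finset.mem_univ i) (by rw [hv, if_neg hi]), mul_zero]
  · intro h3
    exact absurd (Finset.mem_univ _) h3

theorem om_KS (e : Nx g → M) (Y : Matrix (Nx g) (Nx g) K) (y : Nx g → M) (hy : ∀ l, y l = ∑ l', Y l' l • e l')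
    (φ : Kx g m → K) (t : Fin m → Fin g) (v : Fin m → M) :
    ∑ l : Fin m → Nx g, φ (fun i => (t i, l i)) *
      ∑ u, B (v u) (y (l u)) * ∏ i ∈ Finset.univ.erase u, B (v i) (e (l i)) = om B e (KS Y *ᵥ φ) t v := by
  classical
  rw [om_apply]
  have h1 : ∀ l : Fin m → Nx g, φ (fun i => (t i, l i)) *
      ∑ u, B (v u) (y (l u)) * ∏ i ∈ Finset.univ.erase u, B (v i) (e (l i)) =
      ∑ u, ∑ l₁ : Nx g, φ (fun i => (t i, l i)) * (Y l₁ (l u) * B (v u) (e l₁) *
        ∏ i ∈ Finset.univ.erase u, B (v i) (e (l i))) := by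
    intro l
    rw [Finset.mul_sum]
    refine Finset.sum_congr rfl fun u _ => ?_
    rw [hy, map_sum, Finset.sum_mul, Finset.mul_sum]
    refine Finset.sum_congr rfl fun l₁ _ => ?_
    rw [map_smul, smul_eq_mul]
  have h2 : ∀ l : Fin m → Nx g, (KS Y *ᵥ φ) (fun i => (t i, l i)) * ∏ i, B (v i) (e (l i)) =
      ∑ u, ∑ l₁ : Nx g, Y (l u) l₁ * φ (fun i => (t i, Function.update l u l₁ i)) * ∏ i, B (v i) (e (l i)) := by
    intro l
    rw [L1_KS, Finset.sum_mul]
    refine Finset.sum_congr rfl fun u _ => ?_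
    rw [Finset.sum_mul]
    refine Finset.sum_congr rfl fun l₁ _ => ?_
    have h3 : Function.update (fun i => (t i, l i)) u (t u, l₁) = fun i => (t i, Function.update l u l₁ i) := by
      funext i
      by_cases hi : i = u
      · subst hi
        rw [Function.update_self, Function.update_self]
      · rw [Function.update_of_ne hi, Function.update_of_ne hi]
    change Y (l u) l₁ * φ (Function.update (fun i => (t i, l i)) u (t u, l₁)) * _ = _
    rw [h3]
  rw [Finset.sum_congr rfl fun l _ => h1 l, Finset.sum_congr rfl fun l _ => h2 l, Finset.sum_comm]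
  rw [Finset.sum_comm (s := Finset.univ) (t := (Finset.univ : Finset (Fin m)))]
  refine Finset.sum_congr rfl fun u _ => ?_
  have h4 : ∀ f : (Fin m → Nx g) → Nx g → K, ∑ l : Fin m → Nx g, ∑ l₁ : Nx g, f l l₁ =
      ∑ p : (Fin m → Nx g) × Nx g, f p.1 p.2 := fun f => (Fintype.sum_prod_type fun p => f p.1 p.2).symm
  rw [h4, h4, ← Equiv.sum_comp (L1_sw u)]
  refine Finset.sum_congr rfl fun p _ => ?_
  obtain ⟨l, l₁⟩ := p
  change φ (fun i => (t i, Function.update l u l₁ i)) * (Y (l u) (Function.update l u l₁ u) * B (v u) (e (l u)) *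
    ∏ i ∈ Finset.univ.erase u, B (v i) (e (Function.update l u l₁ i))) =
    Y (l u) l₁ * φ (fun i => (t i, Function.update l u l₁ i)) * ∏ i, B (v i) (e (l i))
  have h5 : ∏ i ∈ Finset.univ.erase u, B (v i) (e (Function.update l u l₁ i)) =
      ∏ i ∈ Finset.univ.erase u, B (v i) (e (l i)) := by
    refine Finset.prod_congr rfl fun i hi => ?_
    rw [Function.update_of_ne (Finset.ne_of_mem_erase hi)]
  rw [h5, Function.update_self, ← Finset.mul_prod_erase Finset.univ (fun i => B (v i) (e (l i))) (Finset.mem_univ u)]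
  ring

end MPadcPC
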