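import Pool.Agent.Lib.MP_adc574_ag_PC.L1

/-!
# L2: the connection and the symplectic Lie algebra on the forms

PROOF. `om_nab`: by `om_apply`, `D (om B e φ t v) = ∑ l, (φ_l)' * ∏ i, B (v i) (e (l i)) + ∑ l, φ_l * ∑ u, D (B (v u) (e (l u))) * ∏ (i ∈ univ.erase u), B (v i) (e (l i))`
(`D = DK κ` a derivation; `Derivation.leibniz`, the derivative of a product: `Derivation.leibniz_prod` or induction / `Finset.prod_erase`),
`D (B x y) = B (nab x) y + B x (nab y)` (`flat`), and
`om B e φ t (update v u (nab (v u))) = ∑ l, φ_l * B (nab (v u)) (e (l u)) * ∏ (i ∈ univ.erase u) ..` cancels the first half. Multiply by `Δ` and use `om_KS` with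
`Y = G`, `y l = Δ • nab (e l)` (`he`). `om_nab_pol`: `om_nab` with `Δ := algebraMap Δ`, `G := G.map (algebraMap ..)`, `φ = ra x`, `DK κ (algebraMap q) = algebraMap (derivative q)`
(`DK_poly`), and `KS`, `mulVec` commute with the ring homomorphism.
`om_act`: `B (X x) y = - B x (X y)` (`hX`), then `om_KS` with `y l = X (e l)`.
-/

set_option autoImplicit false

namespace MPadcPC

open Polynomial Matrix MPadcOA MPadcHM

universe u

variable {κ : Type u} [Field κ] {M : Type*} [AddCommGroup M] [Module (RatFunc κ) M] {g m : ℕ}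
  (B : M →ₗ[RatFunc κ] M →ₗ[RatFunc κ] RatFunc κ) (nab : M →+ M)

private theorem L2_upd {K : Type*} [Field K] {M : Type*} [AddCommGroup M] [Module K M] {g m : ℕ} (B : M →ₗ[K] M →ₗ[K] K)
    (e : Nx g → M) (l : Fin m → Nx g) (v : Fin m → M) (u : Fin m) (z : M) :
    ∏ i, B (Function.update v u z i) (e (l i)) = B z (e (l u)) * ∏ i ∈ Finset.univ.erase u, B (v i) (e (l i)) := by
  rw [← Finset.mul_prod_erase Finset.univ (fun i => B (Function.update v u z i) (e (l i))) (Finset.mem_univ u),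
    Function.update_self]
  congr 1
  refine Finset.prod_congr rfl fun i hi => ?_
  rw [Function.update_of_ne (Finset.ne_of_mem_erase hi)]

private theorem L2_sum {K : Type*} [Field K] {M : Type*} [AddCommGroup M] [Module K M] {g m : ℕ} (B : M →ₗ[K] M →ₗ[K] K)
    (e : Nx g → M) (φ : Kx g m → K) (t : Fin m → Fin g) (v : Fin m → M) (f : M → M) :
    ∑ u, om B e φ t (Function.update v u (f (v u))) = ∑ l : Fin m → Nx g, φ (fun i => (t i, l i)) *
      ∑ u, B (f (v u)) (e (l u)) * ∏ i ∈ Finset.univ.erase u, B (v i) (e (l i)) := by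
  have h1 : ∀ u, om B e φ t (Function.update v u (f (v u))) = ∑ l : Fin m → Nx g, φ (fun i => (t i, l i)) *
      (B (f (v u)) (e (l u)) * ∏ i ∈ Finset.univ.erase u, B (v i) (e (l i))) := by
    intro u
    rw [om_apply]
    refine Finset.sum_congr rfl fun l _ => ?_
    rw [L2_upd]
  rw [Finset.sum_congr rfl fun u _ => h1 u, Finset.sum_comm]
  refine Finset.sum_congr rfl fun l _ => ?_
  rw [Finset.mul_sum]

private theorem L2_prod {κ : Type*} [Field κ] {ι : Type*} [DecidableEq ι] (D : Derivation κ (RatFunc κ) (RatFunc κ)) (s : Finset ι)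
    (f : ι → RatFunc κ) : D (∏ i ∈ s, f i) = ∑ u ∈ s, D (f u) * ∏ i ∈ s.erase u, f i := by
  induction s using Finset.induction_on with
  | empty =>
    rw [Finset.prod_empty, Finset.sum_empty]
    exact D.map_one_eq_zero
  | insert a s ha ih =>
    rw [Finset.prod_insert ha, Derivation.leibniz, smul_eq_mul, smul_eq_mul, ih, Finset.sum_insert ha,
      Finset.erase_insert ha, Finset.mul_sum, add_comm]
    congr 1
    · rw [mul_comm]
    · refine Finset.sum_congr rfl fun u hu => ?_
      have hne : a ≠ u := fun h => ha (h ▸ hu)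
      rw [Finset.erase_insert_of_ne hne, Finset.prod_insert (fun h => ha (Finset.mem_of_mem_erase h))]
      ring

private theorem L2_KS {R S : Type*} [CommRing R] [CommRing S] (f : R →+* S) {g m : ℕ} (G : Matrix (Nx g) (Nx g) R)
    (x : Kx g m → R) (s : Kx g m) : (KS (G.map f) *ᵥ (fun i => f (x i))) s = f ((KS G *ᵥ x) s) := by
  simp only [Matrix.mulVec, dotProduct]
  rw [map_sum]
  refine Finset.sum_congr rfl fun s' _ => ?_
  rw [map_mul]
  congr 1
  simp only [KS, map_sum]
  refine Finset.sum_congr rfl fun i _ => ?_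
  split_ifs
  · rfl
  · rw [map_zero]

theorem om_nab (flat : ∀ x y, DK κ (B x y) = B (nab x) y + B x (nab y)) (e : Nx g → M) (Δ : RatFunc κ)
    (G : Matrix (Nx g) (Nx g) (RatFunc κ)) (he : ∀ l, Δ • nab (e l) = ∑ l', G l' l • e l')
    (φ : Kx g m → RatFunc κ) (t : Fin m → Fin g) (v : Fin m → M) :
    Δ * (DK κ (om B e φ t v) - ∑ u, om B e φ t (Function.update v u (nab (v u)))) =
      om B e (fun s => Δ * DK κ (φ s) + (KS G *ᵥ φ) s) t v := by
  have hD : DK κ (om B e φ t v) = ∑ l : Fin m → Nx g, DK κ (φ fun i => (t i, l i)) * ∏ i, B (v i) (e (l i)) +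
      ∑ l : Fin m → Nx g, φ (fun i => (t i, l i)) *
        ∑ u, DK κ (B (v u) (e (l u))) * ∏ i ∈ Finset.univ.erase u, B (v i) (e (l i)) := by
    rw [om_apply, map_sum, ← Finset.sum_add_distrib]
    refine Finset.sum_congr rfl fun l _ => ?_
    rw [Derivation.leibniz, smul_eq_mul, smul_eq_mul, L2_prod]
    ring
  have hR : om B e (fun s => Δ * DK κ (φ s) + (KS G *ᵥ φ) s) t v =
      ∑ l : Fin m → Nx g, Δ * DK κ (φ fun i => (t i, l i)) * ∏ i, B (v i) (e (l i)) + om B e (KS G *ᵥ φ) t v := by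
    rw [om_apply, om_apply, ← Finset.sum_add_distrib]
    refine Finset.sum_congr rfl fun l _ => ?_
    rw [add_mul]
  rw [hR, ← om_KS B e G (fun l => Δ • nab (e l)) he φ t v, hD, L2_sum B e φ t v (fun x => nab x), add_sub_assoc,
    ← Finset.sum_sub_distrib, mul_add, Finset.mul_sum, Finset.mul_sum]
  congr 1
  · refine Finset.sum_congr rfl fun l _ => ?_
    ring
  · refine Finset.sum_congr rfl fun l _ => ?_
    rw [← mul_sub, ← Finset.sum_sub_distrib, mul_left_comm, Finset.mul_sum]
    congr 1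
    refine Finset.sum_congr rfl fun u _ => ?_
    rw [flat, map_smul, smul_eq_mul]
    ring

theorem om_nab_pol (flat : ∀ x y, DK κ (B x y) = B (nab x) y + B x (nab y)) (e : Nx g → M) (Δ : κ[X])
    (G : Matrix (Nx g) (Nx g) κ[X])
    (he : ∀ l, algebraMap κ[X] (RatFunc κ) Δ • nab (e l) = ∑ l', algebraMap κ[X] (RatFunc κ) (G l' l) • e l')
    (x : Kx g m → κ[X]) (t : Fin m → Fin g) (v : Fin m → M) :
    algebraMap κ[X] (RatFunc κ) Δ * (DK κ (om B e (ra x) t v) - ∑ u, om B e (ra x) t (Function.update v u (nab (v u)))) =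
      om B e (ra (opD Δ G x)) t v := by
  have h1 := om_nab B nab flat e (algebraMap κ[X] (RatFunc κ) Δ) (G.map (algebraMap κ[X] (RatFunc κ))) he (ra x) t v
  have h2 : (fun s => algebraMap κ[X] (RatFunc κ) Δ * DK κ (ra x s) + (KS (G.map (algebraMap κ[X] (RatFunc κ))) *ᵥ ra x) s)
      = ra (opD Δ G x) := by
    funext s
    have h3 := L2_KS (algebraMap κ[X] (RatFunc κ)) G x s
    unfold ra opD
    rw [DK_poly, map_add, map_mul]
    congr 1
  rw [h2] at h1
  exact h1

theorem om_act {K : Type*} [Field K] {M : Type*} [AddCommGroup M] [Module K M] (B : M →ₗ[K] M →ₗ[K] K) (e : Nx g → M)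
    (X : Module.End K M) (hX : ∀ x y, B (X x) y + B x (X y) = 0) (Y : Matrix (Nx g) (Nx g) K)
    (hY : ∀ l, X (e l) = ∑ l', Y l' l • e l') (φ : Kx g m → K) (t : Fin m → Fin g) (v : Fin m → M) :
    ∑ u, om B e φ t (Function.update v u (X (v u))) = - om B e (KS Y *ᵥ φ) t v := by
  rw [L2_sum B e φ t v (fun x => X x), ← om_KS B e Y (fun l => X (e l)) hY φ t v, ← Finset.sum_neg_distrib]
  refine Finset.sum_congr rfl fun l _ => ?_
  rw [← mul_neg, ← Finset.sum_neg_distrib]
  congr 1
  refine Finset.sum_congr rfl fun u _ => ?_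
  rw [eq_neg_of_add_eq_zero_left (hX (v u) (e (l u))), neg_mul]

end MPadcPC
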