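import Pool.Agent.Lib.MP_adc574_ag_PC.MD

/-!
# LEAF M3: the action of matrices on the arrays of families of multilinear forms

All statements but the last are immediate from those of BN/Act.lean (`actM_mulVec`, `actM_comm`, `actM_map`, `actM_addHom`, `actM_add`, `actM_smul`): `actS S r A` is the block diagonal matrix with all blocks `actM r A`
(`Fintype.sum_prod_type`; only the terms with the same first coordinate are not zero).

`actS_nil`: it is enough that `actM r A` is nilpotent, `A i k = a i * l k`, `∑ l i * a i = 0`. `actM r A = ∑ u, T u`, `(T u z) I = ∑ m, A m (I u) * z (update I u m)`. The `T u` commute (`Function.update_comm`) and `T u * T u = 0` (`update_idem`, `A * A = 0`). A sum of commuting nilpotent elements is nilpotent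
(`Commute.isNilpotent_sum`, or by induction: `isNilpotent_add` of `Commute`).
-/

set_option autoImplicit false

namespace MPadcPC

open MPadcBN

variable {S : Type} [Fintype S] [DecidableEq S] {R : Type*} [CommRing R] {h r : ℕ}

private def M3_blk (S : Type) [DecidableEq S] {R : Type*} [CommRing R] {ι : Type} (X : Matrix ι ι R) :
    Matrix (S × ι) (S × ι) R :=
  Matrix.of fun p q => if p.1 = q.1 then X p.2 q.2 else 0

private theorem M3_mul {ι : Type} [Fintype ι] (X Y : Matrix ι ι R) :
    M3_blk S X * M3_blk S Y = M3_blk S (X * Y) := by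
  ext p q
  rw [Matrix.mul_apply, Fintype.sum_prod_type, Finset.sum_eq_single p.1]
  · unfold M3_blk
    rw [Matrix.of_apply]
    by_cases hpq : p.1 = q.1
    · rw [if_pos hpq, Matrix.mul_apply]
      refine Finset.sum_congr rfl fun j _ => ?_
      rw [Matrix.of_apply, Matrix.of_apply, if_pos rfl, if_pos hpq]
    · rw [if_neg hpq]
      refine Finset.sum_eq_zero fun j _ => ?_
      rw [Matrix.of_apply, Matrix.of_apply, if_neg hpq, mul_zero]
  · intro t _ ht
    refine Finset.sum_eq_zero fun j _ => ?_
    unfold M3_blk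
    rw [Matrix.of_apply, if_neg (Ne.symm ht), zero_mul]
  · intro h'
    exact absurd (Finset.mem_univ _) h'

omit [Fintype S] in
private theorem M3_one {ι : Type} [DecidableEq ι] :
    M3_blk S (1 : Matrix ι ι R) = 1 := by
  ext p q
  unfold M3_blk
  rw [Matrix.of_apply, Matrix.one_apply, Matrix.one_apply]
  by_cases h1 : p.1 = q.1
  · by_cases h2 : p.2 = q.2
    · rw [if_pos h1, if_pos h2, if_pos (Prod.ext h1 h2)]
    · rw [if_pos h1, if_neg h2, if_neg fun h3 => h2 (by rw [h3])]
  · rw [if_neg h1, if_neg fun h3 => h1 (by rw [h3])]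

private theorem M3_pow {ι : Type} [Fintype ι] [DecidableEq ι] (X : Matrix ι ι R) (k : ℕ) :
    M3_blk S X ^ k = M3_blk S (X ^ k) := by
  induction k with
  | zero => rw [pow_zero, pow_zero, M3_one]
  | succ k ih => rw [pow_succ, pow_succ, ih, M3_mul]

private def M3_T {R : Type*} [CommRing R] {h r : ℕ} (A : Matrix (Fin h) (Fin h) R) (u : Fin r) :
    Matrix (Fin r → Fin h) (Fin r → Fin h) R :=
  Matrix.of fun I J => if J = Function.update I u (J u) then A (J u) (I u) else 0

private theorem M3_Tmul (A : Matrix (Fin h) (Fin h) R) (u : Fin r) (z : (Fin r → Fin h) → R)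
    (I : Fin r → Fin h) :
    (M3_T A u).mulVec z I = ∑ m, A m (I u) * z (Function.update I u m) := by
  have h2 : ∀ m, A m (I u) * z (Function.update I u m) =
      ∑ J : Fin r → Fin h, if J = Function.update I u m then A (J u) (I u) * z J else 0 := by
    intro m
    rw [Finset.sum_ite_eq' Finset.univ (Function.update I u m) (fun J => A (J u) (I u) * z J),
      if_pos (Finset.mem_univ _), Function.update_self]
  rw [Finset.sum_congr rfl fun m _ => h2 m, Finset.sum_comm]
  have h3 : (M3_T A u).mulVec z I = ∑ J, M3_T A u I J * z J := rfl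
  rw [h3]
  refine Finset.sum_congr rfl fun J _ => ?_
  unfold M3_T
  rw [Matrix.of_apply, Finset.sum_eq_single (J u)]
  · split_ifs
    · rfl
    · rw [zero_mul]
  · intro m _ hm
    rw [if_neg]
    intro hJ
    apply hm
    rw [hJ, Function.update_self]
  · intro hJ
    exact absurd (Finset.mem_univ _) hJ

private theorem M3_ext {ι : Type} [Fintype ι] [DecidableEq ι] {X Y : Matrix ι ι R}
    (hXY : ∀ z i, X.mulVec z i = Y.mulVec z i) : X = Y := by
  apply Matrix.toLin'.injective
  apply LinearMap.ext
  intro z
  rw [Matrix.toLin'_apply, Matrix.toLin'_apply]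
  funext i
  exact hXY z i

private theorem M3_comm (A : Matrix (Fin h) (Fin h) R) (u v : Fin r) :
    M3_T A u * M3_T A v = M3_T A v * M3_T A u := by
  by_cases huv : u = v
  · rw [huv]
  refine M3_ext fun z I => ?_
  have key : ∀ u v : Fin r, u ≠ v → (M3_T A u * M3_T A v).mulVec z I =
      ∑ m, ∑ n, A m (I u) * A n (I v) * z (Function.update (Function.update I u m) v n) := by
    intro u v huv
    rw [← Matrix.mulVec_mulVec, M3_Tmul]
    refine Finset.sum_congr rfl fun m _ => ?_
    rw [M3_Tmul, Finset.mul_sum]
    refine Finset.sum_congr rfl fun n _ => ?_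
    rw [Function.update_of_ne (Ne.symm huv)]
    ring
  rw [key u v huv, key v u (Ne.symm huv), Finset.sum_comm]
  refine Finset.sum_congr rfl fun n _ => Finset.sum_congr rfl fun m _ => ?_
  rw [Function.update_comm huv]
  ring

private theorem M3_sq (a l : Fin h → R) (hla : ∑ i, l i * a i = 0) (u : Fin r) :
    M3_T (Matrix.of fun i k => a i * l k) u * M3_T (Matrix.of fun i k => a i * l k) u = 0 := by
  refine M3_ext fun z I => ?_
  rw [← Matrix.mulVec_mulVec, M3_Tmul, Matrix.zero_mulVec, Pi.zero_apply]
  have h1 : ∀ m, (Matrix.of fun i k => a i * l k : Matrix (Fin h) (Fin h) R) m (I u) *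
      (M3_T (Matrix.of fun i k => a i * l k) u).mulVec z (Function.update I u m) =
      (l m * a m) * ∑ n, a n * l (I u) * z (Function.update I u n) := by
    intro m
    rw [M3_Tmul, Finset.mul_sum, Finset.mul_sum]
    refine Finset.sum_congr rfl fun n _ => ?_
    rw [Function.update_self, Function.update_idem, Matrix.of_apply, Matrix.of_apply]
    ring
  rw [Finset.sum_congr rfl fun m _ => h1 m, ← Finset.sum_mul, hla, zero_mul]

private theorem M3_sum (A : Matrix (Fin h) (Fin h) R) : actM r A = ∑ u, M3_T A u := by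
  ext I J
  rw [Matrix.sum_apply]
  rfl

private theorem M3_nil (a l : Fin h → R) (hla : ∑ i, l i * a i = 0) :
    ∃ k : ℕ, (actM r (Matrix.of fun i k => a i * l k)) ^ k = 0 := by
  rw [M3_sum]
  refine Commute.isNilpotent_sum (fun u _ => ⟨2, ?_⟩) (fun u v _ _ => M3_comm _ u v)
  rw [pow_two, M3_sq a l hla]

theorem actS_mulVec (A : Matrix (Fin h) (Fin h) R) (z : S × (Fin r → Fin h) → R) (s : S)
    (I : Fin r → Fin h) :
    (actS S r A).mulVec z (s, I) = (actM r A).mulVec (fun J => z (s, J)) I := by
  have h1 : (actS S r A).mulVec z (s, I) = ∑ p, actS S r A (s, I) p * z p := rfl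
  have h2 : (actM r A).mulVec (fun J => z (s, J)) I = ∑ J, actM r A I J * z (s, J) := rfl
  rw [h1, h2, Fintype.sum_prod_type, Finset.sum_eq_single s]
  · refine Finset.sum_congr rfl fun J _ => ?_
    unfold actS
    rw [Matrix.of_apply, if_pos rfl]
  · intro t _ ht
    refine Finset.sum_eq_zero fun J _ => ?_
    unfold actS
    rw [Matrix.of_apply, if_neg (Ne.symm ht), zero_mul]
  · intro h'
    exact absurd (Finset.mem_univ _) h'

theorem actS_comm (A B : Matrix (Fin h) (Fin h) R) :
    actS S r A * actS S r B - actS S r B * actS S r A = actS S r (B * A - A * B) := by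
  have h1 : ∀ C : Matrix (Fin h) (Fin h) R, actS S r C = M3_blk S (actM r C) := fun C => rfl
  rw [h1, h1, h1, M3_mul, M3_mul, ← actM_comm]
  ext p q
  rw [Matrix.sub_apply]
  unfold M3_blk
  rw [Matrix.of_apply, Matrix.of_apply, Matrix.of_apply]
  split_ifs
  · rw [Matrix.sub_apply]
  · rw [sub_zero]

omit [Fintype S] in
theorem actS_map {R' : Type*} [CommRing R'] (f : R →+* R') (A : Matrix (Fin h) (Fin h) R) :
    (actS S r A).map f = actS S r (A.map f) := by
  ext p q
  unfold actS
  rw [Matrix.map_apply, Matrix.of_apply, Matrix.of_apply, apply_ite f, map_zero, ← actM_map,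
    Matrix.map_apply]

omit [Fintype S] in
theorem actS_addHom (D : R →+ R) (A : Matrix (Fin h) (Fin h) R) (p q : S × (Fin r → Fin h)) :
    D (actS S r A p q) = actS S r (Matrix.of fun i k => D (A i k)) p q := by
  unfold actS
  rw [Matrix.of_apply, Matrix.of_apply, apply_ite D, map_zero, actM_addHom]

omit [Fintype S] in
theorem actS_add (A B : Matrix (Fin h) (Fin h) R) : actS S r (A + B) = actS S r A + actS S r B := by
  ext p q
  unfold actS
  rw [Matrix.add_apply, Matrix.of_apply, Matrix.of_apply, Matrix.of_apply, actM_add]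
  split_ifs
  · rw [Matrix.add_apply]
  · rw [add_zero]

omit [Fintype S] in
theorem actS_smul (c : R) (A : Matrix (Fin h) (Fin h) R) : actS S r (c • A) = c • actS S r A := by
  ext p q
  unfold actS
  rw [Matrix.smul_apply, Matrix.of_apply, Matrix.of_apply, actM_smul]
  split_ifs
  · rw [Matrix.smul_apply]
  · rw [smul_zero]

theorem actS_nil (a l : Fin h → R) (hla : ∑ i, l i * a i = 0) :
    ∃ k : ℕ, (actS S r (Matrix.of fun i k => a i * l k)) ^ k = 0 := by
  obtain ⟨k, hk⟩ := M3_nil (r := r) a l hla
  refine ⟨k, ?_⟩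
  have h1 : actS S r (Matrix.of fun i k => a i * l k) =
      M3_blk S (actM r (Matrix.of fun i k => a i * l k)) := rfl
  rw [h1, M3_pow, hk]
  ext p q
  unfold M3_blk
  rw [Matrix.of_apply, Matrix.zero_apply, Matrix.zero_apply, ite_self]

end MPadcPC
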