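import Pool.Agent.Lib.MP_adc574_ag_BN.StbA

/-!
# Spaces of families of multilinear forms: definitions

`S` is a finite index set, `TF K M S r` are the families `(ω s)`, `s ∈ S`, of multilinear forms of degree `r` on `M`; the array of such a
family (with respect to a basis indexed by `Fin h`) is a function on `S × (Fin r → Fin h)`.
-/

set_option autoImplicit false

namespace MPadcPC

open MPadcBN

/-- The action of a matrix on the arrays of families of multilinear forms. -/
def actS (S : Type) [DecidableEq S] {R : Type*} [CommRing R] {h : ℕ} (r : ℕ) (A : Matrix (Fin h) (Fin h) R) :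
    Matrix (S × (Fin r → Fin h)) (S × (Fin r → Fin h)) R :=
  Matrix.of fun p q => if p.1 = q.1 then actM r A p.2 q.2 else 0

/-- Families of multilinear forms. -/
abbrev TF (K : Type*) [Field K] (M : Type*) [AddCommGroup M] [Module K M] (S : Type) (r : ℕ) : Type _ :=
  S → MultilinearMap K (fun _ : Fin r => M) K

section

variable {K : Type*} [Field K] {M : Type*} [AddCommGroup M] [Module K M] {h r : ℕ} {S : Type}

/-- The array of a family of multilinear forms. -/
noncomputable def arrS (b : Module.Basis (Fin h) K M) : TF K M S r →ₗ[K] (S × (Fin r → Fin h) → K) where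
  toFun ω p := ω p.1 fun u => b (p.2 u)
  map_add' ω ω' := by funext p; rfl
  map_smul' c ω := by funext p; rfl

/-- The endomorphisms which are skew for `B` and map `W` into itself. -/
def stabT (B : M →ₗ[K] M →ₗ[K] K) (W : Submodule K (TF K M S r)) :
    Submodule K (Module.End K M) where
  carrier := {X | (∀ x y, B (X x) y + B x (X y) = 0) ∧ ∀ ω ∈ W, ∃ ω' ∈ W,
    ∀ (s : S) (v : Fin r → M), ω' s v = ∑ u, ω s (Function.update v u (X (v u)))}
  zero_mem' := by
    refine ⟨fun x y => by simp, fun ω _ => ⟨0, W.zero_mem, fun s v => ?_⟩⟩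
    rw [Pi.zero_apply, MultilinearMap.zero_apply]
    refine (Finset.sum_eq_zero fun u _ => ?_).symm
    rw [LinearMap.zero_apply]
    exact (ω s).map_update_zero v u
  add_mem' := by
    rintro X Y ⟨hX1, hX2⟩ ⟨hY1, hY2⟩
    refine ⟨fun x y => ?_, fun ω hω => ?_⟩
    · rw [LinearMap.add_apply, LinearMap.add_apply, map_add, map_add, LinearMap.add_apply]
      linear_combination hX1 x y + hY1 x y
    · obtain ⟨ω1, h1, h1'⟩ := hX2 ω hω
      obtain ⟨ω2, h2, h2'⟩ := hY2 ω hω
      refine ⟨ω1 + ω2, W.add_mem h1 h2, fun s v => ?_⟩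
      rw [Pi.add_apply, MultilinearMap.add_apply, h1', h2', ← Finset.sum_add_distrib]
      refine Finset.sum_congr rfl fun u _ => ?_
      rw [LinearMap.add_apply, MultilinearMap.map_update_add]
  smul_mem' := by
    rintro c X ⟨hX1, hX2⟩
    refine ⟨fun x y => ?_, fun ω hω => ?_⟩
    · rw [LinearMap.smul_apply, LinearMap.smul_apply, map_smul, map_smul, LinearMap.smul_apply,
        smul_eq_mul, smul_eq_mul]
      linear_combination c * hX1 x y
    · obtain ⟨ω1, h1, h1'⟩ := hX2 ω hω
      refine ⟨c • ω1, W.smul_mem c h1, fun s v => ?_⟩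
      rw [Pi.smul_apply, MultilinearMap.smul_apply, h1', Finset.smul_sum]
      refine Finset.sum_congr rfl fun u _ => ?_
      rw [LinearMap.smul_apply, MultilinearMap.map_update_smul]

theorem mem_stabT {B : M →ₗ[K] M →ₗ[K] K} {W : Submodule K (TF K M S r)} {X : Module.End K M} :
    X ∈ stabT B W ↔ (∀ x y, B (X x) y + B x (X y) = 0) ∧ ∀ ω ∈ W, ∃ ω' ∈ W,
      ∀ (s : S) (v : Fin r → M), ω' s v = ∑ u, ω s (Function.update v u (X (v u))) := Iff.rfl

end

end MPadcPC
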