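import Pool.Agent.Lib.MP_adc574_ag_PC.N3
import Pool.Agent.Lib.MP_adc574_ag_PC.G7
import Pool.Agent.Lib.MP_adc574_ag_PC.F7

/-!
# N4: the count over finite fields

PROOF. Let `p₀` be the bound of `count_fam 𝓕 h hg dis hB (ε / 2)` (N3) and let `p ≥ p₀ + 2 * natDegree 𝓕.Δ / ε + 1` (real division, `Nat.ceil`). `E` is finite of characteristic `p`, `Nat.card E = p ^ r`, `0 < r` (`FiniteField.card`).
`k = AlgebraicClosure E`, `ι : E →+* k`, `ψ' = ι.comp ψ`, `ψ' dis ≠ 0`, `𝓕.Δ.map ψ' ≠ 0` (`hΔ`). Let `τ : E` be bad (in the set). Either `(𝓕.Δ.map ψ).eval τ = 0` (at most `natDegree 𝓕.Δ ≤ (ε / 2) * p ≤ (ε / 2) * p ^ r` such `τ`; `card_roots`), or not; in the second case `sm_at` (F7) gives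
`Wt`, `Sm 1`, `Tp 1`, `Irreducible`, `HB`, so `PlaneIsOrdinary` fails and by `plane_ordinary` (G7) the determinant of the `tp p (𝓕.at ψ τ) c (mp (eval₂RingHom ψ τ) (η (inl c')))` is 0. `mp ι (𝓕.at ψ τ) = 𝓕.at ψ' (ι τ)` (`mp_comp` and the like),
`mp_tp` (F6: `tp` commutes with `mp ι`), so the same determinant over `k` is `ι` of it, i.e. 0, and by `det_fr` (F9) `(fst ((𝓕.fr p ψ').U.map (eval (ι τ)))).det = 0`; also `(𝓕.Δ.map ψ').eval (ι τ) = ι ((𝓕.Δ.map ψ).eval τ) ≠ 0` and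
`(ι τ) ^ p ^ r = ι τ` (`FiniteField.pow_card`). So the image under `ι` of the bad `τ` of the second kind is a finite set `Z` as in `count_fam`: at most `(ε / 2) p ^ r` elements.
-/

set_option autoImplicit false

namespace MPadcPC

open Polynomial Matrix MPadcLF MPadcOA

private theorem N4_mp {R S T : Type*} [CommRing R] [CommRing S] [CommRing T] (φ : R →+* S)
    (ψ : S →+* T) (F : R[X][X]) : mp ψ (mp φ F) = mp (ψ.comp φ) F := by
  simp only [mp, coe_mapRingHom]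
  rw [Polynomial.map_map, mapRingHom_comp]

private theorem N4_comp {A E k : Type} [CommRing A] [CommRing E] [CommRing k] (ψ : A →+* E) (ι : E →+* k) (τ : E) :
    ι.comp (eval₂RingHom ψ τ) = eval₂RingHom (ι.comp ψ) (ι τ) := by
  refine RingHom.ext fun q => ?_
  rw [RingHom.comp_apply, coe_eval₂RingHom, coe_eval₂RingHom, hom_eval₂]

private theorem N4_det {A : Type} [CommRing A] {w n : ℕ} (𝓕 : Fam A w n) (h : 𝓕.Ok) {E k : Type} [Field E] [Field k]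
    (p : ℕ) (ψ : A →+* E) (ι : E →+* k) (τ : E)
    (h0 : (Matrix.of fun c c' : Gx w n => tp p (𝓕.at ψ τ) c (mp (eval₂RingHom ψ τ) (𝓕.η (Sum.inl c')))).det = 0) :
    (fst ((𝓕.fr p (ι.comp ψ)).U.map (eval (ι τ)))).det = 0 := by
  rw [det_fr 𝓕 h p (ι.comp ψ) (ι τ)]
  have hm : (𝓕.at ψ τ).Monic := (h.wt.map (eval₂RingHom ψ τ)).monic
  have h1 : (Matrix.of fun c c' : Gx w n =>
      tp p (𝓕.at (ι.comp ψ) (ι τ)) c (mp (eval₂RingHom (ι.comp ψ) (ι τ)) (𝓕.η (Sum.inl c')))) =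
      ι.mapMatrix (Matrix.of fun c c' : Gx w n => tp p (𝓕.at ψ τ) c (mp (eval₂RingHom ψ τ) (𝓕.η (Sum.inl c')))) := by
    ext c c'
    rw [RingHom.mapMatrix_apply, Matrix.map_apply, Matrix.of_apply, Matrix.of_apply, mp_tp ι hm]
    unfold Fam.at
    rw [N4_mp, N4_mp, N4_comp]
  rw [h1, ← RingHom.map_det, h0, map_zero]

theorem count_E {A : Type} [CommRing A] {w n : ℕ} (𝓕 : Fam A w n) (h : 𝓕.Ok) (hg : 0 < gn w n) (dis : A)
    (hB : 𝓕.Big dis) (hΔ : ∀ (k : Type) [Field k] (ψ : A →+* k), ψ dis ≠ 0 → 𝓕.Δ.map ψ ≠ 0) (ε : ℝ) (hε : 0 < ε) :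
    ∃ p₀ : ℕ, ∀ p : ℕ, p.Prime → p₀ ≤ p → ∀ (E : Type) [Field E] [Finite E] [CharP E p] (ψ : A →+* E), ψ dis ≠ 0 →
      (Nat.card {τ : E // ¬ (Sm (𝓕.at ψ τ) 1 ∧ Tp w n (𝓕.at ψ τ) 1 ∧ PlaneIsOrdinary (𝓕.at ψ τ))} : ℝ) ≤
        ε * Nat.card E := by
  classical
  obtain ⟨p₀, hp₀⟩ := count_fam 𝓕 h hg dis hB (ε / 2) (half_pos hε)
  refine ⟨p₀ + ⌈(2 * (𝓕.Δ.natDegree : ℝ)) / ε⌉₊, fun p hp hp' E _ _ _ ψ hdis => ?_⟩
  have hFp : Fact p.Prime := ⟨hp⟩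
  have hFE : Fintype E := Fintype.ofFinite E
  obtain ⟨r, -, hcard⟩ := FiniteField.card E p
  have hinj : Function.Injective (algebraMap E (AlgebraicClosure E)) := (algebraMap E (AlgebraicClosure E)).injective
  have hch : CharP (AlgebraicClosure E) p := charP_of_injective_algebraMap hinj p
  obtain ⟨ι, hι⟩ : ∃ ι : E →+* AlgebraicClosure E, ι = algebraMap E (AlgebraicClosure E) := ⟨_, rfl⟩
  rw [← hι] at hinj
  have hdis' : (ι.comp ψ) dis ≠ 0 := by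
    rw [RingHom.comp_apply]
    intro h0
    exact hdis (hinj (h0.trans (map_zero ι).symm))
  have hΔE : 𝓕.Δ.map ψ ≠ 0 := hΔ E ψ hdis
  have hΔk : 𝓕.Δ.map (ι.comp ψ) ≠ 0 := hΔ _ (ι.comp ψ) hdis'
  obtain ⟨S, hS⟩ : ∃ S : Finset E, S = Finset.univ.filter fun τ =>
    ¬ (Sm (𝓕.at ψ τ) 1 ∧ Tp w n (𝓕.at ψ τ) 1 ∧ PlaneIsOrdinary (𝓕.at ψ τ)) := ⟨_, rfl⟩
  have hSc : Nat.card {τ : E // ¬ (Sm (𝓕.at ψ τ) 1 ∧ Tp w n (𝓕.at ψ τ) 1 ∧ PlaneIsOrdinary (𝓕.at ψ τ))} = S.card := by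
    rw [Nat.card_eq_fintype_card, Fintype.card_subtype, hS]
  have hsplit := Finset.card_filter_add_card_filter_not (s := S) (fun τ => (𝓕.Δ.map ψ).eval τ = 0)
  -- the zeros of the discriminant
  have h1 : (S.filter fun τ => (𝓕.Δ.map ψ).eval τ = 0).card ≤ 𝓕.Δ.natDegree := by
    have h2 : (S.filter fun τ => (𝓕.Δ.map ψ).eval τ = 0) ⊆ (𝓕.Δ.map ψ).roots.toFinset := by
      intro τ hτ
      rw [Multiset.mem_toFinset, mem_roots hΔE]
      exact (Finset.mem_filter.1 hτ).2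
    calc _ ≤ (𝓕.Δ.map ψ).roots.toFinset.card := Finset.card_le_card h2
      _ ≤ Multiset.card (𝓕.Δ.map ψ).roots := Multiset.toFinset_card_le _
      _ ≤ (𝓕.Δ.map ψ).natDegree := card_roots' _
      _ ≤ 𝓕.Δ.natDegree := natDegree_map_le
  -- the other bad points
  have h3 : (((S.filter fun τ => ¬ (𝓕.Δ.map ψ).eval τ = 0).card : ℕ) : ℝ) ≤ ε / 2 * (p : ℝ) ^ (r : ℕ) := by
    have h4 := hp₀ p hp (by omega) (AlgebraicClosure E) (ι.comp ψ) hdis' hΔk r r.pos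
      ((S.filter fun τ => ¬ (𝓕.Δ.map ψ).eval τ = 0).image ι) (by
        intro x hx
        obtain ⟨τ, hτ, rfl⟩ := Finset.mem_image.1 hx
        obtain ⟨hτS, hτΔ⟩ := Finset.mem_filter.1 hτ
        refine ⟨?_, ?_, ?_⟩
        · rw [← map_pow, ← hcard, FiniteField.pow_card]
        · rw [← Polynomial.map_map, eval_map, eval₂_at_apply]
          intro h0
          exact hτΔ (hinj (h0.trans (map_zero ι).symm))
        · refine N4_det 𝓕 h p ψ ι τ ?_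
          obtain ⟨a1, a2, a3, a4, a5⟩ := sm_at 𝓕 h ψ τ hτΔ
          by_contra hdet
          rw [hS] at hτS
          exact (Finset.mem_filter.1 hτS).2 ⟨a2, a3, plane_ordinary p h.hn h.hw a1 a4 a2 a3 a5 hdet⟩)
    rwa [Finset.card_image_of_injective _ hinj] at h4
  have hpr : (p : ℝ) ≤ (p : ℝ) ^ (r : ℕ) := by
    exact_mod_cast Nat.le_self_pow r.ne_zero p
  have h5 : (𝓕.Δ.natDegree : ℝ) ≤ ε / 2 * (p : ℝ) ^ (r : ℕ) := by
    have h6 : (2 * (𝓕.Δ.natDegree : ℝ)) / ε ≤ p := (Nat.le_ceil _).trans (by exact_mod_cast (Nat.le_add_left _ _).trans hp')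
    rw [div_le_iff₀ hε] at h6
    have h7 : ε / 2 * (p : ℝ) ≤ ε / 2 * (p : ℝ) ^ (r : ℕ) := mul_le_mul_of_nonneg_left hpr (half_pos hε).le
    linarith
  have h8 : (Nat.card E : ℝ) = (p : ℝ) ^ (r : ℕ) := by
    rw [Nat.card_eq_fintype_card, hcard, Nat.cast_pow]
  rw [hSc, h8, ← hsplit, Nat.cast_add]
  have h9 : (((S.filter fun τ => (𝓕.Δ.map ψ).eval τ = 0).card : ℕ) : ℝ) ≤ 𝓕.Δ.natDegree := by exact_mod_cast h1
  linarith

end MPadcPC
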