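import Pool.Agent.Lib.MP_adc574_ag_PC.U1

/-!
# U2: the form at infinity

`topp 1 d (fT d a) = (tf a).map C` with `tf a = X ^ d + ∑ (q with q.1 + q.2 = d), C (a q) * X ^ q.2` (compute the coefficients of `fT`; `1 ≤ d`, the term `- T` only
contributes to the coefficient of `x ^ 0 Y ^ 0`, and `(w (n - j)) = 0` only for `j = d`).
PROOF of `exists_c1`. Let `a q = X q` over the domain `Au d` and `h = tf a`, monic of degree `d`, and `c = resultant h (derivative h)` (Mathlib `Polynomial.resultant`);
`exists_mul_add_mul_eq_C_resultant` gives `u`, `v` with `u h + v h' = C c` (then map by `C`; or `Tp` with `C c`). `c ≠ 0`: the homomorphism `θ : Au d → ℚ` with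
`X q ↦ - 1` for `q = (d, 0)` and `0` otherwise (`exists_psi`) maps `h` to `X ^ d - 1`, which is separable over `ℚ`, so its resultant with the derivative is not 0
(`resultant_ne_zero`), and it is `θ c` (`resultant_map_map`; monic, so the degrees are preserved, char 0).
PROOF of `top_of_tp` (`κ` a field of characteristic zero, `2 ≤ d`): let `(x, y) ≠ 0` with `∂_0 hz (x, y, 0) = ∂_1 hz (x, y, 0) = 0`. Then `∂_1 hz (x, y, 0) = d y ^ (d - 1) + ∑_{q.1 + q.2 = d} q.2 a_q x ^ q.1 y ^ (q.2 - 1)`
(the terms with `q.1 + q.2 < d` contain a positive power of `X 2`). If `x = 0` this is `d y ^ (d - 1)` (all `q.1 > 0` in the sum: `q ≠ (0, d)`), so `y = 0`. If `x ≠ 0` put `z = y / x`; `∂_1 hz (x, y, 0) = x ^ (d - 1) (tf a)'(z)`, and by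
Euler (`∑ X i ∂_i hz = d hz`) `hz (x, y, 0) = 0 = x ^ d (tf a)(z)`. So `z` is a common zero of `topp` and its derivative, against `Tp .. c` with `c ≠ 0`.
-/

set_option autoImplicit false

namespace MPadcPC

open Polynomial MPadcLF MPadcLZ

/-- The form at infinity. -/
noncomputable def tf {R : Type*} [CommRing R] {d : ℕ} (a : Ic d → R) : R[X] :=
  X ^ d + ∑ q, if (q.1.1 : ℕ) + q.1.2 = d then C (a q) * X ^ (q.1.2 : ℕ) else 0

/-- Termwise computation of the form at infinity. -/
private theorem u2_term {R : Type*} [CommRing R] {d : ℕ} (hd : 1 ≤ d) (a : Ic d → R) (j : ℕ) (hj : j ≤ d) :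
    (C (((fT d a).coeff j).coeff (1 * (d - j))) * X ^ j : R[X][X]) =
      (if j = d then X ^ j else 0) +
        ∑ q : Ic d, if j = (q.1.2 : ℕ) then (if (q.1.1 : ℕ) + q.1.2 = d then C (C (a q)) * X ^ (q.1.2 : ℕ) else 0) else 0 := by
  have h1 : (fT d a).coeff j = (if j = d then 1 else 0) +
      (∑ q : Ic d, if j = (q.1.2 : ℕ) then C (C (a q)) * X ^ (q.1.1 : ℕ) else 0) - (if j = 0 then C X else 0) := by
    have h2 : fT d a = X ^ d + (∑ q : Ic d, C (C (C (a q)) * X ^ (q.1.1 : ℕ)) * X ^ (q.1.2 : ℕ)) - C (C X) := by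
      unfold fT ph mp cc
      rw [map_add, map_pow, map_sum]
      simp only [coe_mapRingHom, map_mul, Polynomial.map_X, Polynomial.map_C, Polynomial.map_pow]
    rw [h2, coeff_sub, coeff_add, coeff_X_pow, finsetSum_coeff]
    simp only [coeff_C_mul, coeff_X_pow, mul_ite, mul_one, mul_zero, coeff_C]
  have h3 : ((fT d a).coeff j).coeff (1 * (d - j)) = (if j = d then 1 else 0) +
      ∑ q : Ic d, if j = (q.1.2 : ℕ) then (if (q.1.1 : ℕ) + q.1.2 = d then C (a q) else 0) else 0 := by
    rw [h1, one_mul, coeff_sub, coeff_add, finsetSum_coeff]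
    have h4 : ((if j = d then (1 : R[X][X]) else 0)).coeff (d - j) = if j = d then 1 else 0 := by
      split_ifs with h
      · rw [h, Nat.sub_self]
        exact coeff_one_zero
      · exact coeff_zero _
    have h5 : ((if j = 0 then (C X : R[X][X]) else 0)).coeff (d - j) = 0 := by
      split_ifs with h
      · rw [coeff_C, if_neg (by omega)]
      · exact coeff_zero _
    rw [h4, h5, sub_zero]
    congr 1
    refine Finset.sum_congr rfl fun q _ => ?_
    by_cases h : j = (q.1.2 : ℕ)
    · rw [if_pos h, if_pos h, coeff_C_mul, coeff_X_pow]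
      by_cases h6 : (q.1.1 : ℕ) + q.1.2 = d
      · rw [if_pos (by omega), if_pos h6, mul_one]
      · rw [if_neg (by omega), if_neg h6, mul_zero]
    · rw [if_neg h, if_neg h, coeff_zero]
  rw [h3, map_add, add_mul, map_sum, Finset.sum_mul]
  congr 1
  · split_ifs with h
    · rw [map_one, one_mul]
    · rw [map_zero, zero_mul]
  · refine Finset.sum_congr rfl fun q _ => ?_
    by_cases h : j = (q.1.2 : ℕ)
    · rw [if_pos h, if_pos h]
      split_ifs with h6
      · rw [h]
      · rw [map_zero, zero_mul]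
    · rw [if_neg h, if_neg h, map_zero, zero_mul]

private theorem u2_map {R R' : Type*} [CommRing R] [CommRing R'] {d : ℕ} (ψ : R →+* R') (a : Ic d → R) :
    (tf a).map ψ = tf fun q => ψ (a q) := by
  unfold tf
  rw [Polynomial.map_add, Polynomial.map_pow, Polynomial.map_X, Polynomial.map_sum]
  congr 1
  refine Finset.sum_congr rfl fun q _ => ?_
  split_ifs with h
  · rw [Polynomial.map_mul, Polynomial.map_C, Polynomial.map_pow, Polynomial.map_X]
  · exact Polynomial.map_zero _

theorem topp_fT {R : Type*} [CommRing R] {d : ℕ} (hd : 1 ≤ d) (a : Ic d → R) :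
    topp 1 d (fT d a) = (tf a).map C := by
  unfold topp
  rw [Finset.sum_congr rfl fun j hj => u2_term hd a j (Nat.lt_succ_iff.1 (Finset.mem_range.1 hj)), Finset.sum_add_distrib,
    Finset.sum_comm, u2_map C a]
  unfold tf
  congr 1
  · rw [Finset.sum_ite_eq' (Finset.range (d + 1)) d (fun j => (X : R[X][X]) ^ j), if_pos (Finset.mem_range.2 (Nat.lt_succ_self d))]
  · refine Finset.sum_congr rfl fun q _ => ?_
    rw [Finset.sum_ite_eq' (Finset.range (d + 1)) (q.1.2 : ℕ)
      (fun _ => if (q.1.1 : ℕ) + q.1.2 = d then (C (C (a q)) * X ^ (q.1.2 : ℕ) : R[X][X]) else 0), if_pos (Finset.mem_range.2 q.1.2.2)]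

theorem exists_c1 {d : ℕ} (hd : 1 ≤ d) : ∃ c : Au d, c ≠ 0 ∧ Tp 1 d (fT d fun q => (MvPolynomial.X q : Au d)) (C c) := by
  obtain ⟨θ, hθ⟩ := exists_psi (d := d) (k := ℚ) two_ne_zero (fun q => if (q.1.1 : ℕ) = d then -1 else 0)
  have hdeg : (tf fun q => (MvPolynomial.X q : Au d)).natDegree ≤ d := by
    unfold tf
    refine (natDegree_add_le _ _).trans (max_le (natDegree_X_pow_le d) ?_)
    refine natDegree_sum_le_of_forall_le _ _ fun q _ => ?_
    split_ifs with h
    · exact (natDegree_C_mul_X_pow_le _ _).trans (by omega)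
    · rw [natDegree_zero]
      exact Nat.zero_le _
  have hdeg' : (derivative (tf fun q => (MvPolynomial.X q : Au d))).natDegree ≤ d - 1 :=
    (natDegree_derivative_le _).trans (Nat.sub_le_sub_right hdeg 1)
  obtain ⟨u, v, -, -, huv⟩ := exists_mul_add_mul_eq_C_resultant _ _ hdeg hdeg' (Or.inl (by omega))
  refine ⟨resultant (tf fun q => (MvPolynomial.X q : Au d)) (derivative (tf fun q => (MvPolynomial.X q : Au d))) d (d - 1), ?_,
    u.map C, v.map C, ?_⟩
  · intro h0
    have h1 := resultant_map_map (tf fun q => (MvPolynomial.X q : Au d)) (derivative (tf fun q => (MvPolynomial.X q : Au d))) d (d - 1) θ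
    have hm := u2_map θ (fun q => (MvPolynomial.X q : Au d))
    rw [h0, map_zero, ← derivative_map, hm] at h1
    have h2 : (tf fun q => θ (MvPolynomial.X q : Au d)) = (X ^ d - 1 : ℚ[X]) := by
      rw [show (fun q => θ (MvPolynomial.X q : Au d)) = fun q : Ic d => if (q.1.1 : ℕ) = d then (-1 : ℚ) else 0 from funext hθ]
      unfold tf
      rw [sub_eq_add_neg]
      congr 1
      rw [Finset.sum_eq_single (⟨(⟨d, Nat.lt_succ_self d⟩, ⟨0, Nat.succ_pos d⟩), by
        refine ⟨?_, ?_, ?_⟩ <;> simp only <;> omega⟩ : Ic d)]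
      · simp
      · intro q _ hq
        split_ifs with h
        · have h4 : ¬ (q.1.1 : ℕ) = d := by
            intro h3
            refine hq (Subtype.ext (Prod.ext (Fin.ext h3) (Fin.ext ?_)))
            simp only
            omega
          simp only [if_neg h4, map_zero, zero_mul]
        · rfl
      · intro h
        exact absurd (Finset.mem_univ _) h
    rw [h2] at h1
    have h3 : (X ^ d - 1 : ℚ[X]).natDegree = d := by
      have := natDegree_X_pow_sub_C (R := ℚ) (n := d) (r := 1)
      rwa [map_one] at this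
    have hdq : ((d : ℕ) : ℚ) ≠ 0 := by exact_mod_cast (by omega : d ≠ 0)
    have h4 : (derivative (X ^ d - 1 : ℚ[X])).natDegree = d - 1 := by
      rw [derivative_sub, derivative_X_pow, derivative_one, sub_zero]
      exact natDegree_C_mul_X_pow _ _ hdq
    have h5 : IsCoprime (X ^ d - 1 : ℚ[X]) (derivative (X ^ d - 1 : ℚ[X])) := by
      have h6 : (X ^ d - C (1 : ℚ) : ℚ[X]).Separable := separable_X_pow_sub_C (1 : ℚ) hdq one_ne_zero
      rw [map_one] at h6
      exact h6
    have h7 := resultant_ne_zero _ _ h5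
    rw [h3, h4] at h7
    exact h7 h1
  · rw [topp_fT hd, derivative_map, ← Polynomial.map_mul, ← Polynomial.map_mul, ← Polynomial.map_add, mul_comm u, mul_comm v, huv,
      Polynomial.map_C]

theorem top_of_tp {κ : Type*} [Field κ] [CharZero κ] {d : ℕ} (hd : 2 ≤ d) (a : Ic d → κ) (c : κ) (hc : c ≠ 0)
    (h : Tp 1 d (fT d a) (C c)) (x y : κ) (hxy : ¬ (x = 0 ∧ y = 0)) :
    ¬ (MvPolynomial.eval ![x, y, 0] (MvPolynomial.pderiv 0 (hz d a)) = 0 ∧
      MvPolynomial.eval ![x, y, 0] (MvPolynomial.pderiv 1 (hz d a)) = 0) := by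
  rintro ⟨hx0, hy0⟩
  have hdk : ((d : ℕ) : κ) ≠ 0 := by exact_mod_cast (by omega : d ≠ 0)
  have h1 : MvPolynomial.eval ![x, y, 0] (hz d a) = y ^ d + ∑ q : Ic d, if (q.1.1 : ℕ) + q.1.2 = d then a q * x ^ (q.1.1 : ℕ) * y ^ (q.1.2 : ℕ) else 0 := by
    unfold hz
    simp only [map_add, map_sum, map_mul, map_pow, MvPolynomial.eval_X, MvPolynomial.eval_C]
    have e0 : (![x, y, 0] : Fin 3 → κ) 0 = x := rfl
    have e1 : (![x, y, 0] : Fin 3 → κ) 1 = y := rfl
    have e2 : (![x, y, 0] : Fin 3 → κ) 2 = 0 := rfl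
    rw [e0, e1, e2]
    congr 1
    refine Finset.sum_congr rfl fun q _ => ?_
    have hq := q.2.1
    by_cases h6 : (q.1.1 : ℕ) + q.1.2 = d
    · rw [if_pos h6, show d - (q.1.1 : ℕ) - (q.1.2 : ℕ) = 0 by omega, pow_zero, mul_one]
    · rw [if_neg h6, zero_pow (by omega), mul_zero]
  have h2 : MvPolynomial.eval ![x, y, 0] (MvPolynomial.pderiv 1 (hz d a)) = (d : κ) * y ^ (d - 1) +
      ∑ q : Ic d, if (q.1.1 : ℕ) + q.1.2 = d then a q * x ^ (q.1.1 : ℕ) * (((q.1.2 : ℕ) : κ) * y ^ ((q.1.2 : ℕ) - 1)) else 0 := by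
    unfold hz
    rw [map_add, map_add, map_sum, map_sum]
    have e0 : (![x, y, 0] : Fin 3 → κ) 0 = x := rfl
    have e1 : (![x, y, 0] : Fin 3 → κ) 1 = y := rfl
    have e2 : (![x, y, 0] : Fin 3 → κ) 2 = 0 := rfl
    congr 1
    · rw [MvPolynomial.pderiv_pow, MvPolynomial.pderiv_X_self]
      simp only [map_mul, map_pow, MvPolynomial.eval_X, map_natCast, mul_one, e1]
    · refine Finset.sum_congr rfl fun q _ => ?_
      have hq := q.2.1
      have e3 : MvPolynomial.pderiv (1 : Fin 3) (MvPolynomial.C (a q) * MvPolynomial.X 0 ^ (q.1.1 : ℕ) * MvPolynomial.X 1 ^ (q.1.2 : ℕ) *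
          MvPolynomial.X 2 ^ (d - q.1.1 - q.1.2)) = MvPolynomial.C (a q) * MvPolynomial.X 0 ^ (q.1.1 : ℕ) *
          (((q.1.2 : ℕ) : MvPolynomial (Fin 3) κ) * MvPolynomial.X 1 ^ ((q.1.2 : ℕ) - 1)) * MvPolynomial.X 2 ^ (d - (q.1.1 : ℕ) - (q.1.2 : ℕ)) := by
        rw [Derivation.leibniz, Derivation.leibniz, Derivation.leibniz, Derivation.leibniz_pow, Derivation.leibniz_pow, Derivation.leibniz_pow,
          MvPolynomial.pderiv_X_self, MvPolynomial.pderiv_X_of_ne (by decide), MvPolynomial.pderiv_X_of_ne (by decide), MvPolynomial.pderiv_C]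
        simp only [smul_zero, smul_eq_mul, nsmul_eq_mul, mul_zero, mul_one, add_zero, zero_add]
        ring
      rw [e3]
      simp only [map_mul, map_pow, MvPolynomial.eval_X, MvPolynomial.eval_C, map_natCast, e0, e1, e2]
      by_cases h6 : (q.1.1 : ℕ) + q.1.2 = d
      · rw [if_pos h6, show d - (q.1.1 : ℕ) - (q.1.2 : ℕ) = 0 by omega, pow_zero, mul_one]
      · rw [if_neg h6, zero_pow (by omega), mul_zero]
  have h3 : MvPolynomial.eval ![x, y, 0] (hz d a) = 0 := by
    have h4 := congrArg (MvPolynomial.eval ![x, y, 0]) (Hm_iff.1 (hm_hz a)).sum_X_mul_pderiv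
    rw [Fin.sum_univ_three] at h4
    simp only [map_add, map_mul, MvPolynomial.eval_X, nsmul_eq_mul, hx0, hy0] at h4
    have e2 : (![x, y, 0] : Fin 3 → κ) 2 = 0 := rfl
    rw [e2, mul_zero, mul_zero, zero_mul, add_zero, add_zero] at h4
    rw [map_natCast] at h4
    exact (mul_eq_zero.1 h4.symm).resolve_left hdk
  by_cases hx : x = 0
  · subst hx
    refine hxy ⟨rfl, ?_⟩
    rw [h2, Finset.sum_eq_zero, add_zero] at hy0
    · exact eq_zero_of_pow_eq_zero ((mul_eq_zero.1 hy0).resolve_left hdk)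
    · intro q _
      split_ifs with h6
      · have hq := q.2.2.2
        rw [zero_pow (by omega), mul_zero, zero_mul]
      · rfl
  · obtain ⟨z, hz'⟩ : ∃ z, y = x * z := ⟨y / x, by field_simp⟩
    have h5 : (tf a).eval z = 0 := by
      have h6 : x ^ d * (tf a).eval z = 0 := by
        rw [← h3, h1]
        unfold tf
        rw [eval_add, eval_pow, eval_X, eval_finsetSum, mul_add, Finset.mul_sum, hz', mul_pow]
        congr 1
        refine Finset.sum_congr rfl fun q _ => ?_
        split_ifs with h6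
        · rw [eval_mul, eval_C, eval_pow, eval_X, mul_pow]
          nth_rw 1 [← h6]
          rw [pow_add]
          ring
        · rw [eval_zero, mul_zero]
      exact (mul_eq_zero.1 h6).resolve_left (pow_ne_zero _ hx)
    have h7 : (derivative (tf a)).eval z = 0 := by
      have h6 : x ^ (d - 1) * (derivative (tf a)).eval z = 0 := by
        rw [← hy0, h2]
        unfold tf
        rw [derivative_add, derivative_X_pow, derivative_sum, eval_add, eval_mul, eval_C, eval_pow, eval_X, eval_finsetSum, mul_add,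
          Finset.mul_sum, hz', mul_pow]
        congr 1
        · ring
        · refine Finset.sum_congr rfl fun q _ => ?_
          split_ifs with h6
          · rw [derivative_C_mul_X_pow, eval_mul, eval_C, eval_pow, eval_X]
            rcases Nat.eq_zero_or_pos (q.1.2 : ℕ) with h8 | h8
            · rw [h8, Nat.cast_zero, mul_zero, zero_mul, zero_mul, mul_zero, mul_zero]
            · rw [show d - 1 = (q.1.1 : ℕ) + ((q.1.2 : ℕ) - 1) by omega, mul_pow, pow_add]
              ring
          · rw [derivative_zero, eval_zero, mul_zero]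
      exact (mul_eq_zero.1 h6).resolve_left (pow_ne_zero _ hx)
    obtain ⟨u, v, huv⟩ := h
    rw [topp_fT (by omega), derivative_map] at huv
    have h8 := congrArg (eval (C z)) huv
    rw [eval_add, eval_mul, eval_mul, eval_map, eval_map, eval₂_at_apply, eval₂_at_apply, h5, h7, map_zero, mul_zero, mul_zero, add_zero,
      eval_C] at h8
    exact hc (C_eq_zero.1 h8.symm)

end MPadcPC
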