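import Pool.Agent.Lib.MP_adc574_ag_PC.NE
import Pool.Agent.Lib.MP_adc574_ag_PC.U2

/-!
# N7: smooth members of the universal family

PROOF of `pla_cf`: compare the sums over `Mn d` and `Ic d` (`Mn d` = `Ic d` and the two elements `(0, 0)`, `(0, d)`, different as `1 ≤ d`).
PROOF of `smooth_form`. `tern (cf a 1 (-τ)) = hz d a - C τ * X 2 ^ d =: P`. Let `x ≠ 0` be a point over `Ω = AlgebraicClosure E` with `P(x) = 0` and all `∂_i P (x) = 0`.
If `x 2 ≠ 0`, scale to `x 2 = 1` (`P`, `∂_i P` are homogeneous): `F = ph d a - cc τ`, `F_x`, `F_Y` vanish at `(x 0, x 1)` (apply `e2`-like evaluation `E[X][X] → Ω` to the certificate `hS`: `1 = 0`; for polynomials in the image of `af`: `aeval ![x, y, 1] Q` is the value of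
`af E Q` at `(x, y)`, and `px (af Q) = af (∂_0 Q)`, `py (af Q) = af (∂_1 Q)`). If `x 2 = 0` and `x 0 ≠ 0`: with `z = x 1 / x 0`: `0 = P(x) = x 0 ^ d * (tf a)(z)` and `0 = ∂_1 P (x) = x 0 ^ (d - 1) * (tf a)'(z)` (`tf` in U2), and `topp 1 d F = tf a` as in `topp_fT` (the constant `τ` does not matter, `1 ≤ d`);
the certificate `hT` gives `1 = 0`. If `x 2 = x 0 = 0` then `P(x) = x 1 ^ d ≠ 0`.
-/

set_option autoImplicit false

namespace MPadcPC

open Polynomial MPadcLF

private theorem N7_sum {M : Type*} [AddCommMonoid M] {d : ℕ} (hd : 1 ≤ d) (f : Mn d → M) :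
    ∑ q : Mn d, f q = f (⟨(⟨0, Nat.succ_pos d⟩, ⟨d, Nat.lt_succ_self d⟩), by simp⟩ : Mn d) + (∑ q : Ic d, f ⟨q.1, q.2.1⟩) +
      f (⟨(⟨0, Nat.succ_pos d⟩, ⟨0, Nat.succ_pos d⟩), by simp⟩ : Mn d) := by
  classical
  obtain ⟨m0, hm0⟩ : ∃ m : Mn d, m = (⟨(⟨0, Nat.succ_pos d⟩, ⟨0, Nat.succ_pos d⟩), by simp⟩ : Mn d) := ⟨_, rfl⟩
  obtain ⟨m1, hm1⟩ : ∃ m : Mn d, m = (⟨(⟨0, Nat.succ_pos d⟩, ⟨d, Nat.lt_succ_self d⟩), by simp⟩ : Mn d) := ⟨_, rfl⟩
  rw [← hm0, ← hm1]
  have hne : m1 ≠ m0 := by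
    intro h
    rw [hm0, hm1] at h
    have h1 := congrArg (fun q : Mn d => (q.1.2 : ℕ)) h
    simp only at h1
    omega
  rw [← Finset.sum_erase_add _ _ (Finset.mem_univ m0),
    ← Finset.sum_erase_add _ _ (Finset.mem_erase.2 ⟨hne, Finset.mem_univ m1⟩)]
  have h2 : ∑ q ∈ (Finset.univ.erase m0).erase m1, f q = ∑ q : Ic d, f ⟨q.1, q.2.1⟩ := by
    symm
    refine Finset.sum_bij (fun (q : Ic d) _ => (⟨q.1, q.2.1⟩ : Mn d)) ?_ ?_ ?_ ?_
    · intro q _
      rw [Finset.mem_erase, Finset.mem_erase]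
      refine ⟨fun h => ?_, fun h => ?_, Finset.mem_univ _⟩
      · rw [hm1] at h
        have h3 := congrArg (fun q : Mn d => (q.1.1 : ℕ)) h
        have h4 := congrArg (fun q : Mn d => (q.1.2 : ℕ)) h
        exact q.2.2.2 ⟨h3, h4⟩
      · rw [hm0] at h
        have h3 := congrArg (fun q : Mn d => (q.1.1 : ℕ)) h
        have h4 := congrArg (fun q : Mn d => (q.1.2 : ℕ)) h
        exact q.2.2.1 ⟨h3, h4⟩
    · intro q _ q' _ h
      exact Subtype.ext (congrArg (fun q : Mn d => q.1) h)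
    · intro q hq
      rw [Finset.mem_erase, Finset.mem_erase] at hq
      refine ⟨⟨q.1, q.2, fun h => hq.2.1 ?_, fun h => hq.1 ?_⟩, Finset.mem_univ _, rfl⟩
      · rw [hm0]
        exact Subtype.ext (Prod.ext (Fin.ext h.1) (Fin.ext h.2))
      · rw [hm1]
        exact Subtype.ext (Prod.ext (Fin.ext h.1) (Fin.ext h.2))
    · intro q _
      rfl
  rw [h2, add_comm (∑ q : Ic d, f ⟨q.1, q.2.1⟩)]

private theorem N7_cfa {R : Type*} {d : ℕ} (a : Ic d → R) (b t : R) (q : Ic d) : cf a b t ⟨q.1, q.2.1⟩ = a q := by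
  unfold cf
  rw [dif_pos q.2.2]

private theorem N7_cft {R : Type*} {d : ℕ} (a : Ic d → R) (b t : R) (q : Mn d) (h1 : (q.1.1 : ℕ) = 0)
    (h2 : (q.1.2 : ℕ) = 0) : cf a b t q = t := by
  unfold cf
  rw [dif_neg, if_pos h2]
  rintro ⟨h, -⟩
  exact h ⟨h1, h2⟩

private theorem N7_cfb {R : Type*} {d : ℕ} (hd : 1 ≤ d) (a : Ic d → R) (b t : R) (q : Mn d) (h1 : (q.1.1 : ℕ) = 0)
    (h2 : (q.1.2 : ℕ) = d) : cf a b t q = b := by
  unfold cf
  rw [dif_neg, if_neg]
  · omega
  · rintro ⟨-, h⟩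
    exact h ⟨h1, h2⟩

theorem pla_cf {R : Type*} [CommRing R] {d : ℕ} (hd : 1 ≤ d) (a : Ic d → R) (b t : R) :
    pla (cf a b t) = C (C b) * X ^ d + (∑ q : Ic d, C (C (a q) * X ^ (q.1.1 : ℕ)) * X ^ (q.1.2 : ℕ)) + cc t := by
  unfold pla
  rw [N7_sum hd, N7_cfb hd a b t _ rfl rfl, N7_cft a b t _ rfl rfl]
  simp only [N7_cfa]
  rw [pow_zero, pow_zero, mul_one, mul_one, mul_one]

theorem tern_cf {R : Type*} [CommRing R] {d : ℕ} (hd : 1 ≤ d) (a : Ic d → R) (b t : R) :
    tern (cf a b t) = MvPolynomial.C b * MvPolynomial.X 1 ^ d +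
      (∑ q : Ic d, MvPolynomial.C (a q) * MvPolynomial.X 0 ^ (q.1.1 : ℕ) * MvPolynomial.X 1 ^ (q.1.2 : ℕ) *
        MvPolynomial.X 2 ^ (d - q.1.1 - q.1.2)) + MvPolynomial.C t * MvPolynomial.X 2 ^ d := by
  unfold tern
  rw [N7_sum hd, N7_cfb hd a b t _ rfl rfl, N7_cft a b t _ rfl rfl]
  simp only [N7_cfa]
  simp only [pow_zero, mul_one, Nat.sub_zero, Nat.sub_self]

private theorem N7_C {K : Type*} [Field K] (a : K) : af K (MvPolynomial.C a) = C (C a) := by
  unfold af
  rw [MvPolynomial.aeval_C]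
  rfl

private theorem N7_X {K : Type*} [Field K] (i : Fin 3) : af K (MvPolynomial.X i) = (![C X, X, 1] : Fin 3 → K[X][X]) i := by
  unfold af
  rw [MvPolynomial.aeval_X]

private theorem N7_ax {K : Type*} [Field K] (P : MvPolynomial (Fin 3) K) :
    af K (MvPolynomial.pderiv 0 P) = px (af K P) := by
  induction P using MvPolynomial.induction_on with
  | C a => rw [MvPolynomial.pderiv_C, map_zero, N7_C, px_C, derivative_C, C_0]
  | add p q hp hq => rw [map_add, map_add, map_add, hp, hq, isDer_px.add]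
  | mul_X p i hp =>
    rw [Derivation.leibniz, map_add, smul_eq_mul, smul_eq_mul, map_mul, map_mul, map_mul, hp, isDer_px.mul,
      MvPolynomial.pderiv_X, N7_X]
    have h1 : af K (Pi.single (M := fun _ => MvPolynomial (Fin 3) K) 0 1 i) =
        px ((![C X, X, 1] : Fin 3 → K[X][X]) i) := by
      fin_cases i
      · show af K 1 = px (C X)
        rw [map_one, px_C, derivative_X, C_1]
      · show af K 0 = px X
        rw [map_zero, px_X]
      · show af K 0 = px 1
        rw [map_zero, isDer_px.one]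
    rw [h1]

private theorem N7_ay {K : Type*} [Field K] (P : MvPolynomial (Fin 3) K) :
    af K (MvPolynomial.pderiv 1 P) = py (af K P) := by
  induction P using MvPolynomial.induction_on with
  | C a => rw [MvPolynomial.pderiv_C, map_zero, N7_C, py_C]
  | add p q hp hq => rw [map_add, map_add, map_add, hp, hq, isDer_py.add]
  | mul_X p i hp =>
    rw [Derivation.leibniz, map_add, smul_eq_mul, smul_eq_mul, map_mul, map_mul, map_mul, hp, isDer_py.mul,
      MvPolynomial.pderiv_X, N7_X]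
    have h1 : af K (Pi.single (M := fun _ => MvPolynomial (Fin 3) K) 1 1 i) =
        py ((![C X, X, 1] : Fin 3 → K[X][X]) i) := by
      fin_cases i
      · show af K 0 = py (C X)
        rw [map_zero, py_C]
      · show af K 1 = py X
        rw [map_one, py_X]
      · show af K 0 = py 1
        rw [map_zero, isDer_py.one]
    rw [h1]

private theorem N7_ev {K Ω : Type*} [Field K] [Field Ω] [Algebra K Ω] (ξ η : Ω) (Q : MvPolynomial (Fin 3) K) :
    eval₂ (aeval ξ : K[X] →ₐ[K] Ω).toRingHom η (af K Q) = MvPolynomial.aeval ![ξ, η, 1] Q := by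
  rw [← coe_eval₂RingHom]
  induction Q using MvPolynomial.induction_on with
  | C a =>
    rw [N7_C, MvPolynomial.aeval_C, coe_eval₂RingHom, eval₂_C]
    show aeval ξ (C a) = _
    rw [aeval_C]
  | add p q hp hq => rw [map_add, map_add, map_add, hp, hq]
  | mul_X p i hp =>
    rw [map_mul, map_mul, map_mul, hp, N7_X, MvPolynomial.aeval_X]
    have h1 : eval₂RingHom (aeval ξ : K[X] →ₐ[K] Ω).toRingHom η ((![C X, X, 1] : Fin 3 → K[X][X]) i) =
        (![ξ, η, 1] : Fin 3 → Ω) i := by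
      fin_cases i
      · show eval₂ (aeval ξ : K[X] →ₐ[K] Ω).toRingHom η (C X) = ξ
        rw [eval₂_C]
        exact aeval_X ξ
      · show eval₂ (aeval ξ : K[X] →ₐ[K] Ω).toRingHom η X = η
        rw [eval₂_X]
      · show eval₂ (aeval ξ : K[X] →ₐ[K] Ω).toRingHom η 1 = 1
        rw [eval₂_one]
    rw [h1]

private theorem N7_sc {K Ω : Type*} [Field K] [Field Ω] [Algebra K Ω] {m : ℕ} (Q : MvPolynomial (Fin 3) K)
    (hQ : Q.IsHomogeneous m) (c : Ω) (x : Fin 3 → Ω) (h0 : MvPolynomial.aeval x Q = 0) :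
    MvPolynomial.aeval (fun i => c * x i) Q = 0 := by
  have h1 : MvPolynomial.aeval (fun i => c * x i) Q = c ^ m * MvPolynomial.aeval x Q := by
    rw [MvPolynomial.aeval_def, MvPolynomial.aeval_def, MvPolynomial.eval₂_eq', MvPolynomial.eval₂_eq', Finset.mul_sum]
    refine Finset.sum_congr rfl fun e he => ?_
    have h2 : ∑ i, e i = m := (MPadcLZ.Hm_iff.2 hQ) e he
    simp only [mul_pow]
    rw [Finset.prod_mul_distrib, Finset.prod_pow_eq_pow_sum, h2]
    ring
  rw [h1, h0, mul_zero]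

private theorem N7_top {E Ω : Type} [Field E] [Field Ω] [Algebra E Ω] {d : ℕ} (hd : 1 ≤ d) (a : Ic d → E) (τ : E)
    (hT : Tp 1 d (ph d a - cc τ) 1) (x y : Ω) (hxy : ¬ (x = 0 ∧ y = 0))
    (h0 : MvPolynomial.aeval ![x, y, 0] (tern (cf a 1 (-τ))) = 0)
    (hy0 : MvPolynomial.aeval ![x, y, 0] (MvPolynomial.pderiv 1 (tern (cf a 1 (-τ)))) = 0) : False := by
  have e0 : (![x, y, 0] : Fin 3 → Ω) 0 = x := rfl
  have e1 : (![x, y, 0] : Fin 3 → Ω) 1 = y := rfl
  have e2 : (![x, y, 0] : Fin 3 → Ω) 2 = 0 := rfl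
  rw [tern_cf hd] at h0 hy0
  have h1 : MvPolynomial.aeval ![x, y, 0] (MvPolynomial.C 1 * MvPolynomial.X 1 ^ d +
      (∑ q : Ic d, MvPolynomial.C (a q) * MvPolynomial.X 0 ^ (q.1.1 : ℕ) * MvPolynomial.X 1 ^ (q.1.2 : ℕ) *
        MvPolynomial.X 2 ^ (d - q.1.1 - q.1.2)) + MvPolynomial.C (-τ) * MvPolynomial.X 2 ^ d) =
      y ^ d + ∑ q : Ic d, if (q.1.1 : ℕ) + q.1.2 = d then algebraMap E Ω (a q) * x ^ (q.1.1 : ℕ) * y ^ (q.1.2 : ℕ) else 0 := by
    simp only [map_add, map_sum, map_mul, map_pow, MvPolynomial.aeval_X, MvPolynomial.aeval_C]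
    rw [e0, e1, e2, zero_pow (by omega), mul_zero, add_zero, map_one, one_mul]
    congr 1
    refine Finset.sum_congr rfl fun q _ => ?_
    have hq := q.2.1
    by_cases h6 : (q.1.1 : ℕ) + q.1.2 = d
    · rw [if_pos h6, show d - (q.1.1 : ℕ) - (q.1.2 : ℕ) = 0 by omega, pow_zero, mul_one]
    · rw [if_neg h6, zero_pow (by omega), mul_zero]
  have h2 : MvPolynomial.aeval ![x, y, 0] (MvPolynomial.pderiv 1 (MvPolynomial.C 1 * MvPolynomial.X 1 ^ d +
      (∑ q : Ic d, MvPolynomial.C (a q) * MvPolynomial.X 0 ^ (q.1.1 : ℕ) * MvPolynomial.X 1 ^ (q.1.2 : ℕ) *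
        MvPolynomial.X 2 ^ (d - q.1.1 - q.1.2)) + MvPolynomial.C (-τ) * MvPolynomial.X 2 ^ d)) = (d : Ω) * y ^ (d - 1) +
      ∑ q : Ic d, if (q.1.1 : ℕ) + q.1.2 = d then algebraMap E Ω (a q) * x ^ (q.1.1 : ℕ) *
        (((q.1.2 : ℕ) : Ω) * y ^ ((q.1.2 : ℕ) - 1)) else 0 := by
    rw [map_add, map_add, map_add, map_sum, map_add, map_sum]
    have e5 : MvPolynomial.pderiv (1 : Fin 3) (MvPolynomial.C (-τ) * MvPolynomial.X 2 ^ d) = 0 := by
      rw [Derivation.leibniz, Derivation.leibniz_pow, MvPolynomial.pderiv_X_of_ne (by decide), MvPolynomial.pderiv_C]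
      simp only [smul_zero, add_zero]
    rw [e5, map_zero, add_zero, map_one, one_mul]
    congr 1
    · rw [MvPolynomial.pderiv_pow, MvPolynomial.pderiv_X_self]
      simp only [map_mul, map_pow, MvPolynomial.aeval_X, map_natCast, mul_one, e1]
    · refine Finset.sum_congr rfl fun q _ => ?_
      have hq := q.2.1
      have e3 : MvPolynomial.pderiv (1 : Fin 3) (MvPolynomial.C (a q) * MvPolynomial.X 0 ^ (q.1.1 : ℕ) * MvPolynomial.X 1 ^ (q.1.2 : ℕ) *
          MvPolynomial.X 2 ^ (d - q.1.1 - q.1.2)) = MvPolynomial.C (a q) * MvPolynomial.X 0 ^ (q.1.1 : ℕ) *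
          (((q.1.2 : ℕ) : MvPolynomial (Fin 3) E) * MvPolynomial.X 1 ^ ((q.1.2 : ℕ) - 1)) * MvPolynomial.X 2 ^ (d - (q.1.1 : ℕ) - (q.1.2 : ℕ)) := by
        rw [Derivation.leibniz, Derivation.leibniz, Derivation.leibniz, Derivation.leibniz_pow, Derivation.leibniz_pow, Derivation.leibniz_pow,
          MvPolynomial.pderiv_X_self, MvPolynomial.pderiv_X_of_ne (by decide), MvPolynomial.pderiv_X_of_ne (by decide), MvPolynomial.pderiv_C]
        simp only [smul_zero, smul_eq_mul, nsmul_eq_mul, mul_zero, mul_one, add_zero, zero_add]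
        ring
      rw [e3]
      simp only [map_mul, map_pow, MvPolynomial.aeval_X, MvPolynomial.aeval_C, map_natCast, e0, e1, e2]
      by_cases h6 : (q.1.1 : ℕ) + q.1.2 = d
      · rw [if_pos h6, show d - (q.1.1 : ℕ) - (q.1.2 : ℕ) = 0 by omega, pow_zero, mul_one]
      · rw [if_neg h6, zero_pow (by omega), mul_zero]
  by_cases hx : x = 0
  · subst hx
    refine hxy ⟨rfl, ?_⟩
    rw [h1, Finset.sum_eq_zero, add_zero] at h0
    · exact eq_zero_of_pow_eq_zero h0
    · intro q _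
      split_ifs with h6
      · have hq := q.2.2.2
        rw [zero_pow (by omega), mul_zero, zero_mul]
      · rfl
  · obtain ⟨z, hz'⟩ : ∃ z, y = x * z := ⟨y / x, by field_simp⟩
    have h5 : aeval z (tf a) = 0 := by
      have h6 : x ^ d * aeval z (tf a) = 0 := by
        rw [← h0, h1]
        unfold tf
        rw [map_add, map_pow, aeval_X, map_sum, mul_add, Finset.mul_sum, hz', mul_pow]
        congr 1
        refine Finset.sum_congr rfl fun q _ => ?_
        split_ifs with h6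
        · rw [map_mul, aeval_C, map_pow, aeval_X, mul_pow]
          nth_rw 1 [← h6]
          rw [pow_add]
          ring
        · rw [map_zero, mul_zero]
      exact (mul_eq_zero.1 h6).resolve_left (pow_ne_zero _ hx)
    have h7 : aeval z (derivative (tf a)) = 0 := by
      have h6 : x ^ (d - 1) * aeval z (derivative (tf a)) = 0 := by
        rw [← hy0, h2]
        unfold tf
        rw [derivative_add, derivative_X_pow, derivative_sum, map_add, map_mul, aeval_C, map_pow, aeval_X, map_sum, mul_add,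
          Finset.mul_sum, hz', mul_pow, map_natCast]
        congr 1
        · ring
        · refine Finset.sum_congr rfl fun q _ => ?_
          split_ifs with h6
          · rw [derivative_C_mul_X_pow, map_mul, aeval_C, map_pow, aeval_X, map_mul, map_natCast]
            rcases Nat.eq_zero_or_pos (q.1.2 : ℕ) with h8 | h8
            · rw [h8, Nat.cast_zero, mul_zero, zero_mul, zero_mul, mul_zero, mul_zero]
            · rw [show d - 1 = (q.1.1 : ℕ) + ((q.1.2 : ℕ) - 1) by omega, mul_pow, pow_add]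
              ring
          · rw [derivative_zero, map_zero, mul_zero]
      exact (mul_eq_zero.1 h6).resolve_left (pow_ne_zero _ hx)
    obtain ⟨u, v, huv⟩ := hT
    have h9 : topp 1 d (ph d a - cc τ) = tf a := by
      have h10 := fT_at (RingHom.id E) a τ
      have h11 : (fun q => RingHom.id E (a q)) = a := rfl
      rw [h11] at h10
      rw [← h10, ← mp_topp, topp_fT hd, Polynomial.map_map]
      have h12 : (eval₂RingHom (RingHom.id E) τ).comp (C : E →+* E[X]) = RingHom.id E := by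
        ext r
        rw [RingHom.comp_apply, coe_eval₂RingHom, eval₂_C]
      rw [h12, Polynomial.map_id]
    rw [h9] at huv
    have h8 := congrArg (aeval z) huv
    rw [map_add, map_mul, map_mul, h5, h7, mul_zero, mul_zero, add_zero, aeval_C, map_one] at h8
    exact zero_ne_one h8

theorem smooth_form {E : Type} [Field E] {d : ℕ} (hd : 1 ≤ d) (a : Ic d → E) (τ : E) (hS : Sm (ph d a - cc τ) 1)
    (hT : Tp 1 d (ph d a - cc τ) 1) : IsSmoothForm (tern (cf a 1 (-τ))) := by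
  intro x hx h0
  by_contra hcon
  push Not at hcon
  have hP : (tern (cf a 1 (-τ))).IsHomogeneous d := by
    unfold tern
    refine MvPolynomial.IsHomogeneous.sum _ _ _ fun q _ => ?_
    have h1 : d = 0 + (q.1.1 : ℕ) + (q.1.2 : ℕ) + (d - (q.1.1 : ℕ) - (q.1.2 : ℕ)) := by
      have := q.2
      omega
    have h2 := (((MvPolynomial.isHomogeneous_C (Fin 3) (cf a 1 (-τ) q)).mul (MvPolynomial.isHomogeneous_X_pow 0 (q.1.1 : ℕ))).mul
      (MvPolynomial.isHomogeneous_X_pow 1 (q.1.2 : ℕ))).mul (MvPolynomial.isHomogeneous_X_pow 2 (d - (q.1.1 : ℕ) - (q.1.2 : ℕ)))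
    rw [← h1] at h2
    exact h2
  by_cases h2 : x 2 = 0
  · have hx' : x = ![x 0, x 1, 0] := by
      funext i
      fin_cases i
      · rfl
      · rfl
      · exact h2
    refine N7_top hd a τ hT (x 0) (x 1) ?_ (by rw [← hx']; exact h0) (by rw [← hx']; exact hcon 1)
    rintro ⟨h3, h4⟩
    apply hx
    rw [hx', h3, h4]
    funext i
    fin_cases i <;> rfl
  · have hx' : (fun i => (x 2)⁻¹ * x i) = ![(x 2)⁻¹ * x 0, (x 2)⁻¹ * x 1, 1] := by
      funext i
      fin_cases i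
      · rfl
      · rfl
      · exact inv_mul_cancel₀ h2
    have h3 : af E (tern (cf a 1 (-τ))) = ph d a - cc τ := by
      rw [tern_cf hd]
      unfold ph
      have h4 : af E (MvPolynomial.X 0) = C X := N7_X 0
      have h5 : af E (MvPolynomial.X 1) = X := N7_X 1
      have h6 : af E (MvPolynomial.X 2) = 1 := N7_X 2
      simp only [map_add, map_sum, map_mul, map_pow, h4, h5, h6, N7_C, one_pow, mul_one, map_neg, C_1, one_mul]
      rw [sub_eq_add_neg]
    have k0 := N7_sc _ hP (x 2)⁻¹ x h0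
    have k1 := N7_sc _ (hP.pderiv (i := 0)) (x 2)⁻¹ x (hcon 0)
    have k2 := N7_sc _ (hP.pderiv (i := 1)) (x 2)⁻¹ x (hcon 1)
    rw [hx', ← N7_ev, h3] at k0
    rw [hx', ← N7_ev, N7_ax, h3] at k1
    rw [hx', ← N7_ev, N7_ay, h3] at k2
    obtain ⟨u, v, z, huv⟩ := hS
    have h5 := congrArg (eval₂ (aeval ((x 2)⁻¹ * x 0) : E[X] →ₐ[E] AlgebraicClosure E).toRingHom ((x 2)⁻¹ * x 1)) huv
    rw [eval₂_add, eval₂_add, eval₂_mul, eval₂_mul, eval₂_mul, k0, k1, k2, mul_zero, mul_zero, mul_zero, add_zero, add_zero] at h5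
    have h6 : (cc 1 : E[X][X]) = 1 := by
      rw [cc, C_1, C_1]
    rw [h6, eval₂_one] at h5
    exact zero_ne_one h5

end MPadcPC
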