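import Pool.Agent.Lib.MP_adc574_ag_PC.NE

/-!
# N8: multiplication of the coefficients by a constant

PROOF. `cf_smul`: cases. `tern_smul`, `pla_smul`: `Finset.mul_sum`. `smooth_smul`: `aeval x (C b * P) = b * aeval x P`, `pderiv i (C b * P) = C b * pderiv i P`. `plane_smul`: `IsPlaneField (C (C b) * F) x y` is equivalent to `IsPlaneField F x y` for `b ≠ 0`
(`eval₂` of `C (C b)` is `algebraMap E L b ≠ 0`). `cf_map`: cases.
-/

set_option autoImplicit false

namespace MPadcPC

open Polynomial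

variable {d : ℕ}

theorem cf_smul {R : Type*} [CommRing R] (b : R) (a : Ic d → R) (c t : R) (q : Mn d) :
    cf (fun q => b * a q) (b * c) (b * t) q = b * cf a c t q := by
  unfold cf
  split_ifs <;> rfl

theorem cf_map {R R' : Type*} (f : R → R') (a : Ic d → R) (c t : R) (q : Mn d) :
    f (cf a c t q) = cf (fun q => f (a q)) (f c) (f t) q := by
  unfold cf
  split_ifs <;> rfl

theorem tern_smul {R : Type*} [CommRing R] (b : R) (c : Mn d → R) :
    tern (fun q => b * c q) = MvPolynomial.C b * tern c := by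
  unfold tern
  rw [Finset.mul_sum]
  refine Finset.sum_congr rfl fun q _ => ?_
  rw [MvPolynomial.C_mul]
  ring

theorem pla_smul {R : Type*} [CommRing R] (b : R) (c : Mn d → R) :
    pla (fun q => b * c q) = C (C b) * pla c := by
  unfold pla
  rw [Finset.mul_sum]
  refine Finset.sum_congr rfl fun q _ => ?_
  rw [← mul_assoc, ← C_mul, ← mul_assoc, ← C_mul]

theorem smooth_smul {E : Type} [Field E] (b : E) (hb : b ≠ 0) (P : MvPolynomial (Fin 3) E) :
    IsSmoothForm (MvPolynomial.C b * P) ↔ IsSmoothForm P := by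
  have h0 : algebraMap E (AlgebraicClosure E) b ≠ 0 := (_root_.map_ne_zero _).2 hb
  have h1 : ∀ (x : Fin 3 → AlgebraicClosure E) (Q : MvPolynomial (Fin 3) E),
      MvPolynomial.aeval x (MvPolynomial.C b * Q) = algebraMap E (AlgebraicClosure E) b * MvPolynomial.aeval x Q := by
    intro x Q
    rw [map_mul, MvPolynomial.aeval_C]
  unfold IsSmoothForm
  refine forall_congr' fun x => forall_congr' fun _ => ?_
  have e1 : MvPolynomial.aeval x (MvPolynomial.C b * P) = 0 ↔ MvPolynomial.aeval x P = 0 := by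
    rw [h1, mul_eq_zero, or_iff_right h0]
  have e2 : ∀ i, MvPolynomial.aeval x (MvPolynomial.pderiv i (MvPolynomial.C b * P)) ≠ 0 ↔
      MvPolynomial.aeval x (MvPolynomial.pderiv i P) ≠ 0 := by
    intro i
    rw [MvPolynomial.pderiv_C_mul, ne_eq, ne_eq, MvPolynomial.C_mul', map_smul, Algebra.smul_def, mul_eq_zero,
      or_iff_right h0]
  rw [e1]
  exact imp_congr_right fun _ => exists_congr e2

theorem plane_smul {E : Type} [Field E] (b : E) (hb : b ≠ 0) (F : E[X][X]) :
    PlaneIsOrdinary (C (C b) * F) ↔ PlaneIsOrdinary F := by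
  have key : ∀ (L : Type) (_ : Field L) (_ : Algebra E L) (x y : L),
      IsPlaneField (C (C b) * F) x y ↔ IsPlaneField F x y := by
    intro L _ _ x y
    have h0 : algebraMap E L b ≠ 0 := (_root_.map_ne_zero _).2 hb
    have h1 : eval₂ (aeval x : E[X] →ₐ[E] L).toRingHom y (C (C b) * F) =
        algebraMap E L b * eval₂ (aeval x : E[X] →ₐ[E] L).toRingHom y F := by
      rw [eval₂_mul, eval₂_C]
      refine congrArg (· * _) ?_
      exact aeval_C x b
    constructor
    · rintro ⟨h2, h3, h4⟩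
      refine ⟨h2, ?_, h4⟩
      rw [h1] at h3
      exact (mul_eq_zero.1 h3).resolve_left h0
    · rintro ⟨h2, h3, h4⟩
      refine ⟨h2, ?_, h4⟩
      rw [h1, h3, mul_zero]
  constructor
  · rintro ⟨⟨L, i1, i2, x, y, h⟩, h2⟩
    exact ⟨⟨L, i1, i2, x, y, (key L i1 i2 x y).1 h⟩, fun L i1 i2 x y h => h2 L x y ((key L i1 i2 x y).2 h)⟩
  · rintro ⟨⟨L, i1, i2, x, y, h⟩, h2⟩
    exact ⟨⟨L, i1, i2, x, y, (key L i1 i2 x y).2 h⟩, fun L i1 i2 x y h => h2 L x y ((key L i1 i2 x y).1 h)⟩

end MPadcPC
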