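import Pool.Agent.Lib.MP_adc574_ag_PC.FD
import Pool.Agent.Lib.MP_adc574_ag_OA.CDefs

/-!
# Plane curves over number fields: definitions

A plane curve of degree `d` is given by the coefficients `c (i, j)` of `x ^ i y ^ j z ^ (d - i - j)`, `i + j ≤ d`.
-/

set_option autoImplicit false

namespace MPadcPC

open Polynomial NumberField

/-- The exponents `(i, j)` with `i + j ≤ d`. -/
abbrev Mn (d : ℕ) : Type := {q : Fin (d + 1) × Fin (d + 1) // (q.1 : ℕ) + q.2 ≤ d}

/-- The form `∑ c (i, j) x ^ i y ^ j z ^ (d - i - j)`. -/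
noncomputable def tern {R : Type*} [CommRing R] {d : ℕ} (c : Mn d → R) : MvPolynomial (Fin 3) R :=
  ∑ q, MvPolynomial.C (c q) * MvPolynomial.X 0 ^ (q.1.1 : ℕ) * MvPolynomial.X 1 ^ (q.1.2 : ℕ) *
    MvPolynomial.X 2 ^ (d - q.1.1 - q.1.2)

/-- The polynomial `∑ c (i, j) x ^ i y ^ j`, as a polynomial in `y` whose coefficients are polynomials in `x`. -/
noncomputable def pla {R : Type*} [CommRing R] {d : ℕ} (c : Mn d → R) : R[X][X] :=
  ∑ q, C (C (c q) * X ^ (q.1.1 : ℕ)) * X ^ (q.1.2 : ℕ)

/-- The plane curve `P = 0` is smooth: it has no singular point over the algebraic closure. -/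
def IsSmoothForm {E : Type} [Field E] (P : MvPolynomial (Fin 3) E) : Prop :=
  ∀ x : Fin 3 → AlgebraicClosure E, x ≠ 0 → MvPolynomial.aeval x P = 0 →
    ∃ i, MvPolynomial.aeval x (MvPolynomial.pderiv i P) ≠ 0

/-- The plane curve with the coefficients `c` over the ring of integers of the number field `K` has good reduction at the
maximal ideal `𝔭` (as a plane curve: the coefficients modulo `𝔭` are those of a smooth plane curve of degree `d`), which is
ordinary in the sense of Bloch and Kato. -/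
def OrdinaryAt {K : Type} [Field K] [NumberField K] {d : ℕ} (c : Mn d → 𝓞 K) (𝔭 : Ideal (𝓞 K)) : Prop :=
  ∃ (E : Type) (_ : Field E) (φ : 𝓞 K →+* E), Function.Surjective φ ∧ RingHom.ker φ = 𝔭 ∧
    IsSmoothForm (tern fun q => φ (c q)) ∧ PlaneIsOrdinary (pla fun q => φ (c q))

end MPadcPC
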