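import Pool.Agent.Lib.MP_adc574_ag_PC.KD
import Pool.Agent.Lib.MP_adc574_ag_PC.N3
import Pool.Agent.Lib.MP_adc574_ag_LZ.GeoMain

/-!
# The universal family of plane curves: definitions

`ph d a = Y ^ d + ∑ a_ij x ^ i Y ^ j` (`i + j ≤ d`, `(i, j) ≠ (0, 0), (0, d)`), `hz d a` its homogenisation, `fT d a = ph d a - T` over `R[T]`.
-/

set_option autoImplicit false

namespace MPadcPC

open Polynomial MPadcLF MPadcLZ

/-- The exponents `(i, j)` with `i + j ≤ d`, different from `(0, 0)` and `(0, d)`. -/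
abbrev Ic (d : ℕ) : Type :=
  {q : Fin (d + 1) × Fin (d + 1) // (q.1 : ℕ) + q.2 ≤ d ∧ ¬ ((q.1 : ℕ) = 0 ∧ (q.2 : ℕ) = 0) ∧ ¬ ((q.1 : ℕ) = 0 ∧ (q.2 : ℕ) = d)}

section

variable {R : Type*} [CommRing R] {d : ℕ}

variable (d) in
/-- The polynomial `Y ^ d + ∑ a_ij x ^ i Y ^ j`. -/
noncomputable def ph (a : Ic d → R) : R[X][X] :=
  X ^ d + ∑ q, C (C (a q) * X ^ (q.1.1 : ℕ)) * X ^ (q.1.2 : ℕ)

variable (d) in
/-- The form of degree `d` with the dehomogenisation `ph d a`. -/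
noncomputable def hz (a : Ic d → R) : MvPolynomial (Fin 3) R :=
  MvPolynomial.X 1 ^ d + ∑ q, MvPolynomial.C (a q) * MvPolynomial.X 0 ^ (q.1.1 : ℕ) * MvPolynomial.X 1 ^ (q.1.2 : ℕ) *
    MvPolynomial.X 2 ^ (d - q.1.1 - q.1.2)

variable (d) in
/-- The family `ph d a = T`. -/
noncomputable def fT (a : Ic d → R) : R[X][X][X] := mp C (ph d a) - cc X

/-- The value at the point `(x, y, 1)`. -/
noncomputable def vh (P : MvPolynomial (Fin 3) R) (x y : R) : R := MvPolynomial.eval ![x, y, 1] P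

/-- `(x, y)` is a critical point of `ph d a`. -/
def IsCrit (a : Ic d → R) (x y : R) : Prop :=
  vh (MvPolynomial.pderiv 0 (hz d a)) x y = 0 ∧ vh (MvPolynomial.pderiv 1 (hz d a)) x y = 0

/-- The Hessian. -/
noncomputable def hess (a : Ic d → R) (x y : R) : R :=
  vh (MvPolynomial.pderiv 0 (MvPolynomial.pderiv 0 (hz d a))) x y * vh (MvPolynomial.pderiv 1 (MvPolynomial.pderiv 1 (hz d a))) x y -
    vh (MvPolynomial.pderiv 0 (MvPolynomial.pderiv 1 (hz d a))) x y ^ 2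

/-- `ph d a` is a Morse polynomial with different critical values, unramified at infinity. -/
structure Morse (a : Ic d → R) : Prop where
  top : ∀ x y : R, ¬ (x = 0 ∧ y = 0) → ¬ (MvPolynomial.eval ![x, y, 0] (MvPolynomial.pderiv 0 (hz d a)) = 0 ∧
    MvPolynomial.eval ![x, y, 0] (MvPolynomial.pderiv 1 (hz d a)) = 0)
  node : ∀ x y, IsCrit a x y → hess a x y ≠ 0
  val : ∀ x y x' y', IsCrit a x y → IsCrit a x' y' → vh (hz d a) x y = vh (hz d a) x' y' → x = x' ∧ y = y'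

end

/-- The integers with `1 / 2`. -/
abbrev Z2 : Type := Localization.Away (2 : ℤ)

/-- The ring of the coefficients of the universal polynomial. -/
abbrev Au (d : ℕ) : Type := MvPolynomial (Ic d) Z2

end MPadcPC
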