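import Pool.Agent.Lib.MP_adc574_ag_PC.ND
import Pool.Agent.Lib.MP_adc574_ag_PC.UD

/-!
# Coefficients of the members of the universal family: definition
-/

set_option autoImplicit false

namespace MPadcPC

/-- The coefficients: `t` at `(0, 0)`, `b` at `(0, d)`, `a` elsewhere. -/
noncomputable def cf {R : Type*} {d : ℕ} (a : Ic d → R) (b t : R) : Mn d → R := fun q =>
  open Classical in
  if h : ¬ ((q.1.1 : ℕ) = 0 ∧ (q.1.2 : ℕ) = 0) ∧ ¬ ((q.1.1 : ℕ) = 0 ∧ (q.1.2 : ℕ) = d) then a ⟨q.1, q.2, h.1, h.2⟩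
  else if (q.1.2 : ℕ) = 0 then t else b

end MPadcPC
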