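import Pool.Agent.Lib.MP_adc574_ag_PC.UD

/-!
# U1: elementary properties of the universal family

All by direct computation. `ph_map`, `hz_map`, `fT_map`: all constructions are compatible with ring homomorphisms. `af_hz`: `af R (X 0) = C X`, `af R (X 1) = X`,
`af R (X 2) = 1`. `hm_hz`: all monomials have degree `d` (`Hm_iff`, `MvPolynomial.IsHomogeneous`). `wt_fT`: `fT d a = X ^ d + ∑ C (C (C (a q)) * X ^ i) * X ^ j - C (C X)`; monic of degree `d` (`1 ≤ d`): all other terms
have degree `< d` in `Y` (`j ≤ d`, and `j = d` only for `i = 0`, excluded), the coefficient of `Y ^ j` has degree at most `d - j` in `x`.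
`exists_psi`: `MvPolynomial.eval₂Hom (IsLocalization.Away.lift ..) a`. `exists_int`: the images in `Z2` of the integers and the powers of 2:
`IsLocalization.exists_mk'_eq`/`surj` for the coefficients, a common denominator `2 ^ N` (induction on the polynomial or `MvPolynomial` support sum): `c * 2 ^ N = map (algebraMap ℤ Z2) z`.
Then `z ≠ 0` and for `ψ` with `aeval (ψ ∘ X) z ≠ 0` : `ψ c * 2 ^ N = aeval (fun q => ψ (X q)) z ≠ 0`.
-/

set_option autoImplicit false

namespace MPadcPC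

open Polynomial MPadcLF MPadcLZ

variable {R : Type*} [CommRing R] {d : ℕ}

theorem ph_map {R' : Type*} [CommRing R'] (ψ : R →+* R') (a : Ic d → R) : mp ψ (ph d a) = ph d fun q => ψ (a q) := by
  unfold ph
  rw [map_add, map_pow, map_sum]
  congr 1
  · rw [coe_mapRingHom, map_X]
  · refine Finset.sum_congr rfl fun q _ => ?_
    rw [map_mul, map_pow, coe_mapRingHom, map_X, map_C, map_mul, map_pow, coe_mapRingHom, map_X, map_C]

theorem hz_map {R' : Type*} [CommRing R'] (ψ : R →+* R') (a : Ic d → R) :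
    MvPolynomial.map ψ (hz d a) = hz d fun q => ψ (a q) := by
  unfold hz
  rw [map_add, map_pow, map_sum, MvPolynomial.map_X]
  congr 1
  refine Finset.sum_congr rfl fun q _ => ?_
  rw [map_mul, map_mul, map_mul, map_pow, map_pow, map_pow, MvPolynomial.map_X, MvPolynomial.map_X,
    MvPolynomial.map_X, MvPolynomial.map_C]

theorem fT_map {R' : Type*} [CommRing R'] (ψ : R →+* R') (a : Ic d → R) :
    mp (mapRingHom ψ) (fT d a) = fT d fun q => ψ (a q) := by
  have h1 : mp (mapRingHom ψ) (mp C (ph d a)) = mp C (ph d fun q => ψ (a q)) := by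
    rw [ph_map, ph_map, ph_map]
    refine congrArg (ph d) (funext fun q => ?_)
    rw [coe_mapRingHom, map_C]
  have h2 : mp (mapRingHom ψ) (cc X) = cc X := by
    show mp (mapRingHom ψ) (C (C X)) = C (C X)
    rw [coe_mapRingHom, map_C, coe_mapRingHom, map_C, coe_mapRingHom, map_X]
  unfold fT
  rw [map_sub, h1, h2]

/-- The member at `τ`. -/
theorem fT_at {R' : Type*} [CommRing R'] (ψ : R →+* R') (a : Ic d → R) (τ : R') :
    mp (eval₂RingHom ψ τ) (fT d a) = (ph d fun q => ψ (a q)) - cc τ := by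
  have h1 : mp (eval₂RingHom ψ τ) (mp C (ph d a)) = ph d fun q => ψ (a q) := by
    rw [ph_map, ph_map]
    refine congrArg (ph d) (funext fun q => ?_)
    rw [coe_eval₂RingHom, eval₂_C]
  have h2 : mp (eval₂RingHom ψ τ) (cc X) = cc τ := by
    show mp (eval₂RingHom ψ τ) (C (C X)) = C (C τ)
    rw [coe_mapRingHom, map_C, coe_mapRingHom, map_C, coe_eval₂RingHom, eval₂_X]
  unfold fT
  rw [map_sub, h1, h2]

theorem af_hz (a : Ic d → R) : af R (hz d a) = ph d a := by
  unfold af hz ph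
  have h0 : (![C X, X, 1] : Fin 3 → R[X][X]) 0 = C X := rfl
  have h1 : (![C X, X, 1] : Fin 3 → R[X][X]) 1 = X := rfl
  have h2 : (![C X, X, 1] : Fin 3 → R[X][X]) 2 = 1 := rfl
  rw [map_add, map_pow, map_sum, MvPolynomial.aeval_X, h1]
  congr 1
  refine Finset.sum_congr rfl fun q _ => ?_
  rw [map_mul, map_mul, map_mul, map_pow, map_pow, map_pow, MvPolynomial.aeval_X, MvPolynomial.aeval_X,
    MvPolynomial.aeval_X, MvPolynomial.aeval_C, h0, h1, h2, one_pow, mul_one, map_mul, map_pow]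
  rfl

theorem hm_hz (a : Ic d → R) : Hm d (hz d a) := by
  rw [Hm_iff]
  unfold hz
  refine (MvPolynomial.isHomogeneous_X_pow 1 d).add (MvPolynomial.IsHomogeneous.sum _ _ _ fun q _ => ?_)
  have h1 := (((MvPolynomial.isHomogeneous_C (Fin 3) (a q)).mul
    (MvPolynomial.isHomogeneous_X_pow (R := R) (0 : Fin 3) (q.1.1 : ℕ))).mul
    (MvPolynomial.isHomogeneous_X_pow (R := R) (1 : Fin 3) (q.1.2 : ℕ))).mul
    (MvPolynomial.isHomogeneous_X_pow (R := R) (2 : Fin 3) (d - q.1.1 - q.1.2))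
  have h2 : 0 + (q.1.1 : ℕ) + (q.1.2 : ℕ) + (d - q.1.1 - q.1.2) = d := by
    have := q.2.1
    omega
  rw [h2] at h1
  exact h1

theorem wt_fT [Nontrivial R] (hd : 1 ≤ d) (a : Ic d → R) : Wt 1 d (fT d a) := by
  have hq : ∀ q : Ic d, (q.1.2 : ℕ) < d := by
    intro q
    have h1 := q.2.1
    have h2 := q.2.2.2
    omega
  have he : fT d a = X ^ d + (∑ q, C (C (C (a q)) * X ^ (q.1.1 : ℕ)) * X ^ (q.1.2 : ℕ) - cc X) := by
    unfold fT
    rw [ph_map]
    unfold ph
    rw [add_sub_assoc]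
  have hr : (∑ q : Ic d, C (C (C (a q)) * X ^ (q.1.1 : ℕ)) * X ^ (q.1.2 : ℕ) - cc X : R[X][X][X]).degree < (d : ℕ) := by
    refine (degree_sub_le _ _).trans_lt (max_lt ?_ ?_)
    · refine (degree_sum_le _ _).trans_lt ((Finset.sup_lt_iff ?_).2 fun q _ => ?_)
      · exact WithBot.bot_lt_coe d
      · refine (degree_C_mul_X_pow_le _ _).trans_lt ?_
        exact_mod_cast hq q
    · refine (degree_C_le).trans_lt ?_
      exact_mod_cast hd
  refine ⟨?_, ?_, ?_⟩
  · rw [he]
    exact monic_X_pow_add hr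
  · rw [he]
    refine natDegree_eq_of_degree_eq_some ?_
    rw [degree_add_eq_left_of_degree_lt]
    · exact degree_X_pow d
    · rw [degree_X_pow]
      exact hr
  · rw [he]
    refine (WD.ofX_pow d).add ((WD.sum _ _ fun q _ => ?_).sub ((WD.ofcc X).mono (Nat.zero_le _)))
    refine ((WD.ofC (m := (q.1.1 : ℕ)) ?_).mul (WD.ofX_pow (q.1.2 : ℕ))).mono ?_
    · exact natDegree_C_mul_X_pow_le _ _
    · have := q.2.1
      omega

theorem exists_psi {k : Type*} [Field k] (h2 : (2 : k) ≠ 0) (a : Ic d → k) :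
    ∃ ψ : Au d →+* k, ∀ q, ψ (MvPolynomial.X q) = a q := by
  have hu : IsUnit (Int.castRingHom k 2) := by
    refine IsUnit.mk0 _ ?_
    rw [map_ofNat]
    exact h2
  refine ⟨MvPolynomial.eval₂Hom (IsLocalization.Away.lift (2 : ℤ) hu) a, fun q => ?_⟩
  exact MvPolynomial.eval₂Hom_X' _ _ _

theorem exists_int (c : Au d) (hc : c ≠ 0) : ∃ z : MvPolynomial (Ic d) ℤ, z ≠ 0 ∧
    ∀ (k : Type) [CommRing k] (ψ : Au d →+* k), MvPolynomial.aeval (fun q => ψ (MvPolynomial.X q)) z ≠ 0 → ψ c ≠ 0 := by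
  have key : ∀ c : Au d, ∃ (N : ℕ) (z : MvPolynomial (Ic d) ℤ),
      c * MvPolynomial.C (algebraMap ℤ Z2 2) ^ N = MvPolynomial.map (algebraMap ℤ Z2) z := by
    intro c
    induction c using MvPolynomial.induction_on with
    | C a =>
      obtain ⟨N, z, hz⟩ := IsLocalization.Away.surj (2 : ℤ) a
      refine ⟨N, MvPolynomial.C z, ?_⟩
      rw [MvPolynomial.map_C, ← hz, map_mul, map_pow]
    | add p q hp hq =>
      obtain ⟨N, z, hz⟩ := hp
      obtain ⟨N', z', hz'⟩ := hq
      refine ⟨N + N', z * MvPolynomial.C 2 ^ N' + z' * MvPolynomial.C 2 ^ N, ?_⟩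
      rw [map_add, map_mul, map_mul, map_pow, map_pow, MvPolynomial.map_C, ← hz, ← hz']
      ring
    | mul_X p i hp =>
      obtain ⟨N, z, hz⟩ := hp
      refine ⟨N, z * MvPolynomial.X i, ?_⟩
      rw [map_mul, MvPolynomial.map_X, ← hz]
      ring
  obtain ⟨N, z, hz⟩ := key c
  refine ⟨z, ?_, fun k _ ψ h h0 => h ?_⟩
  · rintro rfl
    rw [map_zero] at hz
    have hu : IsUnit ((MvPolynomial.C (algebraMap ℤ Z2 2) : Au d) ^ N) :=
      ((IsLocalization.Away.algebraMap_isUnit (2 : ℤ)).map MvPolynomial.C).pow N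
    exact hc ((IsUnit.mul_left_eq_zero hu).1 hz)
  · have h1 : ∀ z : MvPolynomial (Ic d) ℤ, ψ (MvPolynomial.map (algebraMap ℤ Z2) z) =
        MvPolynomial.aeval (fun q => ψ (MvPolynomial.X q)) z := by
      intro z
      have h2 : ψ.comp (MvPolynomial.map (algebraMap ℤ Z2)) =
          (MvPolynomial.aeval (R := ℤ) (fun q => ψ (MvPolynomial.X q)) : MvPolynomial (Ic d) ℤ →ₐ[ℤ] k).toRingHom := by
        refine MvPolynomial.ringHom_ext (fun r => ?_) (fun q => ?_)
        · exact RingHom.congr_fun (RingHom.ext_int ((ψ.comp (MvPolynomial.map (algebraMap ℤ Z2))).comp MvPolynomial.C)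
            (((MvPolynomial.aeval (R := ℤ) (fun q => ψ (MvPolynomial.X q)) :
              MvPolynomial (Ic d) ℤ →ₐ[ℤ] k).toRingHom).comp MvPolynomial.C)) r
        · show ψ (MvPolynomial.map (algebraMap ℤ Z2) (MvPolynomial.X q)) =
            MvPolynomial.aeval (fun q => ψ (MvPolynomial.X q)) (MvPolynomial.X q)
          rw [MvPolynomial.map_X, MvPolynomial.aeval_X]
      exact RingHom.congr_fun h2 z
    rw [← h1, ← hz, map_mul, h0, zero_mul]

end MPadcPC
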