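import Pool.Agent.Lib.MP_adc574_ag_PC.UD

/-!
# U3: Nullstellensatz with denominators; derivations

PROOF of `null_den`. Over `L = FractionRing A` let `I' = I.map (map (algebraMap A L))`. The Nullstellensatz over the field `L` with zeros in `AlgebraicClosure L` (see the private
theorem `geoA_nul` of MP_adc574_ag_LZ/GeoA.lean, copy it): if `P.map ..` vanishes at all zeros of `I'` then `(P.map ..) ^ M ∈ I'` for some `M`. Clear denominators: every element of `I'` is
`∑ g_i * (f_i.map ..)`, `f_i ∈ I`, so some `c ≠ 0` has `C c * Q ∈ image of I` (induction as in `clear_den` of MP_adc574_ag_LZ/GeoC.lean); injectivity of `map`.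
PROOF of `exists_der_pt`. Extend `D₀` to the field of fractions `K` of `B` (`D (a / b) = (D₀ a * b - a * D₀ b) / b ^ 2`; compare `exists_ddT` in MP_adc574_ag_LF/Bridge.lean and
its sources, which do this for `R[X]`; or Mathlib's localization of derivations), then `exists_der_fin` of MP_adc574_ag_LZ/GeoC.lean.
PROOF of `der_ev`: chain rule, induction on `P` (`MvPolynomial.induction_on`), compare `der_aeval` in MP_adc574_ag_LZ.
-/

set_option autoImplicit false

namespace MPadcPC

open MPadcLF MPadcLZ MPadcHM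

universe u

private theorem u3_nul {k K : Type*} [Field k] [Field K] [Algebra k K] [IsAlgClosed K]
    {σ : Type*} [Finite σ] (I : Ideal (MvPolynomial σ k)) (p : MvPolynomial σ k)
    (h : ∀ x : σ → K, (∀ P ∈ I, MvPolynomial.aeval x P = 0) → MvPolynomial.aeval x p = 0) :
    ∃ n : ℕ, p ^ n ∈ I := by
  have h1 : p ∈ I.radical := by
    rw [← MvPolynomial.vanishingIdeal_zeroLocus_eq_radical (K := K)]
    exact fun x hx => h x hx
  exact h1

/-- a common denominator of the coefficients of a polynomial -/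
private theorem u3_den {R K : Type*} [CommRing R] [IsDomain R] [Field K] [Algebra R K]
    [IsFractionRing R K] {σ : Type*} (a : MvPolynomial σ K) :
    ∃ Δ : R, Δ ≠ 0 ∧ ∃ b : MvPolynomial σ R,
      b.map (algebraMap R K) = MvPolynomial.C (algebraMap R K Δ) * a := by
  induction a using MvPolynomial.induction_on with
  | C c =>
    obtain ⟨n, d, hd, rfl⟩ := IsFractionRing.div_surjective (A := R) c
    have hd0 : d ≠ 0 := nonZeroDivisors.ne_zero hd
    have hd1 : algebraMap R K d ≠ 0 := fun h =>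
      hd0 ((IsFractionRing.injective R K) (h.trans (map_zero _).symm))
    refine ⟨d, hd0, MvPolynomial.C n, ?_⟩
    rw [MvPolynomial.map_C, ← MvPolynomial.C_mul, mul_div_cancel₀ _ hd1]
  | add p q hp hq =>
    obtain ⟨d1, h1, b1, e1⟩ := hp
    obtain ⟨d2, h2, b2, e2⟩ := hq
    refine ⟨d1 * d2, mul_ne_zero h1 h2, MvPolynomial.C d2 * b1 + MvPolynomial.C d1 * b2, ?_⟩
    rw [map_add, map_mul, map_mul, MvPolynomial.map_C, MvPolynomial.map_C, e1, e2, map_mul,
      MvPolynomial.C_mul]
    ring
  | mul_X p i hp =>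
    obtain ⟨d, h1, b, e⟩ := hp
    refine ⟨d, h1, b * MvPolynomial.X i, ?_⟩
    rw [map_mul, MvPolynomial.map_X, e, mul_assoc]

private theorem u3_clear {R K : Type*} [CommRing R] [IsDomain R] [Field K] [Algebra R K]
    [IsFractionRing R K] {σ : Type*} (I : Ideal (MvPolynomial σ R)) (Q : MvPolynomial σ K)
    (hQ : Q ∈ I.map (MvPolynomial.map (algebraMap R K))) :
    ∃ Δ : R, Δ ≠ 0 ∧ ∃ S ∈ I, S.map (algebraMap R K) = MvPolynomial.C (algebraMap R K Δ) * Q := by
  refine Submodule.span_induction (p := fun Q _ => ∃ Δ : R, Δ ≠ 0 ∧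
    ∃ S ∈ I, S.map (algebraMap R K) = MvPolynomial.C (algebraMap R K Δ) * Q) ?_ ?_ ?_ ?_ hQ
  · rintro _ ⟨S, hS, rfl⟩
    refine ⟨1, one_ne_zero, S, hS, ?_⟩
    rw [map_one, MvPolynomial.C_1, one_mul]
  · refine ⟨1, one_ne_zero, 0, Ideal.zero_mem _, ?_⟩
    rw [map_zero, mul_zero]
  · rintro Q1 Q2 _ _ ⟨d1, h1, S1, m1, e1⟩ ⟨d2, h2, S2, m2, e2⟩
    refine ⟨d1 * d2, mul_ne_zero h1 h2, MvPolynomial.C d2 * S1 + MvPolynomial.C d1 * S2,
      Ideal.add_mem _ (Ideal.mul_mem_left _ _ m1) (Ideal.mul_mem_left _ _ m2), ?_⟩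
    rw [map_add, map_mul, map_mul, MvPolynomial.map_C, MvPolynomial.map_C, e1, e2, map_mul,
      MvPolynomial.C_mul]
    ring
  · rintro a Q1 _ ⟨d1, h1, S1, m1, e1⟩
    obtain ⟨d2, h2, b, e2⟩ := u3_den (R := R) a
    refine ⟨d1 * d2, mul_ne_zero h1 h2, b * S1, Ideal.mul_mem_left _ _ m1, ?_⟩
    rw [map_mul, e1, e2, map_mul, MvPolynomial.C_mul, smul_eq_mul]
    ring

private theorem u3_der {K : Type*} [Field K] (alg : Algebra ℤ K) (f : K → K)
    (h1 : ∀ x y, f (x + y) = f x + f y) (h2 : ∀ x y, f (x * y) = x * f y + y * f x) :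
    ∃ D : @Derivation ℤ K K _ _ _ alg _ (AddCommGroup.toIntModule K), ∀ x, D x = f x := by
  obtain rfl : alg = Ring.toIntAlgebra K := Subsingleton.elim _ _
  exact ⟨Derivation.mk' (AddMonoidHom.mk' f h1).toIntLinearMap h2, fun _ => rfl⟩

theorem null_den {A : Type u} [CommRing A] [IsDomain A] {N : ℕ} (I : Ideal (MvPolynomial (Fin N) A)) (P : MvPolynomial (Fin N) A)
    (h : ∀ x : Fin N → AlgebraicClosure (FractionRing A),
      (∀ Q ∈ I, MvPolynomial.eval₂ (algebraMap A (AlgebraicClosure (FractionRing A))) x Q = 0) →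
        MvPolynomial.eval₂ (algebraMap A (AlgebraicClosure (FractionRing A))) x P = 0) :
    ∃ (c : A) (M : ℕ), c ≠ 0 ∧ MvPolynomial.C c * P ^ M ∈ I := by
  have hev : ∀ (x : Fin N → AlgebraicClosure (FractionRing A)) (Q : MvPolynomial (Fin N) A),
      MvPolynomial.aeval x (Q.map (algebraMap A (FractionRing A))) =
        MvPolynomial.eval₂ (algebraMap A (AlgebraicClosure (FractionRing A))) x Q := by
    intro x Q
    rw [MvPolynomial.aeval_def, MvPolynomial.eval₂_map]
    rfl
  obtain ⟨M, hM⟩ := u3_nul (K := AlgebraicClosure (FractionRing A))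
    (I.map (MvPolynomial.map (algebraMap A (FractionRing A))))
    (P.map (algebraMap A (FractionRing A))) (fun x hx => by
      rw [hev]
      refine h x fun Q hQ => ?_
      rw [← hev]
      exact hx _ (Ideal.mem_map_of_mem _ hQ))
  obtain ⟨Δ, hΔ, S, hS, hSe⟩ := u3_clear I _ hM
  refine ⟨Δ, M, hΔ, ?_⟩
  have h2 : S = MvPolynomial.C Δ * P ^ M := by
    apply MvPolynomial.map_injective (algebraMap A (FractionRing A))
      (IsFractionRing.injective A (FractionRing A))
    rw [hSe, map_mul, MvPolynomial.map_C, map_pow]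
  rw [← h2]
  exact hS

/-- The extension of a derivation to a field which contains the coordinates of a point. -/
theorem exists_der_pt {B : Type u} [CommRing B] [IsDomain B] [CharZero B] (D₀ : Derivation ℤ B B) {N : ℕ}
    (x : Fin N → AlgebraicClosure (FractionRing B)) :
    ∃ (L : IntermediateField (FractionRing B) (AlgebraicClosure (FractionRing B)))
      (D : Derivation ℤ L L) (y : Fin N → L), (∀ i, (y i : AlgebraicClosure (FractionRing B)) = x i) ∧
        ∀ c : B, D (algebraMap (FractionRing B) L (algebraMap B (FractionRing B) c)) =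
          algebraMap (FractionRing B) L (algebraMap B (FractionRing B) (D₀ c)) := by
  have : CharZero (FractionRing B) :=
    charZero_of_injective_algebraMap (IsFractionRing.injective B (FractionRing B))
  obtain ⟨D₁, hD₁⟩ := u3_der (K := FractionRing B) (Ring.toIntAlgebra _) (fun z => exD D₀ z)
    (fun z w => map_add (exD D₀) z w) (fun z w => (exD D₀).leibniz z w)
  obtain ⟨L, D', y, h1, h2⟩ := exists_der_fin D₁ x
  obtain ⟨D₂, hD₂⟩ := u3_der (K := L) inferInstance (fun z => D' z)
    (fun z w => map_add D' z w) (fun z w => D'.leibniz z w)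
  refine ⟨L, D₂, y, h1, fun c => ?_⟩
  exact (hD₂ _).trans ((h2 _).trans (congrArg _ ((hD₁ _).trans (exD_alg D₀ c))))

theorem der_ev {L : Type*} [Field L] (D : Derivation ℤ L L) {N : ℕ} (P : MvPolynomial (Fin N) L) (y : Fin N → L) :
    D (MvPolynomial.eval y P) = MvPolynomial.eval y (cder D P) + ∑ i, MvPolynomial.eval y (MvPolynomial.pderiv i P) * D (y i) := by
  have hc : ∀ Q : MvPolynomial (Fin N) L, MvPolynomial.eval y Q = MvPolynomial.aeval y Q := by
    intro Q
    rw [← MvPolynomial.coe_aeval_eq_eval]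
    rfl
  have h := der_aeval (K := L) (L := L) D D (fun c => rfl) y P
  simp only [hc]
  exact h

end MPadcPC
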