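import Pool.Agent.Lib.MP_adc574_ag_PC.U1
import Pool.Agent.Lib.MP_adc574_ag_PC.U3

/-!
# U4: the generic member of the universal family is smooth

PROOF. Let `A = Au d`, `B = A[X]` (`T = X`), `φ ∈ MvPolynomial (Fin 2) B` the universal polynomial (for example `φ = aeval ![X 0, X 1, 1] ((hz d fun q => X q).map C)`),
`I = span {φ - C T, ∂_0 φ, ∂_1 φ}`, `P = 1`. `null_den` needs: `I` has no zero `(x₀, y₀)` over `AlgebraicClosure (FractionRing B)`. Suppose there is one. `exists_der_pt` for the derivation `D₀ = d / dT` of `B` (`Polynomial.derivative'` over `ℤ`) gives `L`, `D`, `y`;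
by `der_ev` (`cder D` of `φ` over `L` is 0, since the coefficients of `φ` are constants or `1`): `D (φ(y)) = φ_0(y) D y_0 + φ_1(y) D y_1 = 0`, but `φ(y) = T` in `L`, and `D T = 1`. Contradiction.
So `C c₀ ∈ I` for some `c₀ ≠ 0` in `B`. Apply the homomorphism `MvPolynomial (Fin 2) B → B[X][X]`, `X 0 ↦ C X`, `X 1 ↦ X` (it maps `φ - C T` to `fT d X` and `∂_0`, `∂_1` to `px`, `py` of it; `px (mp C (ph ..)) = ..`:
check that it intertwines `pderiv 0` with `px` and `pderiv 1` with `py` on all polynomials, by induction).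
-/

set_option autoImplicit false

namespace MPadcPC

open Polynomial MPadcLF MPadcLZ

section U4

variable {S : Type*} [CommRing S]

private noncomputable def U4_phi (d : ℕ) (a : Ic d → S) : MvPolynomial (Fin 2) S :=
  MvPolynomial.X 1 ^ d + ∑ q, MvPolynomial.C (a q) * MvPolynomial.X 0 ^ (q.1.1 : ℕ) * MvPolynomial.X 1 ^ (q.1.2 : ℕ)

private theorem U4_map {S' : Type*} [CommRing S'] (ψ : S →+* S') (d : ℕ) (a : Ic d → S) :
    MvPolynomial.map ψ (U4_phi d a) = U4_phi d fun q => ψ (a q) := by
  unfold U4_phi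
  simp only [map_add, map_sum, map_mul, map_pow, MvPolynomial.map_X, MvPolynomial.map_C]

variable (S) in
private noncomputable def U4_h : MvPolynomial (Fin 2) S →ₐ[S] S[X][X] :=
  MvPolynomial.aeval ![C X, X]

private theorem U4_h_C (s : S) : U4_h S (MvPolynomial.C s) = cc s := by
  unfold U4_h
  rw [MvPolynomial.aeval_C]
  rfl

private theorem U4_h_0 : U4_h S (MvPolynomial.X 0) = C X := by
  unfold U4_h
  rw [MvPolynomial.aeval_X]
  rfl

private theorem U4_h_1 : U4_h S (MvPolynomial.X 1) = X := by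
  unfold U4_h
  rw [MvPolynomial.aeval_X]
  rfl

private theorem U4_h_phi (d : ℕ) (a : Ic d → S) : U4_h S (U4_phi d a) = ph d a := by
  unfold U4_phi ph
  rw [map_add, map_sum, map_pow, U4_h_1]
  congr 1
  refine Finset.sum_congr rfl fun q _ => ?_
  rw [map_mul, map_mul, map_pow, map_pow, U4_h_C, U4_h_0, U4_h_1, C_mul, C_pow]

private theorem U4_px (P : MvPolynomial (Fin 2) S) : U4_h S (MvPolynomial.pderiv 0 P) = px (U4_h S P) := by
  induction P using MvPolynomial.induction_on with
  | C s => rw [MvPolynomial.pderiv_C, map_zero, U4_h_C, px_C, derivative_C, C_0]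
  | add p q hp hq => rw [map_add, map_add, map_add, isDer_px.add, hp, hq]
  | mul_X p j hp =>
    rw [MvPolynomial.pderiv_mul, map_add, map_mul, map_mul, map_mul, isDer_px.mul, hp]
    have h : U4_h S (MvPolynomial.pderiv 0 (MvPolynomial.X j)) = px (U4_h S (MvPolynomial.X j)) := by
      fin_cases j
      · show U4_h S (MvPolynomial.pderiv 0 (MvPolynomial.X 0)) = px (U4_h S (MvPolynomial.X 0))
        rw [MvPolynomial.pderiv_X_self, map_one, U4_h_0, px_C, derivative_X, C_1]
      · show U4_h S (MvPolynomial.pderiv 0 (MvPolynomial.X 1)) = px (U4_h S (MvPolynomial.X 1))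
        rw [MvPolynomial.pderiv_X_of_ne (by decide), map_zero, U4_h_1, px_X]
    rw [h]
    ring

private theorem U4_py (P : MvPolynomial (Fin 2) S) : U4_h S (MvPolynomial.pderiv 1 P) = py (U4_h S P) := by
  induction P using MvPolynomial.induction_on with
  | C s => rw [MvPolynomial.pderiv_C, map_zero, U4_h_C, py_C]
  | add p q hp hq => rw [map_add, map_add, map_add, isDer_py.add, hp, hq]
  | mul_X p j hp =>
    rw [MvPolynomial.pderiv_mul, map_add, map_mul, map_mul, map_mul, isDer_py.mul, hp]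
    have h : U4_h S (MvPolynomial.pderiv 1 (MvPolynomial.X j)) = py (U4_h S (MvPolynomial.X j)) := by
      fin_cases j
      · show U4_h S (MvPolynomial.pderiv 1 (MvPolynomial.X 0)) = py (U4_h S (MvPolynomial.X 0))
        rw [MvPolynomial.pderiv_X_of_ne (by decide), map_zero, U4_h_0, py_C]
      · show U4_h S (MvPolynomial.pderiv 1 (MvPolynomial.X 1)) = py (U4_h S (MvPolynomial.X 1))
        rw [MvPolynomial.pderiv_X_self, map_one, U4_h_1, py_X]
    rw [h]
    ring

private theorem U4_cder (D : Derivation ℤ S S) (d : ℕ) (a : Ic d → S) (ha : ∀ q, D (a q) = 0) :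
    MPadcHM.cder D (U4_phi d a) = 0 := by
  unfold MPadcHM.cder
  refine Finset.sum_eq_zero fun e _ => ?_
  have h1 : D (MvPolynomial.coeff e (U4_phi d a)) = 0 := by
    unfold U4_phi
    rw [MvPolynomial.coeff_add, map_add, MvPolynomial.coeff_sum, map_sum]
    have h2 : D (MvPolynomial.coeff e (MvPolynomial.X 1 ^ d : MvPolynomial (Fin 2) S)) = 0 := by
      rw [MvPolynomial.coeff_X_pow]
      split_ifs
      · exact D.map_one_eq_zero
      · exact map_zero D
    rw [h2, zero_add]
    refine Finset.sum_eq_zero fun q _ => ?_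
    have h3 : (MvPolynomial.C (a q) * MvPolynomial.X 0 ^ (q.1.1 : ℕ) * MvPolynomial.X 1 ^ (q.1.2 : ℕ) : MvPolynomial (Fin 2) S) =
        MvPolynomial.monomial (Finsupp.single 0 (q.1.1 : ℕ) + Finsupp.single 1 (q.1.2 : ℕ)) (a q) := by
      rw [MvPolynomial.X_pow_eq_monomial, MvPolynomial.X_pow_eq_monomial, MvPolynomial.C_mul_monomial, MvPolynomial.monomial_mul,
        mul_one, mul_one]
    rw [h3, MvPolynomial.coeff_monomial]
    split_ifs
    · exact ha q
    · exact map_zero D
  rw [h1, map_zero]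

end U4

universe u

theorem U4_gen {R : Type u} [CommRing R] [IsDomain R] [CharZero R] (d : ℕ) (a : Ic d → R) :
    ∃ c : R[X], c ≠ 0 ∧ Sm (fT d a) c := by
  have hB0 : CharZero (R[X]) := charZero_of_injective_algebraMap (C_injective (R := R))
  obtain ⟨φ, hφ⟩ : ∃ φ : MvPolynomial (Fin 2) (R[X]), φ = U4_phi d fun q => C (a q) := ⟨_, rfl⟩
  obtain ⟨D₀, hD₀⟩ : ∃ D₀ : Derivation ℤ (R[X]) (R[X]), ∀ p, D₀ p = derivative p :=
    ⟨Derivation.restrictScalars ℤ (derivative' : Derivation R (R[X]) (R[X])), fun p => rfl⟩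
  have key := null_den (Ideal.span {φ - MvPolynomial.C X, MvPolynomial.pderiv 0 φ, MvPolynomial.pderiv 1 φ}) 1 (by
    intro x hx
    exfalso
    obtain ⟨L, D, y, hy, hD⟩ := exists_der_pt D₀ x
    obtain ⟨ι, hι⟩ : ∃ ι : R[X] →+* L, ι = (algebraMap (FractionRing (R[X])) L).comp (algebraMap (R[X]) (FractionRing (R[X]))) := ⟨_, rfl⟩
    have hιD : ∀ c, D (ι c) = ι (derivative c) := by
      intro c
      rw [hι, ← hD₀]
      exact hD c
    have hev : ∀ Q ∈ Ideal.span {φ - MvPolynomial.C X, MvPolynomial.pderiv 0 φ, MvPolynomial.pderiv 1 φ},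
        MvPolynomial.eval y (MvPolynomial.map ι Q) = 0 := by
      intro Q hQ
      have h1 := hx Q hQ
      have h2 : MvPolynomial.eval₂ (algebraMap (R[X]) (AlgebraicClosure (FractionRing (R[X])))) x Q =
          algebraMap L (AlgebraicClosure (FractionRing (R[X]))) (MvPolynomial.eval y (MvPolynomial.map ι Q)) := by
        rw [MvPolynomial.eval_map, MvPolynomial.hom_eval₂]
        have h3 : (algebraMap L (AlgebraicClosure (FractionRing (R[X])))).comp ι =
            algebraMap (R[X]) (AlgebraicClosure (FractionRing (R[X]))) := by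
          rw [hι, ← RingHom.comp_assoc, ← IsScalarTower.algebraMap_eq (FractionRing (R[X])) L, ← IsScalarTower.algebraMap_eq]
        have h4 : (fun i => (algebraMap L (AlgebraicClosure (FractionRing (R[X])))) (y i)) = x := by
          funext i
          exact hy i
        rw [h3, h4]
      rw [h2] at h1
      exact (map_eq_zero_iff _ (FaithfulSMul.algebraMap_injective L (AlgebraicClosure (FractionRing (R[X]))))).1 h1
    have e0 := hev _ (Ideal.subset_span (Set.mem_insert _ _))
    have e1 := hev _ (Ideal.subset_span (Set.mem_insert_of_mem _ (Set.mem_insert _ _)))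
    have e2 := hev _ (Ideal.subset_span (Set.mem_insert_of_mem _ (Set.mem_insert_of_mem _ (Set.mem_singleton _))))
    rw [map_sub, MvPolynomial.map_C, map_sub, MvPolynomial.eval_C, sub_eq_zero] at e0
    rw [← MvPolynomial.pderiv_map] at e1 e2
    have h5 := der_ev D (MvPolynomial.map ι φ) y
    rw [e0, hιD, derivative_X, map_one, Fin.sum_univ_two, e1, e2, zero_mul, zero_mul, add_zero, add_zero, hφ, U4_map,
      U4_cder D d _ (fun q => by rw [hιD, derivative_C, map_zero]), map_zero] at h5
    exact one_ne_zero h5)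
  obtain ⟨c, M, hc, hI⟩ := key
  rw [one_pow, mul_one, Ideal.mem_span_insert] at hI
  obtain ⟨a₁, z, hz, e1⟩ := hI
  rw [Ideal.mem_span_pair] at hz
  obtain ⟨b, e, e2⟩ := hz
  have hF : U4_h (R[X]) (φ - MvPolynomial.C X) = fT d a := by
    unfold fT
    rw [map_sub, U4_h_C, ph_map, hφ, U4_h_phi]
  have h0 : ∀ i : Fin 2, MvPolynomial.pderiv i (φ - MvPolynomial.C (X : R[X])) = MvPolynomial.pderiv i φ := by
    intro i
    rw [map_sub, MvPolynomial.pderiv_C, sub_zero]
  refine ⟨c, hc, U4_h _ a₁, U4_h _ b, U4_h _ e, ?_⟩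
  rw [← hF, ← U4_px, ← U4_py, h0, h0, ← map_mul, ← map_mul, ← map_mul, ← map_add, ← map_add, add_assoc, e2, ← e1, U4_h_C]

theorem exists_c0 {d : ℕ} (hd : 1 ≤ d) :
    ∃ c : (Au d)[X], c ≠ 0 ∧ Sm (fT d fun q => (MvPolynomial.X q : Au d)) c := by
  have hZ : IsDomain Z2 := IsLocalization.isDomain_localization
    (powers_le_nonZeroDivisors_of_noZeroDivisors (two_ne_zero (α := ℤ)))
  have hinj : Function.Injective (algebraMap ℤ Z2) :=
    IsLocalization.injective Z2 (powers_le_nonZeroDivisors_of_noZeroDivisors (two_ne_zero (α := ℤ)))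
  have hZ0 : CharZero Z2 := charZero_of_injective_algebraMap hinj
  have hA0 : CharZero (Au d) := charZero_of_injective_algebraMap (MvPolynomial.C_injective (Ic d) Z2)
  exact U4_gen d fun q => (MvPolynomial.X q : Au d)

end MPadcPC
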