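import Pool.Agent.Lib.MP_adc574_ag_PC.U1
import Pool.Agent.Lib.MP_adc574_ag_PC.U3

/-!
# U5: the universal polynomial is a Morse polynomial with different critical values

Let `A = Au d` and `a q = X q`. For a polynomial `Q : MvPolynomial (Fin 3) A` let `Q° = aeval ![X 0, X 1, 1] Q : MvPolynomial (Fin 2) A` (then `eval₂ ψ ![x, y] Q° = vh (Q.map ψ) x y`, and
`hz_map`, `pderiv_map` translate).
PROOF of `exists_c2`. `I = span {(∂_0 hz)°, (∂_1 hz)°, H}` with `H = (∂_0 ∂_0 hz)° (∂_1 ∂_1 hz)° - ((∂_0 ∂_1 hz)°) ^ 2`, `P = 1`. If `C c ∈ I` (`null_den`, `P = 1`) then for `ψ`, `x`, `y` as in the statement with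
`hess = 0` all generators vanish under `eval₂ ψ ![x, y]`, so `ψ c = 0`. It remains to see that `I` has no zero `(x₀, y₀)` over the algebraic closure. Let `D` be the extension of the derivation
`∂ / ∂ a_q`, `q = (1, 0)` (`exists_der_pt`, `D₀ = (MvPolynomial.pderiv q).restrictScalars ℤ`), `y` the point over `L`, and `f_i`, `f_ij` the values of the partial derivatives of `φ` at `y`. `D f_0 = 0`, `D f_1 = 0` and `der_ev` give
`1 + f_00 D y_0 + f_01 D y_1 = 0` and `f_01 D y_0 + f_11 D y_1 = 0` (the derivative of the coefficients of `∂_0 hz` with respect to `a_q` is the polynomial `X 2 ^ (d - 1)`, of those of `∂_1 hz` it is 0). With `q = (0, 1)` and `D'`: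
`f_00 D' y_0 + f_01 D' y_1 = 0` and `1 + f_01 D' y_0 + f_11 D' y_1 = 0`. If `f_00 f_11 = f_01 ^ 2`: `f_11 * (first) - f_01 * (second)`: `f_11 = 0`; then `f_01 ^ 2 = 0`, and the last equation is `1 = 0`.
PROOF of `exists_c3`. In `MvPolynomial (Fin 4) A` (variables `x, y, x', y'`), `Q¹ = aeval ![X 0, X 1, 1] Q`, `Q² = aeval ![X 2, X 3, 1] Q`, `I = span {(∂_0 hz)¹, (∂_1 hz)¹, (∂_0 hz)², (∂_1 hz)², hz¹ - hz²}`, and `P = X 0 - X 2`, resp.
`P = X 1 - X 3`; two applications of `null_den`, `c` the product. For a zero of `I` over the algebraic closure let `D` belong to `q = (1, 0)`: `D (hz(y)) = y_0 + f_0 D y_0 + f_1 D y_1 = y_0` (the derivative of the coefficients of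
`hz` with respect to `a_q` is `X 0 * X 2 ^ (d - 1)`), the same for the second point, so `y_0 = y_2`; with `q = (0, 1)`: `y_1 = y_3`.
(`(1, 0)` and `(0, 1)` are in `Ic d` as `2 ≤ d`.)
-/

set_option autoImplicit false

namespace MPadcPC

open Polynomial MPadcLF MPadcLZ

private theorem U5_dom : IsDomain Z2 :=
  IsLocalization.isDomain_localization (powers_le_nonZeroDivisors_of_noZeroDivisors (by norm_num))

private theorem U5_char : CharZero Z2 :=
  charZero_of_injective_algebraMap (R := ℤ) (IsLocalization.injective Z2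
    (M := Submonoid.powers (2 : ℤ)) (powers_le_nonZeroDivisors_of_noZeroDivisors (by norm_num)))

private theorem U5_domA (d : ℕ) : IsDomain (Au d) := by
  have := U5_dom
  infer_instance

private theorem U5_charA (d : ℕ) : CharZero (Au d) := by
  have := U5_char
  infer_instance

private theorem U5_comm {R : Type*} [CommRing R] {N : ℕ} (i j : Fin N) (P : MvPolynomial (Fin N) R) :
    MvPolynomial.pderiv i (MvPolynomial.pderiv j P) = MvPolynomial.pderiv j (MvPolynomial.pderiv i P) := by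
  classical
  have h : ⁅(MvPolynomial.pderiv i : Derivation R (MvPolynomial (Fin N) R) (MvPolynomial (Fin N) R)),
      (MvPolynomial.pderiv j : Derivation R (MvPolynomial (Fin N) R) (MvPolynomial (Fin N) R))⁆ = 0 := by
    refine MvPolynomial.derivation_ext fun l => ?_
    rw [Derivation.commutator_apply, MvPolynomial.pderiv_X, MvPolynomial.pderiv_X, Derivation.zero_apply]
    have h1 : ∀ (a b : Fin N) (c : Fin N), MvPolynomial.pderiv c ((Pi.single a (1 : MvPolynomial (Fin N) R) :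
        Fin N → MvPolynomial (Fin N) R) b) = 0 := by
      intro a b c
      rw [Pi.single_apply]
      split_ifs
      · exact Derivation.map_one_eq_zero _
      · exact map_zero _
    rw [h1, h1, sub_zero]
  have h2 := DFunLike.congr_fun h P
  rw [Derivation.commutator_apply, Derivation.zero_apply] at h2
  exact sub_eq_zero.1 h2

private theorem U5_vh_map {R R' : Type*} [CommRing R] [CommRing R'] (φ : R →+* R')
    (P : MvPolynomial (Fin 3) R) (u v : R) :
    φ (vh P u v) = vh (MvPolynomial.map φ P) (φ u) (φ v) := by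
  unfold vh
  rw [MvPolynomial.eval_map, ← MvPolynomial.eval₂_id, MvPolynomial.eval₂_comp_left, RingHom.comp_id]
  have h : φ ∘ ![u, v, 1] = ![φ u, φ v, 1] := by
    funext l
    fin_cases l
    · rfl
    · rfl
    · exact map_one φ
  rw [h]

private theorem U5_res {A k : Type*} [CommRing A] [CommRing k] (ψ : A →+* k) {N : ℕ} (i j : Fin N)
    (v : Fin N → k) (Q : MvPolynomial (Fin 3) A) :
    MvPolynomial.eval₂ ψ v (MvPolynomial.aeval
      ![(MvPolynomial.X i : MvPolynomial (Fin N) A), MvPolynomial.X j, 1] Q) =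
      vh (MvPolynomial.map ψ Q) (v i) (v j) := by
  have h : (MvPolynomial.eval₂Hom ψ v).comp ((MvPolynomial.aeval
      ![(MvPolynomial.X i : MvPolynomial (Fin N) A), MvPolynomial.X j, 1]) :
        MvPolynomial (Fin 3) A →ₐ[A] MvPolynomial (Fin N) A).toRingHom =
      (MvPolynomial.eval ![v i, v j, 1]).comp (MvPolynomial.map ψ) := by
    apply MvPolynomial.ringHom_ext
    · intro r
      simp
    · intro l
      fin_cases l <;> simp
  exact RingHom.congr_fun h Q

private noncomputable def U5_mon (R : Type*) [CommRing R] {d : ℕ} (q : Ic d) : MvPolynomial (Fin 3) R :=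
  MvPolynomial.X 0 ^ (q.1.1 : ℕ) * MvPolynomial.X 1 ^ (q.1.2 : ℕ) * MvPolynomial.X 2 ^ (d - q.1.1 - q.1.2)

private theorem U5_dX {L : Type*} [Field L] (D : Derivation ℤ L L) (i : Fin 3) :
    cderD D (MvPolynomial.X i : MvPolynomial (Fin 3) L) = 0 := by
  have h := cderD_monomial (N := 3) D (Finsupp.single i 1) 1
  rw [Derivation.map_one_eq_zero, MvPolynomial.monomial_zero] at h
  exact h

private theorem U5_dC {L : Type*} [Field L] (D : Derivation ℤ L L) (c : L) :
    cderD D (MvPolynomial.C c : MvPolynomial (Fin 3) L) = MvPolynomial.C (D c) :=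
  cderD_monomial (N := 3) D 0 c

private theorem U5_dpow {L : Type*} [Field L] (D : Derivation ℤ L L) (P : MvPolynomial (Fin 3) L) (n : ℕ)
    (h : cderD D P = 0) : cderD D (P ^ n) = 0 := by
  rw [Derivation.leibniz_pow, h, smul_zero, smul_zero]

private theorem U5_cder {L : Type*} [Field L] (D : Derivation ℤ L L) {d : ℕ} (b : Ic d → L) (q₀ : Ic d)
    (hb : ∀ q, D (b q) = if q = q₀ then 1 else 0) : cderD D (hz d b) = U5_mon L q₀ := by
  have h1 : ∀ q : Ic d, cderD D (MvPolynomial.C (b q) * MvPolynomial.X 0 ^ (q.1.1 : ℕ) *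
      MvPolynomial.X 1 ^ (q.1.2 : ℕ) * MvPolynomial.X 2 ^ (d - q.1.1 - q.1.2) : MvPolynomial (Fin 3) L) =
      if q = q₀ then U5_mon L q₀ else 0 := by
    intro q
    rw [Derivation.leibniz, Derivation.leibniz, Derivation.leibniz, U5_dC, hb,
      U5_dpow D _ _ (U5_dX D 0), U5_dpow D _ _ (U5_dX D 1), U5_dpow D _ _ (U5_dX D 2)]
    split_ifs with h
    · rw [h, U5_mon]
      simp only [smul_zero, zero_add, smul_eq_mul, map_one]
      ring
    · simp
  rw [hz, map_add, U5_dpow D _ _ (U5_dX D 1), map_sum, Finset.sum_congr rfl fun q _ => h1 q,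
    Finset.sum_ite_eq' Finset.univ q₀, if_pos (Finset.mem_univ _), zero_add]

private theorem U5_D {L : Type*} [Field L] (D : Derivation ℤ L L) (P : MvPolynomial (Fin 3) L) (u v : L) :
    D (vh P u v) = vh (cderD D P) u v + vh (MvPolynomial.pderiv 0 P) u v * D u +
      vh (MvPolynomial.pderiv 1 P) u v * D v := by
  have h := der_ev D P ![u, v, 1]
  rw [Fin.sum_univ_three] at h
  have h1 : D ((![u, v, 1] : Fin 3 → L) 2) = 0 := by
    have h2 : ((![u, v, 1] : Fin 3 → L) 2) = 1 := rfl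
    rw [h2, Derivation.map_one_eq_zero]
  rw [h1, mul_zero, add_zero] at h
  rw [cderD_apply]
  unfold vh
  rw [h, add_assoc]
  rfl

private theorem U5_int {B : Type*} [CommRing B] (f : B → B) (hadd : ∀ a b, f (a + b) = f a + f b)
    (hmul : ∀ a b, f (a * b) = a * f b + b * f a) : ∃ D : Derivation ℤ B B, ∀ a, D a = f a :=
  ⟨Derivation.mk' (AddMonoidHom.mk' f hadd).toIntLinearMap hmul, fun _ => rfl⟩

private theorem U5_pt {d : ℕ} {N : ℕ} [IsDomain (Au d)] [CharZero (Au d)]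
    (x : Fin N → AlgebraicClosure (FractionRing (Au d))) (q₀ : Ic d) :
    ∃ (L : IntermediateField (FractionRing (Au d)) (AlgebraicClosure (FractionRing (Au d))))
      (D : Derivation ℤ L L) (y : Fin N → L) (b : Ic d → L),
      (∀ i, (y i : AlgebraicClosure (FractionRing (Au d))) = x i) ∧
      (∀ q, (b q : AlgebraicClosure (FractionRing (Au d))) =
        algebraMap (Au d) (AlgebraicClosure (FractionRing (Au d))) (MvPolynomial.X q)) ∧
      ∀ q, D (b q) = if q = q₀ then 1 else 0 := by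
  classical
  obtain ⟨D₀, hD₀⟩ := U5_int (B := Au d) (fun P => MvPolynomial.pderiv q₀ P) (fun a b => map_add _ a b)
    (fun a b => Derivation.leibniz _ a b)
  obtain ⟨L, D, y, hy, hD⟩ := exists_der_pt D₀ x
  refine ⟨L, D, y, fun q => algebraMap (FractionRing (Au d)) L (algebraMap (Au d) (FractionRing (Au d))
    (MvPolynomial.X q)), hy, fun q => ?_, fun q => ?_⟩
  · rw [IsScalarTower.algebraMap_apply (Au d) (FractionRing (Au d)) (AlgebraicClosure (FractionRing (Au d)))]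
    rfl
  · rw [hD, hD₀, MvPolynomial.pderiv_X, Pi.single_apply]
    split_ifs
    · rw [map_one, map_one]
    · rw [map_zero, map_zero]

private theorem U5_monmap {R R' : Type*} [CommRing R] [CommRing R'] (φ : R →+* R') {d : ℕ} (q : Ic d) :
    MvPolynomial.map φ (U5_mon R q) = U5_mon R' q := by
  unfold U5_mon
  rw [map_mul, map_mul, map_pow, map_pow, map_pow, MvPolynomial.map_X, MvPolynomial.map_X, MvPolynomial.map_X]

private theorem U5_two {d N : ℕ} [IsDomain (Au d)] [CharZero (Au d)] (q₀ : Ic d)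
    (x : Fin N → AlgebraicClosure (FractionRing (Au d))) (i j : Fin N)
    (a : Ic d → AlgebraicClosure (FractionRing (Au d)))
    (ha : ∀ q, a q = algebraMap (Au d) (AlgebraicClosure (FractionRing (Au d))) (MvPolynomial.X q))
    (h0 : vh (MvPolynomial.pderiv 0 (hz d a)) (x i) (x j) = 0)
    (h1 : vh (MvPolynomial.pderiv 1 (hz d a)) (x i) (x j) = 0) :
    ∃ α β : AlgebraicClosure (FractionRing (Au d)),
      vh (MvPolynomial.pderiv 0 (U5_mon _ q₀)) (x i) (x j) +
        vh (MvPolynomial.pderiv 0 (MvPolynomial.pderiv 0 (hz d a))) (x i) (x j) * α +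
        vh (MvPolynomial.pderiv 1 (MvPolynomial.pderiv 0 (hz d a))) (x i) (x j) * β = 0 ∧
      vh (MvPolynomial.pderiv 1 (U5_mon _ q₀)) (x i) (x j) +
        vh (MvPolynomial.pderiv 0 (MvPolynomial.pderiv 1 (hz d a))) (x i) (x j) * α +
        vh (MvPolynomial.pderiv 1 (MvPolynomial.pderiv 1 (hz d a))) (x i) (x j) * β = 0 := by
  obtain ⟨L, D, y, b, hy, hb, hD⟩ := U5_pt x q₀
  obtain ⟨φ, hφ⟩ : ∃ φ : L →+* AlgebraicClosure (FractionRing (Au d)), ∀ z : L, φ z = z :=
    ⟨algebraMap L _, fun _ => rfl⟩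
  have hz' : MvPolynomial.map φ (hz d b) = hz d a := by
    rw [hz_map]
    congr 1
    funext q
    rw [hφ, hb, ha]
  have hinj : Function.Injective φ := φ.injective
  have hxy : ∀ i, φ (y i) = x i := fun i => by rw [hφ, hy]
  have e0 : vh (MvPolynomial.pderiv 0 (hz d b)) (y i) (y j) = 0 := by
    apply hinj
    rw [U5_vh_map, ← MvPolynomial.pderiv_map, hz', hxy, hxy, h0, map_zero]
  have e1 : vh (MvPolynomial.pderiv 1 (hz d b)) (y i) (y j) = 0 := by
    apply hinj
    rw [U5_vh_map, ← MvPolynomial.pderiv_map, hz', hxy, hxy, h1, map_zero]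
  refine ⟨φ (D (y i)), φ (D (y j)), ?_, ?_⟩
  · have h2 := U5_D D (MvPolynomial.pderiv 0 (hz d b)) (y i) (y j)
    rw [e0, map_zero, cderD_pderiv, U5_cder D b q₀ hD] at h2
    have h3 := congrArg φ h2
    rw [map_zero, map_add, map_add, map_mul, map_mul, U5_vh_map, U5_vh_map, U5_vh_map,
      ← MvPolynomial.pderiv_map, ← MvPolynomial.pderiv_map, ← MvPolynomial.pderiv_map,
      ← MvPolynomial.pderiv_map, ← MvPolynomial.pderiv_map, hz', U5_monmap, hxy, hxy] at h3
    exact h3.symm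
  · have h2 := U5_D D (MvPolynomial.pderiv 1 (hz d b)) (y i) (y j)
    rw [e1, map_zero, cderD_pderiv, U5_cder D b q₀ hD] at h2
    have h3 := congrArg φ h2
    rw [map_zero, map_add, map_add, map_mul, map_mul, U5_vh_map, U5_vh_map, U5_vh_map,
      ← MvPolynomial.pderiv_map, ← MvPolynomial.pderiv_map, ← MvPolynomial.pderiv_map,
      ← MvPolynomial.pderiv_map, ← MvPolynomial.pderiv_map, hz', U5_monmap, hxy, hxy] at h3
    exact h3.symm

private theorem U5_three {d N : ℕ} [IsDomain (Au d)] [CharZero (Au d)] (q₀ : Ic d)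
    (x : Fin N → AlgebraicClosure (FractionRing (Au d))) (i j i' j' : Fin N)
    (a : Ic d → AlgebraicClosure (FractionRing (Au d)))
    (ha : ∀ q, a q = algebraMap (Au d) (AlgebraicClosure (FractionRing (Au d))) (MvPolynomial.X q))
    (h : IsCrit a (x i) (x j)) (h' : IsCrit a (x i') (x j'))
    (he : vh (hz d a) (x i) (x j) = vh (hz d a) (x i') (x j')) :
    vh (U5_mon _ q₀) (x i) (x j) = vh (U5_mon _ q₀) (x i') (x j') := by
  obtain ⟨L, D, y, b, hy, hb, hD⟩ := U5_pt x q₀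
  obtain ⟨φ, hφ⟩ : ∃ φ : L →+* AlgebraicClosure (FractionRing (Au d)), ∀ z : L, φ z = z :=
    ⟨algebraMap L _, fun _ => rfl⟩
  have hz' : MvPolynomial.map φ (hz d b) = hz d a := by
    rw [hz_map]
    congr 1
    funext q
    rw [hφ, hb, ha]
  have hinj : Function.Injective φ := φ.injective
  have hxy : ∀ i, φ (y i) = x i := fun i => by rw [hφ, hy]
  have e0 : ∀ i j, IsCrit a (x i) (x j) → vh (MvPolynomial.pderiv 0 (hz d b)) (y i) (y j) = 0 := by
    intro i j h
    apply hinj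
    rw [U5_vh_map, ← MvPolynomial.pderiv_map, hz', hxy, hxy, h.1, map_zero]
  have e1 : ∀ i j, IsCrit a (x i) (x j) → vh (MvPolynomial.pderiv 1 (hz d b)) (y i) (y j) = 0 := by
    intro i j h
    apply hinj
    rw [U5_vh_map, ← MvPolynomial.pderiv_map, hz', hxy, hxy, h.2, map_zero]
  have e2 : ∀ i j, IsCrit a (x i) (x j) → D (vh (hz d b) (y i) (y j)) = vh (U5_mon L q₀) (y i) (y j) := by
    intro i j h
    rw [U5_D, e0 i j h, e1 i j h, U5_cder D b q₀ hD, zero_mul, zero_mul, add_zero, add_zero]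
  have e3 : vh (hz d b) (y i) (y j) = vh (hz d b) (y i') (y j') := by
    apply hinj
    rw [U5_vh_map, U5_vh_map, hz', hxy, hxy, hxy, hxy, he]
  have e4 := e2 i j h
  rw [e3, e2 i' j' h'] at e4
  have e5 := congrArg φ e4
  rw [U5_vh_map, U5_vh_map, U5_monmap, hxy, hxy, hxy, hxy] at e5
  exact e5.symm

private theorem U5_span {R k : Type*} [CommRing R] [CommRing k] {N : ℕ} (φ : MvPolynomial (Fin N) R →+* k)
    (S : Set (MvPolynomial (Fin N) R)) (h : ∀ Q ∈ S, φ Q = 0) (Q : MvPolynomial (Fin N) R)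
    (hQ : Q ∈ Ideal.span S) : φ Q = 0 := by
  have h1 : Ideal.span S ≤ RingHom.ker φ := Ideal.span_le.2 h
  exact h1 hQ

/-- The exponent `(1, 0)`. -/
private def U5_q1 {d : ℕ} (hd : 2 ≤ d) : Ic d :=
  ⟨(⟨1, by omega⟩, ⟨0, by omega⟩), by
    refine ⟨?_, ?_, ?_⟩
    · show 1 + 0 ≤ d
      omega
    · show ¬ (1 = 0 ∧ 0 = 0)
      omega
    · show ¬ (1 = 0 ∧ 0 = d)
      omega⟩

/-- The exponent `(0, 1)`. -/
private def U5_q2 {d : ℕ} (hd : 2 ≤ d) : Ic d :=
  ⟨(⟨0, by omega⟩, ⟨1, by omega⟩), by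
    refine ⟨?_, ?_, ?_⟩
    · show 0 + 1 ≤ d
      omega
    · show ¬ (0 = 0 ∧ 1 = 0)
      omega
    · show ¬ (0 = 0 ∧ 1 = d)
      omega⟩

private theorem U5_mon1 (R : Type*) [CommRing R] {d : ℕ} (hd : 2 ≤ d) :
    U5_mon R (U5_q1 hd) = MvPolynomial.X 0 * MvPolynomial.X 2 ^ (d - 1) := by
  have h : U5_mon R (U5_q1 hd) = MvPolynomial.X 0 ^ 1 * MvPolynomial.X 1 ^ 0 * MvPolynomial.X 2 ^ (d - 1 - 0) := rfl
  rw [h, pow_one, pow_zero, mul_one, Nat.sub_zero]

private theorem U5_mon2 (R : Type*) [CommRing R] {d : ℕ} (hd : 2 ≤ d) :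
    U5_mon R (U5_q2 hd) = MvPolynomial.X 1 * MvPolynomial.X 2 ^ (d - 1) := by
  have h : U5_mon R (U5_q2 hd) = MvPolynomial.X 0 ^ 0 * MvPolynomial.X 1 ^ 1 * MvPolynomial.X 2 ^ (d - 0 - 1) := rfl
  rw [h, pow_one, pow_zero, one_mul, Nat.sub_zero]

private theorem U5_vh1 {R : Type*} [CommRing R] {d : ℕ} (hd : 2 ≤ d) (u v : R) :
    vh (U5_mon R (U5_q1 hd)) u v = u ∧ vh (MvPolynomial.pderiv 0 (U5_mon R (U5_q1 hd))) u v = 1 ∧
      vh (MvPolynomial.pderiv 1 (U5_mon R (U5_q1 hd))) u v = 0 := by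
  classical
  rw [U5_mon1]
  unfold vh
  refine ⟨?_, ?_, ?_⟩
  · simp
  · simp [MvPolynomial.pderiv_X, Pi.single_apply, Derivation.leibniz, Derivation.leibniz_pow]
  · simp [MvPolynomial.pderiv_X, Pi.single_apply, Derivation.leibniz, Derivation.leibniz_pow]

private theorem U5_vh2 {R : Type*} [CommRing R] {d : ℕ} (hd : 2 ≤ d) (u v : R) :
    vh (U5_mon R (U5_q2 hd)) u v = v ∧ vh (MvPolynomial.pderiv 0 (U5_mon R (U5_q2 hd))) u v = 0 ∧
      vh (MvPolynomial.pderiv 1 (U5_mon R (U5_q2 hd))) u v = 1 := by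
  classical
  rw [U5_mon2]
  unfold vh
  refine ⟨?_, ?_, ?_⟩
  · simp
  · simp [MvPolynomial.pderiv_X, Pi.single_apply, Derivation.leibniz, Derivation.leibniz_pow]
  · simp [MvPolynomial.pderiv_X, Pi.single_apply, Derivation.leibniz, Derivation.leibniz_pow]

/-- The polynomial `Q` at `(X i, X j, 1)`. -/
private noncomputable def U5_r {A : Type} [CommRing A] {N : ℕ} (i j : Fin N) (Q : MvPolynomial (Fin 3) A) :
    MvPolynomial (Fin N) A :=
  MvPolynomial.aeval ![(MvPolynomial.X i : MvPolynomial (Fin N) A), MvPolynomial.X j, 1] Q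

private theorem U5_rh {A k : Type} [CommRing A] [CommRing k] (ψ : A →+* k) {N : ℕ} (i j : Fin N)
    (v : Fin N → k) (Q : MvPolynomial (Fin 3) A) :
    MvPolynomial.eval₂Hom ψ v (U5_r i j Q) = vh (MvPolynomial.map ψ Q) (v i) (v j) :=
  U5_res ψ i j v Q

private theorem U5_core2 {B : Type} [CommRing B] [IsDomain B] (G : MvPolynomial (Fin 3) B)
    (hno : ∀ G' : MvPolynomial (Fin 3) (AlgebraicClosure (FractionRing B)),
      G' = MvPolynomial.map (algebraMap B (AlgebraicClosure (FractionRing B))) G → ∀ u v,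
      vh (MvPolynomial.pderiv 0 G') u v = 0 → vh (MvPolynomial.pderiv 1 G') u v = 0 →
      vh (MvPolynomial.pderiv 0 (MvPolynomial.pderiv 0 G')) u v * vh (MvPolynomial.pderiv 1 (MvPolynomial.pderiv 1 G')) u v -
        vh (MvPolynomial.pderiv 0 (MvPolynomial.pderiv 1 G')) u v ^ 2 = 0 → False) :
    ∃ c : B, c ≠ 0 ∧ ∀ (k : Type) [Field k] (ψ : B →+* k), ψ c ≠ 0 → ∀ x y : k,
      vh (MvPolynomial.pderiv 0 (MvPolynomial.map ψ G)) x y = 0 → vh (MvPolynomial.pderiv 1 (MvPolynomial.map ψ G)) x y = 0 →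
      vh (MvPolynomial.pderiv 0 (MvPolynomial.pderiv 0 (MvPolynomial.map ψ G))) x y *
        vh (MvPolynomial.pderiv 1 (MvPolynomial.pderiv 1 (MvPolynomial.map ψ G))) x y -
        vh (MvPolynomial.pderiv 0 (MvPolynomial.pderiv 1 (MvPolynomial.map ψ G))) x y ^ 2 ≠ 0 := by
  obtain ⟨S, hS⟩ : ∃ S : Set (MvPolynomial (Fin 2) B), S = {U5_r (0 : Fin 2) 1 (MvPolynomial.pderiv 0 G),
      U5_r (0 : Fin 2) 1 (MvPolynomial.pderiv 1 G), U5_r (0 : Fin 2) 1 (MvPolynomial.pderiv 0 (MvPolynomial.pderiv 0 G)) *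
      U5_r (0 : Fin 2) 1 (MvPolynomial.pderiv 1 (MvPolynomial.pderiv 1 G)) -
      U5_r (0 : Fin 2) 1 (MvPolynomial.pderiv 0 (MvPolynomial.pderiv 1 G)) ^ 2} := ⟨_, rfl⟩
  obtain ⟨c, M, hc, hM⟩ := null_den (Ideal.span S) 1 (fun x hx => by
    exfalso
    obtain ⟨G', hG'⟩ : ∃ G' : MvPolynomial (Fin 3) (AlgebraicClosure (FractionRing B)),
      G' = MvPolynomial.map (algebraMap B (AlgebraicClosure (FractionRing B))) G := ⟨_, rfl⟩
    have hx' : ∀ Q ∈ S, MvPolynomial.eval₂Hom (algebraMap B (AlgebraicClosure (FractionRing B))) x Q = 0 :=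
      fun Q hQ => hx Q (Ideal.subset_span hQ)
    have e0 := hx' (U5_r (0 : Fin 2) 1 (MvPolynomial.pderiv 0 G)) (by rw [hS]; simp)
    have e1 := hx' (U5_r (0 : Fin 2) 1 (MvPolynomial.pderiv 1 G)) (by rw [hS]; simp)
    have e2 := hx' (U5_r (0 : Fin 2) 1 (MvPolynomial.pderiv 0 (MvPolynomial.pderiv 0 G)) *
      U5_r (0 : Fin 2) 1 (MvPolynomial.pderiv 1 (MvPolynomial.pderiv 1 G)) -
      U5_r (0 : Fin 2) 1 (MvPolynomial.pderiv 0 (MvPolynomial.pderiv 1 G)) ^ 2) (by rw [hS]; simp)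
    rw [U5_rh, ← MvPolynomial.pderiv_map, ← hG'] at e0 e1
    rw [map_sub, map_mul, map_pow, U5_rh, U5_rh, U5_rh, ← MvPolynomial.pderiv_map, ← MvPolynomial.pderiv_map,
      ← MvPolynomial.pderiv_map, ← MvPolynomial.pderiv_map, ← MvPolynomial.pderiv_map, ← MvPolynomial.pderiv_map,
      ← hG'] at e2
    exact hno G' hG' _ _ e0 e1 e2)
  refine ⟨c, hc, fun k _ ψ hψ x y h0 h1 hh => hψ ?_⟩
  have h1 := U5_span (MvPolynomial.eval₂Hom ψ ![x, y]) S (by
    intro Q hQ
    rw [hS] at hQ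
    rcases hQ with rfl | rfl | rfl
    · rw [U5_rh, ← MvPolynomial.pderiv_map]
      exact h0
    · rw [U5_rh, ← MvPolynomial.pderiv_map]
      exact h1
    · rw [map_sub, map_mul, map_pow, U5_rh, U5_rh, U5_rh, ← MvPolynomial.pderiv_map, ← MvPolynomial.pderiv_map,
        ← MvPolynomial.pderiv_map, ← MvPolynomial.pderiv_map, ← MvPolynomial.pderiv_map, ← MvPolynomial.pderiv_map]
      exact hh) _ hM
  rw [map_mul, map_pow, map_one, one_pow, mul_one, MvPolynomial.eval₂Hom_C] at h1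
  exact h1

private theorem U5_core3 {B : Type} [CommRing B] [IsDomain B] (G : MvPolynomial (Fin 3) B)
    (hno : ∀ G' : MvPolynomial (Fin 3) (AlgebraicClosure (FractionRing B)),
      G' = MvPolynomial.map (algebraMap B (AlgebraicClosure (FractionRing B))) G → ∀ u v u' v',
      vh (MvPolynomial.pderiv 0 G') u v = 0 → vh (MvPolynomial.pderiv 1 G') u v = 0 →
      vh (MvPolynomial.pderiv 0 G') u' v' = 0 → vh (MvPolynomial.pderiv 1 G') u' v' = 0 →
      vh G' u v = vh G' u' v' → u = u' ∧ v = v') :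
    ∃ c : B, c ≠ 0 ∧ ∀ (k : Type) [Field k] (ψ : B →+* k), ψ c ≠ 0 → ∀ x y x' y' : k,
      vh (MvPolynomial.pderiv 0 (MvPolynomial.map ψ G)) x y = 0 → vh (MvPolynomial.pderiv 1 (MvPolynomial.map ψ G)) x y = 0 →
      vh (MvPolynomial.pderiv 0 (MvPolynomial.map ψ G)) x' y' = 0 → vh (MvPolynomial.pderiv 1 (MvPolynomial.map ψ G)) x' y' = 0 →
      vh (MvPolynomial.map ψ G) x y = vh (MvPolynomial.map ψ G) x' y' → x = x' ∧ y = y' := by
  obtain ⟨S, hS⟩ : ∃ S : Set (MvPolynomial (Fin 4) B), S = {U5_r (0 : Fin 4) 1 (MvPolynomial.pderiv 0 G),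
      U5_r (0 : Fin 4) 1 (MvPolynomial.pderiv 1 G), U5_r (2 : Fin 4) 3 (MvPolynomial.pderiv 0 G),
      U5_r (2 : Fin 4) 3 (MvPolynomial.pderiv 1 G), U5_r (0 : Fin 4) 1 G - U5_r (2 : Fin 4) 3 G} := ⟨_, rfl⟩
  have key : ∀ x : Fin 4 → AlgebraicClosure (FractionRing B), (∀ Q ∈ Ideal.span S,
      MvPolynomial.eval₂ (algebraMap B (AlgebraicClosure (FractionRing B))) x Q = 0) →
      x 0 = x 2 ∧ x 1 = x 3 := by
    intro x hx
    obtain ⟨G', hG'⟩ : ∃ G' : MvPolynomial (Fin 3) (AlgebraicClosure (FractionRing B)),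
      G' = MvPolynomial.map (algebraMap B (AlgebraicClosure (FractionRing B))) G := ⟨_, rfl⟩
    have hx' : ∀ Q ∈ S, MvPolynomial.eval₂Hom (algebraMap B (AlgebraicClosure (FractionRing B))) x Q = 0 :=
      fun Q hQ => hx Q (Ideal.subset_span hQ)
    have e0 := hx' (U5_r (0 : Fin 4) 1 (MvPolynomial.pderiv 0 G)) (by rw [hS]; simp)
    have e1 := hx' (U5_r (0 : Fin 4) 1 (MvPolynomial.pderiv 1 G)) (by rw [hS]; simp)
    have e2 := hx' (U5_r (2 : Fin 4) 3 (MvPolynomial.pderiv 0 G)) (by rw [hS]; simp)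
    have e3 := hx' (U5_r (2 : Fin 4) 3 (MvPolynomial.pderiv 1 G)) (by rw [hS]; simp)
    have e4 := hx' (U5_r (0 : Fin 4) 1 G - U5_r (2 : Fin 4) 3 G) (by rw [hS]; simp)
    rw [U5_rh, ← MvPolynomial.pderiv_map, ← hG'] at e0 e1 e2 e3
    rw [map_sub, U5_rh, U5_rh, ← hG', sub_eq_zero] at e4
    exact hno G' hG' _ _ _ _ e0 e1 e2 e3 e4
  obtain ⟨c, M, hc, hM⟩ := null_den (Ideal.span S) (MvPolynomial.X 0 - MvPolynomial.X 2) (fun x hx => by
    rw [← MvPolynomial.coe_eval₂Hom, map_sub, MvPolynomial.eval₂Hom_X', MvPolynomial.eval₂Hom_X', (key x hx).1, sub_self])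
  obtain ⟨c', M', hc', hM'⟩ := null_den (Ideal.span S) (MvPolynomial.X 1 - MvPolynomial.X 3) (fun x hx => by
    rw [← MvPolynomial.coe_eval₂Hom, map_sub, MvPolynomial.eval₂Hom_X', MvPolynomial.eval₂Hom_X', (key x hx).2, sub_self])
  refine ⟨c * c', mul_ne_zero hc hc', fun k _ ψ hψ x y x' y' g0 g1 g0' g1' he => ?_⟩
  rw [map_mul] at hψ
  have h1 := U5_span (MvPolynomial.eval₂Hom ψ ![x, y, x', y']) S (by
    intro Q hQ
    rw [hS] at hQ
    rcases hQ with rfl | rfl | rfl | rfl | rfl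
    · rw [U5_rh, ← MvPolynomial.pderiv_map]
      exact g0
    · rw [U5_rh, ← MvPolynomial.pderiv_map]
      exact g1
    · rw [U5_rh, ← MvPolynomial.pderiv_map]
      exact g0'
    · rw [U5_rh, ← MvPolynomial.pderiv_map]
      exact g1'
    · rw [map_sub, U5_rh, U5_rh, sub_eq_zero]
      exact he)
  have h2 := h1 _ hM
  have h3 := h1 _ hM'
  rw [map_mul, map_pow, map_sub, MvPolynomial.eval₂Hom_C, MvPolynomial.eval₂Hom_X', MvPolynomial.eval₂Hom_X'] at h2 h3
  constructor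
  · by_contra hne
    exact pow_ne_zero M (sub_ne_zero.2 hne) ((mul_eq_zero.1 h2).resolve_left (left_ne_zero_of_mul hψ))
  · by_contra hne
    exact pow_ne_zero M' (sub_ne_zero.2 hne) ((mul_eq_zero.1 h3).resolve_left (right_ne_zero_of_mul hψ))

theorem exists_c2 {d : ℕ} (hd : 2 ≤ d) : ∃ c : Au d, c ≠ 0 ∧ ∀ (k : Type) [Field k] (ψ : Au d →+* k), ψ c ≠ 0 →
    ∀ x y : k, IsCrit (fun q => ψ (MvPolynomial.X q)) x y → hess (fun q => ψ (MvPolynomial.X q)) x y ≠ 0 := by
  have hdom := U5_domA d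
  have hchar := U5_charA d
  obtain ⟨c, hc, h⟩ := U5_core2 (B := Au d) (hz d (MvPolynomial.X : Ic d → Au d)) (by
    intro G' hG' u v e0 e1 e2
    obtain ⟨a, ha⟩ : ∃ a : Ic d → AlgebraicClosure (FractionRing (Au d)), ∀ q, a q =
      algebraMap (Au d) (AlgebraicClosure (FractionRing (Au d))) (MvPolynomial.X q) := ⟨_, fun _ => rfl⟩
    have hGa : G' = hz d a := by
      rw [hG', hz_map (R := Au d)]
      congr 1
      funext q
      exact (ha q).symm
    rw [hGa] at e0 e1 e2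
    obtain ⟨α, β, h1, h2⟩ := U5_two (U5_q1 hd) ![u, v] 0 1 a ha e0 e1
    obtain ⟨α', β', h3, h4⟩ := U5_two (U5_q2 hd) ![u, v] 0 1 a ha e0 e1
    have hu : (![u, v] : Fin 2 → AlgebraicClosure (FractionRing (Au d))) 0 = u := rfl
    have hv : (![u, v] : Fin 2 → AlgebraicClosure (FractionRing (Au d))) 1 = v := rfl
    rw [hu, hv] at h1 h2 h3 h4
    rw [(U5_vh1 hd _ _).2.1] at h1
    rw [(U5_vh1 hd _ _).2.2] at h2
    rw [(U5_vh2 hd _ _).2.1] at h3
    rw [(U5_vh2 hd _ _).2.2] at h4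
    rw [U5_comm 1 0] at h1 h3
    generalize vh (MvPolynomial.pderiv 0 (MvPolynomial.pderiv 0 (hz d a))) u v = f00 at *
    generalize vh (MvPolynomial.pderiv 0 (MvPolynomial.pderiv 1 (hz d a))) u v = f01 at *
    generalize vh (MvPolynomial.pderiv 1 (MvPolynomial.pderiv 1 (hz d a))) u v = f11 at *
    have h5 : f11 = 0 := by linear_combination f11 * h1 - f01 * h2 - α * e2
    rw [h5] at e2 h4
    have h6 : f01 ^ 2 = 0 := by linear_combination (-1 : AlgebraicClosure (FractionRing (Au d))) * e2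
    have h7 : f01 = 0 := by
      by_contra h
      exact pow_ne_zero 2 h h6
    rw [h7] at h4
    exact one_ne_zero (α := AlgebraicClosure (FractionRing (Au d))) (by linear_combination h4))
  refine ⟨c, hc, fun k _ ψ hψ x y hcrit => ?_⟩
  have h1 := h k ψ hψ x y
  have h2 : MvPolynomial.map ψ (hz d (MvPolynomial.X : Ic d → Au d)) = hz d fun q => ψ (MvPolynomial.X q) :=
    hz_map (R := Au d) ψ _
  have h3 := h1 (by
    have h4 := hcrit.1
    rw [← h2] at h4
    exact h4) (by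
    have h4 := hcrit.2
    rw [← h2] at h4
    exact h4)
  unfold hess
  rw [← h2]
  exact h3

theorem exists_c3 {d : ℕ} (hd : 2 ≤ d) : ∃ c : Au d, c ≠ 0 ∧ ∀ (k : Type) [Field k] (ψ : Au d →+* k), ψ c ≠ 0 →
    ∀ x y x' y' : k, IsCrit (fun q => ψ (MvPolynomial.X q)) x y → IsCrit (fun q => ψ (MvPolynomial.X q)) x' y' →
      vh (hz d fun q => ψ (MvPolynomial.X q)) x y = vh (hz d fun q => ψ (MvPolynomial.X q)) x' y' → x = x' ∧ y = y' := by
  have hdom := U5_domA d
  have hchar := U5_charA d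
  obtain ⟨c, hc, h⟩ := U5_core3 (B := Au d) (hz d (MvPolynomial.X : Ic d → Au d)) (by
    intro G' hG' u v u' v' e0 e1 e2 e3 e4
    obtain ⟨a, ha⟩ : ∃ a : Ic d → AlgebraicClosure (FractionRing (Au d)), ∀ q, a q =
      algebraMap (Au d) (AlgebraicClosure (FractionRing (Au d))) (MvPolynomial.X q) := ⟨_, fun _ => rfl⟩
    have hGa : G' = hz d a := by
      rw [hG', hz_map (R := Au d)]
      congr 1
      funext q
      exact (ha q).symm
    rw [hGa] at e0 e1 e2 e3 e4
    have h1 := U5_three (U5_q1 hd) ![u, v, u', v'] 0 1 2 3 a ha ⟨e0, e1⟩ ⟨e2, e3⟩ e4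
    have h2 := U5_three (U5_q2 hd) ![u, v, u', v'] 0 1 2 3 a ha ⟨e0, e1⟩ ⟨e2, e3⟩ e4
    rw [(U5_vh1 hd _ _).1, (U5_vh1 hd _ _).1] at h1
    rw [(U5_vh2 hd _ _).1, (U5_vh2 hd _ _).1] at h2
    exact ⟨h1, h2⟩)
  refine ⟨c, hc, fun k _ ψ hψ x y x' y' g g' he => ?_⟩
  have h2 : MvPolynomial.map ψ (hz d (MvPolynomial.X : Ic d → Au d)) = hz d fun q => ψ (MvPolynomial.X q) :=
    hz_map (R := Au d) ψ _
  unfold IsCrit at g g'
  rw [← h2] at g g' he
  exact h k ψ hψ x y x' y' g.1 g.2 g'.1 g'.2 he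

end MPadcPC
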