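import Pool.Agent.Lib.MP_adc574_ag_PC.K7
import Pool.Agent.Lib.MP_adc574_ag_PC.U2
import Pool.Agent.Lib.MP_adc574_ag_PC.U4
import Pool.Agent.Lib.MP_adc574_ag_PC.U5
import Pool.Agent.Lib.MP_adc574_ag_LF.Bridge
import Pool.Agent.Lib.MP_adc574_ag_LF.Face

/-!
# U7: the universal family of plane curves and its big monodromy

PROOF. Let `A = Au d`, `F = fT d X : A[X][X][X]`. `c₁` from `exists_c1` (U2), `c₀` from `exists_c0` (U4), `c₂`, `c₃` from U5. `wt_fT`. For every injective `ψ : A[X] →+* κ` the polynomial `mp ψ F` is irreducible over `κ(x)`: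
`irreducible_of_sm` (LF/Irr.lean) with `sm_one (Sm.map ..)`, `tp_one (Tp.map ..)`. `exists_HB'` (LF/Face.lean, `R = A[X]`, `φ : A[X] →+* FractionRing A[X]`, `h2`: 2 is invertible in `Z2`) gives `η`; `exists_GM` (LF/Bridge.lean) gives `Δ₀`, `G₀`.
Let `m = c₀ * C c₁ ≠ 0`, `Δ = Δ₀ * m`, `G = m • G₀`; `IsGM` for `Δ`, `G`: multiply `α β γ g e` by `cc m`; `Sm F Δ`, `Tp 1 d F Δ`: multiples of the certificates. `dis = c₁ * c₂ * c₃ * Δ.leadingCoeff`. `Δ.map ψ ≠ 0` if `ψ (Δ.leadingCoeff) ≠ 0`.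
`Big`: for `ψ : A →+* F'`, `F'` algebraically closed of characteristic zero, `ψ dis ≠ 0`, let `a q = ψ (X q)`; `mp (mapRingHom ψ) F = fT d a` (`fT_map`); `Morse a`: `top` is `top_of_tp` (with `Tp.map`, the certificate `C (ψ c₁)`), `node`, `val` from U5. Apply `big_plane` (K7) with
`HB.map`, `IsGM.map` (`mapRingHom ψ` commutes with the derivative), `flat_map`, `Sm.map`, `Tp.map`.
-/

set_option autoImplicit false

namespace MPadcPC

open Polynomial MPadcLF MPadcLZ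

private theorem U7_px {R : Type*} [CommRing R] (r : R) (h : R[X][X]) : px (cc r * h) = cc r * px h := by
  rw [isDer_px.mul, px_C, derivative_C, C_0, mul_zero, add_zero]

private theorem U7_py {R : Type*} [CommRing R] (r : R) (h : R[X][X]) : py (cc r * h) = cc r * py h := by
  rw [isDer_py.mul, py_C, mul_zero, add_zero]

private theorem U7_cc {R : Type*} [CommRing R] (r s : R) : cc (r * s) = cc r * cc s := by
  unfold cc
  rw [C_mul, C_mul]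

private theorem U7_gm {R : Type*} [CommRing R] {ι : Type} [Fintype ι] {D : R → R} {Δ : R} {F : R[X][X]}
    {η : ι → R[X][X]} {G : Matrix ι ι R} (h : IsGM D Δ F η G) (m : R) : IsGM D (Δ * m) F η (m • G) := by
  intro a
  obtain ⟨α, β, γ, g, e, h1, h2⟩ := h a
  refine ⟨cc m * α, cc m * β, cc m * γ, cc m * g, cc m * e, ?_, ?_⟩
  · rw [U7_cc]
    calc cc Δ * cc m * η a * pT D F = cc m * (cc Δ * η a * pT D F) := by ring
      _ = cc m * (α * px F + β * py F + γ * F) := by rw [h1]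
      _ = _ := by ring
  · rw [U7_cc, U7_px, U7_py, br_cc_mul]
    have h3 : ∑ b, cc ((m • G) b a) * η b = cc m * ∑ b, cc (G b a) * η b := by
      rw [Finset.mul_sum]
      refine Finset.sum_congr rfl fun b _ => ?_
      rw [Matrix.smul_apply, smul_eq_mul, U7_cc, mul_assoc]
    rw [h3]
    calc cc Δ * cc m * pT D (η a) - cc m * px α - cc m * py β - cc m * γ =
          cc m * (cc Δ * pT D (η a) - px α - py β - γ) := by ring
      _ = cc m * (∑ b, cc (G b a) * η b + br F g + e * F) := by rw [h2]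
      _ = _ := by ring

private theorem U7_sm {R : Type*} [CommRing R] {F : R[X][X]} {c : R} (h : Sm F c) (m : R) : Sm F (m * c) := by
  obtain ⟨u, v, z, h⟩ := h
  refine ⟨cc m * u, cc m * v, cc m * z, ?_⟩
  rw [U7_cc, ← h]
  ring

private theorem U7_tp {R : Type*} [CommRing R] {w n : ℕ} {F : R[X][X]} {c : R} (h : Tp w n F c) (m : R) :
    Tp w n F (m * c) := by
  obtain ⟨u, v, h⟩ := h
  refine ⟨C m * u, C m * v, ?_⟩
  rw [C_mul, ← h]
  ring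

private theorem U7_flat {R : Type*} [CommRing R] {γ : Type} [Fintype γ] [DecidableEq γ]
    {G : Matrix (γ ⊕ γ) (γ ⊕ γ) R} (h : G.transpose * J0 R γ + J0 R γ * G = 0) (m : R) :
    (m • G).transpose * J0 R γ + J0 R γ * (m • G) = 0 := by
  rw [Matrix.transpose_smul, Matrix.smul_mul, Matrix.mul_smul, ← smul_add, h, smul_zero]

private theorem U7_pow : Submonoid.powers (2 : ℤ) ≤ nonZeroDivisors ℤ :=
  powers_le_nonZeroDivisors_of_noZeroDivisors two_ne_zero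

private theorem U7_dom : IsDomain Z2 := IsLocalization.isDomain_localization U7_pow

private theorem U7_char : CharZero Z2 :=
  charZero_of_injective_algebraMap (R := ℤ) (IsLocalization.injective Z2 U7_pow)

private theorem U7_half : ∃ z : Z2, 2 * z = 1 := by
  have h1 : IsUnit (algebraMap ℤ Z2 2) := IsLocalization.Away.algebraMap_isUnit (2 : ℤ)
  obtain ⟨z, hz⟩ := h1.exists_right_inv
  refine ⟨z, ?_⟩
  rw [← hz]
  simp

theorem U7_lead {A k : Type*} [CommRing A] [Field k] {Δ : A[X]} (ψ : A →+* k) (h : ψ Δ.leadingCoeff ≠ 0) :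
    Δ.map ψ ≠ 0 := by
  intro h0
  apply h
  have h1 := congrArg (fun q : k[X] => q.coeff Δ.natDegree) h0
  simpa using h1

theorem U7_core {A : Type} [CommRing A] [IsDomain A] [CharZero A] (h2 : ∃ x : A, 2 * x = 1) {d : ℕ} (hn : 0 < d)
    {F : A[X][X][X]} (hwt : Wt 1 d F) {c₀ : A[X]} {c₁ : A} (hc₀ : c₀ ≠ 0) (hc₁ : c₁ ≠ 0) (hS : Sm F c₀)
    (hT : Tp 1 d F (C c₁)) : ∃ 𝓕 : Fam A 1 d, 𝓕.Ok ∧ 𝓕.F = F ∧ 𝓕.Δ ≠ 0 := by
  have hCc₁ : (C c₁ : A[X]) ≠ 0 := C_ne_zero.2 hc₁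
  have hirr : ∀ (κ : Type) [Field κ] (ψ : A[X] →+* κ), Function.Injective ψ →
      Irreducible ((mp ψ F).map (algebraMap κ[X] (RatFunc κ))) := by
    intro κ _ ψ hψ
    exact irreducible_of_sm hn one_pos (hwt.map ψ) (sm_one (Sm.map ψ hS) ((map_ne_zero_iff ψ hψ).2 hc₀))
      (tp_one (Tp.map ψ hT) ((map_ne_zero_iff ψ hψ).2 hCc₁))
  have hinj : Function.Injective (algebraMap A[X] (FractionRing A[X])) := IsFractionRing.injective _ _
  obtain ⟨η, hη⟩ := exists_HB' (R := A[X]) (by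
    obtain ⟨z, hz⟩ := h2
    refine ⟨C z, ?_⟩
    have h4 := congrArg (fun t : A => (C t : A[X])) hz
    simp only [map_mul, map_one, map_ofNat] at h4
    exact h4) (algebraMap A[X] (FractionRing A[X])) hinj hn one_pos hwt
    (hirr _ _ hinj) (tp_one (Tp.map _ hT) ((map_ne_zero_iff _ hinj).2 hCc₁))
  obtain ⟨Δ₀, G₀, hΔ₀, hG₀, hfl⟩ := exists_GM hn one_pos hwt hη hc₀ hCc₁ hS hT hirr
  obtain ⟨m, hm⟩ : ∃ m, m = c₀ * C c₁ := ⟨_, rfl⟩
  obtain ⟨Δ, hΔ⟩ : ∃ Δ, Δ = Δ₀ * m := ⟨_, rfl⟩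
  have hΔ0 : Δ ≠ 0 := by
    rw [hΔ, hm]
    exact mul_ne_zero hΔ₀ (mul_ne_zero hc₀ hCc₁)
  have hgm : IsGM (fun q : A[X] => derivative q) Δ F η (m • G₀) := by
    rw [hΔ]
    exact U7_gm hG₀ m
  have hflat := U7_flat hfl m
  have hsm : Sm F Δ := by
    have h4 := U7_sm hS (Δ₀ * C c₁)
    have e4 : Δ = Δ₀ * C c₁ * c₀ := by
      rw [hΔ, hm]
      ring
    rw [e4]
    exact h4
  have htp : Tp 1 d F Δ := by
    have h4 := U7_tp hT (Δ₀ * c₀)
    have e4 : Δ = Δ₀ * c₀ * C c₁ := by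
      rw [hΔ, hm]
      ring
    rw [e4]
    exact h4
  exact ⟨⟨F, η, Δ, m • G₀⟩,
    { hn := hn, hw := one_pos, wt := hwt, hb := hη, gm := hgm, flat := hflat, sm := hsm, tp := htp }, rfl, hΔ0⟩

theorem U7_big {A : Type} [CommRing A] {d : ℕ} (hd : 3 ≤ d) {𝓕 : Fam A 1 d} (h : 𝓕.Ok) {κ : Type} [Field κ]
    [CharZero κ] [IsAlgClosed κ] (ψ : A →+* κ) (a : Ic d → κ) (hmF : mp (mapRingHom ψ) 𝓕.F = fT d a) (hM : Morse a)
    (hΔ : 𝓕.Δ.map ψ ≠ 0) : MPadcPC.Big (𝓕.Δ.map ψ) (Gm (𝓕.G.map (mapRingHom ψ))) := by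
  have hη' := HB.map (mapRingHom ψ) h.wt.monic h.hb
  have hgm' := IsGM.map (mapRingHom ψ) (isDer_derivative A) (isDer_derivative κ) (fun a => by
    rw [coe_mapRingHom, derivative_map]) h.gm
  have hflat' := flat_map (mapRingHom ψ) h.flat
  have hsm' := Sm.map (mapRingHom ψ) h.sm
  have htp' := Tp.map (mapRingHom ψ) h.tp
  rw [hmF] at hη' hgm' hsm' htp'
  exact big_plane hd _ hM hη' hΔ hgm' hflat' hsm' htp'

private theorem U7_top {A : Type} [CommRing A] {d : ℕ} (hd : 3 ≤ d) {F : A[X][X][X]} {c₁ : A} (hT : Tp 1 d F (C c₁))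
    {κ : Type} [Field κ] [CharZero κ] (ψ : A →+* κ) (a : Ic d → κ) (hmF : mp (mapRingHom ψ) F = fT d a)
    (e1 : ψ c₁ ≠ 0) (x y : κ) (hxy : ¬ (x = 0 ∧ y = 0)) :
    ¬ (MvPolynomial.eval ![x, y, 0] (MvPolynomial.pderiv 0 (hz d a)) = 0 ∧
      MvPolynomial.eval ![x, y, 0] (MvPolynomial.pderiv 1 (hz d a)) = 0) := by
  have hT' := Tp.map (mapRingHom ψ) hT
  rw [hmF, coe_mapRingHom, map_C] at hT'
  exact top_of_tp (by omega) a (ψ c₁) e1 hT' x y hxy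

private theorem U7_dis {A : Type} [CommRing A] {c₁ c₂ c₃ l : A} (k : Type) [Field k] (ψ : A →+* k)
    (h : ψ (c₁ * c₂ * c₃ * l) ≠ 0) : ψ c₁ ≠ 0 ∧ ψ c₂ ≠ 0 ∧ ψ c₃ ≠ 0 ∧ ψ l ≠ 0 := by
  rw [map_mul, map_mul, map_mul] at h
  exact ⟨left_ne_zero_of_mul (left_ne_zero_of_mul (left_ne_zero_of_mul h)),
    right_ne_zero_of_mul (left_ne_zero_of_mul (left_ne_zero_of_mul h)),
    right_ne_zero_of_mul (left_ne_zero_of_mul h), right_ne_zero_of_mul h⟩

private theorem U7_A (d : ℕ) : IsDomain (Au d) ∧ CharZero (Au d) ∧ ∃ x : Au d, 2 * x = 1 := by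
  have hZ1 := U7_dom
  have hZ2 := U7_char
  refine ⟨inferInstance, inferInstance, ?_⟩
  obtain ⟨z, hz⟩ := U7_half
  refine ⟨MvPolynomial.C z, ?_⟩
  have h4 := congrArg (fun t : Z2 => (MvPolynomial.C t : Au d)) hz
  simp only [map_mul, map_one, map_ofNat] at h4
  exact h4

theorem exists_univ {d : ℕ} (hd : 3 ≤ d) : ∃ (𝓕 : Fam (Au d) 1 d) (dis : Au d), 𝓕.Ok ∧
    𝓕.F = fT d (fun q => (MvPolynomial.X q : Au d)) ∧ dis ≠ 0 ∧
    (∀ (k : Type) [Field k] (ψ : Au d →+* k), ψ dis ≠ 0 → 𝓕.Δ.map ψ ≠ 0) ∧ 𝓕.Big dis := by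
  obtain ⟨hA1, hA2, hA3⟩ := U7_A d
  obtain ⟨c₁, hc₁, hT⟩ := exists_c1 (d := d) (by omega)
  obtain ⟨c₀, hc₀, hS⟩ := exists_c0 (d := d) (by omega)
  obtain ⟨c₂, hc₂, h2⟩ := exists_c2 (d := d) (by omega)
  obtain ⟨c₃, hc₃, h3⟩ := exists_c3 (d := d) (by omega)
  have hwt : Wt 1 d (fT d (fun q => (MvPolynomial.X q : Au d))) := wt_fT (by omega) _
  obtain ⟨𝓕, hOk, hF, hΔ0⟩ := U7_core hA3 (by omega) hwt hc₀ hc₁ hS hT
  refine ⟨𝓕, c₁ * c₂ * c₃ * 𝓕.Δ.leadingCoeff, hOk, hF, ?_, ?_, ?_⟩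
  · exact mul_ne_zero (mul_ne_zero (mul_ne_zero hc₁ hc₂) hc₃) (leadingCoeff_ne_zero.2 hΔ0)
  · intro k _ ψ h
    obtain ⟨-, -, -, h4⟩ := U7_dis (A := Au d) k ψ h
    exact U7_lead (A := Au d) ψ h4
  · intro κ _ _ _ ψ h
    obtain ⟨e1, e2, e3, e4⟩ := U7_dis (A := Au d) κ ψ h
    have hmF : mp (mapRingHom ψ) (fT d (fun q => (MvPolynomial.X q : Au d))) = fT d fun q => ψ (MvPolynomial.X q) :=
      fT_map ψ _
    refine U7_big hd hOk ψ (fun q => ψ (MvPolynomial.X q)) (by rw [hF]; exact hmF)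
      ⟨fun x y hxy => U7_top hd hT ψ _ hmF e1 x y hxy, fun x y => h2 κ ψ e2 x y,
        fun x y x' y' => h3 κ ψ e3 x y x' y'⟩ (U7_lead ψ e4)

end MPadcPC
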